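import Pool.Agent.Helper63K9.KT.Leaves

/-! The sharp bound: classification of the closed orbits of the rotations of a plane field. -/

open Real Set MeasureTheory
open scoped ENNReal

namespace Pool.Agent.Helper63K9.KT

noncomputable section

open Pool.Agent.H709R2 (fld rot rotc NP wedge field ClosedOrbit)
open Pool.Agent.W960.HR
open Pool.Agent.H709U
open Pool.Agent.H709Q (Maj)
open Pool.Agent.H709U.Z1aux (encard_mono' encard_biUnion)
open Pool.Agent.Helper63K9.KS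

lemma contDiff_Xh (n : ℕ) (c : T n → ℝ × ℝ) : ContDiff ℝ 2 (Xh n c) := by
  have hq : ContDiff ℝ 2 fun z : ℝ × ℝ => q z ^ n := by
    unfold q H709R2.sq
    fun_prop
  have h1 : ContDiff ℝ 2 fun z : ℝ × ℝ => √(q z ^ n) :=
    hq.sqrt fun z => (pow_pos (q_pos z) n).ne'
  have h2 : ContDiff ℝ 2 fun z : ℝ × ℝ => (√(q z ^ n))⁻¹ :=
    h1.inv fun z => (Real.sqrt_pos.2 (pow_pos (q_pos z) n)).ne'
  exact h2.smul (contDiff_F n c)

lemma MJ.zero (K : ℝ≥0∞) : MJ (fun _ => 0) K :=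
  ⟨fun _ => 0, measurable_const, fun _ _ => le_rfl, by simp⟩

/-- one family for all zones around a point -/
lemma zone_all {X : ℝ × ℝ → ℝ × ℝ} (hX : ContDiff ℝ 2 X) (p : ℝ × ℝ) (A : Finset ℝ)
    (hA : ∀ a ∈ A, 0 < a) : ∃ S : ℝ → Set (Set (ℝ × ℝ)),
      MJ (fun α => (((S α).encard : ℕ∞) : ℝ≥0∞)) (ENNReal.ofReal 4000) ∧
      ∀ α, ∀ a ∈ A, Zon X p a → ∀ C, ClosedOrbit (rf X α) C → p ∉ C →
        (∀ z ∈ C, H709R2.sq (z - p) ≤ a ^ 2) → C ∈ S α := by
  classical
  by_cases hne : (A.filter (Zon X p)).Nonempty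
  · obtain ⟨a₀, ha₀, hmax⟩ := Finset.exists_max_image _ id hne
    rw [Finset.mem_filter] at ha₀
    obtain ⟨ha₀A, r, Λ, hr, hΛ, har, hZC⟩ := ha₀
    refine ⟨fun α => {C | ClosedOrbit (rf X α) C ∧ p ∉ C ∧
      ∀ z ∈ C, 1 * (lg p z - Real.log r) ≤ -Real.log Λ},
      MJ.of_maj (zone hX (Or.inl rfl) hΛ hZC), ?_⟩
    intro α a haA hZ C hC hpC hsz
    refine ⟨hC, hpC, fun z hz => ?_⟩
    have haa : a ≤ a₀ := hmax a (Finset.mem_filter.2 ⟨haA, hZ⟩)
    have ha0 : 0 < a₀ := hA a₀ ha₀A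
    have hΛ0 : 0 < Λ := by linarith
    have hzp : z ≠ p := fun h => hpC (h ▸ hz)
    have h5 : lg p z ≤ Real.log (r / Λ) := by
      rw [lg_le_iff hzp (by positivity)]
      refine (hsz z hz).trans ?_
      refine pow_le_pow_left₀ (hA a haA).le ?_ 2
      rw [le_div_iff₀ hΛ0]
      exact (mul_le_mul_of_nonneg_right haa hΛ0.le).trans har
    rw [Real.log_div hr.ne' hΛ0.ne'] at h5
    linarith
  · refine ⟨fun _ => ∅, ?_, ?_⟩
    · simpa using MJ.zero _
    · intro α a haA hZ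
      exact absurd ⟨a, Finset.mem_filter.2 ⟨haA, hZ⟩⟩ hne

lemma compact_Dk (k : ℕ) : IsCompact (Dk k) := by
  have h1 : IsCompact {z : ℝ × ℝ | ‖z‖ ≤ 2 ^ (k + 1)} := by
    have : {z : ℝ × ℝ | ‖z‖ ≤ 2 ^ (k + 1)} = Metric.closedBall 0 (2 ^ (k + 1)) := by
      ext z; simp
    rw [this]
    exact isCompact_closedBall _ _
  exact h1.inter_right (isClosed_le continuous_const (continuous_const.mul continuous_q.sqrt))

/-- the classification -/
theorem classify2 (hF3 : S_F3) (hF2 : S_F2) {X X' : ℝ × ℝ → ℝ × ℝ} (hX : ContDiff ℝ 2 X)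
    (hX' : ContDiff ℝ 2 X')
    (hXX : ∀ α C, ClosedOrbit (rf X α) C → ClosedOrbit (rf X' α) C)
    {Z : Finset (ℝ × ℝ)} (hZ : ∀ z, X z = 0 ↔ z ∈ Z) {R Λ r Λz : ℝ}
    {K J : ℕ} (hR : 1 ≤ R) (hΛ : 1 ≤ Λ) (hinf : ZC X 0 (-1) (Real.log R) Λ)
    (hRK : R * Λ ≤ 2 ^ K) (hr : 0 < r) (hΛz : 1 ≤ Λz)
    (hzero : ∀ p ∈ Z, ZC X p 1 (Real.log r) Λz) (hrJ : 2 ^ K * Λz ≤ r * 2 ^ J)
    {jk : ℕ → ℕ} (hjk : ∀ k, 7 ≤ jk k) (Zb : ℕ → ℕ → Finset (ℝ × ℝ))
    (hZb : ∀ k ≤ K, ∀ j ≤ J, jk k < j → ∀ p ∈ Z, p ∈ Uk k → p ∉ Zb k j →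
      Zon X' p (2 * (2 ^ k / 2 ^ j))) :
    MJ (fun α => (({C | ClosedOrbit (rf X α) C}.encard : ℕ∞) : ℝ≥0∞))
      (((ENNReal.ofReal 4000 + ((Z.card : ℝ≥0∞) * ENNReal.ofReal 4000 +
        (Z.card : ℝ≥0∞) * ENNReal.ofReal 4000)) +
        ∑ k ∈ Finset.range (K + 1), (ENNReal.ofReal 8000 + ENNReal.ofReal (200 / 2 ^ k) *
          ∫⁻ z, ENNReal.ofReal (chi 0 (2 ^ k) z) * hk X z)) +
        ∑ k ∈ Finset.range (K + 1), ∑ j ∈ Finset.range (J + 1),
          (if j ≤ jk k then ENNReal.ofReal (1 / (2 * (2 ^ k / 2 ^ (j + 1)))) *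
            ∫⁻ z in Dk k, hk X z
          else ∑ p ∈ Zb k j, ENNReal.ofReal (1 / (2 * (2 ^ k / 2 ^ (j + 1)))) *
            ∫⁻ z in Metric.closedBall p (2 * (2 ^ k / 2 ^ j)), hk X z)) := by
  classical
  have hR0 : 0 < R := by linarith
  have hΛ0 : 0 < Λ := by linarith
  have hΛz0 : 0 < Λz := by linarith
  set A : Finset ℝ := (Finset.range (K + 1) ×ˢ Finset.range (J + 1)).image
    fun kj => 2 * (2 ^ kj.1 / 2 ^ kj.2) with hAdef
  have hA : ∀ a ∈ A, 0 < a := by
    intro a ha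
    rw [hAdef, Finset.mem_image] at ha
    obtain ⟨kj, _, rfl⟩ := ha
    positivity
  choose SZ hSZ1 hSZ2 using fun p => zone_all hX' p A hA
  set S1 : (ℝ × ℝ) → ℝ → Set (Set (ℝ × ℝ)) := fun p α => {C | ClosedOrbit (rf X α) C ∧
    p ∉ C ∧ ∀ z ∈ C, 1 * (lg p z - Real.log r) ≤ -Real.log Λz} with hS1
  set S3 : ℝ → Set (Set (ℝ × ℝ)) := fun α => {C | ClosedOrbit (rf X α) C ∧
    (0 : ℝ × ℝ) ∉ C ∧ ∀ z ∈ C, (-1) * (lg 0 z - Real.log R) ≤ -Real.log Λ} with hS3
  set SI : ℕ → ℝ → Set (Set (ℝ × ℝ)) := fun k α => {C | ClosedOrbit (rf X α) C ∧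
    ∃ x ∈ C, ∃ y ∈ C, H709R2.sq x ≤ (2 ^ k) ^ 2 ∧ (2 ^ k / 5) ^ 2 ≤ H709R2.sq (y - x)} with hSI
  set S2 : ℕ → ℕ → ℝ → Set (Set (ℝ × ℝ)) := fun k j α => {C | ClosedOrbit (rf X α) C ∧
    C ⊆ Dk k ∧ ∃ x ∈ C, ∃ y ∈ C, (2 ^ k / 2 ^ (j + 1)) ^ 2 ≤ H709R2.sq (x - y)} with hS2
  set S4 : ℕ → ℕ → (ℝ × ℝ) → ℝ → Set (Set (ℝ × ℝ)) := fun k j p α =>
    {C | ClosedOrbit (rf X α) C ∧ C ⊆ Metric.closedBall p (2 * (2 ^ k / 2 ^ j)) ∧
    ∃ x ∈ C, ∃ y ∈ C, (2 ^ k / 2 ^ (j + 1)) ^ 2 ≤ H709R2.sq (x - y)} with hS4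
  have m3 : MJ (fun α => (((S3 α).encard : ℕ∞) : ℝ≥0∞)) (ENNReal.ofReal 4000) :=
    MJ.of_maj (zone hX (Or.inr rfl) hΛ hinf)
  have m1 : MJ (fun α => ∑ p ∈ Z, (((S1 p α).encard : ℕ∞) : ℝ≥0∞))
      (∑ p ∈ Z, ENNReal.ofReal 4000) :=
    MJ.sum Z _ _ fun p hp => MJ.of_maj (zone hX (Or.inl rfl) hΛz (hzero p hp))
  have mZ : MJ (fun α => ∑ p ∈ Z, (((SZ p α).encard : ℕ∞) : ℝ≥0∞))
      (∑ p ∈ Z, ENNReal.ofReal 4000) :=
    MJ.sum Z _ _ fun p _ => hSZ1 p
  have mI : MJ (fun α => ∑ k ∈ Finset.range (K + 1), (((SI k α).encard : ℕ∞) : ℝ≥0∞))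
      (∑ k ∈ Finset.range (K + 1), (ENNReal.ofReal 8000 + ENNReal.ofReal (200 / 2 ^ k) *
          ∫⁻ z, ENNReal.ofReal (chi 0 (2 ^ k) z) * hk X z)) :=
    MJ.sum _ _ _ fun k _ => hF3 X hX (2 ^ k) (by positivity)
  have m2 : MJ (fun α => ∑ k ∈ Finset.range (K + 1), ∑ j ∈ Finset.range (J + 1),
      (if j ≤ jk k then (((S2 k j α).encard : ℕ∞) : ℝ≥0∞) else
        ∑ p ∈ Zb k j, (((S4 k j p α).encard : ℕ∞) : ℝ≥0∞)))
      (∑ k ∈ Finset.range (K + 1), ∑ j ∈ Finset.range (J + 1),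
          (if j ≤ jk k then ENNReal.ofReal (1 / (2 * (2 ^ k / 2 ^ (j + 1)))) *
            ∫⁻ z in Dk k, hk X z
          else ∑ p ∈ Zb k j, ENNReal.ofReal (1 / (2 * (2 ^ k / 2 ^ (j + 1)))) *
            ∫⁻ z in Metric.closedBall p (2 * (2 ^ k / 2 ^ j)), hk X z)) := by
    refine MJ.sum _ _ _ fun k _ => MJ.sum _ _ _ fun j _ => ?_
    by_cases hj : j ≤ jk k
    · simp only [hj, if_true]
      exact hF2 X hX (Dk k) (compact_Dk k) _ (by positivity)
    · simp only [hj, if_false]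
      exact MJ.sum _ _ _ fun p _ => hF2 X hX _ (isCompact_closedBall _ _) _ (by positivity)
  have hsum1 : ∑ p ∈ Z, ENNReal.ofReal 4000 = (Z.card : ℝ≥0∞) * ENNReal.ofReal 4000 := by
    rw [Finset.sum_const, nsmul_eq_mul]
  rw [hsum1] at m1 mZ
  refine MJ.mono (fun α hα => ?_) le_rfl (((m3.add (m1.add mZ)).add mI).add m2)
  have hcov : {C | ClosedOrbit (rf X α) C} ⊆ ((S3 α ∪ ((⋃ p ∈ Z, S1 p α) ∪ ⋃ p ∈ Z, SZ p α)) ∪
      ⋃ k ∈ Finset.range (K + 1), SI k α) ∪
      ⋃ k ∈ Finset.range (K + 1), ⋃ j ∈ Finset.range (J + 1),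
        (if j ≤ jk k then S2 k j α else ⋃ p ∈ Zb k j, S4 k j p α) := by
    intro C hC
    rw [mem_ofPred_eq] at hC
    obtain ⟨p, hp0, hbox⟩ := t3' X hX α C hC
    have hCne : ∀ z ∈ C, X z ≠ 0 := by
      intro z hz h0
      apply Pool.Agent.W960.HP.ne_zero (Pool.Agent.W960.HP.rf_smooth hX α) hC hz
      unfold rf rot
      rw [h0]
      ext <;> simp
    have hpC : p ∉ C := fun h => hCne p h hp0
    have hpZ : p ∈ Z := (hZ p).1 hp0
    by_cases h1 : ∀ z ∈ C, ((2:ℝ) ^ K) ^ 2 < H709R2.sq z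
    · left; left; left
      have h0C : (0 : ℝ × ℝ) ∉ C := by
        intro h
        have h2 := h1 0 h
        have h3 : (0:ℝ) < ((2:ℝ) ^ K) ^ 2 := by positivity
        unfold H709R2.sq at h2
        simp at h2
        linarith [h2, h3]
      refine ⟨hC, h0C, fun z hz => ?_⟩
      have hz0 : z ≠ 0 := fun h => h0C (h ▸ hz)
      have h2 : Real.log (R * Λ) ≤ lg 0 z := by
        rw [le_lg_iff hz0 (by positivity), sub_zero]
        exact (pow_le_pow_left₀ (by positivity) hRK 2).trans (h1 z hz).le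
      rw [Real.log_mul hR0.ne' hΛ0.ne'] at h2
      linarith
    push Not at h1
    have hex : ∃ k : ℕ, ∃ z ∈ C, H709R2.sq z ≤ ((2:ℝ) ^ k) ^ 2 := ⟨K, h1⟩
    set k := Nat.find hex with hk
    obtain ⟨z₀, hz₀, hz₀s⟩ := Nat.find_spec hex
    have hkK : k ≤ K := Nat.find_min' hex h1
    have hkr : k ∈ Finset.range (K + 1) := Finset.mem_range.2 (by omega)
    rw [← hk] at hz₀s
    have hk0 : (0:ℝ) < 2 ^ k := by positivity
    by_cases h2 : ∃ y ∈ C, ((2:ℝ) ^ k / 5) ^ 2 ≤ H709R2.sq (y - z₀)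
    · left; right
      obtain ⟨y, hy, hy2⟩ := h2
      simp only [mem_iUnion]
      exact ⟨k, hkr, hC, z₀, hz₀, y, hy, hz₀s, hy2⟩
    push Not at h2
    have hpair : ∀ x ∈ C, ∀ y ∈ C, H709R2.sq (x - y) ≤ ((2:ℝ) ^ k) ^ 2 := by
      intro x hx y hy
      have e : x - y = (x - z₀) + (z₀ - y) := by abel
      have h3 := sq_add_le (x - z₀) (z₀ - y)
      rw [← e, sq_comm z₀ y] at h3
      have h4 := h2 x hx
      have h5 := h2 y hy
      nlinarith
    have hnorm : ∀ z ∈ C, ‖z‖ ≤ 2 ^ (k + 1) := by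
      intro z hz
      have h3 : ‖z - z₀‖ ≤ 2 ^ k := by
        have h4 := norm_sq_le_sq (z - z₀)
        have h5 := h4.trans (hpair z hz z₀ hz₀)
        exact abs_le_of_sq_le_sq' h5 hk0.le |>.2
      have h4 : ‖z₀‖ ≤ 2 ^ k := by
        have h5 := (norm_sq_le_sq z₀).trans hz₀s
        exact abs_le_of_sq_le_sq' h5 hk0.le |>.2
      have h5 := norm_add_le (z - z₀) z₀
      rw [sub_add_cancel] at h5
      rw [pow_succ]
      linarith
    have hq : ∀ z ∈ C, (2:ℝ) ^ k ≤ 2 * √(q z) := by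
      intro z hz
      rcases Nat.eq_zero_or_pos k with h0 | h0
      · rw [h0, pow_zero]
        have h3 : 1 ≤ √(q z) := Real.one_le_sqrt.2 (one_le_q z)
        linarith
      · have h3 : ¬ ∃ z ∈ C, H709R2.sq z ≤ ((2:ℝ) ^ (k - 1)) ^ 2 :=
          Nat.find_min hex (by rw [← hk]; omega)
        push Not at h3
        have h4 := h3 z hz
        have h5 : (2:ℝ) ^ (k - 1) ≤ √(q z) := by
          apply Real.le_sqrt_of_sq_le
          unfold q
          linarith
        have h6 : (2:ℝ) ^ k = 2 * 2 ^ (k - 1) := by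
          rw [← pow_succ']; congr 1; omega
        rw [h6]
        linarith
    by_cases h3 : ∃ x ∈ C, ∃ y ∈ C, ((2:ℝ) ^ k / 2 ^ (J + 1)) ^ 2 ≤ H709R2.sq (x - y)
    · have hex2 : ∃ j : ℕ, ∃ x ∈ C, ∃ y ∈ C, ((2:ℝ) ^ k / 2 ^ (j + 1)) ^ 2 ≤ H709R2.sq (x - y) :=
        ⟨J, h3⟩
      set j := Nat.find hex2 with hj
      obtain ⟨x, hx, y, hy, hxy⟩ := Nat.find_spec hex2
      have hjJ : j ≤ J := Nat.find_min' hex2 h3
      rw [← hj] at hxy
      have hpair2 : ∀ x ∈ C, ∀ y ∈ C, H709R2.sq (x - y) ≤ ((2:ℝ) ^ k / 2 ^ j) ^ 2 := by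
        rcases Nat.eq_zero_or_pos j with h0 | h0
        · rw [h0, pow_zero, div_one]
          exact hpair
        · intro x hx y hy
          by_contra hcon
          push Not at hcon
          have h4 := Nat.find_min hex2 (m := j - 1) (by rw [← hj]; omega)
          apply h4
          refine ⟨x, hx, y, hy, ?_⟩
          rw [show j - 1 + 1 = j by omega]
          exact hcon.le
      have hjr : j ∈ Finset.range (J + 1) := Finset.mem_range.2 (by omega)
      by_cases hjj : j ≤ jk k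
      · right
        simp only [mem_iUnion]
        refine ⟨k, hkr, j, hjr, ?_⟩
        rw [if_pos hjj]
        exact ⟨hC, fun z hz => ⟨hnorm z hz, hq z hz⟩, x, hx, y, hy, hxy⟩
      · have hjk' : jk k < j := not_le.1 hjj
        have hsz : ∀ z ∈ C, H709R2.sq (z - p) ≤ 2 * ((2:ℝ) ^ k / 2 ^ j) ^ 2 := fun z hz =>
          sq_le_of_box hbox hz (by positivity) hpair2
        have hD0 : (0:ℝ) < 2 ^ k / 2 ^ j := by positivity
        have hD7 : (2:ℝ) ^ k / 2 ^ j ≤ 2 ^ k / 128 := by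
          have h4 : (2:ℝ) ^ 7 ≤ 2 ^ j := pow_le_pow_right₀ (by norm_num) (by
            have := hjk k
            omega)
          have h5 : (2:ℝ) ^ 7 = 128 := by norm_num
          rw [h5] at h4
          exact div_le_div_of_nonneg_left hk0.le (by norm_num) h4
        by_cases hpb : p ∈ Zb k j
        · right
          simp only [mem_iUnion]
          refine ⟨k, hkr, j, hjr, ?_⟩
          rw [if_neg hjj]
          simp only [mem_iUnion]
          refine ⟨p, hpb, hC, fun z hz => ?_, x, hx, y, hy, hxy⟩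
          rw [mem_closedBall_iff_norm]
          have h4 := (norm_sq_le_sq (z - p)).trans (hsz z hz)
          have h5 : ‖z - p‖ ^ 2 ≤ (2 * ((2:ℝ) ^ k / 2 ^ j)) ^ 2 := by nlinarith
          exact abs_le_of_sq_le_sq' h5 (by positivity) |>.2
        · left; left; right; right
          simp only [mem_iUnion]
          refine ⟨p, hpZ, ?_⟩
          have hzz := hsz z₀ hz₀
          have hnp : ‖z₀ - p‖ ≤ 2 ^ k / 64 := by
            have h4 := (norm_sq_le_sq (z₀ - p)).trans hzz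
            have h5 : ‖z₀ - p‖ ^ 2 ≤ ((2:ℝ) ^ k / 64) ^ 2 := by nlinarith
            exact abs_le_of_sq_le_sq' h5 (by positivity) |>.2
          have hpU : p ∈ Uk k := by
            constructor
            · have h4 := hnorm z₀ hz₀
              have h5 := norm_sub_norm_le p z₀
              rw [norm_sub_rev] at h5
              have e1 : (2:ℝ) ^ (k + 1) = 2 * 2 ^ k := by rw [pow_succ]; ring
              have e2 : (2:ℝ) ^ (k + 3) = 8 * 2 ^ k := by rw [pow_add]; ring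
              rw [e2]
              rw [e1] at h4
              linarith
            · have h4 := hq z₀ hz₀
              -- `√(q z₀) ≤ √(q p) + |z₀ - p|`
              have h6 : √(q z₀) ≤ √(q p) + 2 * ((2:ℝ) ^ k / 64) := by
                have h7 : √(H709R2.sq (z₀ - p)) ≤ 2 * ((2:ℝ) ^ k / 64) := by
                  apply Real.sqrt_le_iff.2
                  refine ⟨by positivity, hzz.trans ?_⟩
                  nlinarith
                have h8 : √(q z₀) ≤ √(q p) + √(H709R2.sq (z₀ - p)) := by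
                  apply Real.sqrt_le_iff.2
                  refine ⟨by positivity, ?_⟩
                  have hs1 : √(q p) ^ 2 = q p := Real.sq_sqrt (q_pos p).le
                  have hs0 : 0 ≤ H709R2.sq (z₀ - p) := by unfold H709R2.sq; positivity
                  have hs2 : √(H709R2.sq (z₀ - p)) ^ 2 = H709R2.sq (z₀ - p) := Real.sq_sqrt hs0
                  have hs3 : 0 ≤ √(q p) := Real.sqrt_nonneg _
                  have hs4 : 0 ≤ √(H709R2.sq (z₀ - p)) := Real.sqrt_nonneg _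
                  have hcs : p.1 * (z₀.1 - p.1) + p.2 * (z₀.2 - p.2) ≤
                      √(q p) * √(H709R2.sq (z₀ - p)) := by
                    rw [← Real.sqrt_mul (q_pos p).le]
                    apply Real.le_sqrt_of_sq_le
                    unfold q H709R2.sq
                    simp only [Prod.fst_sub, Prod.snd_sub]
                    nlinarith [sq_nonneg (p.1 * (z₀.2 - p.2) - p.2 * (z₀.1 - p.1)),
                      sq_nonneg (z₀.1 - p.1), sq_nonneg (z₀.2 - p.2)]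
                  have hexp : q z₀ = q p + 2 * (p.1 * (z₀.1 - p.1) + p.2 * (z₀.2 - p.2)) +
                      H709R2.sq (z₀ - p) := by
                    unfold q H709R2.sq
                    simp only [Prod.fst_sub, Prod.snd_sub]
                    ring
                  nlinarith
                linarith
              linarith
          have hZon := hZb k hkK j hjJ hjk' p hpZ hpU hpb
          refine hSZ2 p α _ ?_ hZon C (hXX α C hC) hpC fun z hz => ?_
          · rw [hAdef, Finset.mem_image]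
            exact ⟨(k, j), Finset.mem_product.2 ⟨hkr, hjr⟩, rfl⟩
          · have := hsz z hz
            nlinarith
    · left; left; right; left
      push Not at h3
      simp only [mem_iUnion]
      refine ⟨p, hpZ, hC, hpC, fun z hz => ?_⟩
      have hzp : z ≠ p := fun h => hpC (h ▸ hz)
      have h4 := sq_le_of_box hbox hz (d := (2:ℝ) ^ k / 2 ^ (J + 1)) (by positivity)
        (fun x hx y hy => (h3 x hx y hy).le)
      have h5 : lg p z ≤ Real.log (r / Λz) := by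
        rw [lg_le_iff hzp (by positivity)]
        refine h4.trans ?_
        have h6 : (2:ℝ) ^ k / 2 ^ J ≤ r / Λz := by
          rw [div_le_div_iff₀ (by positivity) hΛz0]
          refine le_trans ?_ hrJ
          refine mul_le_mul_of_nonneg_right ?_ hΛz0.le
          exact pow_le_pow_right₀ (by norm_num) hkK
        have h7 : 2 * ((2:ℝ) ^ k / 2 ^ (J + 1)) ^ 2 ≤ ((2:ℝ) ^ k / 2 ^ J) ^ 2 := by
          have e : (2:ℝ) ^ k / 2 ^ (J + 1) = (2 ^ k / 2 ^ J) / 2 := by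
            rw [pow_succ]; field_simp
          rw [e]
          nlinarith [sq_nonneg ((2:ℝ) ^ k / 2 ^ J)]
        exact h7.trans (pow_le_pow_left₀ (by positivity) h6 2)
      rw [Real.log_div hr.ne' hΛz0.ne'] at h5
      linarith
  refine (encard_mono' hcov).trans ?_
  refine (encard_union_le'' _ _).trans (add_le_add ?_ ?_)
  · refine (encard_union_le'' _ _).trans (add_le_add ?_ (encard_biUnion _ _))
    refine (encard_union_le'' _ _).trans (add_le_add le_rfl ?_)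
    exact (encard_union_le'' _ _).trans (add_le_add (encard_biUnion _ _) (encard_biUnion _ _))
  · refine (encard_biUnion _ _).trans (Finset.sum_le_sum fun k _ =>
      (encard_biUnion _ _).trans (Finset.sum_le_sum fun j _ => ?_))
    by_cases hj : j ≤ jk k
    · simp only [hj, if_true]
      exact le_rfl
    · simp only [hj, if_false]
      exact encard_biUnion _ _

end

end Pool.Agent.Helper63K9.KT
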