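import Pool.Agent.Helper63K9.KS.Par

/-! The sharp bound for the Kostlan ensemble: definitions. -/

open Real Set MeasureTheory
open scoped ENNReal Topology

namespace Pool.Agent.Helper63K9.KT

noncomputable section

open Pool.Agent.H709R2 (fld rot rotc NP wedge ClosedOrbit)
open Pool.Agent.W960.HR
open Pool.Agent.H709U
open Pool.Agent.Helper63K9.KS

/-- the normalised field `F / (1 + |z|²)^(n/2)` -/
def Xh (n : ℕ) (c : T n → ℝ × ℝ) (z : ℝ × ℝ) : ℝ × ℝ := (√(q z ^ n))⁻¹ • F n c z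

/-- scalar product -/
def ip (z w : ℝ × ℝ) : ℝ := z.1 * w.1 + z.2 * w.2

/-- `t` in `(1, w) = t * O (1, u)`, where `O` is the rotation of space with `O (1, 0, 0) = (1, z) / R` -/
def ct (z w : ℝ × ℝ) : ℝ := (1 + ip z w) / √(q z)

/-- the gnomonic chart centred at `z`: `u` in `(1, w) = t * O (1, u)` -/
def uz (z w : ℝ × ℝ) : ℝ × ℝ :=
  (ct z w)⁻¹ • (w - (1 / √(q z) + ip z w / (√(q z) * (√(q z) + 1))) • z)

/-- weighted norm of the coefficients, which controls the field in the disc of radius `1 / √n` -/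
def Sn (n : ℕ) (c : T n → ℝ × ℝ) : ℝ :=
  √(∑ m : T n, mc n m.1 * ((16 / n) ^ (m.1.1 + m.1.2) * H709R2.sq (c m)))

/-- the partial derivatives at `0` -/
def Y1 (n : ℕ) (c : T n → ℝ × ℝ) : ℝ × ℝ := lin (wx n 0) c

/-- the partial derivatives at `0` -/
def Y2 (n : ℕ) (c : T n → ℝ × ℝ) : ℝ × ℝ := lin (wy n 0) c

/-- a frame: `Tz z c` are the coefficients of the field in the chart centred at `z` -/
structure FR (n : ℕ) (Tz : ℝ × ℝ → (T n → ℝ × ℝ) → (T n → ℝ × ℝ)) : Prop where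
  cont : Continuous (Function.uncurry Tz)
  mp : ∀ z, MeasurePreserving (Tz z) (GP (T n)) (GP (T n))
  chart : ∀ z c w, 0 < 1 + ip z w → Xh n c w = Xh n (Tz z c) (uz z w)

/-- there is a zone around `p` which contains the closed orbits around `p` of diameter about `a` -/
def Zon (X : ℝ × ℝ → ℝ × ℝ) (p : ℝ × ℝ) (a : ℝ) : Prop :=
  ∃ r Λ : ℝ, 0 < r ∧ 1 ≤ Λ ∧ a * Λ ≤ r ∧ ZC X p 1 (Real.log r) Λ

/-- sine of the angle between `(1, z)` and `(1, w)` -/
def dst (z w : ℝ × ℝ) : ℝ := √((H709R2.sq (z - w) + wedge z w ^ 2) / (q z * q w))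

end

end Pool.Agent.Helper63K9.KT
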