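import Pool.Agent.Helper63K9.KT.Leaves

/-! Gaussian toolkit: pairs of orthogonal linear forms in independent Gaussian vectors. -/

open Real Set MeasureTheory Topology Filter ProbabilityTheory
open scoped ENNReal NNReal

namespace Pool.Agent.Helper63K9.KT.Ga

noncomputable section

open Pool.Agent.W960.HR

variable {ι : Type*} [Fintype ι] {S : Finset (ℕ × ℕ)}

/-- the law of a linear form -/
def gl (w : ι → ℝ) : Measure ℝ := gaussianReal 0 (∑ m, w m ^ 2).toNNReal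

instance (w : ι → ℝ) : IsProbabilityMeasure (gl w) := by unfold gl; infer_instance

lemma map_pair {a v : ι → ℝ} (h : ∑ m, a m * v m = 0) :
    (GQ ι).map (fun c => (sl a c, sl v c)) = (gl a).prod (gl v) := by
  have hi : IndepFun (sl a) (sl v) (GQ ι) := indep_sl h
  rw [hi.map_prod_eq_prod_map_map (continuous_sl a).aemeasurable (continuous_sl v).aemeasurable,
    map_sl, map_sl]
  rfl

lemma rearr (μ ν : Measure ℝ) [IsProbabilityMeasure μ] [IsProbabilityMeasure ν]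
    {f : (ℝ × ℝ) × (ℝ × ℝ) → ℝ≥0∞} (hf : Measurable f) :
    ∫⁻ p, f ((p.1.1, p.2.1), (p.1.2, p.2.2)) ∂((μ.prod ν).prod (μ.prod ν)) =
      ∫⁻ p, f p ∂((μ.prod μ).prod (ν.prod ν)) := by
  have hm : Measurable fun p : (ℝ × ℝ) × (ℝ × ℝ) => f ((p.1.1, p.2.1), (p.1.2, p.2.2)) :=
    hf.comp (by fun_prop)
  rw [lintegral_prod _ hm.aemeasurable, lintegral_prod _ hf.aemeasurable,
    lintegral_prod _ (Measurable.aemeasurable (by fun_prop)),
    lintegral_prod _ (Measurable.aemeasurable (by fun_prop))]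
  refine lintegral_congr fun x1 => ?_
  have e1 : ∀ y1, ∫⁻ p : ℝ × ℝ, f ((x1, p.1), (y1, p.2)) ∂(μ.prod ν) =
      ∫⁻ x2, ∫⁻ y2, f ((x1, x2), (y1, y2)) ∂ν ∂μ := by
    intro y1
    rw [lintegral_prod _ (Measurable.aemeasurable (by fun_prop))]
  have e2 : ∀ x2, ∫⁻ p : ℝ × ℝ, f ((x1, x2), p) ∂(ν.prod ν) =
      ∫⁻ y1, ∫⁻ y2, f ((x1, x2), (y1, y2)) ∂ν ∂ν := by
    intro x2
    rw [lintegral_prod _ (Measurable.aemeasurable (by fun_prop))]
  simp only [e1, e2]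
  have hg : Measurable fun p : ℝ × ℝ => ∫⁻ y2, f ((x1, p.2), (p.1, y2)) ∂ν :=
    Measurable.lintegral_prod_right' (f := fun q : (ℝ × ℝ) × ℝ => f ((x1, q.1.2), (q.1.1, q.2)))
      (by fun_prop)
  exact lintegral_lintegral_swap (f := fun y1 x2 => ∫⁻ y2, f ((x1, x2), (y1, y2)) ∂ν)
    hg.aemeasurable

/-- two orthogonal linear forms are independent -/
theorem law2 {a v : S → ℝ} (h : ∑ m, a m * v m = 0) {f : (ℝ × ℝ) × (ℝ × ℝ) → ℝ≥0∞}
    (hf : Measurable f) :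
    ∫⁻ c, f (lin a c, lin v c) ∂GP S =
      ∫⁻ p, f p ∂(((gl a).prod (gl a)).prod ((gl v).prod (gl v))) := by
  have ha := (continuous_sl a).measurable
  have hv := (continuous_sl v).measurable
  have hT : Measurable fun c : S → ℝ => (sl a c, sl v c) := ha.prodMk hv
  have hm : Measurable fun p : (ℝ × ℝ) × (ℝ × ℝ) => f ((p.1.1, p.2.1), (p.1.2, p.2.2)) :=
    hf.comp (by fun_prop)
  have h1 := measurePreserving_arrowProdEquivProdArrow ℝ ℝ S (fun _ => gaussianReal 0 1)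
    (fun _ => gaussianReal 0 1)
  have h2 : ∀ c : S → ℝ × ℝ, f (lin a c, lin v c) =
      (fun p : (S → ℝ) × (S → ℝ) => f ((sl a p.1, sl a p.2), (sl v p.1, sl v p.2)))
        (MeasurableEquiv.arrowProdEquivProdArrow ℝ ℝ S c) := by
    intro c
    have e1 : lin a c = (sl a fun m => (c m).1, sl a fun m => (c m).2) :=
      Prod.ext (lin_fst a c) (lin_snd a c)
    have e2 : lin v c = (sl v fun m => (c m).1, sl v fun m => (c m).2) :=
      Prod.ext (lin_fst v c) (lin_snd v c)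
    rw [e1, e2]
    rfl
  simp only [h2]
  have hm2 : Measurable fun p : (S → ℝ) × (S → ℝ) =>
      f ((sl a p.1, sl a p.2), (sl v p.1, sl v p.2)) := by fun_prop
  have h3 := h1.lintegral_comp hm2
  refine Eq.trans h3 ?_
  rw [← rearr _ _ hf, ← map_pair h, Measure.map_prod_map _ _ hT hT,
    lintegral_map hm (hT.prodMap hT)]
  rfl

lemma small1 {w : ι → ℝ} (hw : ∑ m, w m ^ 2 = 1) {ε : ℝ} (hε : 0 ≤ ε) :
    gl w {u | |u| ≤ ε} ≤ ENNReal.ofReal ε := by
  unfold gl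
  have h := gaussian_small (v := (∑ m, w m ^ 2).toNNReal) (s := 1) one_pos
    (by rw [hw]; norm_num) hε
  simpa using h

lemma small2 {w : ι → ℝ} (hw : ∑ m, w m ^ 2 = 1) {ε : ℝ} (hε : 0 ≤ ε) :
    ((gl w).prod (gl w)) {x | ‖x‖ < ε} ≤ ENNReal.ofReal (ε ^ 2) := by
  have hsub : {x : ℝ × ℝ | ‖x‖ < ε} ⊆ {u | |u| ≤ ε} ×ˢ {u | |u| ≤ ε} := by
    intro x hx
    exact ⟨(norm_fst_le x).trans (le_of_lt hx), (norm_snd_le x).trans (le_of_lt hx)⟩
  refine (measure_mono hsub).trans ?_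
  rw [Measure.prod_prod, pow_two, ENNReal.ofReal_mul hε]
  exact mul_le_mul' (small1 hw hε) (small1 hw hε)

lemma gauss_scale {s : ℝ} {v : ℝ≥0} (hv : (v : ℝ) = s ^ 2) :
    gaussianReal 0 v = (gaussianReal 0 1).map (s * ·) := by
  rw [gaussianReal_map_const_mul, mul_zero, mul_one]
  congr 1
  exact NNReal.eq hv

lemma mom1 (k : ℕ) : ∃ M : ℝ, 0 < M ∧ ∀ s : ℝ, 0 ≤ s → ∀ v : ℝ≥0, (v : ℝ) = s ^ 2 →
    ∫⁻ x, ENNReal.ofReal (|x| ^ k) ∂gaussianReal 0 v ≤ ENNReal.ofReal (M * s ^ k) := by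
  set I : ℝ≥0∞ := ∫⁻ x, ENNReal.ofReal (|x| ^ k) ∂gaussianReal 0 1 with hI
  have hfin : I < ∞ := by
    have h1 : MemLp (id : ℝ → ℝ) k (gaussianReal 0 1) := memLp_id_gaussianReal' k (by simp)
    have h2 : Integrable (fun x : ℝ => |x| ^ k) (gaussianReal 0 1) :=
      h1.integrable_norm_pow'
    exact h2.lintegral_lt_top
  refine ⟨I.toReal + 1, by positivity, fun s hs v hv => ?_⟩
  rw [gauss_scale hv, lintegral_map (by fun_prop) (by fun_prop)]
  have h1 : ∀ x : ℝ, ENNReal.ofReal (|s * x| ^ k) =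
      ENNReal.ofReal (s ^ k) * ENNReal.ofReal (|x| ^ k) := by
    intro x
    rw [abs_mul, abs_of_nonneg hs, mul_pow, ENNReal.ofReal_mul (by positivity)]
  simp only [h1]
  rw [lintegral_const_mul _ (by fun_prop), ← hI]
  have h2 : 0 ≤ s ^ k := by positivity
  calc ENNReal.ofReal (s ^ k) * I = ENNReal.ofReal (s ^ k) * ENNReal.ofReal I.toReal := by
        rw [ENNReal.ofReal_toReal hfin.ne]
    _ = ENNReal.ofReal (s ^ k * I.toReal) := by rw [← ENNReal.ofReal_mul h2]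
    _ ≤ _ := ENNReal.ofReal_le_ofReal (by nlinarith)

lemma norm_pow_le (y : ℝ × ℝ) (k : ℕ) : ‖y‖ ^ k ≤ |y.1| ^ k + |y.2| ^ k := by
  rw [Prod.norm_def, Real.norm_eq_abs, Real.norm_eq_abs]
  rcases max_cases |y.1| |y.2| with ⟨h, _⟩ | ⟨h, _⟩
  · rw [h]
    have : 0 ≤ |y.2| ^ k := by positivity
    linarith
  · rw [h]
    have : 0 ≤ |y.1| ^ k := by positivity
    linarith

lemma mom2 (k : ℕ) : ∃ M : ℝ, 0 < M ∧ ∀ s : ℝ, 0 ≤ s → ∀ v : ℝ≥0, (v : ℝ) = s ^ 2 →
    ∫⁻ y, ENNReal.ofReal (‖y‖ ^ k) ∂((gaussianReal 0 v).prod (gaussianReal 0 v)) ≤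
      ENNReal.ofReal (M * s ^ k) := by
  obtain ⟨M, hM, h⟩ := mom1 k
  refine ⟨2 * M, by positivity, fun s hs v hv => ?_⟩
  have h1 : ∀ y : ℝ × ℝ, ENNReal.ofReal (‖y‖ ^ k) ≤
      ENNReal.ofReal (|y.1| ^ k) + ENNReal.ofReal (|y.2| ^ k) := by
    intro y
    rw [← ENNReal.ofReal_add (by positivity) (by positivity)]
    exact ENNReal.ofReal_le_ofReal (norm_pow_le y k)
  refine (lintegral_mono h1).trans ?_
  rw [lintegral_add_left (by fun_prop)]
  have e1 : ∫⁻ y : ℝ × ℝ, ENNReal.ofReal (|y.1| ^ k)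
      ∂((gaussianReal 0 v).prod (gaussianReal 0 v)) =
      ∫⁻ x, ENNReal.ofReal (|x| ^ k) ∂gaussianReal 0 v := by
    rw [lintegral_prod _ (Measurable.aemeasurable (by fun_prop))]
    simp
  have e2 : ∫⁻ y : ℝ × ℝ, ENNReal.ofReal (|y.2| ^ k)
      ∂((gaussianReal 0 v).prod (gaussianReal 0 v)) =
      ∫⁻ x, ENNReal.ofReal (|x| ^ k) ∂gaussianReal 0 v := by
    rw [lintegral_prod _ (Measurable.aemeasurable (by fun_prop))]
    simp
  rw [e1, e2]
  refine (add_le_add (h s hs v hv) (h s hs v hv)).trans ?_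
  rw [← ENNReal.ofReal_add (by positivity) (by positivity)]
  exact ENNReal.ofReal_le_ofReal (le_of_eq (by ring))

lemma mom2' (k : ℕ) : ∃ M : ℝ, 0 < M ∧ ∀ (S : Finset (ℕ × ℕ)) (w : S → ℝ),
    ∫⁻ y, ENNReal.ofReal (‖y‖ ^ k) ∂((gl w).prod (gl w)) ≤
      ENNReal.ofReal (M * √(∑ m, w m ^ 2) ^ k) := by
  obtain ⟨M, hM, h⟩ := mom2 k
  refine ⟨M, hM, fun S w => ?_⟩
  have h0 : 0 ≤ ∑ m, w m ^ 2 := Finset.sum_nonneg fun _ _ => sq_nonneg _
  exact h _ (Real.sqrt_nonneg _) _ (by rw [Real.coe_toNNReal _ h0, Real.sq_sqrt h0])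

/-- moments of a linear form while another one is small -/
theorem gm (k : ℕ) : ∃ K : ℝ, 0 < K ∧ ∀ (S : Finset (ℕ × ℕ)) (a y : S → ℝ),
    ∑ m, a m ^ 2 = 1 → ∀ ε : ℝ, 0 < ε → ε ≤ 1 →
    ∫⁻ c, {c : S → ℝ × ℝ | ‖lin a c‖ < ε}.indicator
      (fun c => ENNReal.ofReal (‖lin y c‖ ^ k)) c ∂GP S ≤
      ENNReal.ofReal (K * ε ^ 2 * √(∑ m, y m ^ 2) ^ k) := by
  obtain ⟨M, hM, hmom⟩ := mom2' k
  refine ⟨2 ^ k * (1 + M), by positivity, fun S a y ha ε hε hε1 => ?_⟩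
  set l : ℝ := ∑ m, a m * y m with hl
  set v : S → ℝ := fun m => y m - l * a m with hv
  set Y : ℝ := ∑ m, y m ^ 2 with hY
  have hY0 : 0 ≤ Y := Finset.sum_nonneg fun _ _ => sq_nonneg _
  have hort : ∑ m, a m * v m = 0 := by
    have h1 : ∑ m, a m * v m = ∑ m, a m * y m - l * ∑ m, a m ^ 2 := by
      rw [Finset.mul_sum, ← Finset.sum_sub_distrib]
      exact Finset.sum_congr rfl fun m _ => by simp only [hv]; ring
    rw [h1, ha, ← hl]
    ring
  have hvn : ∑ m, v m ^ 2 = Y - l ^ 2 := by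
    have h2 : ∀ m, v m ^ 2 = y m ^ 2 - 2 * l * (a m * y m) + l ^ 2 * a m ^ 2 := by
      intro m
      simp only [hv]
      ring
    rw [Finset.sum_congr rfl fun m _ => h2 m, Finset.sum_add_distrib, Finset.sum_sub_distrib,
      ← Finset.mul_sum, ← Finset.mul_sum, ha, ← hl]
    ring
  have hv0 : 0 ≤ ∑ m, v m ^ 2 := Finset.sum_nonneg fun _ _ => sq_nonneg _
  have hlY : |l| ≤ √Y := by
    apply Real.le_sqrt_of_sq_le
    rw [sq_abs]
    linarith
  have hvY : √(∑ m, v m ^ 2) ≤ √Y := Real.sqrt_le_sqrt (by rw [hvn]; nlinarith [sq_nonneg l])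
  have hdec : ∀ c, lin y c = l • lin a c + lin v c := by
    intro c
    unfold lin
    rw [Finset.smul_sum, ← Finset.sum_add_distrib]
    refine Finset.sum_congr rfl fun m _ => ?_
    rw [smul_smul, ← add_smul]
    congr 1
    simp only [hv]
    ring
  set f : (ℝ × ℝ) × (ℝ × ℝ) → ℝ≥0∞ := fun p => {x : ℝ × ℝ | ‖x‖ < ε}.indicator 1 p.1 *
    (ENNReal.ofReal (2 ^ k * √Y ^ k) + ENNReal.ofReal (2 ^ k) * ENNReal.ofReal (‖p.2‖ ^ k)) with hf
  have hball : MeasurableSet {x : ℝ × ℝ | ‖x‖ < ε} :=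
    measurableSet_lt (by fun_prop) (by fun_prop)
  have hind : Measurable (({x : ℝ × ℝ | ‖x‖ < ε}.indicator 1 : ℝ × ℝ → ℝ≥0∞)) :=
    measurable_one.indicator hball
  have hfm : Measurable f := by
    refine (hind.comp measurable_fst).mul ?_
    fun_prop
  have hle : ∀ c, {c : S → ℝ × ℝ | ‖lin a c‖ < ε}.indicator
      (fun c => ENNReal.ofReal (‖lin y c‖ ^ k)) c ≤ f (lin a c, lin v c) := by
    intro c
    by_cases hc : ‖lin a c‖ < ε
    · rw [indicator_of_mem (by exact hc)]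
      simp only [hf]
      rw [indicator_of_mem (by exact hc), Pi.one_apply, one_mul,
        ← ENNReal.ofReal_mul (by positivity), ← ENNReal.ofReal_add (by positivity) (by positivity)]
      apply ENNReal.ofReal_le_ofReal
      have h1 : ‖lin y c‖ ≤ √Y + ‖lin v c‖ := by
        rw [hdec]
        refine (norm_add_le _ _).trans ?_
        rw [norm_smul, Real.norm_eq_abs]
        have : |l| * ‖lin a c‖ ≤ √Y * 1 :=
          mul_le_mul hlY (hc.le.trans hε1) (norm_nonneg _) (Real.sqrt_nonneg _)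
        linarith
      have h2 : ‖lin y c‖ ≤ 2 * max (√Y) ‖lin v c‖ := by
        have := le_max_left (√Y) ‖lin v c‖
        have := le_max_right (√Y) ‖lin v c‖
        linarith
      refine (pow_le_pow_left₀ (norm_nonneg _) h2 k).trans ?_
      rw [mul_pow]
      rcases max_cases (√Y) ‖lin v c‖ with ⟨h, _⟩ | ⟨h, _⟩
      · rw [h]
        have : 0 ≤ 2 ^ k * ‖lin v c‖ ^ k := by positivity
        linarith
      · rw [h]
        have : 0 ≤ 2 ^ k * √Y ^ k := by positivity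
        linarith
    · rw [indicator_of_notMem (by exact hc)]
      exact bot_le
  refine (lintegral_mono hle).trans ?_
  rw [law2 hort hfm, lintegral_prod _ hfm.aemeasurable]
  have h3 : ∀ x : ℝ × ℝ, ∫⁻ y, f (x, y) ∂((gl v).prod (gl v)) ≤
      {x : ℝ × ℝ | ‖x‖ < ε}.indicator 1 x * ENNReal.ofReal (2 ^ k * (1 + M) * √Y ^ k) := by
    intro x
    simp only [hf]
    rw [lintegral_const_mul _ (by fun_prop)]
    refine mul_le_mul_right ?_ _
    rw [lintegral_add_left (by fun_prop), lintegral_const, measure_univ, mul_one,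
      lintegral_const_mul _ (by fun_prop)]
    refine (add_le_add le_rfl (mul_le_mul_right (hmom S v) _)).trans ?_
    rw [← ENNReal.ofReal_mul (by positivity), ← ENNReal.ofReal_add (by positivity) (by positivity)]
    apply ENNReal.ofReal_le_ofReal
    have h4 : √(∑ m, v m ^ 2) ^ k ≤ √Y ^ k := pow_le_pow_left₀ (Real.sqrt_nonneg _) hvY k
    have h5 : 2 ^ k * (M * √(∑ m, v m ^ 2) ^ k) ≤ 2 ^ k * (M * √Y ^ k) := by gcongr
    linarith
  refine (lintegral_mono h3).trans ?_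
  rw [lintegral_mul_const _ hind, lintegral_indicator_one hball]
  refine (mul_le_mul_left (small2 ha hε.le) _).trans ?_
  rw [← ENNReal.ofReal_mul (by positivity)]
  exact ENNReal.ofReal_le_ofReal (le_of_eq (by ring))

end

end Pool.Agent.Helper63K9.KT.Ga
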