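import Pool.Agent.Helper63K9.KT.Cls

/-! The sharp bound: the closed orbits of the rotations of a field with good coefficients. -/

open Real Set MeasureTheory
open scoped ENNReal

namespace Pool.Agent.Helper63K9.KT

noncomputable section

open Pool.Agent.H709R2 (fld rot rotc NP wedge field ClosedOrbit exists_poly rot_fld)
open Pool.Agent.W960.HR
open Pool.Agent.H709U
open Pool.Agent.Helper63K9.KS

lemma lin_single {S : Finset (ℕ × ℕ)} (w : S → ℝ) (c : S → ℝ × ℝ) (m₀ : S)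
    (h : ∀ m, m ≠ m₀ → w m = 0) : lin w c = w m₀ • c m₀ := by
  unfold lin
  rw [Finset.sum_eq_single m₀]
  · intro m _ hm
    rw [h m hm, zero_smul]
  · intro hm
    exact absurd (Finset.mem_univ _) hm

lemma Y_eq {n : ℕ} (hn : 1 ≤ n) (c : T n → ℝ × ℝ) : ∃ m₁ m₂ : T n, m₁.1 = (1, 0) ∧ m₂.1 = (0, 1) ∧
    Y1 n c = √n • c m₁ ∧ Y2 n c = √n • c m₂ := by
  have h1 : ((1, 0) : ℕ × ℕ) ∈ T n := by rw [mem_T]; simpa using hn
  have h2 : ((0, 1) : ℕ × ℕ) ∈ T n := by rw [mem_T]; simpa using hn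
  refine ⟨⟨(1, 0), h1⟩, ⟨(0, 1), h2⟩, rfl, rfl, ?_, ?_⟩
  · unfold Y1
    rw [lin_single (wx n 0) c ⟨(1, 0), h1⟩]
    · congr 1
      unfold wx wt ka e0 mc
      simp
    · rintro ⟨⟨i, j⟩, hm⟩ hne
      unfold wx wt e0
      simp only [Prod.fst_zero, Prod.snd_zero]
      rcases i with _ | _ | i
      · simp
      · rcases j with _ | j
        · exact absurd rfl hne
        · simp
      · simp
  · unfold Y2
    rw [lin_single (wy n 0) c ⟨(0, 1), h2⟩]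
    · congr 1
      unfold wy wt ka e0 mc
      simp
    · rintro ⟨⟨i, j⟩, hm⟩ hne
      unfold wy wt e0
      simp only [Prod.fst_zero, Prod.snd_zero]
      rcases j with _ | _ | j
      · simp
      · rcases i with _ | i
        · exact absurd rfl hne
        · simp
      · simp

lemma sq_Sn (n : ℕ) (c : T n → ℝ × ℝ) : Sn n c ^ 2 =
    ∑ m : T n, mc n m.1 * ((16 / n) ^ (m.1.1 + m.1.2) * H709R2.sq (c m)) := by
  unfold Sn
  rw [Real.sq_sqrt]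
  refine Finset.sum_nonneg fun m _ => ?_
  have := mc_nonneg n m.1
  have h2 : 0 ≤ H709R2.sq (c m) := by unfold H709R2.sq; positivity
  positivity

/-- the wedge is small compared with the weighted norm -/
lemma wedge_lt {n : ℕ} (hn : 1 ≤ n) (c : T n → ℝ × ℝ) (h : wedge (Y1 n c) (Y2 n c) ≠ 0) :
    |wedge (Y1 n c) (Y2 n c)| < n * Sn n c ^ 2 := by
  obtain ⟨m₁, m₂, h1, h2, e1, e2⟩ := Y_eq hn c
  have hn1 : (1:ℝ) ≤ n := by exact_mod_cast hn
  have hn0 : (0:ℝ) < n := by linarith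
  have hw : wedge (Y1 n c) (Y2 n c) = n * wedge (c m₁) (c m₂) := by
    rw [e1, e2]
    unfold wedge
    simp only [Prod.smul_fst, Prod.smul_snd, smul_eq_mul]
    have := Real.mul_self_sqrt hn0.le
    linear_combination ((c m₁).1 * (c m₂).2 - (c m₁).2 * (c m₂).1) * this
  have hnn : ∀ m : T n, 0 ≤ mc n m.1 * ((16 / n) ^ (m.1.1 + m.1.2) * H709R2.sq (c m)) := by
    intro m
    have := mc_nonneg n m.1
    have h2 : 0 ≤ H709R2.sq (c m) := by unfold H709R2.sq; positivity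
    positivity
  have s1 : 16 * H709R2.sq (c m₁) ≤ Sn n c ^ 2 := by
    rw [sq_Sn]
    have h3 := Finset.single_le_sum (f := fun m : T n =>
      mc n m.1 * ((16 / n) ^ (m.1.1 + m.1.2) * H709R2.sq (c m))) (fun m _ => hnn m)
      (Finset.mem_univ m₁)
    refine le_trans (le_of_eq ?_) h3
    simp only [h1]
    unfold mc
    simp
    field_simp
  have s2 : 16 * H709R2.sq (c m₂) ≤ Sn n c ^ 2 := by
    rw [sq_Sn]
    have h3 := Finset.single_le_sum (f := fun m : T n =>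
      mc n m.1 * ((16 / n) ^ (m.1.1 + m.1.2) * H709R2.sq (c m))) (fun m _ => hnn m)
      (Finset.mem_univ m₂)
    refine le_trans (le_of_eq ?_) h3
    simp only [h2]
    unfold mc
    simp
    field_simp
  have hab : 2 * |wedge (c m₁) (c m₂)| ≤ H709R2.sq (c m₁) + H709R2.sq (c m₂) := by
    have h3 : 2 * wedge (c m₁) (c m₂) ≤ H709R2.sq (c m₁) + H709R2.sq (c m₂) := by
      unfold wedge H709R2.sq
      nlinarith [sq_nonneg ((c m₁).1 - (c m₂).2), sq_nonneg ((c m₁).2 + (c m₂).1)]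
    have h4 : -(2 * wedge (c m₁) (c m₂)) ≤ H709R2.sq (c m₁) + H709R2.sq (c m₂) := by
      unfold wedge H709R2.sq
      nlinarith [sq_nonneg ((c m₁).1 + (c m₂).2), sq_nonneg ((c m₁).2 - (c m₂).1)]
    have h5 : |2 * wedge (c m₁) (c m₂)| ≤ H709R2.sq (c m₁) + H709R2.sq (c m₂) := abs_le.2 ⟨by linarith, h3⟩
    rw [abs_mul, abs_of_pos (by norm_num : (0:ℝ) < 2)] at h5
    exact h5
  have hpos : 0 < |wedge (c m₁) (c m₂)| := by
    rw [abs_pos]
    intro h0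
    rw [hw, h0, mul_zero] at h
    exact h rfl
  rw [hw, abs_mul, abs_of_pos hn0]
  refine mul_lt_mul_of_pos_left ?_ hn0
  linarith

/-- nondegenerate zeros of the field are nondegenerate zeros of the normalised field -/
lemma det_Xh_ne {n : ℕ} {c : T n → ℝ × ℝ} {p : ℝ × ℝ} (hp : F n c p = 0)
    (h : ∀ v, v ≠ 0 → fderiv ℝ (F n c) p v ≠ 0) : (fderiv ℝ (Xh n c) p).det ≠ 0 := by
  have hs : DifferentiableAt ℝ (fun z : ℝ × ℝ => (√(q z ^ n))⁻¹) p := by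
    have hq : ContDiff ℝ 2 fun z : ℝ × ℝ => q z ^ n := by
      unfold q H709R2.sq
      fun_prop
    have h1 : ContDiff ℝ 2 fun z : ℝ × ℝ => √(q z ^ n) :=
      hq.sqrt fun z => (pow_pos (q_pos z) n).ne'
    have h2 : ContDiff ℝ 2 fun z : ℝ × ℝ => (√(q z ^ n))⁻¹ :=
      h1.inv fun z => (Real.sqrt_pos.2 (pow_pos (q_pos z) n)).ne'
    exact (h2.differentiable (by norm_num)) p
  have hF : DifferentiableAt ℝ (F n c) p := ((contDiff_F n c).differentiable (by norm_num)) p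
  have hd : ∀ v, fderiv ℝ (Xh n c) p v = (√(q p ^ n))⁻¹ • fderiv ℝ (F n c) p v := by
    intro v
    have h1 : fderiv ℝ (Xh n c) p = _ := fderiv_fun_smul hs hF
    rw [h1, hp]
    simp
  have hs0 : (√(q p ^ n))⁻¹ ≠ 0 := inv_ne_zero (Real.sqrt_pos.2 (pow_pos (q_pos p) n)).ne'
  have hinj : Function.Injective (fderiv ℝ (Xh n c) p) := by
    rw [injective_iff_map_eq_zero]
    intro v hv
    by_contra hv0
    rw [hd v] at hv
    rcases smul_eq_zero.1 hv with h1 | h1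
    · exact hs0 h1
    · exact h v hv0 h1
  intro h0
  have h1 : IsUnit ((fderiv ℝ (Xh n c) p : (ℝ × ℝ) →L[ℝ] (ℝ × ℝ)) : (ℝ × ℝ) →ₗ[ℝ] (ℝ × ℝ)) := by
    rw [LinearMap.isUnit_iff_ker_eq_bot]
    exact LinearMap.ker_eq_bot.2 hinj
  have h2 := (LinearMap.isUnit_iff_isUnit_det _).1 h1
  exact h2.ne_zero h0

lemma sqrt_q_Uk {k : ℕ} {p : ℝ × ℝ} (hp : p ∈ Uk k) : √(q p) ≤ 2 ^ (k + 5) := by
  apply Real.sqrt_le_iff.2
  refine ⟨by positivity, ?_⟩
  have h1 := sq_le_norm_sq p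
  have h2 := pow_le_pow_left₀ (norm_nonneg p) hp.1.le 2
  have e1 : ((2:ℝ) ^ (k + 5)) ^ 2 = 16 * ((2:ℝ) ^ (k + 3)) ^ 2 := by
    rw [show k + 5 = (k + 3) + 2 by ring, pow_add _ (k + 3)]; ring
  have e2 : 1 ≤ ((2:ℝ) ^ (k + 3)) ^ 2 := one_le_pow₀ (one_le_pow₀ (by norm_num))
  unfold q
  rw [e1]
  linarith

/-- the level of degeneracy -/
def tau (κ : ℝ) (n k j : ℕ) : ℝ := min 1 √(κ * (√n * 2 ^ (k + 5) * (2 * (2 ^ k / 2 ^ j))))

lemma tau_pos {κ : ℝ} (hκ : 0 < κ) {n : ℕ} (hn : 1 ≤ n) (k j : ℕ) : 0 < tau κ n k j := by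
  have hn1 : (1:ℝ) ≤ n := by exact_mod_cast hn
  unfold tau
  exact lt_min one_pos (Real.sqrt_pos.2 (by positivity))

lemma tau_le (κ : ℝ) (n k j : ℕ) : tau κ n k j ≤ 1 := min_le_left _ _

/-- the integral over the rotations for good coefficients -/
theorem phi_good2 (hD2 : S_D2) (hE : S_E) (hF2 : S_F2) (hF3 : S_F3) (hTC : S_TC) (hDX : S_DX)
    {κ : ℝ} (hκ : 0 < κ) {n : ℕ} (hn : 1 ≤ n) {Tz : ℝ × ℝ → (T n → ℝ × ℝ) → (T n → ℝ × ℝ)}
    (hTz : FR n Tz)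
    (hDG : ∀ (c : T n → ℝ × ℝ) (p : ℝ × ℝ), F n c p = 0 → ∀ D τ : ℝ, 0 < D → 0 < τ → τ ≤ 1 →
      κ * (√n * √(q p) * D) ≤ τ ^ 2 → wedge (Y1 n (Tz p c)) (Y2 n (Tz p c)) ≠ 0 →
      n * τ * Sn n (Tz p c) ^ 2 ≤ |wedge (Y1 n (Tz p c)) (Y2 n (Tz p c))| → Zon (Xh n c) p D)
    {A τ B t : ℝ} {K J : ℕ} (hA : 1 ≤ A) (hτ : 0 < τ) (hτ1 : τ ≤ 1) (ht : 0 < t) (ht1 : t ≤ 1)
    (hK : (20 * (A * n) / τ) * (20 * (A * n) / τ) ≤ 2 ^ K)
    (hB : 2 ^ (K + 1) ≤ B) (hJ : 2 ^ K * (8 * (A * n) / t) ≤ t / (100 * (A * n ^ 2)) * 2 ^ J)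
    {jk : ℕ → ℕ} (hjk : ∀ k, 7 ≤ jk k) {G₀ : (T n → ℝ × ℝ) → ℝ≥0∞}
    {G : ℕ → ℕ → (T n → ℝ × ℝ) → ℝ≥0∞} {c : T n → ℝ × ℝ}
    (hG₀ : ∀ Z : Finset (ℝ × ℝ), (∀ p ∈ Z, F n c p = 0 ∧
      (fderiv ℝ (Xh n c) p).det ≠ 0) → (Z.card : ℝ≥0∞) ≤ G₀ c)
    (hG : ∀ k j, jk k < j → ∀ Z : Finset (ℝ × ℝ), (∀ p ∈ Z, F n c p = 0 ∧
      (fderiv ℝ (Xh n c) p).det ≠ 0 ∧ p ∈ Uk k ∧ p ∈ Bd n Tz (tau κ n k j) c) →
      ∑ p ∈ Z, ENNReal.ofReal (1 / (2 * (2 ^ k / 2 ^ (j + 1)))) *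
        ∫⁻ w in Metric.closedBall p (2 * (2 ^ k / 2 ^ j)), hk (F n c) w ≤ G k j c)
    (hs : sn c ≤ A ^ 2) (hl : Lead n τ c) (hnd0 : ND n B t c) :
    Phi (kc n c) ≤ (((ENNReal.ofReal 4000 + (G₀ c * ENNReal.ofReal 4000 +
        G₀ c * ENNReal.ofReal 4000)) +
        ∑ k ∈ Finset.range (K + 1), (ENNReal.ofReal 8000 + ENNReal.ofReal (200 / 2 ^ k) *
          ∫⁻ z, ENNReal.ofReal (chi 0 (2 ^ k) z) * hk (F n c) z)) +
        ∑ k ∈ Finset.range (K + 1), ∑ j ∈ Finset.range (J + 1),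
          (if j ≤ jk k then ENNReal.ofReal (1 / (2 * (2 ^ k / 2 ^ (j + 1)))) *
            ∫⁻ z in Dk k, hk (F n c) z
          else G k j c)) := by
  classical
  have hn1 : (1:ℝ) ≤ n := by exact_mod_cast hn
  have hn0 : (0:ℝ) < n := by linarith
  have hA0 : 0 < A := by linarith
  obtain ⟨P, Q, hP, hQ, hPQ⟩ := exists_poly (kc n c)
  have hdeg : (T n).sup (fun m => m.1 + m.2) ≤ n := Finset.sup_le fun m hm => mem_T.1 hm
  have hP' := hP.trans hdeg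
  have hQ' := hQ.trans hdeg
  have hFe : field P Q = F n c := by rw [hPQ, fld_kc]
  set R : ℝ := 20 * (A * n) / τ with hR
  have hAn : 1 ≤ A * n := one_le_mul_of_one_le_of_one_le hA hn1
  have hR1 : 20 ≤ R := by
    rw [hR, le_div_iff₀ hτ]
    nlinarith
  have hinf : ZC (F n c) 0 (-1) (Real.log R) R := hD2 n hn A τ hA hτ hτ1 c hs hl
  have h2K : (1:ℝ) ≤ 2 ^ K := one_le_pow₀ (by norm_num)
  have hRK : R ≤ 2 ^ K := by nlinarith
  have hfar : ∀ p, F n c p = 0 → H709R2.sq p ≤ (2 ^ K) ^ 2 := by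
    intro p hp
    by_contra hcon
    push Not at hcon
    have hp0 : p ≠ 0 := by
      intro h
      rw [h] at hcon
      have : (0:ℝ) < (2 ^ K) ^ 2 := by positivity
      unfold H709R2.sq at hcon
      simp at hcon
      linarith
    have h2 : Real.log R ≤ lg 0 p := by
      rw [le_lg_iff hp0 (by linarith), sub_zero]
      exact (pow_le_pow_left₀ (by linarith) hRK 2).trans hcon.le
    exact (hinf p hp0 (by linarith)).1 hp
  have hpn : ∀ p, F n c p = 0 → ‖p‖ ≤ 2 ^ K := by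
    intro p hp
    have h5 := (norm_sq_le_sq p).trans (hfar p hp)
    exact abs_le_of_sq_le_sq' h5 (by positivity) |>.2
  have hKB : (2:ℝ) ^ K ≤ B := by
    refine le_trans ?_ hB
    rw [pow_succ]; linarith
  have hpB : ∀ p, F n c p = 0 → ‖p‖ ≤ B := fun p hp => (hpn p hp).trans hKB
  have hX2 : ContDiff ℝ 2 (F n c) := contDiff_F n c
  have hnd : ∀ p, F n c p = 0 → ∀ v, v ≠ 0 → fderiv ℝ (F n c) p v ≠ 0 := by
    intro p hp v hv h0
    have h1 := hnd0 p (hpB p hp) hp v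
    rw [h0, norm_zero] at h1
    have h2 : 0 < ‖v‖ := norm_pos_iff.2 hv
    have h3 : 0 < √(q p ^ n) := Real.sqrt_pos.2 (pow_pos (q_pos p) n)
    have : 0 < t * √(q p ^ n) * ‖v‖ := by positivity
    linarith
  have hdet : ∀ p, F n c p = 0 → (fderiv ℝ (Xh n c) p).det ≠ 0 := fun p hp =>
    det_Xh_ne hp (hnd p hp)
  have hne : P ≠ 0 ∨ Q ≠ 0 := by
    by_contra hcon
    push Not at hcon
    have h0 : ∀ z, F n c z = 0 := by
      intro z
      rw [← hFe, hcon.1, hcon.2]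
      unfold field
      simp
    have h1 := hfar (2 ^ (K + 1), 0) (h0 _)
    unfold H709R2.sq at h1
    simp only at h1
    have h2 : ((2:ℝ) ^ (K + 1)) ^ 2 = 4 * (2 ^ K) ^ 2 := by rw [pow_succ]; ring
    nlinarith [sq_nonneg ((2:ℝ) ^ K)]
  obtain ⟨Z, hZc, hZ⟩ := zeros_finite hP' hQ' hne (by rw [hFe]; exact hnd)
  rw [hFe] at hZ
  set Λz : ℝ := 8 * (A * n) / t with hΛz
  set r : ℝ := t / (100 * (A * n ^ 2)) with hr
  have hr0 : 0 < r := by positivity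
  have hΛz1 : 1 ≤ Λz := by
    rw [hΛz, le_div_iff₀ ht]
    nlinarith
  have hzero : ∀ p ∈ Z, ZC (F n c) p 1 (Real.log r) Λz := fun p hp =>
    hE n hn A B t hA ht ht1 c hs hnd0 p (hpB p ((hZ p).2 hp)) ((hZ p).2 hp)
  set Zb : ℕ → ℕ → Finset (ℝ × ℝ) := fun k j =>
    Z.filter (fun p => p ∈ Uk k ∧ p ∈ Bd n Tz (tau κ n k j) c) with hZbd
  have hcl := classify2 hF3 hF2 hX2 (contDiff_Xh n c) (hTC n c) hZ (by linarith)
    (by linarith : (1:ℝ) ≤ R) hinf hK hr0 hΛz1 hzero hJ hjk Zb (by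
      intro k hk j hj hjj p hp hpU hpb
      have hp0 := (hZ p).2 hp
      have hnb : p ∉ Bd n Tz (tau κ n k j) c := fun h =>
        hpb (Finset.mem_filter.2 ⟨hp, hpU, h⟩)
      have hle : n * tau κ n k j * Sn n (Tz p c) ^ 2 ≤
          |wedge (Y1 n (Tz p c)) (Y2 n (Tz p c))| := not_lt.1 hnb
      have hw : wedge (Y1 n (Tz p c)) (Y2 n (Tz p c)) ≠ 0 := by
        intro h0
        have h1 := hDX n Tz hTz c p
        rw [h0, abs_zero, zero_div, abs_eq_zero] at h1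
        exact hdet p hp0 h1
      have hwl := wedge_lt hn (Tz p c) hw
      have hx0 : 0 ≤ κ * (√n * 2 ^ (k + 5) * (2 * ((2:ℝ) ^ k / 2 ^ j))) := by positivity
      have hlt : √(κ * (√n * 2 ^ (k + 5) * (2 * ((2:ℝ) ^ k / 2 ^ j)))) < 1 := by
        by_contra hcon
        have h1 : tau κ n k j = 1 := min_eq_left (not_lt.1 hcon)
        rw [h1, mul_one] at hle
        linarith
      have htau : tau κ n k j = √(κ * (√n * 2 ^ (k + 5) * (2 * ((2:ℝ) ^ k / 2 ^ j)))) :=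
        min_eq_right hlt.le
      refine hDG c p hp0 _ (tau κ n k j) (by positivity) (tau_pos hκ hn k j) (tau_le _ _ _ _) ?_
        hw hle
      rw [htau, Real.sq_sqrt hx0]
      have := sqrt_q_Uk hpU
      gcongr)
  obtain ⟨g, hg1, hg2, hg3⟩ := hcl
  have hPhi : Phi (kc n c) ≤ ∫⁻ α in Ioo 0 π, g α := by
    unfold Phi
    refine setLIntegral_mono' measurableSet_Ioo fun α hα => le_trans (le_of_eq ?_) (hg2 α hα)
    unfold NP
    have : rf (F n c) α = fld (rotc α (kc n c)) := by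
      funext z
      unfold rf
      rw [← fld_kc, rot_fld]
    simp only [this]
  have hcard : (Z.card : ℝ≥0∞) ≤ G₀ c := hG₀ Z fun p hp => ⟨(hZ p).2 hp, hdet p ((hZ p).2 hp)⟩
  refine hPhi.trans (hg3.trans ?_)
  refine add_le_add (add_le_add (by gcongr) le_rfl) ?_
  refine Finset.sum_le_sum fun k _ => Finset.sum_le_sum fun j _ => ?_
  by_cases hj : j ≤ jk k
  · simp only [hj, if_true]
    exact le_rfl
  · simp only [hj, if_false]
    refine hG k j (not_le.1 hj) _ fun p hp => ?_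
    rw [hZbd, Finset.mem_filter] at hp
    exact ⟨(hZ p).2 hp.1, hdet p ((hZ p).2 hp.1), hp.2.1, hp.2.2⟩

end

end Pool.Agent.Helper63K9.KT
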