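import Pool.Agent.Helper63K9.KT.Leaves

/-! The leaf AREA: counting nondegenerate zeros by the area formula. -/

open Real Set MeasureTheory Filter
open scoped ENNReal Topology

namespace Pool.Agent.Helper63K9.KT

noncomputable section

namespace AreaL

theorem vol_ball (ε : ℝ) (hε : 0 < ε) : volume {y : ℝ × ℝ | ‖y‖ < ε} = ENNReal.ofReal (4 * ε ^ 2) := by
  have h1 : {y : ℝ × ℝ | ‖y‖ < ε} = Ioo (-ε) ε ×ˢ Ioo (-ε) ε := by
    ext y
    simp only [mem_ofPred_eq, mem_prod, mem_Ioo, Prod.norm_def, sup_lt_iff, Real.norm_eq_abs,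
      abs_lt]
  rw [h1, Measure.volume_eq_prod, Measure.prod_prod, Real.volume_Ioo,
    ← ENNReal.ofReal_mul (by linarith)]
  congr 1
  ring

/-- the neighbourhood of a zero -/
theorem exists_nhd {f : ℝ × ℝ → ℝ × ℝ} (hf : ContDiff ℝ 1 f) {p : ℝ × ℝ} (h0 : f p = 0)
    (hd : (fderiv ℝ f p).det ≠ 0) {V : Set (ℝ × ℝ)} (hV : V ∈ 𝓝 p) :
    ∃ U : Set (ℝ × ℝ), IsOpen U ∧ p ∈ U ∧ U ⊆ V ∧ InjOn f U ∧
      ∃ δ : ℝ, 0 < δ ∧ ∀ y : ℝ × ℝ, ‖y‖ < δ → y ∈ f '' U := by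
  set e : (ℝ × ℝ) ≃L[ℝ] (ℝ × ℝ) := (fderiv ℝ f p).toContinuousLinearEquivOfDetNeZero hd with he
  have hst : HasStrictFDerivAt f (e : (ℝ × ℝ) →L[ℝ] (ℝ × ℝ)) p := by
    have h1 := hf.contDiffAt.hasStrictFDerivAt (x := p) one_ne_zero
    have h2 : (e : (ℝ × ℝ) →L[ℝ] (ℝ × ℝ)) = fderiv ℝ f p := by
      ext <;> rfl
    rw [h2]
    exact h1
  set φ := hst.toOpenPartialHomeomorph f with hφ
  have hpφ : p ∈ φ.source := hst.mem_toOpenPartialHomeomorph_source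
  obtain ⟨W, hWV, hWo, hpW⟩ := mem_nhds_iff.1 hV
  refine ⟨φ.source ∩ W, φ.open_source.inter hWo, ⟨hpφ, hpW⟩, fun x hx => hWV hx.2,
    fun x hx y hy h => φ.injOn hx.1 hy.1 h, ?_⟩
  have hopen : IsOpen (f '' (φ.source ∩ W)) :=
    φ.isOpen_image_of_subset_source (φ.open_source.inter hWo) inter_subset_left
  have h0m : (0 : ℝ × ℝ) ∈ f '' (φ.source ∩ W) := ⟨p, ⟨hpφ, hpW⟩, h0⟩
  obtain ⟨δ, hδ, hb⟩ := Metric.isOpen_iff.1 hopen 0 h0m
  exact ⟨δ, hδ, fun y hy => hb (mem_ball_zero_iff.2 hy)⟩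

end AreaL

open AreaL in
theorem area : S_AREA := by
  intro f hf Z hZ ψ Ψ hΨ hψ
  classical
  -- disjoint neighbourhoods
  obtain ⟨V, hV, hVd⟩ := Z.finite_toSet.t2_separation
  have hex : ∀ p : Z, ∃ U : Set (ℝ × ℝ), IsOpen U ∧ (p : ℝ × ℝ) ∈ U ∧
      U ⊆ V p ∩ {z | ψ p ≤ Ψ z} ∧ InjOn f U ∧
      ∃ δ : ℝ, 0 < δ ∧ ∀ y : ℝ × ℝ, ‖y‖ < δ → y ∈ f '' U := fun p =>
    exists_nhd hf (hZ p p.2).1 (hZ p p.2).2
      (Filter.inter_mem ((hV p).2.mem_nhds (hV p).1) (hψ p p.2))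
  choose U hUo hpU hUV hinj δ hδ hsurj using hex
  have hmeas : Measurable fun z => ENNReal.ofReal |(fderiv ℝ f z).det| := by
    refine ENNReal.measurable_ofReal.comp (Continuous.measurable ?_)
    have h1 : Continuous fun z => fderiv ℝ f z := hf.continuous_fderiv one_ne_zero
    exact (ContinuousLinearMap.continuous_det.comp h1).abs
  have hder : ∀ z, HasFDerivAt f (fderiv ℝ f z) z := fun z =>
    (hf.differentiable one_ne_zero z).hasFDerivAt
  refine le_liminf_of_le (by isBoundedDefault) ?_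
  have hev : ∀ᶠ m : ℕ in atTop, ∀ p : Z, 1 / ((m : ℝ) + 1) < δ p := by
    rw [eventually_all]
    intro p
    exact tendsto_one_div_add_atTop_nhds_zero_nat.eventually_lt_const (hδ p)
  refine hev.mono fun m hm => ?_
  set ε : ℝ := 1 / ((m : ℝ) + 1) with hε
  have hε0 : 0 < ε := by positivity
  set B : Set (ℝ × ℝ) := {z | ‖f z‖ < ε} with hB
  have hBo : IsOpen B := isOpen_lt hf.continuous.norm continuous_const
  -- one zero
  have hone : ∀ p : Z, ψ p * ENNReal.ofReal (4 * ε ^ 2) ≤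
      ∫⁻ z in U p ∩ B, ENNReal.ofReal |(fderiv ℝ f z).det| * Ψ z := by
    intro p
    have hms : MeasurableSet (U p ∩ B) := ((hUo p).inter hBo).measurableSet
    have himg : f '' (U p ∩ B) = {y : ℝ × ℝ | ‖y‖ < ε} := by
      ext y
      constructor
      · rintro ⟨x, hx, rfl⟩
        exact hx.2
      · intro hy
        obtain ⟨x, hx, rfl⟩ := hsurj p y (lt_trans hy (hm p))
        exact ⟨x, ⟨hx, hy⟩, rfl⟩
    have h1 : ∫⁻ z in U p ∩ B, ENNReal.ofReal |(fderiv ℝ f z).det| = ENNReal.ofReal (4 * ε ^ 2) := by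
      rw [lintegral_abs_det_fderiv_eq_addHaar_image volume hms
        (fun x _ => (hder x).hasFDerivWithinAt) ((hinj p).mono inter_subset_left), himg,
        vol_ball ε hε0]
    rw [← h1, mul_comm, ← lintegral_mul_const _ hmeas]
    refine setLIntegral_mono' hms fun z hz => ?_
    gcongr
    exact (hUV p hz.1).2
  -- the sum
  have hdisj : Pairwise (Function.onFun Disjoint fun p : Z => U p ∩ B) := by
    intro p p' hpp
    have h1 : Disjoint (V p) (V p') := hVd p.2 p'.2 (fun h => hpp (Subtype.ext h))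
    exact h1.mono (fun x hx => (hUV p hx.1).1) (fun x hx => (hUV p' hx.1).1)
  have hsum : ∑ p ∈ Z, ψ p * ENNReal.ofReal (4 * ε ^ 2) ≤
      ∫⁻ z, B.indicator (fun z => ENNReal.ofReal |(fderiv ℝ f z).det| * Ψ z) z := by
    rw [lintegral_indicator hBo.measurableSet]
    calc ∑ p ∈ Z, ψ p * ENNReal.ofReal (4 * ε ^ 2)
        = ∑ p : Z, ψ p * ENNReal.ofReal (4 * ε ^ 2) :=
          (Finset.sum_coe_sort Z fun p => ψ p * ENNReal.ofReal (4 * ε ^ 2)).symm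
      _ ≤ ∑ p : Z, ∫⁻ z in U p ∩ B, ENNReal.ofReal |(fderiv ℝ f z).det| * Ψ z :=
          Finset.sum_le_sum fun p _ => hone p
      _ = ∫⁻ z in ⋃ p : Z, U p ∩ B, ENNReal.ofReal |(fderiv ℝ f z).det| * Ψ z := by
          rw [lintegral_iUnion (fun p => ((hUo p).inter hBo).measurableSet) hdisj, tsum_fintype]
      _ ≤ ∫⁻ z in B, ENNReal.ofReal |(fderiv ℝ f z).det| * Ψ z :=
          lintegral_mono_set (iUnion_subset fun p => inter_subset_right)
  rw [← Finset.sum_mul] at hsum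
  have hc : ENNReal.ofReal (4 * ε ^ 2) * ENNReal.ofReal (((m : ℝ) + 1) ^ 2 / 4) = 1 := by
    rw [← ENNReal.ofReal_mul (by positivity), hε, ← ENNReal.ofReal_one]
    congr 1
    field_simp
  calc ∑ p ∈ Z, ψ p = (∑ p ∈ Z, ψ p) * (ENNReal.ofReal (4 * ε ^ 2) *
        ENNReal.ofReal (((m : ℝ) + 1) ^ 2 / 4)) := by rw [hc, mul_one]
    _ = ENNReal.ofReal (((m : ℝ) + 1) ^ 2 / 4) * ((∑ p ∈ Z, ψ p) * ENNReal.ofReal (4 * ε ^ 2)) := by
        ring
    _ ≤ _ := mul_le_mul_right hsum _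

end

end Pool.Agent.Helper63K9.KT
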