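import Pool.Agent.Helper63K9.KT.Leaves
import Pool.Agent.Helper63K9.KS.Mean

/-! Joint continuity and measurability of the field, its derivative and the kernels. -/

open Real Set MeasureTheory Filter
open scoped ENNReal Topology

namespace Pool.Agent.Helper63K9.KT

noncomputable section

open Pool.Agent.H709R2 (fld rot rotc NP wedge ClosedOrbit)
open Pool.Agent.W960.HR
open Pool.Agent.H709U
open Pool.Agent.Helper63K9.KS

namespace B27

theorem cd_F (n : ℕ) : ContDiff ℝ 2 fun x : ((T n → ℝ × ℝ) × (ℝ × ℝ)) × (ℝ × ℝ) =>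
    F n x.1.1 x.2 := by
  unfold F Gs
  refine ContDiff.sum fun m _ => ?_
  fun_prop

theorem cd_Xh (n : ℕ) : ContDiff ℝ 2 fun x : ((T n → ℝ × ℝ) × (ℝ × ℝ)) × (ℝ × ℝ) =>
    Xh n x.1.1 x.2 := by
  unfold Xh
  have hq : ContDiff ℝ 2 fun x : ((T n → ℝ × ℝ) × (ℝ × ℝ)) × (ℝ × ℝ) => q x.2 ^ n := by
    unfold q H709R2.sq
    fun_prop
  have hs : ContDiff ℝ 2 fun x : ((T n → ℝ × ℝ) × (ℝ × ℝ)) × (ℝ × ℝ) => (√(q x.2 ^ n))⁻¹ := by
    refine (hq.sqrt fun x => ?_).inv fun x => ?_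
    · exact (pow_pos (q_pos _) n).ne'
    · exact (Real.sqrt_pos.2 (pow_pos (q_pos _) n)).ne'
  exact hs.smul (cd_F n)

theorem cont_F (n : ℕ) : Continuous fun x : (T n → ℝ × ℝ) × (ℝ × ℝ) => F n x.1 x.2 :=
  (cd_F n).continuous.comp (by fun_prop : Continuous fun x : (T n → ℝ × ℝ) × (ℝ × ℝ) => (x, x.2))

theorem cont_Xh (n : ℕ) : Continuous fun x : (T n → ℝ × ℝ) × (ℝ × ℝ) => Xh n x.1 x.2 :=
  (cd_Xh n).continuous.comp (by fun_prop : Continuous fun x : (T n → ℝ × ℝ) × (ℝ × ℝ) => (x, x.2))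

theorem cont_dF (n : ℕ) : Continuous fun x : (T n → ℝ × ℝ) × (ℝ × ℝ) => fderiv ℝ (F n x.1) x.2 :=
  (ContDiff.fderiv (n := 1) (m := 2) (f := fun (x : (T n → ℝ × ℝ) × (ℝ × ℝ)) z => F n x.1 z)
    (g := fun x => x.2) (cd_F n) contDiff_snd (by norm_num)).continuous

theorem cont_dXh (n : ℕ) : Continuous fun x : (T n → ℝ × ℝ) × (ℝ × ℝ) => fderiv ℝ (Xh n x.1) x.2 :=
  (ContDiff.fderiv (n := 1) (m := 2) (f := fun (x : (T n → ℝ × ℝ) × (ℝ × ℝ)) z => Xh n x.1 z)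
    (g := fun x => x.2) (cd_Xh n) contDiff_snd (by norm_num)).continuous

theorem cont_det (n : ℕ) : Continuous fun x : (T n → ℝ × ℝ) × (ℝ × ℝ) =>
    (fderiv ℝ (Xh n x.1) x.2).det :=
  ContinuousLinearMap.continuous_det.comp (cont_dXh n)

theorem cd_X (n : ℕ) (c : T n → ℝ × ℝ) : ContDiff ℝ 2 (Xh n c) :=
  (cd_Xh n).comp (contDiff_const.prodMk contDiff_id :
    ContDiff ℝ 2 fun z : ℝ × ℝ => (((c, (0 : ℝ × ℝ)) : (T n → ℝ × ℝ) × (ℝ × ℝ)), z))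

theorem cont_q : Continuous q := by
  unfold q H709R2.sq
  fun_prop

theorem cont_wedge : Continuous fun x : (ℝ × ℝ) × (ℝ × ℝ) => wedge x.1 x.2 := by
  unfold wedge
  fun_prop

theorem cont_sq : Continuous H709R2.sq := by
  unfold H709R2.sq
  fun_prop

theorem cont_Sn (n : ℕ) : Continuous (Sn n) := by
  unfold Sn
  refine Continuous.sqrt (continuous_finsetSum _ fun m _ => ?_)
  exact continuous_const.mul (continuous_const.mul (cont_sq.comp (continuous_apply m)))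

theorem cont_YY (n : ℕ) : Continuous fun c : T n → ℝ × ℝ => wedge (Y1 n c) (Y2 n c) := by
  unfold Y1 Y2
  exact cont_wedge.comp ((continuous_lin _).prodMk (continuous_lin _))

theorem meas_hk (n : ℕ) : Measurable fun x : (T n → ℝ × ℝ) × (ℝ × ℝ) => hk (F n x.1) x.2 := by
  unfold hk
  have h1 : ∀ v : ℝ × ℝ, Measurable fun x : (T n → ℝ × ℝ) × (ℝ × ℝ) =>
      ENNReal.ofReal (|wedge (F n x.1 x.2) (fderiv ℝ (F n x.1) x.2 v)| /
        H709R2.sq (F n x.1 x.2)) := by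
    intro v
    have h2 : Continuous fun x : (T n → ℝ × ℝ) × (ℝ × ℝ) => fderiv ℝ (F n x.1) x.2 v :=
      (cont_dF n).clm_apply continuous_const
    have h3 : Continuous fun x : (T n → ℝ × ℝ) × (ℝ × ℝ) =>
        |wedge (F n x.1 x.2) (fderiv ℝ (F n x.1) x.2 v)| :=
      (cont_wedge.comp ((cont_F n).prodMk h2)).abs
    exact (h3.measurable.div (cont_sq.comp (cont_F n)).measurable).ennreal_ofReal
  exact (h1 _).add (h1 _)

variable {n : ℕ} {Tz : ℝ × ℝ → (T n → ℝ × ℝ) → (T n → ℝ × ℝ)}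

theorem cont_T (hT : FR n Tz) : Continuous fun x : (T n → ℝ × ℝ) × (ℝ × ℝ) => Tz x.2 x.1 :=
  hT.cont.comp continuous_swap

theorem open_Bd (hT : FR n Tz) (τ : ℝ) :
    IsOpen {x : (T n → ℝ × ℝ) × (ℝ × ℝ) | x.2 ∈ Bd n Tz τ x.1} := by
  unfold Bd
  simp only [mem_ofPred_eq]
  exact isOpen_lt ((cont_YY n).comp (cont_T hT)).abs
    (continuous_const.mul (((cont_Sn n).comp (cont_T hT)).pow 2))

theorem open_Uk (k : ℕ) : IsOpen (Uk k) := by
  unfold Uk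
  exact (isOpen_lt continuous_norm continuous_const).inter
    (isOpen_lt continuous_const (Real.continuous_sqrt.comp cont_q))

theorem meas_ball {A : Type*} [MeasurableSpace A] {f : A × (ℝ × ℝ) → ℝ≥0∞} (hf : Measurable f)
    (r : ℝ) : Measurable fun x : A × (ℝ × ℝ) => ∫⁻ w in Metric.ball x.2 r, f (x.1, w) := by
  have h1 : Measurable fun y : (A × (ℝ × ℝ)) × (ℝ × ℝ) => f (y.1.1, y.2) :=
    hf.comp ((measurable_fst.comp measurable_fst).prodMk measurable_snd)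
  have h3 : MeasurableSet {y : (A × (ℝ × ℝ)) × (ℝ × ℝ) | dist y.2 y.1.2 < r} :=
    measurableSet_lt (measurable_snd.dist (measurable_snd.comp measurable_fst)) measurable_const
  have h4 := (h1.indicator h3).lintegral_prod_right' (ν := (volume : Measure (ℝ × ℝ)))
  have h5 : (fun x : A × (ℝ × ℝ) => ∫⁻ w in Metric.ball x.2 r, f (x.1, w)) = fun x =>
      ∫⁻ w, {y : (A × (ℝ × ℝ)) × (ℝ × ℝ) | dist y.2 y.1.2 < r}.indicator
        (fun y => f (y.1.1, y.2)) (x, w) := by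
    funext x
    rw [← lintegral_indicator Metric.isOpen_ball.measurableSet]
    rfl
  rw [h5]
  exact h4

theorem meas_int (n : ℕ) (r : ℝ) : Measurable fun x : (T n → ℝ × ℝ) × (ℝ × ℝ) =>
    ∫⁻ w in Metric.ball x.2 r, hk (F n x.1) w :=
  meas_ball (meas_hk n) r

theorem meas_Psi (hT : FR n Tz) (k j : ℕ) (τ : ℝ) :
    Measurable fun x : (T n → ℝ × ℝ) × (ℝ × ℝ) => Psi n Tz k j τ x.1 x.2 := by
  have h1 : Measurable fun x : (T n → ℝ × ℝ) × (ℝ × ℝ) =>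
      ENNReal.ofReal (1 / (2 * (2 ^ k / 2 ^ (j + 1)))) *
        ∫⁻ w in Metric.ball x.2 (3 * (2 ^ k / 2 ^ j)), hk (F n x.1) w :=
    (meas_int n _).const_mul _
  have h3 : MeasurableSet {x : (T n → ℝ × ℝ) × (ℝ × ℝ) | x.2 ∈ Uk k ∩ Bd n Tz τ x.1} :=
    (((open_Uk k).preimage continuous_snd).inter (open_Bd hT τ)).measurableSet
  exact h1.indicator h3

/-- the integrand of the area formula -/
theorem meas_area {Ψ : (T n → ℝ × ℝ) → ℝ × ℝ → ℝ≥0∞}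
    (hΨ : Measurable fun x : (T n → ℝ × ℝ) × (ℝ × ℝ) => Ψ x.1 x.2) (ε : ℝ) :
    Measurable fun x : (T n → ℝ × ℝ) × (ℝ × ℝ) => {z : ℝ × ℝ | ‖Xh n x.1 z‖ < ε}.indicator
      (fun z => ENNReal.ofReal |(fderiv ℝ (Xh n x.1) z).det| * Ψ x.1 z) x.2 := by
  have h1 : Measurable fun x : (T n → ℝ × ℝ) × (ℝ × ℝ) =>
      ENNReal.ofReal |(fderiv ℝ (Xh n x.1) x.2).det| * Ψ x.1 x.2 :=
    (cont_det n).abs.measurable.ennreal_ofReal.mul hΨ
  have h2 : MeasurableSet {x : (T n → ℝ × ℝ) × (ℝ × ℝ) | ‖Xh n x.1 x.2‖ < ε} :=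
    (isOpen_lt (cont_Xh n).norm continuous_const).measurableSet
  exact h1.indicator h2

/-- Fatou and Tonelli -/
theorem fatou (hA : S_AREA) {Ψ : (T n → ℝ × ℝ) → ℝ × ℝ → ℝ≥0∞}
    (hΨ : Measurable fun x : (T n → ℝ × ℝ) × (ℝ × ℝ) => Ψ x.1 x.2) {K : ℝ} (hK : 0 ≤ K)
    (h : ∀ ε : ℝ, 0 < ε → ε ≤ 1 → ∫⁻ z, ∫⁻ c, {c : T n → ℝ × ℝ | ‖Xh n c z‖ < ε}.indicator
      (fun c => ENNReal.ofReal |(fderiv ℝ (Xh n c) z).det| * Ψ c z) c ∂GP (T n) ≤
      ENNReal.ofReal (K * ε ^ 2)) :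
    ∃ G : (T n → ℝ × ℝ) → ℝ≥0∞, Measurable G ∧ ∫⁻ c, G c ∂GP (T n) ≤ ENNReal.ofReal K ∧
      ∀ (c : T n → ℝ × ℝ) (Z : Finset (ℝ × ℝ)) (ψ : ℝ × ℝ → ℝ≥0∞), (∀ p ∈ Z, F n c p = 0 ∧
        (fderiv ℝ (Xh n c) p).det ≠ 0) → (∀ p ∈ Z, ∀ᶠ z in 𝓝 p, ψ p ≤ Ψ c z) →
        ∑ p ∈ Z, ψ p ≤ G c := by
  set g : ℕ → (T n → ℝ × ℝ) → ℝ≥0∞ := fun m c => ENNReal.ofReal (((m : ℝ) + 1) ^ 2 / 4) *
    ∫⁻ z, {z : ℝ × ℝ | ‖Xh n c z‖ < 1 / ((m : ℝ) + 1)}.indicator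
      (fun z => ENNReal.ofReal |(fderiv ℝ (Xh n c) z).det| * Ψ c z) z with hg
  have hgm : ∀ m, Measurable (g m) := by
    intro m
    exact Measurable.const_mul (Measurable.lintegral_prod_right' (meas_area hΨ _)) _
  refine ⟨fun c => liminf (fun m => g m c) atTop, Measurable.liminf hgm, ?_, ?_⟩
  · refine (lintegral_liminf_le hgm).trans ?_
    have hb : ∀ m, ∫⁻ c, g m c ∂GP (T n) ≤ ENNReal.ofReal K := by
      intro m
      rw [hg]
      simp only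
      rw [lintegral_const_mul' _ _ ENNReal.ofReal_ne_top,
        lintegral_lintegral_swap (meas_area hΨ _).aemeasurable]
      have hm0 : (0 : ℝ) < (m : ℝ) + 1 := by positivity
      have h1 := h (1 / ((m : ℝ) + 1)) (by positivity)
        (by rw [div_le_one hm0]; linarith [(Nat.cast_nonneg m : (0 : ℝ) ≤ m)])
      have h2 : ∫⁻ z, ∫⁻ c, {z : ℝ × ℝ | ‖Xh n c z‖ < 1 / ((m : ℝ) + 1)}.indicator
          (fun z => ENNReal.ofReal |(fderiv ℝ (Xh n c) z).det| * Ψ c z) z ∂GP (T n) =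
          ∫⁻ z, ∫⁻ c, {c : T n → ℝ × ℝ | ‖Xh n c z‖ < 1 / ((m : ℝ) + 1)}.indicator
          (fun c => ENNReal.ofReal |(fderiv ℝ (Xh n c) z).det| * Ψ c z) c ∂GP (T n) := by
        congr 1
      rw [h2]
      refine (mul_le_mul_right h1 _).trans ?_
      rw [← ENNReal.ofReal_mul (by positivity)]
      refine ENNReal.ofReal_le_ofReal ?_
      have e : (((m : ℝ) + 1) ^ 2 / 4) * (K * (1 / ((m : ℝ) + 1)) ^ 2) = K / 4 := by
        field_simp
      rw [e]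
      linarith
    calc liminf (fun m => ∫⁻ c, g m c ∂GP (T n)) atTop ≤
        liminf (fun _ : ℕ => ENNReal.ofReal K) atTop := liminf_le_liminf
          (Eventually.of_forall hb)
      _ = ENNReal.ofReal K := liminf_const _
  · intro c Z ψ hZ hψ
    refine hA (Xh n c) ((cd_X n c).of_le (by norm_num)) Z ?_ ψ (Ψ c) ?_ hψ
    · intro p hp
      refine ⟨?_, (hZ p hp).2⟩
      unfold Xh
      rw [(hZ p hp).1, smul_zero]
    · exact hΨ.comp (by fun_prop : Measurable fun z : ℝ × ℝ => (c, z))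

end B27

end

end Pool.Agent.Helper63K9.KT
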