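import Pool.Agent.Helper63K9.KT.Leaves

/-! Leaf DX: the Jacobian determinant. -/

open Real Set MeasureTheory Filter
open scoped ENNReal Topology

namespace Pool.Agent.Helper63K9.KT

noncomputable section

open Pool.Agent.H709R2 (fld rot rotc NP wedge ClosedOrbit)
open Pool.Agent.W960.HR
open Pool.Agent.H709U
open Pool.Agent.Helper63K9.KS

namespace Dx

lemma sqrt_q_pos (z : ℝ × ℝ) : 0 < √(q z) := Real.sqrt_pos.2 (q_pos z)

lemma sqrt_q_sq (z : ℝ × ℝ) : √(q z) ^ 2 = 1 + z.1 ^ 2 + z.2 ^ 2 := by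
  rw [Real.sq_sqrt (q_pos z).le, q_eq]

/-- the derivative of `q` -/
lemma hasFDerivAt_q (z : ℝ × ℝ) : HasFDerivAt q
    ((2 * z.1) • ContinuousLinearMap.fst ℝ ℝ ℝ + (2 * z.2) • ContinuousLinearMap.snd ℝ ℝ ℝ) z := by
  have h1 : HasFDerivAt (fun z : ℝ × ℝ => z.1 ^ 2) ((2 * z.1) • ContinuousLinearMap.fst ℝ ℝ ℝ) z := by
    have := (hasFDerivAt_fst (𝕜 := ℝ) (p := z)).pow 2
    simpa using this
  have h2 : HasFDerivAt (fun z : ℝ × ℝ => z.2 ^ 2) ((2 * z.2) • ContinuousLinearMap.snd ℝ ℝ ℝ) z := by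
    have := (hasFDerivAt_snd (𝕜 := ℝ) (p := z)).pow 2
    simpa using this
  have h3 := (h1.add h2).const_add (1 : ℝ)
  exact h3

lemma det_eq (L : ℝ × ℝ →L[ℝ] ℝ × ℝ) : L.det = wedge (L (1, 0)) (L (0, 1)) := by
  show LinearMap.det (L : ℝ × ℝ →ₗ[ℝ] ℝ × ℝ) = _
  rw [← LinearMap.det_toMatrix (Module.Basis.finTwoProd ℝ), Matrix.det_fin_two]
  simp only [LinearMap.toMatrix_apply, Module.Basis.finTwoProd_zero, Module.Basis.finTwoProd_one]
  simp [wedge, Module.Basis.coe_finTwoProd_repr]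
  ring

lemma q_zero : q 0 = 1 := by
  unfold q H709R2.sq
  simp

/-- the field at the centre of a chart -/
lemma hasFDerivAt_zero (n : ℕ) (b : T n → ℝ × ℝ) : HasFDerivAt (Xh n b)
    ((ContinuousLinearMap.fst ℝ ℝ ℝ).smulRight (Y1 n b) +
      (ContinuousLinearMap.snd ℝ ℝ ℝ).smulRight (Y2 n b)) 0 := by
  have h1 : HasFDerivAt q (0 : ℝ × ℝ →L[ℝ] ℝ) 0 := by
    have := hasFDerivAt_q 0
    simpa using this
  have h2 : DifferentiableAt ℝ (fun x : ℝ => (√(x ^ n))⁻¹) (q 0) := by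
    have h3 : (q 0) ^ n ≠ 0 := pow_ne_zero _ (q_pos 0).ne'
    refine DifferentiableAt.inv ?_ (Real.sqrt_ne_zero'.2 (pow_pos (q_pos 0) n))
    exact (differentiableAt_id.pow n).sqrt h3
  have h3 := h2.hasDerivAt.comp_hasFDerivAt (0 : ℝ × ℝ) h1
  rw [smul_zero] at h3
  have h4 := h3.smul (hasFDerivAt_F n b 0)
  have h5 : ((fun x : ℝ => (√(x ^ n))⁻¹) ∘ q) 0 = 1 := by
    simp [q_zero]
  rw [h5] at h4
  have h6 : HasFDerivAt (Xh n b) _ 0 := h4
  refine h6.congr_fderiv ?_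
  apply ContinuousLinearMap.ext
  intro v
  simp [Y1, Y2]

/-- linear form of a vector -/
def ipL (z : ℝ × ℝ) : ℝ × ℝ →L[ℝ] ℝ :=
  z.1 • ContinuousLinearMap.fst ℝ ℝ ℝ + z.2 • ContinuousLinearMap.snd ℝ ℝ ℝ

lemma ipL_apply (z w : ℝ × ℝ) : ipL z w = ip z w := by
  simp [ipL, ip]

lemma hasFDerivAt_ip (z w : ℝ × ℝ) : HasFDerivAt (ip z) (ipL z) w := by
  have h := (ipL z).hasFDerivAt (x := w)
  have h2 : ip z = ipL z := by
    funext v
    rw [ipL_apply]
  rw [h2]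
  exact h

lemma ip_self (z : ℝ × ℝ) : 1 + ip z z = q z := by
  rw [← q_eq]
  unfold ip
  ring

/-- the derivative of the chart at its centre -/
def Du (z : ℝ × ℝ) : ℝ × ℝ →L[ℝ] ℝ × ℝ :=
  (√(q z))⁻¹ • (ContinuousLinearMap.id ℝ (ℝ × ℝ) -
    ((√(q z) * (√(q z) + 1))⁻¹ • ipL z).smulRight z)

lemma uz_self (z : ℝ × ℝ) : uz z z = 0 := by
  have hR := sqrt_q_pos z
  have h2 := sqrt_q_sq z
  have h3 : 1 / √(q z) + ip z z / (√(q z) * (√(q z) + 1)) = 1 := by
    have h4 : ip z z = √(q z) ^ 2 - 1 := by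
      rw [h2]
      unfold ip
      ring
    rw [h4]
    field_simp
    ring
  unfold uz
  rw [h3, one_smul, sub_self, smul_zero]

lemma hasFDerivAt_uz (z : ℝ × ℝ) : HasFDerivAt (uz z) (Du z) z := by
  have hR := sqrt_q_pos z
  have h2 := sqrt_q_sq z
  have hct : ct z z = √(q z) := by
    unfold ct
    rw [ip_self, Real.div_sqrt]
  have h3 : HasFDerivAt (ct z) ((√(q z))⁻¹ • ipL z) z := by
    have h4 := ((hasFDerivAt_ip z z).const_add 1).const_smul ((√(q z))⁻¹)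
    have h5 : ct z = fun w => (√(q z))⁻¹ • (1 + ip z w) := by
      funext w
      unfold ct
      rw [smul_eq_mul, div_eq_inv_mul]
    rw [h5]
    exact h4
  have h4 : DifferentiableAt ℝ (fun w => (ct z w)⁻¹) z := by
    apply DifferentiableAt.inv h3.differentiableAt
    rw [hct]
    exact hR.ne'
  have h5 : HasFDerivAt (fun w => w - (1 / √(q z) + ip z w / (√(q z) * (√(q z) + 1))) • z)
      (ContinuousLinearMap.id ℝ (ℝ × ℝ) -
        ((√(q z) * (√(q z) + 1))⁻¹ • ipL z).smulRight z) z := by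
    have h6 := (((hasFDerivAt_ip z z).const_smul ((√(q z) * (√(q z) + 1))⁻¹)).const_add
      (1 / √(q z))).smul_const z
    have h7 := (hasFDerivAt_id z).sub h6
    have h8 : (fun w : ℝ × ℝ => w - (1 / √(q z) + ip z w / (√(q z) * (√(q z) + 1))) • z) =
        (fun w : ℝ × ℝ => id w - (1 / √(q z) + (√(q z) * (√(q z) + 1))⁻¹ • ip z w) • z) := by
      funext w
      rw [smul_eq_mul, inv_mul_eq_div, id]
    rw [h8]
    exact h7
  have h6 := h4.hasFDerivAt.smul h5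
  have h7 : z - (1 / √(q z) + ip z z / (√(q z) * (√(q z) + 1))) • z = 0 := by
    have h8 := uz_self z
    unfold uz at h8
    rcases smul_eq_zero.1 h8 with h9 | h9
    · rw [hct] at h9
      exact absurd h9 (inv_ne_zero hR.ne')
    · exact h9
  have h8 : HasFDerivAt (uz z) _ z := h6
  refine h8.congr_fderiv ?_
  rw [h7, hct]
  apply ContinuousLinearMap.ext
  intro v
  simp [Du]

lemma det_Du (z : ℝ × ℝ) : (Du z).det = 1 / √(q z) ^ 3 := by
  have hR := sqrt_q_pos z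
  have h2 := sqrt_q_sq z
  rw [det_eq]
  simp only [Du, _root_.smul_apply, _root_.sub_apply,
    ContinuousLinearMap.id_apply, ContinuousLinearMap.smulRight_apply, ipL_apply, wedge, ip,
    Prod.smul_fst, Prod.smul_snd, Prod.fst_sub, Prod.snd_sub, smul_eq_mul]
  obtain ⟨a, b⟩ := z
  simp only at *
  set R := √(q (a, b)) with hRdef
  have hR0 : R ≠ 0 := hR.ne'
  have hR1 : R + 1 ≠ 0 := by positivity
  have h3 : b ^ 2 = R ^ 2 - 1 - a ^ 2 := by linarith
  field_simp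
  linear_combination (-(R + R ^ 2)) * h3

lemma det_comp' (A B : ℝ × ℝ →L[ℝ] ℝ × ℝ) : (A.comp B).det = A.det * B.det := by
  show LinearMap.det ((A : ℝ × ℝ →ₗ[ℝ] ℝ × ℝ) ∘ₗ (B : ℝ × ℝ →ₗ[ℝ] ℝ × ℝ)) = _
  rw [LinearMap.det_comp]

end Dx

open Dx in
theorem dx : S_DX := by
  intro n Tz hT c z
  set b := Tz z c with hb
  have h1 : Xh n c =ᶠ[𝓝 z] (Xh n b ∘ uz z) := by
    have h2 : ContinuousAt (fun w => 1 + ip z w) z :=
      ((hasFDerivAt_ip z z).continuousAt).const_add 1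
    have h3 : (0 : ℝ) < 1 + ip z z := by
      rw [ip_self]
      exact q_pos z
    filter_upwards [h2.eventually (lt_mem_nhds h3)] with w hw
    exact hT.chart z c w hw
  have h2 : HasFDerivAt (Xh n b ∘ uz z) _ z :=
    HasFDerivAt.comp z (by rw [uz_self]; exact hasFDerivAt_zero n b) (hasFDerivAt_uz z)
  rw [(h2.congr_of_eventuallyEq h1).fderiv, det_comp', det_Du, det_eq, abs_mul]
  have h3 := sqrt_q_pos z
  rw [abs_of_pos (show (0 : ℝ) < 1 / √(q z) ^ 3 by positivity)]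
  simp [div_eq_mul_inv]

end

end Pool.Agent.Helper63K9.KT
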