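import Pool.Agent.Helper63K9.KT.Leaves
import Pool.Agent.Helper63K9.KT.LDX
import Pool.Agent.W960.HR.Local

/-! Leaf DG: the zone at a nondegenerate zero. -/

open Real Set MeasureTheory Filter
open scoped ENNReal Topology

namespace Pool.Agent.Helper63K9.KT

noncomputable section

open Pool.Agent.H709R2 (fld rot rotc NP wedge ClosedOrbit)
open Pool.Agent.W960.HR
open Pool.Agent.H709U
open Pool.Agent.Helper63K9.KS

namespace Dg

open Dx

lemma one_le_R (p : ℝ × ℝ) : 1 ≤ √(q p) := Real.one_le_sqrt.2 (one_le_q p)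

lemma norm_sq_le (p : ℝ × ℝ) : ‖p‖ ^ 2 ≤ √(q p) ^ 2 - 1 := by
  have h1 := norm_sq_le_sq p
  rw [sqrt_q_sq]
  unfold H709R2.sq at h1
  linarith

lemma norm_le_R (p : ℝ × ℝ) : ‖p‖ ≤ √(q p) := by
  have h1 := norm_sq_le p
  have h2 := one_le_R p
  exact le_of_sq_le_sq (by linarith) (by linarith)

lemma abs_ip_le (p v : ℝ × ℝ) : |ip p v| ≤ 2 * ‖p‖ * ‖v‖ := by
  unfold ip
  have h1 := mul_le_mul (norm_fst_le p) (norm_fst_le v) (norm_nonneg _) (norm_nonneg p)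
  have h2 := mul_le_mul (norm_snd_le p) (norm_snd_le v) (norm_nonneg _) (norm_nonneg p)
  simp only [Real.norm_eq_abs] at h1 h2
  calc |p.1 * v.1 + p.2 * v.2| ≤ |p.1 * v.1| + |p.2 * v.2| := abs_add_le _ _
    _ = |p.1| * |v.1| + |p.2| * |v.2| := by rw [abs_mul, abs_mul]
    _ ≤ 2 * ‖p‖ * ‖v‖ := by linarith

/-- the linear part of the chart -/
def AL (p : ℝ × ℝ) : ℝ × ℝ →L[ℝ] ℝ × ℝ :=
  ContinuousLinearMap.id ℝ (ℝ × ℝ) - ((√(q p) * (√(q p) + 1))⁻¹ • ipL p).smulRight p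

lemma AL_apply (p v : ℝ × ℝ) : AL p v = v - ((√(q p) * (√(q p) + 1))⁻¹ * ip p v) • p := by
  simp [AL, ipL_apply]

lemma AL_le (p v : ℝ × ℝ) : ‖AL p v‖ ≤ 3 * ‖v‖ := by
  rw [AL_apply]
  have hR := one_le_R p
  have hR0 : 0 < √(q p) := by linarith
  have h1 := norm_sq_le p
  have h2 := abs_ip_le p v
  refine (norm_sub_le _ _).trans ?_
  rw [norm_smul, Real.norm_eq_abs, abs_mul, abs_of_nonneg (by positivity)]
  have h3 : (√(q p) * (√(q p) + 1))⁻¹ * |ip p v| * ‖p‖ ≤ 2 * ‖v‖ := by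
    rw [inv_mul_eq_div, div_mul_eq_mul_div, div_le_iff₀ (by positivity)]
    calc |ip p v| * ‖p‖ ≤ (2 * ‖p‖ * ‖v‖) * ‖p‖ := mul_le_mul_of_nonneg_right h2 (norm_nonneg _)
      _ = 2 * ‖v‖ * ‖p‖ ^ 2 := by ring
      _ ≤ 2 * ‖v‖ * (√(q p) ^ 2 - 1) := mul_le_mul_of_nonneg_left h1 (by positivity)
      _ ≤ 2 * ‖v‖ * (√(q p) * (√(q p) + 1)) :=
        mul_le_mul_of_nonneg_left (by nlinarith) (by positivity)
  linarith

/-- the factor of the chart -/
def tt (p h : ℝ × ℝ) : ℝ := √(q p) + ip p h / √(q p)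

lemma ip_sub (p w : ℝ × ℝ) : ip p w = ip p (w - p) + (√(q p) ^ 2 - 1) := by
  rw [sqrt_q_sq]
  unfold ip
  simp only [Prod.fst_sub, Prod.snd_sub]
  ring

lemma tt_eq (p w : ℝ × ℝ) : tt p (w - p) = ct p w := by
  have hR0 : √(q p) ≠ 0 := (sqrt_q_pos p).ne'
  unfold tt ct
  rw [ip_sub p w]
  field_simp
  ring

lemma uz_eq (p w : ℝ × ℝ) : uz p w = (tt p (w - p))⁻¹ • AL p (w - p) := by
  have hR := sqrt_q_pos p
  rw [tt_eq, AL_apply]
  unfold uz
  congr 1
  have h1 : 1 / √(q p) + ip p w / (√(q p) * (√(q p) + 1)) =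
      1 + (√(q p) * (√(q p) + 1))⁻¹ * ip p (w - p) := by
    rw [ip_sub p w]
    field_simp
    ring
  rw [h1, add_smul, one_smul]
  abel

/-- the derivative of the chart -/
def Dw (p w : ℝ × ℝ) : ℝ × ℝ →L[ℝ] ℝ × ℝ :=
  (tt p (w - p))⁻¹ • AL p -
    (((tt p (w - p) ^ 2)⁻¹ * (√(q p))⁻¹) • ipL p).smulRight (AL p (w - p))

lemma hasFDerivAt_uzw {p w : ℝ × ℝ} (h : tt p (w - p) ≠ 0) : HasFDerivAt (uz p) (Dw p w) w := by
  have h1 : HasFDerivAt (fun w => tt p (w - p)) ((√(q p))⁻¹ • ipL p) w := by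
    have h2 := (hasFDerivAt_ip p (w - p)).comp w ((hasFDerivAt_id w).sub_const p)
    have h3 := (h2.const_smul ((√(q p))⁻¹)).const_add (√(q p))
    have h4 : (fun w => tt p (w - p)) = fun w => √(q p) + (√(q p))⁻¹ • (ip p ∘ fun w => w - p) w := by
      funext x
      unfold tt
      rw [smul_eq_mul, inv_mul_eq_div]
      rfl
    rw [h4]
    exact h3
  have h2 := (hasDerivAt_inv h).comp_hasFDerivAt w h1
  have h3 : HasFDerivAt (fun w => AL p (w - p)) (AL p) w :=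
    (AL p).hasFDerivAt.comp w ((hasFDerivAt_id w).sub_const p)
  have h4 := h2.smul h3
  have h5 : uz p = ((fun x : ℝ => x⁻¹) ∘ fun w => tt p (w - p)) • fun w => AL p (w - p) := by
    funext x
    exact uz_eq p x
  rw [h5]
  refine h4.congr_fderiv ?_
  apply ContinuousLinearMap.ext
  intro v
  simp only [Dw, _root_.add_apply, _root_.sub_apply, _root_.smul_apply,
    ContinuousLinearMap.smulRight_apply, Function.comp_apply, smul_eq_mul]
  module

lemma ip_h_le (p w : ℝ × ℝ) : |ip p (w - p) / √(q p)| ≤ 2 * ‖w - p‖ := by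
  have hR0 := sqrt_q_pos p
  rw [abs_div, abs_of_pos hR0, div_le_iff₀ hR0]
  have h1 := abs_ip_le p (w - p)
  have h2 := norm_le_R p
  have h3 := norm_nonneg (w - p)
  nlinarith

section bounds

variable {p w : ℝ × ℝ} (hw : ‖w - p‖ ≤ √(q p) / 8)

include hw

lemma tt_ge : 3 / 4 * √(q p) ≤ tt p (w - p) := by
  have h1 := ip_h_le p w
  have h2 := (abs_le.1 h1).1
  unfold tt
  linarith

lemma tt_inv_le : (tt p (w - p))⁻¹ ≤ 4 / 3 / √(q p) := by
  have hR0 := sqrt_q_pos p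
  have h1 := tt_ge hw
  have h2 : 0 < tt p (w - p) := by linarith
  rw [inv_eq_one_div, div_div, div_le_div_iff₀ h2 (by positivity)]
  linarith

lemma uz_le : ‖uz p w‖ ≤ 4 / √(q p) * ‖w - p‖ := by
  have hR0 := sqrt_q_pos p
  have h1 := tt_ge hw
  have h2 : 0 < tt p (w - p) := by linarith
  rw [uz_eq, norm_smul, Real.norm_of_nonneg (inv_nonneg.2 h2.le)]
  calc (tt p (w - p))⁻¹ * ‖AL p (w - p)‖ ≤ (4 / 3 / √(q p)) * (3 * ‖w - p‖) :=
        mul_le_mul (tt_inv_le hw) (AL_le _ _) (norm_nonneg _) (by positivity)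
    _ = 4 / √(q p) * ‖w - p‖ := by ring

lemma second_le (v : ℝ × ℝ) : ‖((((tt p (w - p) ^ 2)⁻¹ * (√(q p))⁻¹) • ipL p).smulRight
    (AL p (w - p))) v‖ ≤ 11 / √(q p) ^ 2 * ‖w - p‖ * ‖v‖ := by
  have hR0 := sqrt_q_pos p
  have h1 := tt_ge hw
  have h2 : 0 < tt p (w - p) := by linarith
  rw [ContinuousLinearMap.smulRight_apply, norm_smul, _root_.smul_apply, smul_eq_mul, ipL_apply,
    norm_mul, Real.norm_of_nonneg (by positivity), Real.norm_eq_abs]
  have h3 : (tt p (w - p) ^ 2)⁻¹ ≤ (4 / 3 / √(q p)) ^ 2 := by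
    rw [← inv_pow]
    exact pow_le_pow_left₀ (inv_nonneg.2 h2.le) (tt_inv_le hw) 2
  have h4 : (√(q p))⁻¹ * |ip p v| ≤ 2 * ‖v‖ := by
    rw [inv_mul_eq_div, div_le_iff₀ hR0]
    have h5 := abs_ip_le p v
    have h6 := norm_le_R p
    have h7 := norm_nonneg v
    nlinarith
  calc (tt p (w - p) ^ 2)⁻¹ * (√(q p))⁻¹ * |ip p v| * ‖AL p (w - p)‖
      = (tt p (w - p) ^ 2)⁻¹ * ((√(q p))⁻¹ * |ip p v|) * ‖AL p (w - p)‖ := by ring
    _ ≤ (4 / 3 / √(q p)) ^ 2 * (2 * ‖v‖) * (3 * ‖w - p‖) := by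
        refine mul_le_mul (mul_le_mul h3 h4 (by positivity) (by positivity)) (AL_le _ _)
          (norm_nonneg _) (by positivity)
    _ = 32 / 3 / √(q p) ^ 2 * ‖w - p‖ * ‖v‖ := by
        field_simp
        ring
    _ ≤ 11 / √(q p) ^ 2 * ‖w - p‖ * ‖v‖ := by
        gcongr
        norm_num

lemma Dw_le (v : ℝ × ℝ) : ‖Dw p w v‖ ≤ 6 / √(q p) * ‖v‖ := by
  have hR0 := sqrt_q_pos p
  have h1 := tt_ge hw
  have h2 : 0 < tt p (w - p) := by linarith
  unfold Dw
  rw [_root_.sub_apply]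
  refine (norm_sub_le _ _).trans ?_
  have h3 := second_le hw v
  have h4 : ‖((tt p (w - p))⁻¹ • AL p) v‖ ≤ 4 / √(q p) * ‖v‖ := by
    rw [_root_.smul_apply, norm_smul, Real.norm_of_nonneg (inv_nonneg.2 h2.le)]
    calc (tt p (w - p))⁻¹ * ‖AL p v‖ ≤ (4 / 3 / √(q p)) * (3 * ‖v‖) :=
          mul_le_mul (tt_inv_le hw) (AL_le _ _) (norm_nonneg _) (by positivity)
      _ = 4 / √(q p) * ‖v‖ := by ring
  have h5 : 11 / √(q p) ^ 2 * ‖w - p‖ * ‖v‖ ≤ 2 / √(q p) * ‖v‖ := by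
    refine mul_le_mul_of_nonneg_right ?_ (norm_nonneg _)
    calc 11 / √(q p) ^ 2 * ‖w - p‖ ≤ 11 / √(q p) ^ 2 * (√(q p) / 8) :=
          mul_le_mul_of_nonneg_left hw (by positivity)
      _ = 11 / 8 / √(q p) := by field_simp
      _ ≤ 2 / √(q p) := by
        gcongr
        norm_num
  calc _ ≤ 4 / √(q p) * ‖v‖ + 2 / √(q p) * ‖v‖ := add_le_add h4 (h3.trans h5)
    _ = 6 / √(q p) * ‖v‖ := by ring

lemma Dw_sub (v : ℝ × ℝ) : ‖Dw p w v - Dw p p v‖ ≤ 19 / √(q p) ^ 2 * ‖w - p‖ * ‖v‖ := by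
  have hR0 := sqrt_q_pos p
  have h1 := tt_ge hw
  have h2 : 0 < tt p (w - p) := by linarith
  have h0 : tt p (p - p) = √(q p) := by
    unfold tt ip
    simp
  have e : Dw p w v - Dw p p v = ((tt p (w - p))⁻¹ - (√(q p))⁻¹) • AL p v -
      ((((tt p (w - p) ^ 2)⁻¹ * (√(q p))⁻¹) • ipL p).smulRight (AL p (w - p))) v := by
    unfold Dw
    rw [h0, sub_self, map_zero]
    simp only [_root_.sub_apply, _root_.smul_apply, ContinuousLinearMap.smulRight_apply, smul_zero,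
      sub_zero]
    rw [sub_smul]
    abel
  rw [e]
  refine (norm_sub_le _ _).trans ?_
  have h3 := second_le hw v
  have h4 : ‖((tt p (w - p))⁻¹ - (√(q p))⁻¹) • AL p v‖ ≤ 8 / √(q p) ^ 2 * ‖w - p‖ * ‖v‖ := by
    rw [norm_smul, Real.norm_eq_abs]
    have h5 : (tt p (w - p))⁻¹ - (√(q p))⁻¹ =
        -((tt p (w - p))⁻¹ * (√(q p))⁻¹ * (ip p (w - p) / √(q p))) := by
      have h6 : tt p (w - p) = √(q p) + ip p (w - p) / √(q p) := rfl
      field_simp
      rw [h6]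
      field_simp
      ring
    have h6 : |(tt p (w - p))⁻¹ - (√(q p))⁻¹| ≤ (4 / 3 / √(q p)) * (√(q p))⁻¹ * (2 * ‖w - p‖) := by
      rw [h5, abs_neg, abs_mul, abs_of_nonneg (by positivity)]
      exact mul_le_mul (mul_le_mul_of_nonneg_right (tt_inv_le hw) (by positivity)) (ip_h_le p w)
        (abs_nonneg _) (by positivity)
    calc |(tt p (w - p))⁻¹ - (√(q p))⁻¹| * ‖AL p v‖ ≤
        ((4 / 3 / √(q p)) * (√(q p))⁻¹ * (2 * ‖w - p‖)) * (3 * ‖v‖) :=
          mul_le_mul h6 (AL_le _ _) (norm_nonneg _) (by positivity)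
      _ = 8 / √(q p) ^ 2 * ‖w - p‖ * ‖v‖ := by
        field_simp
        ring
  calc _ ≤ 8 / √(q p) ^ 2 * ‖w - p‖ * ‖v‖ + 11 / √(q p) ^ 2 * ‖w - p‖ * ‖v‖ := add_le_add h4 h3
    _ = 19 / √(q p) ^ 2 * ‖w - p‖ * ‖v‖ := by ring

end bounds

/-- lower bound of a linear map by its determinant -/
lemma det_lower (L : ℝ × ℝ →L[ℝ] ℝ × ℝ) {M : ℝ} (hM : ∀ v, ‖L v‖ ≤ M * ‖v‖) (v : ℝ × ℝ) :
    ‖v‖ * |L.det| ≤ 2 * M * ‖L v‖ := by
  have hL : L v = v.1 • L (1, 0) + v.2 • L (0, 1) := by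
    rw [← map_smul, ← map_smul, ← map_add]
    congr 1
    ext <;> simp
  have h1 : v.1 * L.det = wedge (L v) (L (0, 1)) := by
    rw [det_eq, hL]
    simp only [wedge, Prod.fst_add, Prod.snd_add, Prod.smul_fst, Prod.smul_snd, smul_eq_mul]
    ring
  have h2 : v.2 * L.det = wedge (L (1, 0)) (L v) := by
    rw [det_eq, hL]
    simp only [wedge, Prod.fst_add, Prod.snd_add, Prod.smul_fst, Prod.smul_snd, smul_eq_mul]
    ring
  have e1 : ‖((1 : ℝ), (0 : ℝ))‖ = 1 := by simp [Prod.norm_def]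
  have e2 : ‖((0 : ℝ), (1 : ℝ))‖ = 1 := by simp [Prod.norm_def]
  have h3 := hM (1, 0)
  have h4 := hM (0, 1)
  rw [e1, mul_one] at h3
  rw [e2, mul_one] at h4
  have h5 : |v.1| * |L.det| ≤ 2 * M * ‖L v‖ := by
    rw [← abs_mul, h1]
    refine (abs_wedge_le _ _).trans ?_
    have := mul_le_mul_of_nonneg_left h4 (norm_nonneg (L v))
    linarith
  have h6 : |v.2| * |L.det| ≤ 2 * M * ‖L v‖ := by
    rw [← abs_mul, h2]
    refine (abs_wedge_le _ _).trans ?_
    have := mul_le_mul_of_nonneg_right h3 (norm_nonneg (L v))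
    linarith
  rw [Prod.norm_def, Real.norm_eq_abs, Real.norm_eq_abs]
  rcases max_cases |v.1| |v.2| with ⟨h, -⟩ | ⟨h, -⟩
  · rw [h]; exact h5
  · rw [h]; exact h6

end Dg

open Dx Dg in
theorem dg : S_S0 → S_DG := by
  rintro ⟨K₀, hK₀, hS0⟩
  set K : ℝ := max K₀ 1 with hKdef
  have hK1 : 1 ≤ K := le_max_right _ _
  have hK00 : K₀ ≤ K := le_max_left _ _
  have hK0 : 0 < K := by linarith
  refine ⟨1200000 * K ^ 4, by positivity, ?_⟩
  intro n hn Tz hT c p hp D τ hD hτ hτ1 hcond hne hlow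
  obtain ⟨s1, s2, s3⟩ := hS0 n hn (Tz p c)
  set b := Tz p c with hb
  set S := Sn n b with hSdef
  set R := √(q p) with hRdef
  have hn0 : (0 : ℝ) < n := by exact_mod_cast hn
  have hn1 : (1 : ℝ) ≤ n := by exact_mod_cast hn
  have hs0 : (0 : ℝ) < √n := Real.sqrt_pos.2 hn0
  have hs1 : (1 : ℝ) ≤ √n := Real.one_le_sqrt.2 hn1
  have hnn : √(n : ℝ) * √n = n := Real.mul_self_sqrt hn0.le
  have hR1 : 1 ≤ R := one_le_R p
  have hR0 : 0 < R := by linarith
  have hSn : 0 ≤ S := Real.sqrt_nonneg _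
  -- the field is differentiable
  have hL0 := hasFDerivAt_zero n b
  have hdiff : Differentiable ℝ (Xh n c) := by
    have h1 : Differentiable ℝ (fun z => √(q z ^ n)) := by
      intro z
      have h2 : DifferentiableAt ℝ q z := (hasFDerivAt_q z).differentiableAt
      exact (h2.pow n).sqrt (pow_ne_zero _ (q_pos z).ne')
    intro z
    have h2 : DifferentiableAt ℝ (fun z => (√(q z ^ n))⁻¹) z :=
      (h1 z).inv (Real.sqrt_ne_zero'.2 (pow_pos (q_pos z) n))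
    exact h2.smul (hasFDerivAt_F n c z).differentiableAt
  have hdiffb : Differentiable ℝ (Xh n b) := by
    have h1 : Differentiable ℝ (fun z => √(q z ^ n)) := by
      intro z
      have h2 : DifferentiableAt ℝ q z := (hasFDerivAt_q z).differentiableAt
      exact (h2.pow n).sqrt (pow_ne_zero _ (q_pos z).ne')
    intro z
    have h2 : DifferentiableAt ℝ (fun z => (√(q z ^ n))⁻¹) z :=
      (h1 z).inv (Real.sqrt_ne_zero'.2 (pow_pos (q_pos z) n))
    exact h2.smul (hasFDerivAt_F n b z).differentiableAt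
  -- chain rule
  have hchain : ∀ z, ‖z - p‖ ≤ R / 8 →
      fderiv ℝ (Xh n c) z = (fderiv ℝ (Xh n b) (uz p z)).comp (Dw p z) := by
    intro z hz
    have h1 := tt_ge hz
    have h2 : 0 < tt p (z - p) := by linarith
    have h3 : 0 < 1 + ip p z := by
      rw [tt_eq] at h2
      unfold ct at h2
      have := mul_pos h2 hR0
      rwa [div_mul_cancel₀ _ hR0.ne'] at this
    have h4 : Xh n c =ᶠ[𝓝 z] (Xh n b ∘ uz p) := by
      have h5 : ContinuousAt (fun w => 1 + ip p w) z :=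
        ((hasFDerivAt_ip p z).continuousAt).const_add 1
      filter_upwards [h5.eventually (lt_mem_nhds h3)] with w hw
      exact hT.chart p c w hw
    have h5 : HasFDerivAt (Xh n b ∘ uz p) _ z :=
      HasFDerivAt.comp z (hdiffb (uz p z)).hasFDerivAt (hasFDerivAt_uzw h2.ne')
    exact (h5.congr_of_eventuallyEq h4).fderiv
  have hpp : ‖p - p‖ ≤ R / 8 := by
    rw [sub_self, norm_zero]
    positivity
  have hDp := hchain p hpp
  rw [uz_self] at hDp
  have hDuw : Dw p p = Du p := by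
    have h1 := hasFDerivAt_uzw (p := p) (w := p) (by
      have := tt_ge hpp
      have h2 : 0 < tt p (p - p) := by linarith
      exact h2.ne')
    exact h1.unique (hasFDerivAt_uz p)
  set L := fderiv ℝ (Xh n b) 0 with hLdef
  have hLn : ‖L‖ ≤ K * (√n * S) := by
    have h1 := s1 0 (by rw [norm_zero]; positivity)
    refine h1.trans ?_
    exact mul_le_mul_of_nonneg_right hK00 (by positivity)
  have hdetL : L.det = wedge (Y1 n b) (Y2 n b) := by
    rw [det_eq]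
    rw [s3, s3]
    simp
  -- `S` is positive
  have hS : 0 < S := by
    rcases hSn.lt_or_eq with h | h
    · exact h
    exfalso
    rw [← h, mul_zero, mul_zero] at hLn
    have hL00 : L = 0 := norm_le_zero_iff.1 hLn
    apply hne
    rw [← hdetL, hL00, det_eq]
    simp [wedge]
  have hdet : (fderiv ℝ (Xh n c) p).det = wedge (Y1 n b) (Y2 n b) * (1 / R ^ 3) := by
    rw [hDp, hDuw, det_comp', det_Du, hdetL]
  have hup : ∀ v, ‖fderiv ℝ (Xh n c) p v‖ ≤ 6 * K * √n * S / R * ‖v‖ := by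
    intro v
    rw [hDp]
    have h1 := Dw_le hpp v
    calc ‖(L.comp (Dw p p)) v‖ = ‖L (Dw p p v)‖ := rfl
      _ ≤ ‖L‖ * ‖Dw p p v‖ := L.le_opNorm _
      _ ≤ (K * (√n * S)) * (6 / R * ‖v‖) := mul_le_mul hLn h1 (norm_nonneg _) (by positivity)
      _ = 6 * K * √n * S / R * ‖v‖ := by ring
  have hlo : ∀ v, √n * τ * S / (12 * K * R ^ 2) * ‖v‖ ≤ ‖fderiv ℝ (Xh n c) p v‖ := by
    intro v
    have h1 := det_lower _ hup v
    have h2 : n * τ * S ^ 2 / R ^ 3 ≤ |(fderiv ℝ (Xh n c) p).det| := by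
      rw [hdet, abs_mul, abs_of_pos (show (0 : ℝ) < 1 / R ^ 3 by positivity), div_eq_mul_one_div]
      exact mul_le_mul_of_nonneg_right hlow (by positivity)
    have h3 : ‖v‖ * (n * τ * S ^ 2 / R ^ 3) ≤ 2 * (6 * K * √n * S / R) * ‖fderiv ℝ (Xh n c) p v‖ :=
      (mul_le_mul_of_nonneg_left h2 (norm_nonneg v)).trans h1
    have h4 : ‖v‖ * (n * τ * S ^ 2 / R ^ 3) = (12 * K * √n * S / R) *
        (√n * τ * S / (12 * K * R ^ 2) * ‖v‖) := by
      have e1 : ‖v‖ * (n * τ * S ^ 2 / R ^ 3) = ‖v‖ * ((√n * √n) * τ * S ^ 2 / R ^ 3) := by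
        rw [hnn]
      rw [e1]
      field_simp
    have h5 : 2 * (6 * K * √n * S / R) * ‖fderiv ℝ (Xh n c) p v‖ =
        (12 * K * √n * S / R) * ‖fderiv ℝ (Xh n c) p v‖ := by ring
    rw [h4, h5] at h3
    exact le_of_mul_le_mul_left h3 (by positivity)
  have hlip : ∀ z, ‖z - p‖ ≤ R / 8 → 4 / R * ‖z - p‖ ≤ 1 / √n → ∀ v,
      ‖fderiv ℝ (Xh n c) z v - fderiv ℝ (Xh n c) p v‖ ≤
        43 * K * n * S / R ^ 2 * ‖z - p‖ * ‖v‖ := by
    intro z hz hz2 v
    rw [hchain z hz, hDp]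
    have h1 := uz_le hz
    have h2 := Dw_le hz v
    have h3 := Dw_sub hz v
    have h4 := s2 (uz p z) 0 (h1.trans hz2) (by rw [norm_zero]; positivity)
    rw [sub_zero] at h4
    have e : ((fderiv ℝ (Xh n b) (uz p z)).comp (Dw p z)) v - (L.comp (Dw p p)) v =
        (fderiv ℝ (Xh n b) (uz p z) - L) (Dw p z v) + L (Dw p z v - Dw p p v) := by
      simp only [ContinuousLinearMap.comp_apply, _root_.sub_apply, map_sub]
      abel
    rw [e]
    refine (norm_add_le _ _).trans ?_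
    have h5 : ‖(fderiv ℝ (Xh n b) (uz p z) - L) (Dw p z v)‖ ≤
        (K * (n * S * (4 / R * ‖z - p‖))) * (6 / R * ‖v‖) := by
      refine (ContinuousLinearMap.le_opNorm _ _).trans ?_
      refine mul_le_mul (h4.trans ?_) h2 (norm_nonneg _) (by positivity)
      exact mul_le_mul hK00 (mul_le_mul_of_nonneg_left h1 (by positivity)) (by positivity) hK0.le
    have h6 : ‖L (Dw p z v - Dw p p v)‖ ≤ (K * (√n * S)) * (19 / R ^ 2 * ‖z - p‖ * ‖v‖) := by
      refine (ContinuousLinearMap.le_opNorm _ _).trans ?_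
      exact mul_le_mul hLn h3 (norm_nonneg _) (by positivity)
    have h7 : (K * (√n * S)) * (19 / R ^ 2 * ‖z - p‖ * ‖v‖) ≤
        (K * (n * S)) * (19 / R ^ 2 * ‖z - p‖ * ‖v‖) := by
      have : √(n : ℝ) ≤ n := by
        calc √(n : ℝ) = 1 * √n := (one_mul _).symm
          _ ≤ √n * √n := mul_le_mul_of_nonneg_right hs1 hs0.le
          _ = n := hnn
      gcongr
    calc _ ≤ (K * (n * S * (4 / R * ‖z - p‖))) * (6 / R * ‖v‖) +
          (K * (n * S)) * (19 / R ^ 2 * ‖z - p‖ * ‖v‖) := add_le_add h5 (h6.trans h7)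
      _ = 43 * K * n * S / R ^ 2 * ‖z - p‖ * ‖v‖ := by
        field_simp
        ring
  -- the zone
  have hr0 : 0 < τ / (4128 * K ^ 2 * √n) := by positivity
  have hKK : (1 : ℝ) ≤ K ^ 2 := one_le_pow₀ hK1
  have hrr : τ / (4128 * K ^ 2 * √n) ≤ 1 / (4128 * √n) := by
    rw [div_le_div_iff₀ (by positivity) (by positivity)]
    calc τ * (4128 * √n) ≤ K ^ 2 * (4128 * √n) :=
          mul_le_mul_of_nonneg_right (hτ1.trans hKK) (by positivity)
      _ = 1 * (4128 * K ^ 2 * √n) := by ring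
  have hRs : 1 ≤ R * √n := one_le_mul_of_one_le_of_one_le hR1 hs1
  have hKR : 1 ≤ K ^ 2 * R := one_le_mul_of_one_le_of_one_le hKK hR1
  have hr8 : τ / (4128 * K ^ 2 * √n) ≤ R / 8 := by
    refine hrr.trans ?_
    rw [div_le_div_iff₀ (by positivity) (by positivity)]
    linarith
  have hX0 : Xh n c p = 0 := by
    unfold Xh
    rw [hp, smul_zero]
  have hzone := local_zone hdiff hX0 (μ := √n * τ * S / (12 * K * R ^ 2)) (Λ₁ := 72 * K ^ 2 * R / τ)
    (κ := 516 * K ^ 2 * √n / τ) (r := τ / (4128 * K ^ 2 * √n)) (by positivity) ?_ (by positivity)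
    hr0 ?_ hlo ?_ ?_
  · refine ⟨τ / (4128 * K ^ 2 * √n), 4 * (72 * K ^ 2 * R / τ), hr0, ?_, ?_, hzone⟩
    · have : 1 ≤ 72 * K ^ 2 * R / τ := by
        rw [le_div_iff₀ hτ]
        linarith
      linarith
    · rw [le_div_iff₀ (by positivity)]
      have h1 : D * (4 * (72 * K ^ 2 * R / τ)) * (4128 * K ^ 2 * √n) =
          1188864 * K ^ 4 * (√n * R * D) / τ := by
        ring
      rw [h1, div_le_iff₀ hτ]
      have h2 : 0 ≤ K ^ 4 * (√n * R * D) := by positivity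
      calc 1188864 * K ^ 4 * (√n * R * D) = 1188864 * (K ^ 4 * (√n * R * D)) := by ring
        _ ≤ 1200000 * (K ^ 4 * (√n * R * D)) := by linarith
        _ = 1200000 * K ^ 4 * (√n * R * D) := by ring
        _ ≤ τ ^ 2 := hcond
        _ = τ * τ := sq τ
  · rw [le_div_iff₀ hτ]
    linarith
  · have : 8 * (516 * K ^ 2 * √n / τ) * (τ / (4128 * K ^ 2 * √n)) = 1 := by
      field_simp
      ring
    rw [this]
  · intro v
    refine (hup v).trans (le_of_eq ?_)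
    field_simp
    ring
  · intro z hz v
    refine (hlip z (hz.trans hr8) ?_ v).trans (le_of_eq ?_)
    · calc 4 / R * ‖z - p‖ ≤ 4 / 1 * (1 / (4128 * √n)) := by
            refine mul_le_mul ?_ (hz.trans hrr) (norm_nonneg _) (by positivity)
            gcongr
        _ ≤ 1 / √n := by
          rw [div_one, mul_one_div, div_le_div_iff₀ (by positivity) (by positivity)]
          linarith
    · have e1 : 516 * K ^ 2 * √n / τ * (√n * τ * S / (12 * K * R ^ 2)) * ‖z - p‖ * ‖v‖ =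
          43 * K * (√n * √n) * S / R ^ 2 * ‖z - p‖ * ‖v‖ := by
        field_simp
        ring
      rw [e1, hnn]

end

end Pool.Agent.Helper63K9.KT
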