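import Pool.Agent.Helper63K9.KT.Leaves
import Pool.Agent.Helper63K9.KS.LeafF

/-! Leaf F3: closed orbits which touch a disc and are not small. -/

open Real Set MeasureTheory Filter
open scoped ENNReal

namespace Pool.Agent.Helper63K9.KT

noncomputable section

open Pool.Agent.H709R2 (rot rotc wedge field ClosedOrbit divW winv sq_rot continuous_rot)
open Pool.Agent.W960.HR
open Pool.Agent.H709U
open Pool.Agent.H709Q (Maj majRules)
open Pool.Agent.Helper63K9.KS

lemma int_chi {R : ℝ} (hR : 0 < R) : ∫⁻ z : ℝ × ℝ, ENNReal.ofReal (chi 0 R z) ≤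
    ENNReal.ofReal (π ^ 2 * R ^ 2) := by
  set a : ℝ → ℝ≥0∞ := fun x => ENNReal.ofReal (H2_c 0 R x) with ha
  have ma : Measurable a := (H2_c_cont _ _).measurable.ennreal_ofReal
  have b3 : ∀ z : ℝ × ℝ, ENNReal.ofReal (chi 0 R z) ≤ a z.1 * a z.2 := by
    intro z
    rw [ha]
    simp only
    rw [← ENNReal.ofReal_mul (H2_c_nonneg _ _ _)]
    exact ENNReal.ofReal_le_ofReal (H2_chi_le 0 z R hR)
  refine (lintegral_mono b3).trans ?_
  rw [Measure.volume_eq_prod, lintegral_prod_mul ma.aemeasurable ma.aemeasurable,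
      H2_c_int _ _ hR, ← ENNReal.ofReal_mul (by positivity)]
  apply ENNReal.ofReal_le_ofReal
  refine le_of_eq ?_
  ring

theorem f3 : S_F3 := by
  intro X hXc R hRpos
  have hhm : Measurable (hk X) := by
    unfold hk
    exact (H709R2.measurable_kernel hXc (1, 0)).add (H709R2.measurable_kernel hXc (0, 1))
  have hchi0 : ∀ z, 0 ≤ chi 0 R z := fun z => by unfold chi; positivity
  have hchic : Continuous fun z : ℝ × ℝ => chi 0 R z := by
    unfold chi
    have h1 : Continuous fun z : ℝ × ℝ => R ^ 2 + H709R2.sq (z - 0) := by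
      unfold H709R2.sq
      fun_prop
    refine (continuous_const.div h1 fun z => ?_).pow 2
    have : 0 ≤ H709R2.sq (z - 0) := by unfold H709R2.sq; positivity
    positivity
  set I : ℝ≥0∞ := ∫⁻ z, ENNReal.ofReal (chi 0 R z) * hk X z with hI
  by_cases hItop : I = ⊤
  · refine ⟨fun _ => ⊤, measurable_const, fun _ _ => le_top, ?_⟩
    rw [hItop, ENNReal.mul_top (by simp; positivity)]
    simp
  set h : ℝ × ℝ → ℝ≥0∞ := fun z => ENNReal.ofReal (chi 0 R z) * hk X z +
    ENNReal.ofReal (4 / R) * ENNReal.ofReal (chi 0 R z) with hh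
  have hmc : Measurable fun z => ENNReal.ofReal (chi 0 R z) := hchic.measurable.ennreal_ofReal
  have hhmeas : Measurable h := (hmc.mul hhm).add (hmc.const_mul _)
  have hhint : ∫⁻ z, h z ≤ I + ENNReal.ofReal (4 * π ^ 2 * R) := by
    have hm1 : Measurable fun z => ENNReal.ofReal (chi 0 R z) * hk X z := hmc.mul hhm
    rw [hh, lintegral_add_left hm1, lintegral_const_mul _ hmc]
    refine add_le_add le_rfl ((mul_le_mul_right (int_chi hRpos) _).trans ?_)
    rw [← ENNReal.ofReal_mul (by positivity)]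
    apply ENNReal.ofReal_le_ofReal
    refine le_of_eq ?_
    field_simp
  set K : ℝ := 1 / (R / 200) * (I.toReal + 4 * π ^ 2 * R) with hK
  have key := h4_exhaust (fun α => rf X α)
    (fun α C => ∃ x ∈ C, ∃ y ∈ C, H709R2.sq x ≤ R ^ 2 ∧ (R / 5) ^ 2 ≤ H709R2.sq (y - x)) K ?_
  · refine MJ.mono (fun _ _ => le_rfl) ?_ (MJ.of_maj key)
    rw [hK]
    have e1 : 1 / (R / 200) * (I.toReal + 4 * π ^ 2 * R) = 200 / R * I.toReal + 800 * π ^ 2 := by
      field_simp
      ring
    rw [e1, ENNReal.ofReal_add (by positivity) (by positivity), ENNReal.ofReal_mul (by positivity),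
      ENNReal.ofReal_toReal hItop, add_comm]
    refine add_le_add (ENNReal.ofReal_le_ofReal ?_) le_rfl
    have h1 := Real.pi_lt_d2
    have h0 := Real.pi_pos
    nlinarith
  intro m
  have hw : ∀ z, X z ≠ 0 → ContDiffAt ℝ 1 (fun z => chi (0 : ℝ × ℝ) R z * winv X z) z :=
    fun z hz => (H709U.h1 X hXc 0 z R 0 hRpos hz).1
  obtain ⟨g, hg1, hg2, hg3⟩ := mb X hXc (fun z => chi (0 : ℝ × ℝ) R z * winv X z) hw (h4Box m)
    (h4Box_compact m) h hhmeas (R / 200) (by positivity) (by
      intro α _ z _ hz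
      have h5 := (H709U.h1 X hXc 0 z R α hRpos hz).2
      refine (ENNReal.ofReal_le_ofReal h5).trans (le_of_eq ?_)
      have hs : 0 ≤ H709R2.sq (X z) := by unfold H709R2.sq; positivity
      rw [hh]
      simp only
      unfold hk
      rw [ENNReal.ofReal_mul (hchi0 z), ENNReal.ofReal_add (by positivity) (by positivity),
        ENNReal.ofReal_add (by positivity) (by positivity), mul_add]
      ring)
  refine ⟨g, hg1, ?_, ?_⟩
  · intro α hα
    refine le_trans ?_ (hg2 α hα)
    apply ENat.toENNReal_mono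
    apply encard_le_encard
    rintro C ⟨hC1, ⟨x, hx, y, hy, hx1, hxy⟩, hC4⟩
    obtain ⟨γ, T, hγ, rfl⟩ := m0 X hXc α C hC1
    refine ⟨γ, T, hγ, rfl, hC4, ?_⟩
    have hγc : Continuous γ := continuous_iff_continuousAt.2 fun t => (hγ.ode t).continuousAt
    have hYc : Continuous fun t => rf X α (γ t) :=
      (continuous_rot α).comp (hXc.continuous.comp hγc)
    obtain ⟨t₀, rfl⟩ := hx
    have h3 := wlen_ge (γ' := fun t => rf X α (γ t)) hγ.pos hγ.ode hYc hγ.per (p := 0) hRpos
      (t₁ := t₀) (by rw [sub_zero]; exact hx1) ⟨y, hy, hxy⟩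
    refine h3.trans (le_of_eq ?_)
    congr 1
    funext t
    have hr : H709R2.sq (rf X α (γ t)) = H709R2.sq (X (γ t)) := H709R2.sq_rot _ _
    rw [hr]
    unfold winv
    rw [mul_assoc]
    congr 1
    rw [← div_eq_inv_mul, Real.div_sqrt]
  · refine (setLIntegral_le_lintegral _ _).trans (hg3.trans ?_)
    refine (mul_le_mul_right ((setLIntegral_le_lintegral _ _).trans hhint) _).trans ?_
    have e2 : I + ENNReal.ofReal (4 * π ^ 2 * R) = ENNReal.ofReal (I.toReal + 4 * π ^ 2 * R) := by
      rw [ENNReal.ofReal_add (by positivity) (by positivity), ENNReal.ofReal_toReal hItop]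
    rw [e2, ← ENNReal.ofReal_mul (by positivity)]

end

end Pool.Agent.Helper63K9.KT
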