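import Mathlib

/-! Leaf FR, part a: orthogonal matrices preserve the standard Gaussian measure. -/

open Real Set MeasureTheory ProbabilityTheory
open scoped ENNReal Topology

namespace Pool.Agent.Helper63K9.KT

noncomputable section

variable {ι : Type*} [Fintype ι] [DecidableEq ι]

/-- the isometry of an orthogonal matrix -/
def isoOf (N : Matrix ι ι ℝ) (h1 : N * N.transpose = 1) :
    EuclideanSpace ℝ ι ≃ₗᵢ[ℝ] EuclideanSpace ℝ ι where
  toLinearEquiv := LinearEquiv.ofLinearMap (Matrix.toEuclideanLin N) (Matrix.toEuclideanLin N.transpose)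
    (by
      rw [← Matrix.toLpLin_mul_same, h1]
      simp)
    (by
      rw [← Matrix.toLpLin_mul_same, mul_eq_one_comm.1 h1]
      simp)
  norm_map' := by
    intro x
    have h2 : N.transpose * N = 1 := mul_eq_one_comm.1 h1
    rw [EuclideanSpace.norm_eq, EuclideanSpace.norm_eq]
    congr 1
    simp only [Real.norm_eq_abs, sq_abs]
    have h3 : ∀ y : EuclideanSpace ℝ ι, ∑ i, y i ^ 2 = (WithLp.ofLp y) ⬝ᵥ (WithLp.ofLp y) := by
      intro y
      simp [dotProduct, sq]
    rw [h3, h3]
    show (N.mulVec (WithLp.ofLp x)) ⬝ᵥ (N.mulVec (WithLp.ofLp x)) = _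
    rw [Matrix.dotProduct_mulVec, Matrix.vecMul_mulVec, h2, Matrix.vecMul_one]

/-- orthogonal invariance, real vectors -/
theorem gauss_orth (N : Matrix ι ι ℝ) (h1 : N * N.transpose = 1) :
    MeasurePreserving (fun a : ι → ℝ => N.mulVec a) (Measure.pi fun _ => gaussianReal 0 1)
      (Measure.pi fun _ => gaussianReal 0 1) := by
  have hm : Measurable (fun a : ι → ℝ => N.mulVec a) := by
    have : Continuous (fun a : ι → ℝ => N.mulVec a) := by fun_prop
    exact this.measurable
  refine ⟨hm, ?_⟩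
  have h2 := map_pi_eq_stdGaussian (ι := ι)
  have h3 := stdGaussian_map (isoOf N h1)
  have hinj : ∀ μ ν : Measure (ι → ℝ), μ.map (WithLp.toLp 2) = ν.map (WithLp.toLp 2) → μ = ν := by
    intro μ ν h
    have h4 := congrArg (fun ρ => ρ.map (WithLp.ofLp : EuclideanSpace ℝ ι → ι → ℝ)) h
    simp only at h4
    rw [Measure.map_map (by fun_prop) (by fun_prop), Measure.map_map (by fun_prop) (by fun_prop)] at h4
    have h5 : (WithLp.ofLp : EuclideanSpace ℝ ι → ι → ℝ) ∘ (WithLp.toLp 2) = id := rfl
    rwa [h5, Measure.map_id, Measure.map_id] at h4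
  apply hinj
  rw [Measure.map_map (by fun_prop) hm]
  have h6 : (WithLp.toLp 2 : (ι → ℝ) → EuclideanSpace ℝ ι) ∘ (fun a : ι → ℝ => N.mulVec a) =
      (isoOf N h1) ∘ (WithLp.toLp 2) := rfl
  rw [h6, ← Measure.map_map (by fun_prop) (by fun_prop), h2, h3]

/-- orthogonal invariance, vectors of points of the plane -/
theorem gauss_orth2 (N : Matrix ι ι ℝ) (h1 : N * N.transpose = 1) :
    MeasurePreserving (fun (c : ι → ℝ × ℝ) (k : ι) => ∑ m, N k m • c m)
      (Measure.pi fun _ => (gaussianReal 0 1).prod (gaussianReal 0 1))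
      (Measure.pi fun _ => (gaussianReal 0 1).prod (gaussianReal 0 1)) := by
  have h := measurePreserving_arrowProdEquivProdArrow ℝ ℝ ι (fun _ => gaussianReal 0 1)
    (fun _ => gaussianReal 0 1)
  have h2 := (gauss_orth N h1).prod (gauss_orth N h1)
  have h3 := (h.symm _).comp (h2.comp h)
  convert h3 using 1
  funext c k
  apply Prod.ext
  · rw [Prod.fst_sum]
    rfl
  · rw [Prod.snd_sum]
    rfl

end

end Pool.Agent.Helper63K9.KT
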