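import Pool.Agent.Helper63K9.KT.Leaves
import Pool.Agent.Helper63K9.KT.LFRa

/-! Leaf FR: frames exist. -/

open Real Set MeasureTheory ProbabilityTheory
open scoped ENNReal Topology

namespace Pool.Agent.Helper63K9.KT

noncomputable section

open Pool.Agent.W960.HR
open Pool.Agent.Helper63K9.KS

namespace Fr

/-- homogeneous weights -/
def wh (n : ℕ) (v : ℝ × ℝ × ℝ) (m : T n) : ℝ :=
  ka n m * (v.1 ^ (n - m.1.1 - m.1.2) * (v.2.1 ^ m.1.1 * v.2.2 ^ m.1.2))

/-- scalar product in space -/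
def dt (v v' : ℝ × ℝ × ℝ) : ℝ := v.1 * v'.1 + ip v.2 v'.2

lemma tri (n : ℕ) (c a b : ℝ) :
    ∑ m ∈ T n, mc n m * (c ^ (n - m.1 - m.2) * (a ^ m.1 * b ^ m.2)) = (c + a + b) ^ n := by
  have hf : Continuous (fun c : ℝ =>
      ∑ m ∈ T n, mc n m * (c ^ (n - m.1 - m.2) * (a ^ m.1 * b ^ m.2))) := by fun_prop
  have hg : Continuous (fun c : ℝ => (c + a + b) ^ n) := by fun_prop
  have h := Continuous.ext_on (dense_compl_singleton (0 : ℝ)) hf hg (by
    intro c hc
    have hc0 : c ≠ 0 := hc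
    have h1 := I0 n (a / c) (b / c)
    have h2 : (c + a + b) ^ n = c ^ n * (1 + a / c + b / c) ^ n := by
      rw [← mul_pow]
      congr 1
      field_simp
    show _ = (c + a + b) ^ n
    rw [h2, ← h1, Finset.mul_sum]
    refine Finset.sum_congr rfl fun m hm => ?_
    have hm' := mem_T.1 hm
    have h3 : c ^ n = c ^ (n - m.1 - m.2) * (c ^ m.1 * c ^ m.2) := by
      rw [← pow_add, ← pow_add]
      congr 1
      omega
    rw [h3, div_pow, div_pow]
    field_simp)
  exact congrFun h c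

lemma gram (n : ℕ) (v v' : ℝ × ℝ × ℝ) : ∑ m, wh n v m * wh n v' m = dt v v' ^ n := by
  have h := tri n (v.1 * v'.1) (v.2.1 * v'.2.1) (v.2.2 * v'.2.2)
  have h2 : dt v v' = v.1 * v'.1 + v.2.1 * v'.2.1 + v.2.2 * v'.2.2 := by
    unfold dt ip
    ring
  rw [h2, ← h, ← Finset.sum_coe_sort (T n)]
  refine Finset.sum_congr rfl fun m _ => ?_
  unfold wh
  rw [← ka_sq n m]
  ring

lemma ka_pos (n : ℕ) (m : T n) : 0 < ka n m := by
  unfold ka mc
  have hm := mem_T.1 m.2
  apply Real.sqrt_pos.2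
  have h1 : 0 < n.choose (m.1.1 + m.1.2) := Nat.choose_pos hm
  have h2 : 0 < (m.1.1 + m.1.2).choose m.1.1 := Nat.choose_pos (by omega)
  positivity

lemma span_top (n : ℕ) : Submodule.span ℝ (range (wh n)) = ⊤ := by
  by_contra hne
  obtain ⟨f, hf0, hf⟩ := Submodule.exists_le_ker_of_lt_top _ (lt_top_iff_ne_top.2 hne)
  let d : T n → ℝ := fun m => f (Pi.single m 1)
  have hfd : ∀ a : T n → ℝ, f a = ∑ m, a m * d m := by
    intro a
    conv_lhs => rw [pi_eq_sum_univ' a]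
    rw [map_sum]
    refine Finset.sum_congr rfl fun m _ => ?_
    rw [map_smul, smul_eq_mul]
  let e : T n → (Fin 2 →₀ ℕ) := fun m => Finsupp.single 0 m.1.1 + Finsupp.single 1 m.1.2
  have he : Function.Injective e := by
    intro m m' h
    have h0 := DFunLike.congr_fun h 0
    have h1 := DFunLike.congr_fun h 1
    simp [e] at h0 h1
    exact Subtype.ext (Prod.ext h0 h1)
  let P : MvPolynomial (Fin 2) ℝ := ∑ m, MvPolynomial.monomial (e m) (ka n m * d m)
  have hP : P = 0 := by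
    apply MvPolynomial.funext
    intro x
    rw [map_zero]
    have h1 : wh n (1, x 0, x 1) ∈ LinearMap.ker f :=
      hf (Submodule.subset_span ⟨_, rfl⟩)
    rw [LinearMap.mem_ker, hfd] at h1
    rw [← h1]
    simp only [P, map_sum, MvPolynomial.eval_monomial]
    refine Finset.sum_congr rfl fun m _ => ?_
    have h2 : ((e m).prod fun i k => x i ^ k) = x 0 ^ m.1.1 * x 1 ^ m.1.2 := by
      rw [Finsupp.prod_fintype _ _ (fun i => pow_zero _), Fin.prod_univ_two]
      simp [e]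
    rw [h2]
    unfold wh
    simp only [one_pow, one_mul]
    ring
  apply hf0
  apply LinearMap.ext
  intro a
  rw [hfd]
  simp only [LinearMap.zero_apply]
  apply Finset.sum_eq_zero
  intro m _
  have h1 : P.coeff (e m) = ka n m * d m := by
    simp only [P, MvPolynomial.coeff_sum, MvPolynomial.coeff_monomial]
    rw [Finset.sum_eq_single m]
    · simp
    · intro m' _ hm'
      rw [if_neg (fun h => hm' (he h))]
    · simp
  rw [hP, MvPolynomial.coeff_zero] at h1
  have h2 : d m = 0 := by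
    rcases mul_eq_zero.1 h1.symm with h | h
    · exact absurd h (ka_pos n m).ne'
    · exact h
  rw [h2, mul_zero]

lemma exists_pts (n : ℕ) : ∃ v : T n → ℝ × ℝ × ℝ,
    IsUnit (Matrix.of fun (i m : T n) => wh n (v i) m) := by
  have hs : ⊤ ≤ Submodule.span ℝ (range (wh n)) := (span_top n).ge
  let b := Module.Basis.ofSpan hs
  let e := b.indexEquiv (Pi.basisFun ℝ (T n))
  let b' := b.reindex e
  have hb : ∀ i, ∃ v, wh n v = b' i := by
    intro i
    have h1 : b' i ∈ range b := ⟨e.symm i, (Module.Basis.reindex_apply _ _ _).symm⟩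
    exact Module.Basis.ofSpan_subset hs h1
  choose v hv using hb
  refine ⟨v, ?_⟩
  rw [← Matrix.linearIndependent_rows_iff_isUnit]
  have h1 : (Matrix.of fun (i m : T n) => wh n (v i) m).row = b' := by
    funext i
    exact hv i
  rw [h1]
  exact b'.linearIndependent

/-- the orthogonal matrix of a map which preserves the scalar product -/
def NO (n : ℕ) (v : T n → ℝ × ℝ × ℝ) (O : ℝ × ℝ × ℝ → ℝ × ℝ × ℝ) : Matrix (T n) (T n) ℝ :=
  (Matrix.of fun (i m : T n) => wh n (v i) m)⁻¹ * (Matrix.of fun (i m : T n) => wh n (O (v i)) m)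

lemma NO_orth {n : ℕ} {v : T n → ℝ × ℝ × ℝ}
    (hv : IsUnit (Matrix.of fun (i m : T n) => wh n (v i) m)) {O : ℝ × ℝ × ℝ → ℝ × ℝ × ℝ}
    (hO : ∀ x y, dt (O x) (O y) = dt x y) : NO n v O * (NO n v O).transpose = 1 := by
  set A := (Matrix.of fun (i m : T n) => wh n (v i) m) with hA
  set C := (Matrix.of fun (i m : T n) => wh n (O (v i)) m) with hC
  have h1 : C * C.transpose = A * A.transpose := by
    ext i j
    rw [Matrix.mul_apply, Matrix.mul_apply]
    simp only [Matrix.transpose_apply, hA, hC, Matrix.of_apply]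
    rw [gram, gram, hO]
  have hdet : IsUnit A.det := (Matrix.isUnit_iff_isUnit_det A).1 hv
  have hdet' : IsUnit A.transpose.det := by rwa [Matrix.det_transpose]
  show A⁻¹ * C * (A⁻¹ * C).transpose = 1
  rw [Matrix.transpose_mul, Matrix.transpose_nonsing_inv, Matrix.mul_assoc, ← Matrix.mul_assoc C,
    h1, Matrix.mul_assoc A, Matrix.mul_nonsing_inv _ hdet', Matrix.mul_one,
    Matrix.nonsing_inv_mul _ hdet]

lemma NO_wh {n : ℕ} {v : T n → ℝ × ℝ × ℝ}
    (hv : IsUnit (Matrix.of fun (i m : T n) => wh n (v i) m)) {O : ℝ × ℝ × ℝ → ℝ × ℝ × ℝ}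
    (hO : ∀ x y, dt (O x) (O y) = dt x y) (x : ℝ × ℝ × ℝ) :
    (NO n v O).transpose.mulVec (wh n x) = wh n (O x) := by
  have horth := NO_orth hv hO
  set N := NO n v O with hN
  set A := (Matrix.of fun (i m : T n) => wh n (v i) m) with hA
  set C := (Matrix.of fun (i m : T n) => wh n (O (v i)) m) with hC
  have hdet : IsUnit A.det := (Matrix.isUnit_iff_isUnit_det A).1 hv
  have h1 : C.mulVec (wh n (O x)) = A.mulVec (wh n x) := by
    funext i
    show ∑ m, wh n (O (v i)) m * wh n (O x) m = ∑ m, wh n (v i) m * wh n x m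
    rw [gram, gram, hO]
  have h2 : N.mulVec (wh n (O x)) = wh n x := by
    show (A⁻¹ * C).mulVec (wh n (O x)) = wh n x
    rw [← Matrix.mulVec_mulVec, h1, Matrix.mulVec_mulVec, Matrix.nonsing_inv_mul _ hdet,
      Matrix.one_mulVec]
  rw [← h2, Matrix.mulVec_mulVec, mul_eq_one_comm.1 horth, Matrix.one_mulVec]

/-- the rotation -/
def Oz (z : ℝ × ℝ) (x : ℝ × ℝ × ℝ) : ℝ × ℝ × ℝ :=
  ((x.1 - ip z x.2) / √(q z),
    (x.1 / √(q z) - ip z x.2 / (√(q z) * (√(q z) + 1))) • z + x.2)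

lemma sqrt_q_pos (z : ℝ × ℝ) : 0 < √(q z) := Real.sqrt_pos.2 (q_pos z)

lemma sqrt_q_sq (z : ℝ × ℝ) : √(q z) ^ 2 = 1 + z.1 ^ 2 + z.2 ^ 2 := by
  rw [Real.sq_sqrt (q_pos z).le, q_eq]

lemma Oz_dt (z : ℝ × ℝ) (x y : ℝ × ℝ × ℝ) : dt (Oz z x) (Oz z y) = dt x y := by
  have hR := sqrt_q_pos z
  have h2 := sqrt_q_sq z
  obtain ⟨a, b⟩ := z
  obtain ⟨x0, x1, x2⟩ := x
  obtain ⟨y0, y1, y2⟩ := y
  simp only [dt, Oz, ip, Prod.fst_add, Prod.snd_add, Prod.smul_fst, Prod.smul_snd, smul_eq_mul] at *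
  set R := √(q (a, b)) with hRdef
  have hR1 : R + 1 ≠ 0 := by positivity
  have hR0 : R ≠ 0 := hR.ne'
  set s := a * x1 + b * x2 with hs
  set t := a * y1 + b * y2 with ht
  have h3 : a ^ 2 + b ^ 2 = (R - 1) * (R + 1) := by linarith [h2]
  have h4 : (x0 / R - s / (R * (R + 1))) * (y0 / R - t / (R * (R + 1))) * (a ^ 2 + b ^ 2) +
      (x0 / R - s / (R * (R + 1))) * t + (y0 / R - t / (R * (R + 1))) * s +
      (x0 - s) / R * ((y0 - t) / R) = x0 * y0 := by
    rw [h3]
    field_simp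
    ring
  rw [hs, ht] at h4
  rw [hs, ht]
  linear_combination h4

lemma chart_eq (z w : ℝ × ℝ) (h : 0 < 1 + ip z w) :
    ((1 : ℝ), w) = (ct z w) • Oz z (1, uz z w) := by
  have hR := sqrt_q_pos z
  have h2 := sqrt_q_sq z
  have ht : ct z w ≠ 0 := by
    unfold ct
    positivity
  obtain ⟨a, b⟩ := z
  obtain ⟨x, y⟩ := w
  simp only [Oz, uz, ip, ct, Prod.smul_mk, smul_eq_mul, Prod.mk_sub_mk, Prod.mk_add_mk] at *
  set R := √(q (a, b)) with hRdef
  have hR1 : R + 1 ≠ 0 := by positivity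
  have hR0 : R ≠ 0 := hR.ne'
  set s := a * x + b * y with hs
  have hs1 : 1 + s ≠ 0 := h.ne'
  have h3 : a ^ 2 + b ^ 2 = R ^ 2 - 1 := by linarith [h2]
  have h5 : a * (((1 + s) / R)⁻¹ * (x - (1 / R + s / (R * (R + 1))) * a)) +
      b * (((1 + s) / R)⁻¹ * (y - (1 / R + s / (R * (R + 1))) * b)) =
      1 - R ^ 2 / (1 + s) := by
    have h6 : a * (((1 + s) / R)⁻¹ * (x - (1 / R + s / (R * (R + 1))) * a)) +
      b * (((1 + s) / R)⁻¹ * (y - (1 / R + s / (R * (R + 1))) * b)) =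
      ((1 + s) / R)⁻¹ * (s - (1 / R + s / (R * (R + 1))) * (a ^ 2 + b ^ 2)) := by
      rw [hs]; ring
    rw [h6, h3]
    field_simp
    ring
  rw [h5]
  ext
  · simp only
    field_simp
    ring
  · simp only
    field_simp
    ring
  · simp only
    field_simp
    ring

lemma wh_smul (n : ℕ) (t : ℝ) (x : ℝ × ℝ × ℝ) (m : T n) : wh n (t • x) m = t ^ n * wh n x m := by
  have hm := mem_T.1 m.2
  have h : t ^ n = t ^ (n - m.1.1 - m.1.2) * (t ^ m.1.1 * t ^ m.1.2) := by
    rw [← pow_add, ← pow_add]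
    congr 1
    omega
  unfold wh
  rw [h]
  simp only [Prod.smul_fst, Prod.smul_snd, smul_eq_mul, mul_pow]
  ring

lemma F_eq (n : ℕ) (c : T n → ℝ × ℝ) (w : ℝ × ℝ) : F n c w = ∑ m, wh n (1, w) m • c m := by
  unfold F Gs wh e0
  refine Finset.sum_congr rfl fun m _ => ?_
  rw [one_pow, one_mul]

/-- the frame -/
def Tf (n : ℕ) (v : T n → ℝ × ℝ × ℝ) (z : ℝ × ℝ) (c : T n → ℝ × ℝ) : T n → ℝ × ℝ :=
  fun k => ∑ m, NO n v (Oz z) k m • c m

lemma lin_Oz {n : ℕ} {v : T n → ℝ × ℝ × ℝ}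
    (hv : IsUnit (Matrix.of fun (i m : T n) => wh n (v i) m)) (z : ℝ × ℝ) (c : T n → ℝ × ℝ)
    (x : ℝ × ℝ × ℝ) : ∑ m, wh n (Oz z x) m • c m = ∑ k, wh n x k • Tf n v z c k := by
  have h := NO_wh hv (Oz_dt z) x
  unfold Tf
  simp only [Finset.smul_sum, smul_smul]
  rw [Finset.sum_comm]
  refine Finset.sum_congr rfl fun m _ => ?_
  rw [← Finset.sum_smul, ← h]
  congr 1
  show ∑ k, NO n v (Oz z) k m * wh n x k = _
  exact Finset.sum_congr rfl fun k _ => mul_comm _ _

lemma q_chart (z w : ℝ × ℝ) (h : 0 < 1 + ip z w) : q w = ct z w ^ 2 * q (uz z w) := by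
  have h1 := chart_eq z w h
  have h2 : dt (1, w) (1, w) = q w := by
    rw [← q_eq]
    unfold dt ip
    ring
  have h3 : dt (1, uz z w) (1, uz z w) = q (uz z w) := by
    rw [← q_eq]
    unfold dt ip
    ring
  rw [← h2, ← h3, ← Oz_dt z (1, uz z w)]
  have h4 : ∀ y : ℝ × ℝ × ℝ, dt (ct z w • y) (ct z w • y) = ct z w ^ 2 * dt y y := by
    intro y
    unfold dt ip
    simp only [Prod.smul_fst, Prod.smul_snd, smul_eq_mul]
    ring
  rw [← h4, ← h1]

lemma continuous_wh_Oz (n : ℕ) (x : ℝ × ℝ × ℝ) (m : T n) : Continuous fun z => wh n (Oz z x) m := by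
  have hq : Continuous q := by
    unfold q H709R2.sq
    fun_prop
  have hO : Continuous fun z => Oz z x := by
    have h1 : ∀ z : ℝ × ℝ, √(q z) ≠ 0 := fun z => (sqrt_q_pos z).ne'
    have h2 : ∀ z : ℝ × ℝ, √(q z) * (√(q z) + 1) ≠ 0 := fun z =>
      (mul_pos (sqrt_q_pos z) (add_pos (sqrt_q_pos z) one_pos)).ne'
    have h3 : Continuous fun z => √(q z) := hq.sqrt
    have h4 : Continuous fun z : ℝ × ℝ => ip z x.2 := by
      unfold ip
      fun_prop
    unfold Oz
    refine Continuous.prodMk ((continuous_const.sub h4).div h3 h1) ?_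
    have h5 : Continuous fun z : ℝ × ℝ =>
        x.1 / √(q z) - ip z x.2 / (√(q z) * (√(q z) + 1)) :=
      (continuous_const.div h3 h1).sub (h4.div (h3.mul (h3.add continuous_const)) h2)
    exact ((h5.smul continuous_id).congr (fun _ => rfl)).add continuous_const
  unfold wh
  exact continuous_const.mul ((hO.fst.pow _).mul ((hO.snd.fst.pow _).mul (hO.snd.snd.pow _)))

end Fr

open Fr in
theorem fr : S_FR := by
  intro n
  obtain ⟨v, hv⟩ := exists_pts n
  refine ⟨Tf n v, ?_, ?_, ?_⟩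
  · apply continuous_pi
    intro k
    show Continuous fun p : (ℝ × ℝ) × (T n → ℝ × ℝ) => ∑ m, NO n v (Oz p.1) k m • p.2 m
    refine continuous_finsetSum _ fun m _ => ?_
    have h1 : Continuous fun z : ℝ × ℝ => NO n v (Oz z) k m := by
      unfold NO
      simp only [Matrix.mul_apply, Matrix.of_apply]
      exact continuous_finsetSum _ fun i _ => continuous_const.mul (continuous_wh_Oz n (v i) m)
    have h2 : Continuous fun p : (ℝ × ℝ) × (T n → ℝ × ℝ) => p.2 m :=
      (continuous_apply m).comp continuous_snd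
    exact ((h1.comp continuous_fst).smul h2).congr (fun _ => rfl)
  · intro z
    exact gauss_orth2 (NO n v (Oz z)) (NO_orth hv (Oz_dt z))
  · intro z c w h
    have ht : 0 < ct z w := div_pos h (sqrt_q_pos z)
    unfold Xh
    rw [F_eq, F_eq, chart_eq z w h]
    simp only [wh_smul, mul_smul]
    rw [← Finset.smul_sum, lin_Oz hv, smul_smul]
    congr 1
    rw [q_chart z w h, mul_pow, ← pow_mul, mul_comm 2 n, pow_mul, Real.sqrt_mul (by positivity),
      Real.sqrt_sq (by positivity)]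
    have h1 : √(q (uz z w) ^ n) ≠ 0 := by
      apply Real.sqrt_ne_zero'.2
      exact pow_pos (q_pos _) n
    field_simp

end

end Pool.Agent.Helper63K9.KT
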