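import Pool.Agent.Helper63K9.KT.Ga

/-! Leaf GM. -/

open Real Set MeasureTheory Topology Filter ProbabilityTheory
open scoped ENNReal NNReal

namespace Pool.Agent.Helper63K9.KT

noncomputable section

open Pool.Agent.W960.HR

theorem gm : S_GM := by
  obtain ⟨K, hK, h⟩ := Ga.gm 6
  refine ⟨K, hK, fun S a y ha ε hε hε1 => (h S a y ha ε hε hε1).trans (le_of_eq ?_)⟩
  have hY0 : 0 ≤ ∑ m, y m ^ 2 := Finset.sum_nonneg fun _ _ => sq_nonneg _
  congr 2
  calc √(∑ m, y m ^ 2) ^ 6 = (√(∑ m, y m ^ 2) ^ 2) ^ 3 := by ring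
    _ = _ := by rw [Real.sq_sqrt hY0]

end

end Pool.Agent.Helper63K9.KT
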