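import Pool.Agent.Helper63K9.KT.Ga
import Pool.Agent.Helper63K9.KS.LeafA

/-! Leaf GP. -/

open Real Set MeasureTheory Topology Filter ProbabilityTheory
open scoped ENNReal NNReal

namespace Pool.Agent.Helper63K9.KT

noncomputable section

open Pool.Agent.W960.HR
open Pool.Agent.Helper63K9.KS

/-- `|t|^(-3/4)` -/
def Ga.fm (t : ℝ) : ℝ≥0∞ := ENNReal.ofReal |t| ^ (-(3 / 4) : ℝ)

lemma Ga.measurable_fm : Measurable Ga.fm := by
  unfold Ga.fm
  fun_prop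

lemma Ga.fm_abs (t : ℝ) : Ga.fm |t| = Ga.fm t := by
  unfold Ga.fm
  rw [abs_abs]

lemma Ga.fm_pos_part : ∫⁻ u in Ioo (0:ℝ) 1, Ga.fm u < ∞ := by
  have h1 : IntegrableOn (fun x : ℝ => x ^ (-(3 / 4) : ℝ)) (Ioo 0 1) :=
    (intervalIntegral.integrableOn_Ioo_rpow_iff zero_lt_one).2 (by norm_num)
  have h2 := h1.lintegral_lt_top
  refine lt_of_le_of_lt (le_of_eq ?_) h2
  refine setLIntegral_congr_fun measurableSet_Ioo fun u hu => ?_
  unfold Ga.fm
  rw [abs_of_pos hu.1, ENNReal.ofReal_rpow_of_pos hu.1]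

lemma Ga.fm_neg_part : ∫⁻ u in Ioo (-1:ℝ) 0, Ga.fm u = ∫⁻ u in Ioo (0:ℝ) 1, Ga.fm u := by
  have h := (Measure.measurePreserving_neg (volume : Measure ℝ)).setLIntegral_comp_preimage
    (s := Ioo (0:ℝ) 1) measurableSet_Ioo Ga.measurable_fm
  rw [← h]
  have e : (Neg.neg : ℝ → ℝ) ⁻¹' Ioo 0 1 = Ioo (-1) 0 := by
    ext u
    simp only [mem_preimage, mem_Ioo]
    constructor <;> rintro ⟨h1, h2⟩ <;> constructor <;> linarith
  rw [e]
  refine lintegral_congr fun u => ?_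
  rw [← Ga.fm_abs (-u), abs_neg, Ga.fm_abs]

lemma Ga.fm_part : ∫⁻ u in Ioo (-1:ℝ) 1, Ga.fm u < ∞ := by
  have hsub : Ioo (-1:ℝ) 1 ⊆ (Ioo (-1) 0 ∪ Ioo 0 1) ∪ {0} := by
    intro u hu
    rcases lt_trichotomy u 0 with h | h | h
    · exact Or.inl (Or.inl ⟨hu.1, h⟩)
    · exact Or.inr h
    · exact Or.inl (Or.inr ⟨h, hu.2⟩)
  refine (lintegral_mono_set hsub).trans_lt ?_
  refine (lintegral_union_le _ _ _).trans_lt ?_
  have h0 : ∫⁻ u in ({0} : Set ℝ), Ga.fm u = 0 := by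
    rw [Measure.restrict_eq_zero.2 (by simp), lintegral_zero_measure]
  rw [h0, add_zero]
  refine (lintegral_union_le _ _ _).trans_lt ?_
  rw [Ga.fm_neg_part]
  exact ENNReal.add_lt_top.2 ⟨Ga.fm_pos_part, Ga.fm_pos_part⟩

lemma Ga.gauss_le_vol : gaussianReal 0 1 ≤ (volume : Measure ℝ) := by
  have h := gaussian_le (s := 1) one_pos (v := 1) (by norm_num)
  refine h.trans ?_
  have h1 : ENNReal.ofReal ((√(2 * π) * 1)⁻¹) ≤ 1 := by
    rw [mul_one, ENNReal.ofReal_le_one]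
    apply inv_le_one_of_one_le₀
    apply Real.le_sqrt_of_sq_le
    linarith [Real.pi_gt_three]
  calc ENNReal.ofReal ((√(2 * π) * 1)⁻¹) • (volume : Measure ℝ) ≤ (1 : ℝ≥0∞) • volume := by
        gcongr
    _ = volume := one_smul _ _

lemma Ga.neg1 : ∃ C : ℝ, 0 < C ∧ ∀ x : ℝ,
    ∫⁻ y, Ga.fm (x + y) ∂gaussianReal 0 1 ≤ ENNReal.ofReal C := by
  set J : ℝ≥0∞ := ∫⁻ u in Ioo (-1:ℝ) 1, Ga.fm u with hJ
  have hJf : J < ∞ := Ga.fm_part
  refine ⟨1 + J.toReal, by positivity, fun x => ?_⟩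
  have hle : ∀ t : ℝ, Ga.fm t ≤ 1 + (Ioo (-1:ℝ) 1).indicator Ga.fm t := by
    intro t
    by_cases ht : t ∈ Ioo (-1:ℝ) 1
    · rw [indicator_of_mem ht]
      exact le_add_self
    · rw [indicator_of_notMem ht, add_zero]
      unfold Ga.fm
      refine ENNReal.rpow_le_one_of_one_le_of_neg ?_ (by norm_num)
      rw [ENNReal.one_le_ofReal]
      by_contra hcon
      exact ht (abs_lt.1 (not_le.1 hcon))
  have hm : Measurable ((Ioo (-1:ℝ) 1).indicator Ga.fm) :=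
    Ga.measurable_fm.indicator measurableSet_Ioo
  calc ∫⁻ y, Ga.fm (x + y) ∂gaussianReal 0 1
      ≤ ∫⁻ y, (1 + (Ioo (-1:ℝ) 1).indicator Ga.fm (x + y)) ∂gaussianReal 0 1 :=
        lintegral_mono fun y => hle (x + y)
    _ = 1 + ∫⁻ y, (Ioo (-1:ℝ) 1).indicator Ga.fm (x + y) ∂gaussianReal 0 1 := by
        rw [lintegral_add_left measurable_const]
        simp
    _ ≤ 1 + ∫⁻ y, (Ioo (-1:ℝ) 1).indicator Ga.fm (x + y) :=
        add_le_add le_rfl (lintegral_mono' Ga.gauss_le_vol le_rfl)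
    _ = 1 + J := by
        rw [lintegral_add_left_eq_self (fun y => (Ioo (-1:ℝ) 1).indicator Ga.fm y) x,
          lintegral_indicator measurableSet_Ioo]
    _ = ENNReal.ofReal (1 + J.toReal) := by
        rw [ENNReal.ofReal_add zero_le_one ENNReal.toReal_nonneg, ENNReal.ofReal_one,
          ENNReal.ofReal_toReal hJf.ne]

lemma Ga.neg_s : ∃ C : ℝ, 0 < C ∧ ∀ (s : ℝ) (v : ℝ≥0), 0 < s → (v : ℝ) = s ^ 2 → ∀ x : ℝ,
    ∫⁻ y, Ga.fm (x + y) ∂gaussianReal 0 v ≤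
      ENNReal.ofReal s ^ (-(3 / 4) : ℝ) * ENNReal.ofReal C := by
  obtain ⟨C, hC, h⟩ := Ga.neg1
  refine ⟨C, hC, fun s v hs hv x => ?_⟩
  have hf := Ga.measurable_fm
  rw [Ga.gauss_scale hv, lintegral_map (by fun_prop) (by fun_prop)]
  have h1 : ∀ y : ℝ, Ga.fm (x + s * y) =
      ENNReal.ofReal s ^ (-(3 / 4) : ℝ) * Ga.fm (x / s + y) := by
    intro y
    have e : x + s * y = s * (x / s + y) := by field_simp
    unfold Ga.fm
    rw [e, abs_mul, abs_of_pos hs, ENNReal.ofReal_mul hs.le,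
      ENNReal.mul_rpow_of_ne_top ENNReal.ofReal_ne_top ENNReal.ofReal_ne_top]
  simp only [h1]
  rw [lintegral_const_mul _ (by fun_prop)]
  exact mul_le_mul_right (h _) _

lemma Ga.fm_two (u : ℝ × ℝ) : ENNReal.ofReal ‖u‖ ^ (-(3 / 2) : ℝ) ≤ Ga.fm u.1 * Ga.fm u.2 := by
  have e : (-(3 / 2) : ℝ) = -(3 / 4) + -(3 / 4) := by norm_num
  have h1 : ENNReal.ofReal ‖u‖ ^ (-(3 / 4) : ℝ) ≤ Ga.fm u.1 := by
    unfold Ga.fm
    rw [ENNReal.rpow_neg, ENNReal.rpow_neg, ENNReal.inv_le_inv]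
    exact ENNReal.rpow_le_rpow (ENNReal.ofReal_le_ofReal (norm_fst_le u)) (by norm_num)
  have h2 : ENNReal.ofReal ‖u‖ ^ (-(3 / 4) : ℝ) ≤ Ga.fm u.2 := by
    unfold Ga.fm
    rw [ENNReal.rpow_neg, ENNReal.rpow_neg, ENNReal.inv_le_inv]
    exact ENNReal.rpow_le_rpow (ENNReal.ofReal_le_ofReal (norm_snd_le u)) (by norm_num)
  have h3 : ENNReal.ofReal ‖u‖ ^ (-(3 / 2) : ℝ) =
      ENNReal.ofReal ‖u‖ ^ (-(3 / 4) : ℝ) * ENNReal.ofReal ‖u‖ ^ (-(3 / 4) : ℝ) := by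
    have e2 : (-(3 / 2) : ℝ) = -(3 / 4) * 2 := by norm_num
    rw [e2, ENNReal.rpow_mul, ENNReal.rpow_two, pow_two]
  rw [h3]
  exact mul_le_mul' h1 h2

theorem gp : S_GP := by
  obtain ⟨C, hC, hneg⟩ := Ga.neg_s
  refine ⟨C ^ 2, by positivity, fun S a b ρ ha hb hab hρ ε hε => ?_⟩
  set v : S → ℝ := fun m => b m - ρ * a m with hv
  have hort : ∑ m, a m * v m = 0 := by
    have h1 : ∑ m, a m * v m = ∑ m, a m * b m - ρ * ∑ m, a m ^ 2 := by
      rw [Finset.mul_sum, ← Finset.sum_sub_distrib]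
      exact Finset.sum_congr rfl fun m _ => by simp only [hv]; ring
    rw [h1, ha, hab]
    ring
  have hvn : ∑ m, v m ^ 2 = 1 - ρ ^ 2 := by
    have h2 : ∀ m, v m ^ 2 = b m ^ 2 - 2 * ρ * (a m * b m) + ρ ^ 2 * a m ^ 2 := by
      intro m
      simp only [hv]
      ring
    rw [Finset.sum_congr rfl fun m _ => h2 m, Finset.sum_add_distrib, Finset.sum_sub_distrib,
      ← Finset.mul_sum, ← Finset.mul_sum, ha, hb, hab]
    ring
  have hdec : ∀ c, lin b c = ρ • lin a c + lin v c := by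
    intro c
    unfold lin
    rw [Finset.smul_sum, ← Finset.sum_add_distrib]
    refine Finset.sum_congr rfl fun m _ => ?_
    rw [smul_smul, ← add_smul]
    congr 1
    simp only [hv]
    ring
  set s : ℝ := √(1 - ρ ^ 2) with hs
  have hspos : 0 < s := Real.sqrt_pos.2 (by linarith)
  have hs2 : s ^ 2 = 1 - ρ ^ 2 := Real.sq_sqrt (by linarith)
  set f : (ℝ × ℝ) × (ℝ × ℝ) → ℝ≥0∞ := fun p => {x : ℝ × ℝ | ‖x‖ < ε}.indicator 1 p.1 *
    (Ga.fm (ρ * p.1.1 + p.2.1) * Ga.fm (ρ * p.1.2 + p.2.2)) with hf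
  have hball : MeasurableSet {x : ℝ × ℝ | ‖x‖ < ε} :=
    measurableSet_lt (by fun_prop) (by fun_prop)
  have hind : Measurable (({x : ℝ × ℝ | ‖x‖ < ε}.indicator 1 : ℝ × ℝ → ℝ≥0∞)) :=
    measurable_one.indicator hball
  have hfmm := Ga.measurable_fm
  have hfm : Measurable f := by
    refine (hind.comp measurable_fst).mul ?_
    fun_prop
  have hle : ∀ c, {c : S → ℝ × ℝ | ‖lin a c‖ < ε}.indicator
      (fun c => ENNReal.ofReal ‖lin b c‖ ^ (-(3 / 2) : ℝ)) c ≤ f (lin a c, lin v c) := by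
    intro c
    by_cases hc : ‖lin a c‖ < ε
    · rw [indicator_of_mem (by exact hc)]
      simp only [hf]
      rw [indicator_of_mem (by exact hc), Pi.one_apply, one_mul]
      have h := Ga.fm_two (lin b c)
      rw [hdec] at h ⊢
      simpa using h
    · rw [indicator_of_notMem (by exact hc)]
      exact bot_le
  refine (lintegral_mono hle).trans ?_
  rw [Ga.law2 hort hfm, lintegral_prod _ hfm.aemeasurable]
  have hgv : Ga.gl v = gaussianReal 0 (∑ m, v m ^ 2).toNNReal := rfl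
  have hvs : (((∑ m, v m ^ 2).toNNReal : ℝ≥0) : ℝ) = s ^ 2 := by
    rw [hs2, hvn, Real.coe_toNNReal _ (by linarith)]
  have h3 : ∀ x : ℝ × ℝ, ∫⁻ y, f (x, y) ∂((Ga.gl v).prod (Ga.gl v)) ≤
      {x : ℝ × ℝ | ‖x‖ < ε}.indicator 1 x * (ENNReal.ofReal (C ^ 2) *
        ENNReal.ofReal (1 - ρ ^ 2) ^ (-(3 / 4) : ℝ)) := by
    intro x
    simp only [hf]
    rw [lintegral_const_mul _ (by fun_prop)]
    refine mul_le_mul_right ?_ _
    have hp := lintegral_prod_mul (μ := Ga.gl v) (ν := Ga.gl v)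
      (f := fun y => Ga.fm (ρ * x.1 + y)) (g := fun y => Ga.fm (ρ * x.2 + y))
      (Measurable.aemeasurable (by fun_prop)) (Measurable.aemeasurable (by fun_prop))
    rw [hp]
    refine (mul_le_mul' (hneg s _ hspos hvs _) (hneg s _ hspos hvs _)).trans (le_of_eq ?_)
    have e1 : ENNReal.ofReal (1 - ρ ^ 2) ^ (-(3 / 4) : ℝ) =
        ENNReal.ofReal s ^ (-(3 / 4) : ℝ) * ENNReal.ofReal s ^ (-(3 / 4) : ℝ) := by
      rw [← ENNReal.mul_rpow_of_ne_top ENNReal.ofReal_ne_top ENNReal.ofReal_ne_top,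
        ← ENNReal.ofReal_mul hspos.le, ← pow_two, hs2]
    rw [e1, pow_two, ENNReal.ofReal_mul hC.le]
    ring
  refine (lintegral_mono h3).trans ?_
  rw [lintegral_mul_const _ hind, lintegral_indicator_one hball]
  refine (mul_le_mul_left (Ga.small2 ha hε.le) _).trans (le_of_eq ?_)
  rw [← mul_assoc, ← ENNReal.ofReal_mul (by positivity), mul_comm (ε ^ 2)]

end

end Pool.Agent.Helper63K9.KT
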