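import Pool.Agent.Helper63K9.KT.Leaves
import Pool.Agent.Helper63K9.KS.LeafA

/-! Leaf HK: the mean of the kernel. -/

open Real Set MeasureTheory Topology Filter ProbabilityTheory
open scoped ENNReal NNReal

namespace Pool.Agent.Helper63K9.KT

noncomputable section

open Pool.Agent.H709R2 (wedge)
open Pool.Agent.W960.HR
open Pool.Agent.Helper63K9.KS

variable {S : Finset (ℕ × ℕ)}

lemma half2 {w w' : S → ℝ} {s σ : ℝ} (hs : 0 < s) (hσ : 0 < σ) (hw : ∑ m, w m ^ 2 = s ^ 2)
    (hres : s ^ 2 * ∑ m, w' m ^ 2 - (∑ m, w m * w' m) ^ 2 ≤ σ ^ 2 * s ^ 2) :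
    ∃ G : (S → ℝ × ℝ) → ℝ≥0∞, Measurable G ∧ (∀ c, s ^ 2 ≤ H709R2.sq (lin w c) →
      ENNReal.ofReal (|wedge (lin w c) (lin w' c)| / H709R2.sq (lin w c)) ≤ G c) ∧
      ∫⁻ c, G c ∂GP S ≤ ENNReal.ofReal (2 * σ / s) := by
  have hs2 : 0 < s ^ 2 := by positivity
  set ρ : ℝ := (∑ m, w m * w' m) / s ^ 2 with hρ
  have hsum : ∑ m, w m * w' m = ρ * s ^ 2 := by rw [hρ]; field_simp
  set v : S → ℝ := fun m => w' m - ρ * w m with hv
  have hvn : ∑ m, v m ^ 2 ≤ σ ^ 2 := by
    have h2 : ∑ m, v m ^ 2 = ∑ m, w' m ^ 2 - 2 * ρ * (∑ m, w m * w' m) + ρ ^ 2 * ∑ m, w m ^ 2 := by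
      rw [Finset.mul_sum, Finset.mul_sum, ← Finset.sum_sub_distrib, ← Finset.sum_add_distrib]
      exact Finset.sum_congr rfl fun m _ => by simp only [hv]; ring
    rw [hsum] at hres
    rw [h2, hw, hsum]
    refine le_of_mul_le_mul_left ?_ hs2
    nlinarith
  have hmv : Measurable (sl v) := (continuous_sl v).measurable
  set g1 : (S → ℝ) × (S → ℝ) → ℝ≥0∞ := fun p => ENNReal.ofReal |sl v p.1| with hg1
  set g2 : (S → ℝ) × (S → ℝ) → ℝ≥0∞ := fun p => ENNReal.ofReal |sl v p.2| with hg2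
  have m1 : Measurable g1 := by fun_prop
  have m2 : Measurable g2 := by fun_prop
  refine ⟨fun c => ENNReal.ofReal (1 / s) * (g1 + g2) (fun m => (c m).1, fun m => (c m).2),
    ?_, ?_, ?_⟩
  · exact ((m1.add m2).comp (by fun_prop)).const_mul _
  · intro c hc
    set a : S → ℝ := fun m => (c m).1 with ha
    set b : S → ℝ := fun m => (c m).2 with hb
    have hX1 : (lin w c).1 = sl w a := lin_fst w c
    have hX2 : (lin w c).2 = sl w b := lin_snd w c
    have hsl : ∀ a : S → ℝ, sl w' a = sl v a + ρ * sl w a := by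
      intro a
      unfold sl
      rw [Finset.mul_sum, ← Finset.sum_add_distrib]
      exact Finset.sum_congr rfl fun m _ => by simp only [hv]; ring
    have hY1 : (lin w' c).1 = sl v a + ρ * sl w a := by rw [← hsl]; exact lin_fst w' c
    have hY2 : (lin w' c).2 = sl v b + ρ * sl w b := by rw [← hsl]; exact lin_snd w' c
    have hwd : wedge (lin w c) (lin w' c) = sl w a * sl v b - sl w b * sl v a := by
      unfold wedge
      rw [hX1, hX2, hY1, hY2]
      ring
    have hsq : H709R2.sq (lin w c) = sl w a ^ 2 + sl w b ^ 2 := by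
      unfold H709R2.sq
      rw [hX1, hX2]
    rw [hwd, hsq]
    rw [hsq] at hc
    simp only [Pi.add_apply, hg1, hg2]
    rw [← ENNReal.ofReal_add (abs_nonneg _) (abs_nonneg _), ← ENNReal.ofReal_mul (by positivity)]
    apply ENNReal.ofReal_le_ofReal
    have h0 : 0 < sl w a ^ 2 + sl w b ^ 2 := lt_of_lt_of_le hs2 hc
    set N : ℝ := √(sl w a ^ 2 + sl w b ^ 2) with hN
    have hN0 : 0 < N := Real.sqrt_pos.2 h0
    have hN2 : sl w a ^ 2 + sl w b ^ 2 = N ^ 2 := (Real.sq_sqrt h0.le).symm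
    have hNs : s ≤ N := by
      rw [hN2] at hc
      exact abs_le_of_sq_le_sq' hc hN0.le |>.2
    have ha1 : |sl w a| ≤ N := Real.abs_le_sqrt (by nlinarith [sq_nonneg (sl w b)])
    have hb1 : |sl w b| ≤ N := Real.abs_le_sqrt (by nlinarith [sq_nonneg (sl w a)])
    have h3 : |sl w a * sl v b - sl w b * sl v a| ≤ (|sl v a| + |sl v b|) * N := by
      calc |sl w a * sl v b - sl w b * sl v a| ≤ |sl w a * sl v b| + |sl w b * sl v a| := abs_sub _ _
        _ = |sl w a| * |sl v b| + |sl w b| * |sl v a| := by rw [abs_mul, abs_mul]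
        _ ≤ N * |sl v b| + N * |sl v a| := by gcongr
        _ = (|sl v a| + |sl v b|) * N := by ring
    rw [hN2, div_le_iff₀ (by positivity)]
    refine h3.trans ?_
    have h4 : 1 ≤ 1 / s * N := by
      rw [one_div_mul_eq_div, le_div_iff₀ hs]
      linarith
    have h5 : 0 ≤ (|sl v a| + |sl v b|) * N := by positivity
    calc (|sl v a| + |sl v b|) * N = 1 * ((|sl v a| + |sl v b|) * N) := (one_mul _).symm
      _ ≤ (1 / s * N) * ((|sl v a| + |sl v b|) * N) := mul_le_mul_of_nonneg_right h4 h5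
      _ = _ := by ring
  · have hm : Measurable fun p : (S → ℝ) × (S → ℝ) => ENNReal.ofReal (1 / s) * (g1 + g2) p :=
      (m1.add m2).const_mul _
    have h1 := lintegral_GP (S := S) hm
    rw [h1, lintegral_const_mul _ (m1.add m2)]
    simp only [Pi.add_apply]
    rw [lintegral_add_left m1]
    have j1 : ∫⁻ p, g1 p ∂((GQ S).prod (GQ S)) ≤ ENNReal.ofReal σ := by
      rw [lintegral_prod _ m1.aemeasurable]
      simp only [hg1, lintegral_const, measure_univ, mul_one]
      exact mean_abs_sl hσ hvn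
    have j2 : ∫⁻ p, g2 p ∂((GQ S).prod (GQ S)) ≤ ENNReal.ofReal σ := by
      rw [lintegral_prod_symm _ m2.aemeasurable]
      simp only [hg2, lintegral_const, measure_univ, mul_one]
      exact mean_abs_sl hσ hvn
    refine (mul_le_mul_right (add_le_add j1 j2) _).trans ?_
    rw [← ENNReal.ofReal_add hσ.le hσ.le, ← ENNReal.ofReal_mul (by positivity)]
    exact ENNReal.ofReal_le_ofReal (le_of_eq (by ring))

theorem hkm : S_HK := by
  refine ⟨8, by norm_num, ?_⟩
  intro n hn z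
  have hq := q_pos z
  have hn0 : (0:ℝ) < n := by exact_mod_cast hn
  set s : ℝ := √(q z ^ n) with hs
  have hs0 : 0 < s := Real.sqrt_pos.2 (by positivity)
  have hs2 : s ^ 2 = q z ^ n := Real.sq_sqrt (by positivity)
  set σ : ℝ := √(n * q z ^ (n - 1)) with hσ
  have hσ0 : 0 < σ := Real.sqrt_pos.2 (by positivity)
  have hσ2 : σ ^ 2 = n * q z ^ (n - 1) := Real.sq_sqrt (by positivity)
  have h0 := sum_w0 n z
  rw [← hs2] at h0
  have hm := q_mul1 hn z
  have hq2 : 0 < q z ^ 2 := by positivity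
  have hx : z.1 ^ 2 ≤ q z := by unfold q H709R2.sq; nlinarith [sq_nonneg z.2]
  have hy : z.2 ^ 2 ≤ q z := by unfold q H709R2.sq; nlinarith [sq_nonneg z.1]
  have hres : s ^ 2 * ∑ m, wx n z m ^ 2 - (∑ m, w0 n z m * wx n z m) ^ 2 ≤ σ ^ 2 * s ^ 2 := by
    refine le_of_mul_le_mul_left ?_ hq2
    have e1 : q z ^ 2 * (s ^ 2 * ∑ m, wx n z m ^ 2 - (∑ m, w0 n z m * wx n z m) ^ 2) =
        (q z ^ n) ^ 2 * (n * (q z - z.1 ^ 2)) := by
      rw [hs2]
      linear_combination (q z ^ n) * qb hn z -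
        (q z * ∑ m, w0 n z m * wx n z m + n * z.1 * q z ^ n) * qa hn z
    have e2 : q z ^ 2 * (σ ^ 2 * s ^ 2) = (q z ^ n) ^ 2 * (n * q z) := by
      rw [hs2, hσ2]
      linear_combination (n * q z * q z ^ n) * hm
    rw [e1, e2]
    gcongr
    linarith [sq_nonneg z.1]
  have hres' : s ^ 2 * ∑ m, wy n z m ^ 2 - (∑ m, w0 n z m * wy n z m) ^ 2 ≤ σ ^ 2 * s ^ 2 := by
    refine le_of_mul_le_mul_left ?_ hq2
    have e1 : q z ^ 2 * (s ^ 2 * ∑ m, wy n z m ^ 2 - (∑ m, w0 n z m * wy n z m) ^ 2) =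
        (q z ^ n) ^ 2 * (n * (q z - z.2 ^ 2)) := by
      rw [hs2]
      linear_combination (q z ^ n) * qb' hn z -
        (q z * ∑ m, w0 n z m * wy n z m + n * z.2 * q z ^ n) * qa' hn z
    have e2 : q z ^ 2 * (σ ^ 2 * s ^ 2) = (q z ^ n) ^ 2 * (n * q z) := by
      rw [hs2, hσ2]
      linear_combination (n * q z * q z ^ n) * hm
    rw [e1, e2]
    gcongr
    linarith [sq_nonneg z.2]
  obtain ⟨G1, mG1, hG1, iG1⟩ := half2 hs0 hσ0 h0 hres
  obtain ⟨G2, mG2, hG2, iG2⟩ := half2 hs0 hσ0 h0 hres'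
  have hA := a1 n hn z 1 (by norm_num)
  have hpt : ∀ c : T n → ℝ × ℝ, hk (F n c) z ≤
      (G1 c + G2 c) + {c : T n → ℝ × ℝ | H709R2.sq (F n c z) ≤ 1 ^ 2 * q z ^ n}.indicator
      (fun c => hk (F n c) z) c := by
    intro c
    by_cases hc : H709R2.sq (F n c z) ≤ 1 ^ 2 * q z ^ n
    · rw [indicator_of_mem (by exact hc)]
      exact le_add_self
    · rw [indicator_of_notMem (by exact hc), add_zero]
      have hc' : s ^ 2 ≤ H709R2.sq (lin (w0 n z) c) := by
        rw [lin_w0, hs2]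
        rw [one_pow, one_mul] at hc
        exact (not_le.1 hc).le
      unfold hk
      refine add_le_add ?_ ?_
      · have := hG1 c hc'
        rw [fderiv_F]
        simpa [lin_w0] using this
      · have := hG2 c hc'
        rw [fderiv_F]
        simpa [lin_w0] using this
  refine (lintegral_mono hpt).trans ?_
  have mG12 : Measurable fun c : T n → ℝ × ℝ => G1 c + G2 c := mG1.add mG2
  rw [lintegral_add_left mG12]
  have h12 : ∫⁻ c, (G1 c + G2 c) ∂GP (T n) ≤ ENNReal.ofReal (4 * σ / s) := by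
    rw [lintegral_add_left mG1]
    refine (add_le_add iG1 iG2).trans ?_
    rw [← ENNReal.ofReal_add (by positivity) (by positivity)]
    exact ENNReal.ofReal_le_ofReal (le_of_eq (by ring))
  refine (add_le_add h12 hA).trans ?_
  have h1 : σ * √(q z) = √n * s := by
    rw [hσ, hs, ← Real.sqrt_mul (by positivity), ← Real.sqrt_mul (by positivity)]
    congr 1
    rw [← hm]; ring
  have hsq : 0 < √(q z) := Real.sqrt_pos.2 hq
  rw [← ENNReal.ofReal_add (by positivity) (by positivity)]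
  apply ENNReal.ofReal_le_ofReal
  have h2 : 4 * σ / s = 4 * √n / √(q z) := by
    rw [div_eq_div_iff hs0.ne' hsq.ne']
    linear_combination 4 * h1
  rw [h2]
  refine le_of_eq ?_
  field_simp
  norm_num

end

end Pool.Agent.Helper63K9.KT
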