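import Pool.Agent.Helper63K9.KT.Leaves

/-! The leaves INT1, INT2, INT3: three integrals. -/

open Real Set MeasureTheory Filter
open scoped ENNReal Topology

namespace Pool.Agent.Helper63K9.KT

noncomputable section

namespace IntL

/-- `1 / √|x|`, infinite at `0` -/
def ph (x : ℝ) : ℝ≥0∞ := (ENNReal.ofReal √|x|)⁻¹

theorem ph_meas : Measurable ph := by
  unfold ph
  fun_prop

theorem ph_neg (x : ℝ) : ph (-x) = ph x := by
  unfold ph
  rw [abs_neg]

theorem ph_mono {x y : ℝ} (h : |x| ≤ |y|) : ph y ≤ ph x := by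
  unfold ph
  exact ENNReal.inv_le_inv.2 (ENNReal.ofReal_le_ofReal (Real.sqrt_le_sqrt h))

theorem ph_mul (a x : ℝ) : ph (a * x) = ph a * ph x := by
  unfold ph
  rw [abs_mul, Real.sqrt_mul (abs_nonneg a), ENNReal.ofReal_mul (Real.sqrt_nonneg _),
    ENNReal.mul_inv (Or.inr ENNReal.ofReal_ne_top) (Or.inl ENNReal.ofReal_ne_top)]

theorem ph_pos_eq {x : ℝ} (h : x ≠ 0) : ph x = ENNReal.ofReal (1 / √|x|) := by
  unfold ph
  have : 0 < √|x| := Real.sqrt_pos.2 (abs_pos.2 h)
  rw [one_div, ENNReal.ofReal_inv_of_pos this]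

/-- the product bound -/
theorem le_ph {a b A : ℝ} (h : |a| * |b| ≤ A ^ 2) (hA : 0 ≤ A) :
    ENNReal.ofReal (1 / A) ≤ ph a * ph b := by
  rcases eq_or_ne a 0 with ha | ha
  · have h1 : ph a = ⊤ := by
      unfold ph
      rw [ha, abs_zero, Real.sqrt_zero, ENNReal.ofReal_zero, ENNReal.inv_zero]
    have h2 : ph b ≠ 0 := by
      unfold ph
      exact ENNReal.inv_ne_zero.2 ENNReal.ofReal_ne_top
    rw [h1, ENNReal.top_mul h2]
    exact le_top
  rcases eq_or_ne b 0 with hb | hb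
  · have h1 : ph b = ⊤ := by
      unfold ph
      rw [hb, abs_zero, Real.sqrt_zero, ENNReal.ofReal_zero, ENNReal.inv_zero]
    have h2 : ph a ≠ 0 := by
      unfold ph
      exact ENNReal.inv_ne_zero.2 ENNReal.ofReal_ne_top
    rw [h1, ENNReal.mul_top h2]
    exact le_top
  rw [← ph_mul, ph_pos_eq (mul_ne_zero ha hb)]
  refine ENNReal.ofReal_le_ofReal ?_
  have h1 : 0 < √|a * b| := Real.sqrt_pos.2 (abs_pos.2 (mul_ne_zero ha hb))
  refine one_div_le_one_div_of_le h1 ?_
  rw [abs_mul]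
  exact (Real.sqrt_le_sqrt h).trans (le_of_eq (Real.sqrt_sq hA))

/-- the integral over a symmetric interval -/
theorem int_ph0 (D : ℝ) (hD : 0 < D) : ∫⁻ x in Ioo (-D) D, ph x ≤ ENNReal.ofReal (4 * √D) := by
  have hpos : ∫⁻ x in Ioo 0 D, ph x ≤ ENNReal.ofReal (2 * √D) := by
    have h1 : ∫⁻ x in Ioo 0 D, ph x = ∫⁻ x in Ioo 0 D, ENNReal.ofReal (x ^ (-(1 / 2) : ℝ)) := by
      refine setLIntegral_congr_fun measurableSet_Ioo fun x hx => ?_
      rw [ph_pos_eq hx.1.ne', abs_of_pos hx.1, Real.rpow_neg hx.1.le, ← Real.sqrt_eq_rpow, one_div]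
    have hint : IntervalIntegrable (fun x : ℝ => x ^ (-(1 / 2) : ℝ)) volume 0 D :=
      intervalIntegral.intervalIntegrable_rpow' (by norm_num)
    have hion : IntegrableOn (fun x : ℝ => x ^ (-(1 / 2) : ℝ)) (Ioo 0 D) volume := by
      rw [intervalIntegrable_iff_integrableOn_Ioo_of_le hD.le] at hint
      exact hint
    rw [h1, ← ofReal_integral_eq_lintegral_ofReal hion
      ((ae_restrict_iff' measurableSet_Ioo).2 (Eventually.of_forall fun x hx =>
        Real.rpow_nonneg hx.1.le _))]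
    refine ENNReal.ofReal_le_ofReal (le_of_eq ?_)
    rw [← integral_Ioc_eq_integral_Ioo, ← intervalIntegral.integral_of_le hD.le,
      integral_rpow (Or.inl (by norm_num))]
    rw [show (-(1 / 2) + 1 : ℝ) = 1 / 2 by norm_num, Real.zero_rpow (by norm_num),
      ← Real.sqrt_eq_rpow]
    ring
  have hneg : ∫⁻ x in Ioo (-D) 0, ph x ≤ ENNReal.ofReal (2 * √D) := by
    have h1 : ∫⁻ x in Ioo (-D) 0, ph x = ∫⁻ x in Ioo 0 D, ph x := by
      have h2 := (Measure.measurePreserving_neg (volume : Measure ℝ)).setLIntegral_comp_preimage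
        (s := Ioo 0 D) measurableSet_Ioo ph_meas
      have h3 : (Neg.neg : ℝ → ℝ) ⁻¹' Ioo 0 D = Ioo (-D) 0 := by
        ext x
        simp only [mem_preimage, mem_Ioo]
        constructor <;> intro h <;> constructor <;> linarith [h.1, h.2]
      rw [h3] at h2
      simp only [ph_neg] at h2
      exact h2
    rw [h1]
    exact hpos
  have hcov : Ioo (-D) D ⊆ (Ioo (-D) 0 ∪ Ioo 0 D) ∪ {0} := by
    intro x hx
    rcases lt_trichotomy x 0 with h | h | h
    · exact Or.inl (Or.inl ⟨hx.1, h⟩)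
    · exact Or.inr h
    · exact Or.inl (Or.inr ⟨h, hx.2⟩)
  calc ∫⁻ x in Ioo (-D) D, ph x ≤ ∫⁻ x in (Ioo (-D) 0 ∪ Ioo 0 D) ∪ {0}, ph x :=
        lintegral_mono_set hcov
    _ ≤ (∫⁻ x in Ioo (-D) 0 ∪ Ioo 0 D, ph x) + ∫⁻ x in {(0 : ℝ)}, ph x :=
        lintegral_union_le _ _ _
    _ = ∫⁻ x in Ioo (-D) 0 ∪ Ioo 0 D, ph x := by
        rw [Measure.restrict_eq_zero.2 (Real.volume_singleton), lintegral_zero_measure, add_zero]
    _ ≤ (∫⁻ x in Ioo (-D) 0, ph x) + ∫⁻ x in Ioo 0 D, ph x := lintegral_union_le _ _ _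
    _ ≤ ENNReal.ofReal (2 * √D) + ENNReal.ofReal (2 * √D) := add_le_add hneg hpos
    _ = ENNReal.ofReal (4 * √D) := by
        rw [← ENNReal.ofReal_add (by positivity) (by positivity)]
        congr 1
        ring

/-- the integral over any interval -/
theorem int_ph (c x0 D : ℝ) (hD : 0 < D) :
    ∫⁻ x in Ioo (c - D) (c + D), ph (x - x0) ≤ ENNReal.ofReal (6 * √D) := by
  have hs : 0 < √D := Real.sqrt_pos.2 hD
  have hA : ∫⁻ x in Ioo (x0 - D) (x0 + D), ph (x - x0) ≤ ENNReal.ofReal (4 * √D) := by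
    have h2 := (measurePreserving_sub_right (volume : Measure ℝ) x0).setLIntegral_comp_preimage
      (s := Ioo (-D) D) measurableSet_Ioo ph_meas
    have h3 : (fun x : ℝ => x - x0) ⁻¹' Ioo (-D) D = Ioo (x0 - D) (x0 + D) := by
      ext x
      simp only [mem_preimage, mem_Ioo]
      constructor <;> intro h <;> constructor <;> linarith [h.1, h.2]
    rw [h3] at h2
    rw [h2]
    exact int_ph0 D hD
  have hcov : Ioo (c - D) (c + D) ⊆ Ioo (x0 - D) (x0 + D) ∪
      (Ioo (c - D) (c + D) ∩ {x | D ≤ |x - x0|}) := by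
    intro x hx
    by_cases h : |x - x0| < D
    · rw [abs_lt] at h
      exact Or.inl ⟨by linarith [h.1], by linarith [h.2]⟩
    · exact Or.inr ⟨hx, not_lt.1 h⟩
  have hB : ∫⁻ x in Ioo (c - D) (c + D) ∩ {x | D ≤ |x - x0|}, ph (x - x0) ≤
      ENNReal.ofReal (2 * √D) := by
    have hms : MeasurableSet (Ioo (c - D) (c + D) ∩ {x | D ≤ |x - x0|}) :=
      measurableSet_Ioo.inter (measurableSet_le measurable_const (by fun_prop))
    calc ∫⁻ x in Ioo (c - D) (c + D) ∩ {x | D ≤ |x - x0|}, ph (x - x0)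
        ≤ ∫⁻ _x in Ioo (c - D) (c + D) ∩ {x | D ≤ |x - x0|}, ph D :=
          setLIntegral_mono' hms fun x hx => ph_mono (by rw [abs_of_pos hD]; exact hx.2)
      _ ≤ ∫⁻ _x in Ioo (c - D) (c + D), ph D := lintegral_mono_set inter_subset_left
      _ = ENNReal.ofReal (1 / √D) * ENNReal.ofReal (2 * D) := by
          rw [setLIntegral_const, Real.volume_Ioo, ph_pos_eq hD.ne', abs_of_pos hD]
          congr 2
          ring
      _ = ENNReal.ofReal (2 * √D) := by
          rw [← ENNReal.ofReal_mul (by positivity)]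
          congr 1
          rw [one_div, inv_mul_eq_iff_eq_mul₀ hs.ne']
          have := Real.mul_self_sqrt hD.le
          linear_combination (-2) * this
  calc ∫⁻ x in Ioo (c - D) (c + D), ph (x - x0)
      ≤ ∫⁻ x in Ioo (x0 - D) (x0 + D) ∪ (Ioo (c - D) (c + D) ∩ {x | D ≤ |x - x0|}), ph (x - x0) :=
        lintegral_mono_set hcov
    _ ≤ _ := lintegral_union_le _ _ _
    _ ≤ ENNReal.ofReal (4 * √D) + ENNReal.ofReal (2 * √D) := add_le_add hA hB
    _ = ENNReal.ofReal (6 * √D) := by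
        rw [← ENNReal.ofReal_add (by positivity) (by positivity)]
        congr 1
        ring

/-- the integral with an affine argument -/
theorem int_ph_aff (c a b D : ℝ) (hD : 0 < D) (ha : a ≠ 0) :
    ∫⁻ x in Ioo (c - D) (c + D), ph (a * x - b) ≤ ENNReal.ofReal (6 * √D / √|a|) := by
  have h1 : ∀ x, ph (a * x - b) = ph a * ph (x - b / a) := by
    intro x
    rw [← ph_mul]
    congr 1
    field_simp
  have hm : Measurable fun x : ℝ => ph (x - b / a) := ph_meas.comp (by fun_prop)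
  simp only [h1]
  rw [lintegral_const_mul _ hm]
  calc ph a * ∫⁻ x in Ioo (c - D) (c + D), ph (x - b / a) ≤ ph a * ENNReal.ofReal (6 * √D) :=
        mul_le_mul_right (int_ph c _ D hD) _
    _ = ENNReal.ofReal (6 * √D / √|a|) := by
        rw [ph_pos_eq ha, ← ENNReal.ofReal_mul (by positivity)]
        congr 1
        ring

/-- the weight `R² / (R² + x²)` -/
theorem int_wt (R : ℝ) (hR : 0 < R) :
    ∫⁻ x : ℝ, ENNReal.ofReal (R ^ 2 / (R ^ 2 + x ^ 2)) * ph x ≤ ENNReal.ofReal (8 * √R) := by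
  have hs : 0 < √R := Real.sqrt_pos.2 hR
  have hA : ∫⁻ x in Ioo (-R) R, ENNReal.ofReal (R ^ 2 / (R ^ 2 + x ^ 2)) * ph x ≤
      ENNReal.ofReal (4 * √R) := by
    refine le_trans (setLIntegral_mono' measurableSet_Ioo fun x _ => ?_) (int_ph0 R hR)
    have h1 : ENNReal.ofReal (R ^ 2 / (R ^ 2 + x ^ 2)) ≤ 1 := by
      rw [← ENNReal.ofReal_one]
      refine ENNReal.ofReal_le_ofReal ?_
      rw [div_le_one (by positivity)]
      nlinarith [sq_nonneg x]
    calc _ ≤ 1 * ph x := mul_le_mul_left h1 _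
      _ = ph x := one_mul _
  have hB : ∫⁻ x in (Ioo (-R) R)ᶜ, ENNReal.ofReal (R ^ 2 / (R ^ 2 + x ^ 2)) * ph x ≤
      ENNReal.ofReal (4 * √R) := by
    have hi : ∫⁻ x : ℝ, ENNReal.ofReal (R ^ 2 / (R ^ 2 + x ^ 2)) ≤ ENNReal.ofReal (4 * R) := by
      have h1 : ∀ x : ℝ, R ^ 2 / (R ^ 2 + x ^ 2) = (1 + (R⁻¹ * x) ^ 2)⁻¹ := by
        intro x
        field_simp
      have h2 : Integrable (fun x : ℝ => R ^ 2 / (R ^ 2 + x ^ 2)) := by
        simp only [h1]
        exact (integrable_inv_one_add_sq).comp_mul_left' (inv_ne_zero hR.ne')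
      rw [← ofReal_integral_eq_lintegral_ofReal h2 (Eventually.of_forall fun x => by positivity)]
      refine ENNReal.ofReal_le_ofReal ?_
      simp only [h1]
      rw [Measure.integral_comp_mul_left (fun x : ℝ => (1 + x ^ 2)⁻¹) R⁻¹,
        integral_univ_inv_one_add_sq, inv_inv, abs_of_pos hR, smul_eq_mul]
      nlinarith [Real.pi_le_four]
    calc ∫⁻ x in (Ioo (-R) R)ᶜ, ENNReal.ofReal (R ^ 2 / (R ^ 2 + x ^ 2)) * ph x
        ≤ ∫⁻ x in (Ioo (-R) R)ᶜ, ENNReal.ofReal (R ^ 2 / (R ^ 2 + x ^ 2)) * ph R := by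
          refine setLIntegral_mono' measurableSet_Ioo.compl fun x hx => ?_
          refine mul_le_mul_right (ph_mono ?_) _
          rw [abs_of_pos hR]
          by_contra h
          exact hx (abs_lt.1 (not_le.1 h))
      _ ≤ ∫⁻ x : ℝ, ENNReal.ofReal (R ^ 2 / (R ^ 2 + x ^ 2)) * ph R := setLIntegral_le_lintegral _ _
      _ = (∫⁻ x : ℝ, ENNReal.ofReal (R ^ 2 / (R ^ 2 + x ^ 2))) * ph R :=
          lintegral_mul_const _ (by fun_prop)
      _ ≤ ENNReal.ofReal (4 * R) * ENNReal.ofReal (1 / √R) := by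
          rw [ph_pos_eq hR.ne', abs_of_pos hR]
          exact mul_le_mul_left hi _
      _ = ENNReal.ofReal (4 * √R) := by
          rw [← ENNReal.ofReal_mul (by positivity)]
          congr 1
          rw [mul_one_div, div_eq_iff hs.ne', mul_assoc, Real.mul_self_sqrt hR.le]
  rw [← lintegral_add_compl _ (measurableSet_Ioo (a := -R) (b := R))]
  calc _ ≤ ENNReal.ofReal (4 * √R) + ENNReal.ofReal (4 * √R) := add_le_add hA hB
    _ = ENNReal.ofReal (8 * √R) := by
        rw [← ENNReal.ofReal_add (by positivity) (by positivity)]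
        congr 1
        ring

/-- the weight `1 / √(1 + x²)` -/
theorem int_w2 : ∫⁻ x : ℝ, ENNReal.ofReal (1 / √(1 + x ^ 2)) * ph x ≤ ENNReal.ofReal 8 := by
  have hA : ∫⁻ x in Ioo (-1 : ℝ) 1, ENNReal.ofReal (1 / √(1 + x ^ 2)) * ph x ≤
      ENNReal.ofReal 4 := by
    refine le_trans (setLIntegral_mono' measurableSet_Ioo fun x _ => ?_)
      ((int_ph0 1 one_pos).trans (by rw [Real.sqrt_one, mul_one]))
    have h1 : ENNReal.ofReal (1 / √(1 + x ^ 2)) ≤ 1 := by
      rw [← ENNReal.ofReal_one]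
      refine ENNReal.ofReal_le_ofReal ?_
      have h2 : 1 ≤ √(1 + x ^ 2) := Real.one_le_sqrt.2 (by nlinarith [sq_nonneg x])
      rw [div_le_one (by linarith)]
      exact h2
    calc _ ≤ 1 * ph x := mul_le_mul_left h1 _
      _ = ph x := one_mul _
  have hpos : ∫⁻ x in Ioi (1 / 2 : ℝ) ∩ Ici 1, ENNReal.ofReal (1 / √(1 + x ^ 2)) * ph x ≤
      ENNReal.ofReal 2 := by
    have h0 : Ioi (1 / 2 : ℝ) ∩ Ici 1 = Ici 1 := inter_eq_right.2 fun x hx => by
      have : (1 : ℝ) ≤ x := hx
      have h2 : (1 / 2 : ℝ) < x := by linarith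
      exact h2
    rw [h0, ← restrict_Ioi_eq_restrict_Ici]
    have h1 : ∫⁻ x in Ioi (1 : ℝ), ENNReal.ofReal (1 / √(1 + x ^ 2)) * ph x ≤
        ∫⁻ x in Ioi (1 : ℝ), ENNReal.ofReal (x ^ (-(3 / 2) : ℝ)) := by
      refine setLIntegral_mono' measurableSet_Ioi fun x hx => ?_
      have hx1 : (1 : ℝ) < x := hx
      have hx0 : 0 < x := by linarith
      rw [ph_pos_eq hx0.ne', abs_of_pos hx0, ← ENNReal.ofReal_mul (by positivity)]
      refine ENNReal.ofReal_le_ofReal ?_
      have h2 : x ^ (-(3 / 2) : ℝ) = 1 / x * (1 / √x) := by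
        rw [show (-(3 / 2) : ℝ) = -1 + -(1 / 2) by norm_num, Real.rpow_add hx0, Real.rpow_neg_one,
          Real.rpow_neg hx0.le, ← Real.sqrt_eq_rpow, one_div, one_div]
      rw [h2]
      refine mul_le_mul_of_nonneg_right (one_div_le_one_div_of_le hx0 ?_) (by positivity)
      exact Real.le_sqrt_of_sq_le (by linarith)
    refine h1.trans ?_
    have hi : IntegrableOn (fun x : ℝ => x ^ (-(3 / 2) : ℝ)) (Ioi 1) :=
      integrableOn_Ioi_rpow_of_lt (by norm_num) one_pos
    rw [← ofReal_integral_eq_lintegral_ofReal hi ((ae_restrict_iff' measurableSet_Ioi).2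
      (Eventually.of_forall fun x hx => Real.rpow_nonneg (by
        have : (1 : ℝ) < x := hx
        linarith) _))]
    refine ENNReal.ofReal_le_ofReal (le_of_eq ?_)
    rw [integral_Ioi_rpow_of_lt (by norm_num) one_pos, Real.one_rpow]
    norm_num
  have hneg : ∫⁻ x in Iic (-1 : ℝ), ENNReal.ofReal (1 / √(1 + x ^ 2)) * ph x ≤
      ENNReal.ofReal 2 := by
    have hm : Measurable fun x : ℝ => ENNReal.ofReal (1 / √(1 + x ^ 2)) * ph x :=
      Measurable.mul (by fun_prop) ph_meas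
    have h2 := (Measure.measurePreserving_neg (volume : Measure ℝ)).setLIntegral_comp_preimage
      (s := Ici 1) measurableSet_Ici hm
    have h3 : (Neg.neg : ℝ → ℝ) ⁻¹' Ici 1 = Iic (-1) := by
      ext x
      simp only [mem_preimage, mem_Ici, mem_Iic]
      constructor <;> intro h <;> linarith
    rw [h3] at h2
    simp only [ph_neg, even_two, Even.neg_pow] at h2
    rw [h2]
    have h0 : Ioi (1 / 2 : ℝ) ∩ Ici 1 = Ici 1 := inter_eq_right.2 fun x hx => by
      have : (1 : ℝ) ≤ x := hx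
      have h2 : (1 / 2 : ℝ) < x := by linarith
      exact h2
    rw [h0] at hpos
    exact hpos
  have hB : ∫⁻ x in (Ioo (-1 : ℝ) 1)ᶜ, ENNReal.ofReal (1 / √(1 + x ^ 2)) * ph x ≤
      ENNReal.ofReal 4 := by
    have h0 : Ioi (1 / 2 : ℝ) ∩ Ici 1 = Ici 1 := inter_eq_right.2 fun x hx => by
      have : (1 : ℝ) ≤ x := hx
      have h2 : (1 / 2 : ℝ) < x := by linarith
      exact h2
    rw [h0] at hpos
    have hcov : (Ioo (-1 : ℝ) 1)ᶜ ⊆ Iic (-1) ∪ Ici 1 := by
      intro x hx
      by_cases h : x ≤ -1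
      · exact Or.inl h
      · right
        by_contra h2
        exact hx ⟨not_le.1 h, not_le.1 h2⟩
    calc _ ≤ ∫⁻ x in Iic (-1) ∪ Ici 1, ENNReal.ofReal (1 / √(1 + x ^ 2)) * ph x :=
          lintegral_mono_set hcov
      _ ≤ _ := lintegral_union_le _ _ _
      _ ≤ ENNReal.ofReal 2 + ENNReal.ofReal 2 := add_le_add hneg hpos
      _ = ENNReal.ofReal 4 := by
          rw [← ENNReal.ofReal_add (by norm_num) (by norm_num)]
          norm_num
  rw [← lintegral_add_compl _ (measurableSet_Ioo (a := (-1 : ℝ)) (b := 1))]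
  calc _ ≤ ENNReal.ofReal 4 + ENNReal.ofReal 4 := add_le_add hA hB
    _ = ENNReal.ofReal 8 := by
        rw [← ENNReal.ofReal_add (by norm_num) (by norm_num)]
        norm_num

end IntL

open Pool.Agent.H709R2 (wedge)
open Pool.Agent.H709U (chi)
open Pool.Agent.Helper63K9.KS (q)
open IntL

theorem IntL.inv_le_ph (z : ℝ × ℝ) : ENNReal.ofReal (1 / √(q z)) ≤ ph z.1 * ph z.2 := by
  refine le_ph ?_ (Real.sqrt_nonneg _)
  have h0 : 0 ≤ q z := by unfold q H709R2.sq; positivity
  rw [Real.sq_sqrt h0]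
  unfold q H709R2.sq
  nlinarith [sq_abs z.1, sq_abs z.2, sq_nonneg (|z.1| - |z.2|)]

theorem int3 : S_INT3 := by
  intro R hR
  have h1 : ∀ z : ℝ × ℝ, ENNReal.ofReal (chi 0 R z / √(q z)) ≤
      (ENNReal.ofReal (R ^ 2 / (R ^ 2 + z.1 ^ 2)) * ph z.1) *
        (ENNReal.ofReal (R ^ 2 / (R ^ 2 + z.2 ^ 2)) * ph z.2) := by
    intro z
    have hc : chi 0 R z ≤ R ^ 2 / (R ^ 2 + z.1 ^ 2) * (R ^ 2 / (R ^ 2 + z.2 ^ 2)) := by
      unfold chi H709R2.sq
      rw [sub_zero, pow_two (R ^ 2 / _)]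
      have hp : 0 < R ^ 2 := by positivity
      refine mul_le_mul ?_ ?_ (by positivity) (by positivity)
      · exact div_le_div_of_nonneg_left hp.le (by positivity) (by nlinarith [sq_nonneg z.2])
      · exact div_le_div_of_nonneg_left hp.le (by positivity) (by nlinarith [sq_nonneg z.1])
    have hc0 : 0 ≤ chi 0 R z := by unfold chi; positivity
    calc ENNReal.ofReal (chi 0 R z / √(q z)) = ENNReal.ofReal (chi 0 R z) *
          ENNReal.ofReal (1 / √(q z)) := by
          rw [← ENNReal.ofReal_mul hc0, mul_one_div]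
      _ ≤ (ENNReal.ofReal (R ^ 2 / (R ^ 2 + z.1 ^ 2)) * ENNReal.ofReal (R ^ 2 / (R ^ 2 + z.2 ^ 2))) *
          (ph z.1 * ph z.2) := by
          refine mul_le_mul' ?_ (inv_le_ph z)
          rw [← ENNReal.ofReal_mul (by positivity)]
          exact ENNReal.ofReal_le_ofReal hc
      _ = _ := by ring
  have hm : Measurable fun x : ℝ => ENNReal.ofReal (R ^ 2 / (R ^ 2 + x ^ 2)) * ph x :=
    Measurable.mul (by fun_prop) ph_meas
  refine (lintegral_mono h1).trans ?_
  rw [Measure.volume_eq_prod, lintegral_prod_mul hm.aemeasurable hm.aemeasurable]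
  calc _ ≤ ENNReal.ofReal (8 * √R) * ENNReal.ofReal (8 * √R) :=
        mul_le_mul' (int_wt R hR) (int_wt R hR)
    _ ≤ ENNReal.ofReal (100 * R) := by
        rw [← ENNReal.ofReal_mul (by positivity)]
        refine ENNReal.ofReal_le_ofReal ?_
        nlinarith [Real.mul_self_sqrt hR.le]

theorem int2 : S_INT2 := by
  have h1 : ∀ z : ℝ × ℝ, ENNReal.ofReal (1 / √(q z) ^ 3) ≤
      (ENNReal.ofReal (1 / √(1 + z.1 ^ 2)) * ph z.1) *
        (ENNReal.ofReal (1 / √(1 + z.2 ^ 2)) * ph z.2) := by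
    intro z
    have h0 : 0 < q z := by unfold q H709R2.sq; positivity
    have hs : 0 < √(q z) := Real.sqrt_pos.2 h0
    have hc : 1 / √(q z) ^ 2 ≤ 1 / √(1 + z.1 ^ 2) * (1 / √(1 + z.2 ^ 2)) := by
      rw [one_div_mul_one_div, pow_two]
      refine one_div_le_one_div_of_le (by positivity) (mul_le_mul ?_ ?_ (by positivity) hs.le)
      · exact Real.sqrt_le_sqrt (by unfold q H709R2.sq; nlinarith [sq_nonneg z.2])
      · exact Real.sqrt_le_sqrt (by unfold q H709R2.sq; nlinarith [sq_nonneg z.1])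
    calc ENNReal.ofReal (1 / √(q z) ^ 3) = ENNReal.ofReal (1 / √(q z) ^ 2) *
          ENNReal.ofReal (1 / √(q z)) := by
          rw [← ENNReal.ofReal_mul (by positivity)]
          congr 1
          field_simp
      _ ≤ (ENNReal.ofReal (1 / √(1 + z.1 ^ 2)) * ENNReal.ofReal (1 / √(1 + z.2 ^ 2))) *
          (ph z.1 * ph z.2) := by
          refine mul_le_mul' ?_ (inv_le_ph z)
          rw [← ENNReal.ofReal_mul (by positivity)]
          exact ENNReal.ofReal_le_ofReal hc
      _ = _ := by ring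
  have hm : Measurable fun x : ℝ => ENNReal.ofReal (1 / √(1 + x ^ 2)) * ph x :=
    Measurable.mul (by fun_prop) ph_meas
  refine (lintegral_mono h1).trans ?_
  rw [Measure.volume_eq_prod, lintegral_prod_mul hm.aemeasurable hm.aemeasurable]
  calc _ ≤ ENNReal.ofReal 8 * ENNReal.ofReal 8 := mul_le_mul' int_w2 int_w2
    _ ≤ ENNReal.ofReal 100 := by
        rw [← ENNReal.ofReal_mul (by norm_num)]
        exact ENNReal.ofReal_le_ofReal (by norm_num)

theorem IntL.ball_eq (z : ℝ × ℝ) (D : ℝ) : Metric.ball z D =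
    Ioo (z.1 - D) (z.1 + D) ×ˢ Ioo (z.2 - D) (z.2 + D) := by
  rw [← ball_prod_same, Real.ball_eq_Ioo, Real.ball_eq_Ioo]

theorem int1 : S_INT1 := by
  refine ⟨72, by norm_num, fun z D hD => ?_⟩
  obtain ⟨a, b⟩ := z
  have hsD : 0 < √D := Real.sqrt_pos.2 hD
  have hDD : √D * √D = D := Real.mul_self_sqrt hD.le
  have hq : 0 < q (a, b) := by unfold q H709R2.sq; positivity
  have hsq : 0 < √√(q (a, b)) := Real.sqrt_pos.2 (Real.sqrt_pos.2 hq)
  rw [ball_eq]
  simp only
  -- the bound by two factors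
  have hb1 : ∀ w : ℝ × ℝ, ENNReal.ofReal (1 / √(H709R2.sq ((a, b) - w) + wedge (a, b) w ^ 2)) ≤
      ph (w.1 - a) * ph (a * w.2 - b * w.1) := by
    intro w
    have h0 : 0 ≤ H709R2.sq ((a, b) - w) + wedge (a, b) w ^ 2 := by unfold H709R2.sq; positivity
    refine le_ph ?_ (Real.sqrt_nonneg _)
    rw [Real.sq_sqrt h0]
    unfold H709R2.sq wedge
    simp only [Prod.fst_sub, Prod.snd_sub]
    nlinarith [sq_abs (w.1 - a), sq_abs (a * w.2 - b * w.1),
      sq_nonneg (|w.1 - a| - |a * w.2 - b * w.1|), sq_nonneg (b - w.2)]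
  have hb2 : ∀ w : ℝ × ℝ, ENNReal.ofReal (1 / √(H709R2.sq ((a, b) - w) + wedge (a, b) w ^ 2)) ≤
      ph (w.2 - b) * ph (a * w.2 - b * w.1) := by
    intro w
    have h0 : 0 ≤ H709R2.sq ((a, b) - w) + wedge (a, b) w ^ 2 := by unfold H709R2.sq; positivity
    refine le_ph ?_ (Real.sqrt_nonneg _)
    rw [Real.sq_sqrt h0]
    unfold H709R2.sq wedge
    simp only [Prod.fst_sub, Prod.snd_sub]
    nlinarith [sq_abs (w.2 - b), sq_abs (a * w.2 - b * w.1),
      sq_nonneg (|w.2 - b| - |a * w.2 - b * w.1|), sq_nonneg (a - w.1)]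
  have hb3 : ∀ w : ℝ × ℝ, ENNReal.ofReal (1 / √(H709R2.sq ((a, b) - w) + wedge (a, b) w ^ 2)) ≤
      ph (w.1 - a) * ph (w.2 - b) := by
    intro w
    have h0 : 0 ≤ H709R2.sq ((a, b) - w) + wedge (a, b) w ^ 2 := by unfold H709R2.sq; positivity
    refine le_ph ?_ (Real.sqrt_nonneg _)
    rw [Real.sq_sqrt h0]
    unfold H709R2.sq wedge
    simp only [Prod.fst_sub, Prod.snd_sub]
    nlinarith [sq_abs (w.1 - a), sq_abs (w.2 - b),
      sq_nonneg (|w.1 - a| - |w.2 - b|), sq_nonneg (a * w.2 - b * w.1)]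
  have hset : (volume : Measure (ℝ × ℝ)).restrict (Ioo (a - D) (a + D) ×ˢ Ioo (b - D) (b + D)) =
      (volume.restrict (Ioo (a - D) (a + D))).prod (volume.restrict (Ioo (b - D) (b + D))) := by
    rw [Measure.prod_restrict, Measure.volume_eq_prod]
  have hfin : ∀ s : ℝ, 0 < s → q (a, b) ≤ 16 * s ^ 2 →
      ENNReal.ofReal (6 * √D) * ENNReal.ofReal (6 * √D / √s) ≤
        ENNReal.ofReal (72 * D / √√(q (a, b))) := by
    intro s hs hqs
    rw [← ENNReal.ofReal_mul (by positivity)]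
    refine ENNReal.ofReal_le_ofReal ?_
    have h1 : √√(q (a, b)) ≤ 2 * √s := by
      have h2 : √(q (a, b)) ≤ 4 * s := by
        rw [Real.sqrt_le_left (by positivity)]
        nlinarith
      calc √√(q (a, b)) ≤ √(4 * s) := Real.sqrt_le_sqrt h2
        _ = 2 * √s := by
            rw [show 4 * s = 2 ^ 2 * s by ring, Real.sqrt_mul (by norm_num),
              Real.sqrt_sq (by norm_num)]
    have hss : 0 < √s := Real.sqrt_pos.2 hs
    rw [le_div_iff₀ hsq]
    calc 6 * √D * (6 * √D / √s) * √√(q (a, b)) = 36 * (√D * √D) / √s * √√(q (a, b)) := by ring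
      _ ≤ 36 * (√D * √D) / √s * (2 * √s) := mul_le_mul_of_nonneg_left h1 (by positivity)
      _ = 72 * D := by
          rw [hDD]
          field_simp
          ring
  by_cases hsmall : |a| < 1 / 2 ∧ |b| < 1 / 2
  · -- small
    refine (lintegral_mono hb3).trans ?_
    have hma : Measurable fun x : ℝ => ph (x - a) := ph_meas.comp (by fun_prop)
    have hmb : Measurable fun x : ℝ => ph (x - b) := ph_meas.comp (by fun_prop)
    rw [hset, lintegral_prod_mul hma.aemeasurable hmb.aemeasurable]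
    refine (mul_le_mul' (int_ph a a D hD) (int_ph b b D hD)).trans ?_
    refine le_trans (le_of_eq ?_) (hfin 1 one_pos ?_)
    · rw [Real.sqrt_one, div_one]
    · unfold q H709R2.sq
      obtain ⟨h1, h2⟩ := hsmall
      rw [abs_lt] at h1 h2
      simp only
      nlinarith
  · rcases le_total |b| |a| with hab | hab
    · -- `a` is large
      have ha : 1 / 2 ≤ |a| := by
        by_contra h
        exact hsmall ⟨not_le.1 h, lt_of_le_of_lt hab (not_le.1 h)⟩
      have ha0 : a ≠ 0 := by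
        intro h
        rw [h, abs_zero] at ha
        linarith
      refine (lintegral_mono hb1).trans ?_
      have hm : Measurable fun w : ℝ × ℝ => ph (w.1 - a) * ph (a * w.2 - b * w.1) :=
        (ph_meas.comp (by fun_prop)).mul (ph_meas.comp (by fun_prop))
      rw [hset, lintegral_prod _ hm.aemeasurable]
      refine le_trans (lintegral_mono
        (g := fun x => ph (x - a) * ENNReal.ofReal (6 * √D / √|a|)) fun x => ?_)
        (le_trans (le_of_eq ?_)
        (le_trans (mul_le_mul_left (int_ph a a D hD) _) (hfin |a| (by linarith) ?_)))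
      · simp only
        have hm2 : Measurable fun y : ℝ => ph (a * y - b * x) := ph_meas.comp (by fun_prop)
        rw [lintegral_const_mul _ hm2]
        exact mul_le_mul_right (int_ph_aff b a (b * x) D hD ha0) _
      · exact lintegral_mul_const _ (ph_meas.comp (by fun_prop))
      · unfold q H709R2.sq
        simp only
        have h3 : b ^ 2 ≤ a ^ 2 := sq_le_sq.2 hab
        have h4 : |a| ^ 2 = a ^ 2 := sq_abs a
        nlinarith
    · -- `b` is large
      have hb : 1 / 2 ≤ |b| := by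
        by_contra h
        exact hsmall ⟨lt_of_le_of_lt hab (not_le.1 h), not_le.1 h⟩
      have hb0 : b ≠ 0 := by
        intro h
        rw [h, abs_zero] at hb
        linarith
      refine (lintegral_mono hb2).trans ?_
      have hm : Measurable fun w : ℝ × ℝ => ph (w.2 - b) * ph (a * w.2 - b * w.1) :=
        (ph_meas.comp (by fun_prop)).mul (ph_meas.comp (by fun_prop))
      rw [hset, lintegral_prod_symm _ hm.aemeasurable]
      refine le_trans (lintegral_mono
        (g := fun y => ph (y - b) * ENNReal.ofReal (6 * √D / √|b|)) fun y => ?_)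
        (le_trans (le_of_eq ?_)
        (le_trans (mul_le_mul_left (int_ph b b D hD) _) (hfin |b| (by linarith) ?_)))
      · simp only
        have hm2 : Measurable fun x : ℝ => ph (a * y - b * x) := ph_meas.comp (by fun_prop)
        rw [lintegral_const_mul _ hm2]
        have h5 : ∀ x : ℝ, ph (a * y - b * x) = ph (b * x - a * y) := by
          intro x
          rw [← ph_neg]
          congr 1
          ring
        simp only [h5]
        exact mul_le_mul_right (int_ph_aff a b (a * y) D hD hb0) _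
      · exact lintegral_mul_const _ (ph_meas.comp (by fun_prop))
      · unfold q H709R2.sq
        simp only
        have h3 : a ^ 2 ≤ b ^ 2 := sq_le_sq.2 hab
        have h4 : |b| ^ 2 = b ^ 2 := sq_abs b
        nlinarith

end

end Pool.Agent.Helper63K9.KT
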