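import Pool.Agent.Helper63K9.KT.LB27

/-! The leaf KC: the kernel summed over the degenerate zeros. -/

open Real Set MeasureTheory Filter
open scoped ENNReal Topology

namespace Pool.Agent.Helper63K9.KT

noncomputable section

open Pool.Agent.H709R2 (fld rot rotc NP wedge ClosedOrbit)
open Pool.Agent.W960.HR
open Pool.Agent.H709U
open Pool.Agent.Helper63K9.KS

open B27 in
theorem kc : S_AREA → S_KM → S_KC := by
  intro hA hK
  obtain ⟨K, hK0, hK⟩ := hK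
  refine ⟨K, hK0, fun n hn Tz hT k j hj τ hτ hτ1 => ?_⟩
  set X : ℝ := n * τ * (√n / (2 ^ j * 2 ^ k) + 1 / √(2 ^ k)) with hX
  have hX0 : 0 ≤ X := by positivity
  obtain ⟨G, hG1, hG2, hG3⟩ := fatou hA (meas_Psi hT k j τ) (K := K * X) (by positivity) (by
    intro ε hε hε1
    refine (hK n hn Tz hT k j hj τ hτ hτ1 ε hε hε1).trans (ENNReal.ofReal_le_ofReal (le_of_eq ?_))
    ring)
  refine ⟨G, hG1, hG2, fun c Z hZ => ?_⟩
  refine hG3 c Z (fun p => ENNReal.ofReal (1 / (2 * (2 ^ k / 2 ^ (j + 1)))) *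
        ∫⁻ w in Metric.closedBall p (2 * (2 ^ k / 2 ^ j)), hk (F n c) w)
    (fun p hp => ⟨(hZ p hp).1, (hZ p hp).2.1⟩) ?_
  intro p hp
  obtain ⟨-, -, hU, hB⟩ := hZ p hp
  have h1 : ∀ᶠ z in 𝓝 p, z ∈ Uk k := (open_Uk k).mem_nhds hU
  have h2 : ∀ᶠ z in 𝓝 p, z ∈ Bd n Tz τ c := by
    have h3 : IsOpen {z : ℝ × ℝ | z ∈ Bd n Tz τ c} :=
      (open_Bd hT τ).preimage (by fun_prop : Continuous fun z : ℝ × ℝ => (c, z))
    exact h3.mem_nhds hB
  have hρ : (0 : ℝ) < 2 ^ k / 2 ^ j := by positivity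
  filter_upwards [h1, h2, Metric.ball_mem_nhds p hρ] with z hz1 hz2 hz3
  have hz : z ∈ Uk k ∩ Bd n Tz τ c := ⟨hz1, hz2⟩
  unfold Psi
  rw [indicator_of_mem hz]
  refine mul_le_mul_right ?_ _
  refine lintegral_mono_set ?_
  intro w hw
  rw [Metric.mem_closedBall] at hw
  rw [Metric.mem_ball] at hz3 ⊢
  rw [dist_comm] at hz3
  linarith [dist_triangle w p z]

end

end Pool.Agent.Helper63K9.KT
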