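import Pool.Agent.Helper63K9.KT.LB27
import Pool.Agent.Helper63K9.KT.LINT

/-! The leaf KM: mean of the kernel around the degenerate zeros. -/

open Real Set MeasureTheory Filter
open scoped ENNReal Topology

namespace Pool.Agent.Helper63K9.KT

noncomputable section

open Pool.Agent.H709R2 (fld rot rotc NP wedge ClosedOrbit)
open Pool.Agent.W960.HR
open Pool.Agent.H709U
open Pool.Agent.Helper63K9.KS

namespace KML

theorem q_le {z w : ℝ × ℝ} {k j : ℕ} (hj : 7 ≤ j) (hz : z ∈ Uk k)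
    (hw : w ∈ Metric.ball z (3 * (2 ^ k / 2 ^ j))) : √(q z) ≤ 2 * √(q w) := by
  obtain ⟨-, h2⟩ := hz
  have h2j : (128 : ℝ) ≤ 2 ^ j := by
    calc (128 : ℝ) = 2 ^ 7 := by norm_num
      _ ≤ 2 ^ j := pow_le_pow_right₀ (by norm_num) hj
  have hρ : (2 : ℝ) ^ k / 2 ^ j ≤ 2 ^ k / 128 :=
    div_le_div_of_nonneg_left (by positivity) (by norm_num) h2j
  set r : ℝ := 3 * (2 ^ k / 2 ^ j) with hr
  have hr0 : 0 < r := by positivity
  have hr8 : r ≤ 3 / 16 * √(q z) := by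
    have : (2 : ℝ) ^ k / 128 = 1 / 16 * (2 ^ k / 8) := by ring
    linarith
  rw [Metric.mem_ball, Prod.dist_eq, max_lt_iff, Real.dist_eq, Real.dist_eq] at hw
  have hqz := Real.sq_sqrt (q_pos z).le
  have hr2 : r ^ 2 ≤ 9 / 256 * q z := by
    calc r ^ 2 ≤ (3 / 16 * √(q z)) ^ 2 := pow_le_pow_left₀ hr0.le hr8 2
      _ = 9 / 256 * √(q z) ^ 2 := by ring
      _ = 9 / 256 * q z := by rw [hqz]
  have h3 : (w.1 - z.1) ^ 2 ≤ r ^ 2 := sq_le_sq' (abs_lt.1 hw.1).1.le (abs_lt.1 hw.1).2.le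
  have h4 : (w.2 - z.2) ^ 2 ≤ r ^ 2 := sq_le_sq' (abs_lt.1 hw.2).1.le (abs_lt.1 hw.2).2.le
  have h5 : q z ≤ 4 * q w := by
    have h6 : q z ≤ 2 * q w + 2 * ((w.1 - z.1) ^ 2 + (w.2 - z.2) ^ 2) := by
      unfold q H709R2.sq
      nlinarith [sq_nonneg (z.1 - 2 * w.1), sq_nonneg (z.2 - 2 * w.2)]
    have h7 := q_pos z
    linarith
  calc √(q z) ≤ √(4 * q w) := Real.sqrt_le_sqrt h5
    _ = 2 * √(q w) := by
        rw [show 4 * q w = 2 ^ 2 * q w by ring, Real.sqrt_mul (by norm_num),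
          Real.sqrt_sq (by norm_num)]

theorem bd_w {n : ℕ} (hn : 1 ≤ n) {z w : ℝ × ℝ} {k j : ℕ} (hj : 7 ≤ j) (hz : z ∈ Uk k)
    (hw : w ∈ Metric.ball z (3 * (2 ^ k / 2 ^ j))) (hne : z ≠ w) :
    √n / √(q w) * (1 + 1 / (√n * dst z w)) ≤
      2 * √n / √(q z) + √(q z) * (1 / √(H709R2.sq (z - w) + wedge z w ^ 2)) := by
  have hn0 : (0 : ℝ) < n := by exact_mod_cast hn
  have hsn : 0 < √(n : ℝ) := Real.sqrt_pos.2 hn0
  have hR : 0 < √(q z) := Real.sqrt_pos.2 (q_pos z)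
  have hRw : 0 < √(q w) := Real.sqrt_pos.2 (q_pos w)
  have hS : 0 < H709R2.sq (z - w) + wedge z w ^ 2 := by
    have h1 : 0 < H709R2.sq (z - w) := by
      unfold H709R2.sq
      by_contra hcon
      push Not at hcon
      apply hne
      have h2 : (z - w).1 = 0 := by nlinarith [sq_nonneg (z - w).1, sq_nonneg (z - w).2]
      have h3 : (z - w).2 = 0 := by nlinarith [sq_nonneg (z - w).1, sq_nonneg (z - w).2]
      exact sub_eq_zero.1 (Prod.ext h2 h3)
    positivity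
  have hsS : 0 < √(H709R2.sq (z - w) + wedge z w ^ 2) := Real.sqrt_pos.2 hS
  have hd : dst z w = √(H709R2.sq (z - w) + wedge z w ^ 2) / (√(q z) * √(q w)) := by
    unfold dst
    rw [Real.sqrt_div hS.le, Real.sqrt_mul (q_pos z).le]
  have h1 : √n / √(q w) * (1 / (√n * dst z w)) =
      √(q z) * (1 / √(H709R2.sq (z - w) + wedge z w ^ 2)) := by
    rw [hd]
    field_simp
  have h2 : √n / √(q w) ≤ 2 * √n / √(q z) := by
    rw [div_le_div_iff₀ hRw hR]
    nlinarith [q_le hj hz hw]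
  rw [mul_add, mul_one, h1]
  linarith

theorem vol_ball (z : ℝ × ℝ) {r : ℝ} (hr : 0 < r) :
    volume (Metric.ball z r) = ENNReal.ofReal ((2 * r) ^ 2) := by
  rw [IntL.ball_eq, Measure.volume_eq_prod, Measure.prod_prod, Real.volume_Ioo, Real.volume_Ioo,
    ← ENNReal.ofReal_mul (by linarith)]
  congr 1
  ring

/-- the final computation with numbers -/
theorem nums {n τ e K1 K2 R u M v N ρ J : ℝ} (hn : 0 < n) (hτ : 0 < τ) (he : 0 < e) (hK1 : 0 < K1)
    (hK2 : 0 < K2) (hu : 0 < u) (hR : R = u ^ 2) (hv : 0 < v) (hM : M = v ^ 2) (hN : 0 ≤ N)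
    (hJ : 0 < J) (hρ : ρ = M / J) (hMR : M ≤ 8 * R) :
    n * τ / R ^ 3 * (1 / ρ) * (e ^ 2 * K1 * (2 * N / R) * (2 * (3 * ρ)) ^ 2 +
      e ^ 2 * K1 * R * (K2 * (3 * ρ) / u)) * (16 * M) ^ 2 ≤
      K1 * (10 ^ 8 + 200000 * K2) * e ^ 2 * (n * τ * (N / (J * M) + 1 / v)) := by
  have hR0 : 0 < R := by rw [hR]; positivity
  have hM0 : 0 < M := by rw [hM]; positivity
  have hρ0 : 0 < ρ := by rw [hρ]; positivity
  have hvu : v ≤ 3 * u := by
    have : v ^ 2 ≤ (3 * u) ^ 2 := by rw [← hM]; nlinarith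
    exact abs_le_of_sq_le_sq' this (by positivity) |>.2
  -- first term
  have h1 : 72 * ρ / R ^ 4 * (16 * M) ^ 2 ≤ 10 ^ 8 * (1 / (J * M)) := by
    have h2 : M ^ 4 ≤ (8 * R) ^ 4 := pow_le_pow_left₀ hM0.le hMR 4
    rw [hρ, div_mul_eq_mul_div, mul_one_div, div_le_div_iff₀ (by positivity) (by positivity)]
    have h3 : 72 * (M / J) * (16 * M) ^ 2 * (J * M) = 18432 * M ^ 4 := by
      field_simp
      ring
    rw [h3]
    nlinarith [pow_pos hR0 4]
  -- second term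
  have h4 : 3 / u ^ 5 * (16 * M) ^ 2 ≤ 200000 * (1 / v) := by
    have h5 : v ^ 5 ≤ (3 * u) ^ 5 := pow_le_pow_left₀ hv.le hvu 5
    rw [div_mul_eq_mul_div, mul_one_div, div_le_div_iff₀ (by positivity) hv]
    have h6 : 3 * (16 * M) ^ 2 * v = 768 * v ^ 5 := by rw [hM]; ring
    rw [h6]
    nlinarith [pow_pos hu 5]
  have h7 : n * τ / R ^ 3 * (1 / ρ) * (e ^ 2 * K1 * (2 * N / R) * (2 * (3 * ρ)) ^ 2 +
      e ^ 2 * K1 * R * (K2 * (3 * ρ) / u)) * (16 * M) ^ 2 =
      n * τ * e ^ 2 * K1 * (N * (72 * ρ / R ^ 4 * (16 * M) ^ 2) +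
        K2 * (3 / u ^ 5 * (16 * M) ^ 2)) := by
    have e1 : n * τ / R ^ 3 * (1 / ρ) * (e ^ 2 * K1 * (2 * N / R) * (2 * (3 * ρ)) ^ 2) =
        n * τ * e ^ 2 * K1 * (N * (72 * ρ / R ^ 4)) := by
      field_simp
      ring
    have e2 : n * τ / R ^ 3 * (1 / ρ) * (e ^ 2 * K1 * R * (K2 * (3 * ρ) / u)) =
        n * τ * e ^ 2 * K1 * (K2 * (3 / u ^ 5)) := by
      rw [hR]
      field_simp
    rw [mul_add, e1, e2]
    ring
  rw [h7]
  have h8 : N * (72 * ρ / R ^ 4 * (16 * M) ^ 2) + K2 * (3 / u ^ 5 * (16 * M) ^ 2) ≤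
      N * (10 ^ 8 * (1 / (J * M))) + K2 * (200000 * (1 / v)) :=
    add_le_add (mul_le_mul_of_nonneg_left h1 hN) (mul_le_mul_of_nonneg_left h4 hK2.le)
  refine (mul_le_mul_of_nonneg_left h8 (by positivity)).trans ?_
  have h9 : N * (10 ^ 8 * (1 / (J * M))) + K2 * (200000 * (1 / v)) ≤
      (10 ^ 8 + 200000 * K2) * (N / (J * M) + 1 / v) := by
    have e1 : (10 ^ 8 + 200000 * K2) * (N / (J * M) + 1 / v) =
        N * (10 ^ 8 * (1 / (J * M))) + K2 * (200000 * (1 / v)) +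
          (200000 * K2 * (N / (J * M)) + 10 ^ 8 * (1 / v)) := by ring
    rw [e1]
    have : 0 ≤ 200000 * K2 * (N / (J * M)) + 10 ^ 8 * (1 / v) := by positivity
    linarith
  refine (mul_le_mul_of_nonneg_left h9 (by positivity)).trans (le_of_eq ?_)
  ring

end KML

open B27 KML in
theorem km : S_DX → S_MOM → S_INT1 → S_KM := by
  intro hDX hMOM hINT
  obtain ⟨K1, hK1, hMOM⟩ := hMOM
  obtain ⟨K2, hK2, hINT⟩ := hINT
  refine ⟨K1 * (10 ^ 8 + 200000 * K2), by positivity,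
    fun n hn Tz hT k j hj τ hτ hτ1 ε hε hε1 => ?_⟩
  have hn0 : (0 : ℝ) < n := by exact_mod_cast hn
  have hρ : (0 : ℝ) < 2 ^ k / 2 ^ j := by positivity
  have ha : (1 : ℝ) / (2 * (2 ^ k / 2 ^ (j + 1))) = 1 / (2 ^ k / 2 ^ j) := by
    rw [pow_succ]
    field_simp
  have key : ∀ z : ℝ × ℝ, ∫⁻ c, {c : T n → ℝ × ℝ | ‖Xh n c z‖ < ε}.indicator
      (fun c => ENNReal.ofReal |(fderiv ℝ (Xh n c) z).det| * Psi n Tz k j τ c z) c ∂GP (T n) ≤
      (Metric.ball (0 : ℝ × ℝ) (8 * 2 ^ k)).indicator (fun _ =>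
        ENNReal.ofReal (K1 * (10 ^ 8 + 200000 * K2) * ε ^ 2 *
          (n * τ * (√n / (2 ^ j * 2 ^ k) + 1 / √(2 ^ k))) / (16 * 2 ^ k) ^ 2)) z := by
    intro z
    by_cases hz : z ∈ Uk k
    swap
    · have h0 : ∀ c : T n → ℝ × ℝ, {c : T n → ℝ × ℝ | ‖Xh n c z‖ < ε}.indicator
          (fun c => ENNReal.ofReal |(fderiv ℝ (Xh n c) z).det| * Psi n Tz k j τ c z) c = 0 := by
        intro c
        have h1 : Psi n Tz k j τ c z = 0 := by
          unfold Psi
          exact indicator_of_notMem (fun h => hz h.1) _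
        by_cases hc : c ∈ {c : T n → ℝ × ℝ | ‖Xh n c z‖ < ε}
        · rw [indicator_of_mem hc, h1, mul_zero]
        · rw [indicator_of_notMem hc]
      simp only [h0, lintegral_zero]
      exact zero_le
    have hzb : z ∈ Metric.ball (0 : ℝ × ℝ) (8 * 2 ^ k) := by
      rw [mem_ball_zero_iff]
      have := hz.1
      rw [pow_add] at this
      linarith
    rw [indicator_of_mem hzb]
    have hR : 0 < √(q z) := Real.sqrt_pos.2 (q_pos z)
    have hu : 0 < √√(q z) := Real.sqrt_pos.2 hR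
    set r : ℝ := 3 * (2 ^ k / 2 ^ j) with hr
    have hr0 : 0 < r := by positivity
    -- the bound for fixed coefficients
    have h1 : ∀ c : T n → ℝ × ℝ, {c : T n → ℝ × ℝ | ‖Xh n c z‖ < ε}.indicator
        (fun c => ENNReal.ofReal |(fderiv ℝ (Xh n c) z).det| * Psi n Tz k j τ c z) c ≤
        ENNReal.ofReal (n * τ / √(q z) ^ 3 * (1 / (2 ^ k / 2 ^ j))) *
          ∫⁻ w in Metric.ball z r, {c : T n → ℝ × ℝ | ‖Xh n c z‖ < ε}.indicator
            (fun c => ENNReal.ofReal (Sn n (Tz z c) ^ 2) * hk (F n c) w) c := by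
      intro c
      by_cases hc : c ∈ {c : T n → ℝ × ℝ | ‖Xh n c z‖ < ε}
      swap
      · rw [indicator_of_notMem hc]
        exact zero_le
      simp only [indicator_of_mem hc]
      unfold Psi
      by_cases hb : z ∈ Uk k ∩ Bd n Tz τ c
      swap
      · rw [indicator_of_notMem hb, mul_zero]
        exact zero_le
      rw [indicator_of_mem hb, lintegral_const_mul' _ _ ENNReal.ofReal_ne_top, ← mul_assoc,
        ← mul_assoc]
      refine mul_le_mul_left ?_ _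
      rw [ha, ← ENNReal.ofReal_mul (abs_nonneg _), ← ENNReal.ofReal_mul (by positivity)]
      refine ENNReal.ofReal_le_ofReal ?_
      rw [hDX n Tz hT c z]
      have h2 : |wedge (Y1 n (Tz z c)) (Y2 n (Tz z c))| < n * τ * Sn n (Tz z c) ^ 2 := hb.2
      calc |wedge (Y1 n (Tz z c)) (Y2 n (Tz z c))| / √(q z) ^ 3 * (1 / (2 ^ k / 2 ^ j))
          ≤ n * τ * Sn n (Tz z c) ^ 2 / √(q z) ^ 3 * (1 / (2 ^ k / 2 ^ j)) := by gcongr
        _ = _ := by ring
    refine (lintegral_mono h1).trans ?_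
    rw [lintegral_const_mul' _ _ ENNReal.ofReal_ne_top]
    -- Tonelli
    have hTc : Continuous fun c : T n → ℝ × ℝ => Tz z c :=
      (cont_T hT).comp (by fun_prop : Continuous fun c : T n → ℝ × ℝ => (c, z))
    have hXc : Continuous fun c : T n → ℝ × ℝ => Xh n c z :=
      (cont_Xh n).comp (by fun_prop : Continuous fun c : T n → ℝ × ℝ => (c, z))
    have hSm : Measurable fun c : T n → ℝ × ℝ => ENNReal.ofReal (Sn n (Tz z c) ^ 2) :=
      (((cont_Sn n).comp hTc).pow 2).measurable.ennreal_ofReal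
    have hm1 : Measurable fun x : (T n → ℝ × ℝ) × (ℝ × ℝ) =>
        ENNReal.ofReal (Sn n (Tz z x.1) ^ 2) * hk (F n x.1) x.2 :=
      (hSm.comp measurable_fst).mul (B27.meas_hk n)
    have hm2 : MeasurableSet {c : T n → ℝ × ℝ | ‖Xh n c z‖ < ε} :=
      (isOpen_lt hXc.norm continuous_const).measurableSet
    have hm3 : MeasurableSet {x : (T n → ℝ × ℝ) × (ℝ × ℝ) | ‖Xh n x.1 z‖ < ε} :=
      measurable_fst hm2
    have hm4 : Measurable (Function.uncurry fun (c : T n → ℝ × ℝ) (w : ℝ × ℝ) =>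
        {c : T n → ℝ × ℝ | ‖Xh n c z‖ < ε}.indicator
            (fun c => ENNReal.ofReal (Sn n (Tz z c) ^ 2) * hk (F n c) w) c) :=
      hm1.indicator hm3
    rw [lintegral_lintegral_swap hm4.aemeasurable]
    -- the moments
    have h2 : ∫⁻ w in Metric.ball z r, ∫⁻ c, {c : T n → ℝ × ℝ | ‖Xh n c z‖ < ε}.indicator
            (fun c => ENNReal.ofReal (Sn n (Tz z c) ^ 2) * hk (F n c) w) c ∂GP (T n) ≤
        ∫⁻ w in Metric.ball z r, (ENNReal.ofReal (ε ^ 2 * K1 * (2 * √n / √(q z))) +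
          ENNReal.ofReal (ε ^ 2 * K1 * √(q z)) *
            ENNReal.ofReal (1 / √(H709R2.sq (z - w) + wedge z w ^ 2))) := by
      refine lintegral_mono_ae ?_
      rw [ae_restrict_iff' Metric.isOpen_ball.measurableSet]
      have h3 : ∀ᵐ w : ℝ × ℝ, w ≠ z := by
        rw [ae_iff]
        simp only [ne_eq, not_not]
        exact measure_singleton z
      filter_upwards [h3] with w hw1 hw2
      refine (hMOM n hn Tz hT z w hw1.symm ε hε hε1).trans ?_
      rw [← ENNReal.ofReal_mul (by positivity), ← ENNReal.ofReal_add (by positivity)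
        (by positivity)]
      refine ENNReal.ofReal_le_ofReal ?_
      have h4 := bd_w hn hj hz hw2 hw1.symm
      calc ε ^ 2 * (K1 * (√n / √(q w)) * (1 + 1 / (√n * dst z w))) =
          ε ^ 2 * K1 * (√n / √(q w) * (1 + 1 / (√n * dst z w))) := by ring
        _ ≤ ε ^ 2 * K1 * (2 * √n / √(q z) +
            √(q z) * (1 / √(H709R2.sq (z - w) + wedge z w ^ 2))) :=
          mul_le_mul_of_nonneg_left h4 (by positivity)
        _ = _ := by ring
    have h5 : ∫⁻ w in Metric.ball z r, (ENNReal.ofReal (ε ^ 2 * K1 * (2 * √n / √(q z))) +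
          ENNReal.ofReal (ε ^ 2 * K1 * √(q z)) *
            ENNReal.ofReal (1 / √(H709R2.sq (z - w) + wedge z w ^ 2))) ≤
        ENNReal.ofReal (ε ^ 2 * K1 * (2 * √n / √(q z)) * (2 * r) ^ 2 +
          ε ^ 2 * K1 * √(q z) * (K2 * r / √√(q z))) := by
      rw [lintegral_add_left measurable_const, lintegral_const,
        lintegral_const_mul' _ _ ENNReal.ofReal_ne_top, Measure.restrict_apply_univ,
        KML.vol_ball z hr0, ENNReal.ofReal_add (by positivity) (by positivity),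
        ENNReal.ofReal_mul (p := ε ^ 2 * K1 * (2 * √n / √(q z))) (by positivity),
        ENNReal.ofReal_mul (p := ε ^ 2 * K1 * √(q z)) (by positivity)]
      exact add_le_add le_rfl (mul_le_mul_right (hINT z r hr0) _)
    refine (mul_le_mul_right (h2.trans h5) _).trans ?_
    rw [← ENNReal.ofReal_mul (by positivity)]
    refine ENNReal.ofReal_le_ofReal ?_
    rw [le_div_iff₀ (by positivity)]
    have h6 := nums (n := n) (τ := τ) (e := ε) (K1 := K1) (K2 := K2) (R := √(q z)) (u := √√(q z))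
      (M := 2 ^ k) (v := √(2 ^ k)) (N := √n) (ρ := 2 ^ k / 2 ^ j) (J := 2 ^ j) hn0 hτ hε hK1 hK2 hu
      (Real.sq_sqrt hR.le).symm (Real.sqrt_pos.2 (by positivity))
      (Real.sq_sqrt (by positivity)).symm (Real.sqrt_nonneg _) (by positivity) rfl
      (by have := hz.2; linarith)
    exact h6
  refine (lintegral_mono key).trans ?_
  rw [lintegral_indicator_const Metric.isOpen_ball.measurableSet,
    KML.vol_ball 0 (by positivity), ← ENNReal.ofReal_mul (by positivity)]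
  refine ENNReal.ofReal_le_ofReal (le_of_eq ?_)
  field_simp
  ring

end

end Pool.Agent.Helper63K9.KT
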