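import Pool.Agent.Helper63K9.KT.Ga

/-! Leaf MOM. -/

open Real Set MeasureTheory Topology Filter ProbabilityTheory
open scoped ENNReal NNReal

namespace Pool.Agent.Helper63K9.KT.Mo

noncomputable section

open Pool.Agent.H709R2 (wedge)
open Pool.Agent.W960.HR
open Pool.Agent.Helper63K9.KS

/-- weights of the normalised field -/
def wh (n : ℕ) (z : ℝ × ℝ) (m : T n) : ℝ := w0 n z m / √(q z ^ n)

/-- weights of a corrected derivative -/
def wg (n : ℕ) (z : ℝ × ℝ) (u : T n → ℝ) (t : ℝ) (m : T n) : ℝ :=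
  (u m - n * t / q z * w0 n z m) / √(q z ^ n)

lemma sqrt_q_pos (n : ℕ) (z : ℝ × ℝ) : 0 < √(q z ^ n) := Real.sqrt_pos.2 (pow_pos (q_pos z) n)

lemma sqrt_q_sq (n : ℕ) (z : ℝ × ℝ) : √(q z ^ n) ^ 2 = q z ^ n :=
  Real.sq_sqrt (pow_pos (q_pos z) n).le

lemma lin_div {S : Finset (ℕ × ℕ)} (w : S → ℝ) (r : ℝ) (c : S → ℝ × ℝ) :
    lin (fun m => w m / r) c = r⁻¹ • lin w c := by
  unfold lin
  rw [Finset.smul_sum]
  refine Finset.sum_congr rfl fun m _ => ?_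
  rw [smul_smul]
  congr 1
  exact div_eq_inv_mul _ _

lemma Xh_eq (n : ℕ) (c : T n → ℝ × ℝ) (z : ℝ × ℝ) : Xh n c z = lin (wh n z) c := by
  unfold wh Xh
  rw [lin_div, lin_w0]

lemma sum_wh (n : ℕ) (z : ℝ × ℝ) : ∑ m, wh n z m ^ 2 = 1 := by
  unfold wh
  simp only [div_pow]
  rw [← Finset.sum_div, sum_w0, sqrt_q_sq, div_self (pow_pos (q_pos z) n).ne']

lemma lin_wg (n : ℕ) (z : ℝ × ℝ) (u : T n → ℝ) (t : ℝ) (c : T n → ℝ × ℝ) :
    lin (wg n z u t) c = (√(q z ^ n))⁻¹ • (lin u c - (n * t / q z) • F n c z) := by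
  unfold wg
  rw [lin_div]
  congr 1
  rw [← lin_w0]
  unfold lin
  rw [Finset.smul_sum, ← Finset.sum_sub_distrib]
  refine Finset.sum_congr rfl fun m _ => ?_
  rw [sub_smul, smul_smul]

lemma sum_wg {n : ℕ} (hn : 1 ≤ n) (z : ℝ × ℝ) {u : T n → ℝ} {t : ℝ}
    (h1 : q z * ∑ m, w0 n z m * u m = n * t * q z ^ n)
    (h2 : q z ^ 2 * ∑ m, u m ^ 2 = n * q z * q z ^ n + n * (n - 1) * t ^ 2 * q z ^ n) :
    ∑ m, wg n z u t m ^ 2 ≤ n / q z := by
  have hq := q_pos z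
  have hqn : 0 < q z ^ n := pow_pos hq n
  have e : ∀ m, wg n z u t m ^ 2 = (u m ^ 2 - 2 * (n * t / q z) * (w0 n z m * u m) +
      (n * t / q z) ^ 2 * w0 n z m ^ 2) / q z ^ n := by
    intro m
    unfold wg
    rw [div_pow, sqrt_q_sq]
    congr 1
    ring
  rw [Finset.sum_congr rfl fun m _ => e m, ← Finset.sum_div, Finset.sum_add_distrib,
    Finset.sum_sub_distrib, ← Finset.mul_sum, ← Finset.mul_sum, sum_w0]
  have e1 : ∑ m, w0 n z m * u m = n * t * q z ^ n / q z := by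
    rw [← h1]; field_simp
  have e2 : ∑ m, u m ^ 2 = (n * q z * q z ^ n + n * (n - 1) * t ^ 2 * q z ^ n) / q z ^ 2 := by
    rw [← h2]; field_simp
  rw [e1, e2]
  have e3 : ((n * q z * q z ^ n + n * (n - 1) * t ^ 2 * q z ^ n) / q z ^ 2 -
      2 * (n * t / q z) * (n * t * q z ^ n / q z) + (n * t / q z) ^ 2 * q z ^ n) / q z ^ n =
      n / q z - n * t ^ 2 / q z ^ 2 := by
    field_simp
    ring
  rw [e3]
  have : 0 ≤ (n:ℝ) * t ^ 2 / q z ^ 2 := by positivity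
  linarith

lemma wedge_sub (x y : ℝ × ℝ) (r : ℝ) : wedge x (y - r • x) = wedge x y := by
  unfold wedge
  simp only [Prod.fst_sub, Prod.snd_sub, Prod.smul_fst, Prod.smul_snd, smul_eq_mul]
  ring

lemma ker_le (n : ℕ) (z : ℝ × ℝ) (u : T n → ℝ) (t : ℝ) (c : T n → ℝ × ℝ) :
    ENNReal.ofReal (|wedge (F n c z) (lin u c)| / H709R2.sq (F n c z)) ≤
      2 * (ENNReal.ofReal ‖lin (wg n z u t) c‖ * (ENNReal.ofReal ‖lin (wh n z) c‖)⁻¹) := by
  by_cases h0 : F n c z = 0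
  · have : H709R2.sq (F n c z) = 0 := by
      rw [h0]; unfold H709R2.sq; simp
    rw [this, div_zero, ENNReal.ofReal_zero]
    exact bot_le
  have hs := sqrt_q_pos n z
  have hF : 0 < ‖F n c z‖ := norm_pos_iff.2 h0
  have hwh : ‖lin (wh n z) c‖ = (√(q z ^ n))⁻¹ * ‖F n c z‖ := by
    rw [← Xh_eq]
    unfold Xh
    rw [norm_smul, Real.norm_of_nonneg (by positivity)]
  have hpos : 0 < ‖lin (wh n z) c‖ := by rw [hwh]; positivity
  have hsq : ‖F n c z‖ ^ 2 ≤ H709R2.sq (F n c z) := norm_sq_le_sq _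
  have hw : |wedge (F n c z) (lin u c)| ≤ 2 * (‖F n c z‖ *
      ‖lin u c - (n * t / q z) • F n c z‖) := by
    rw [← wedge_sub _ _ (n * t / q z)]
    exact abs_wedge_le _ _
  rw [← ENNReal.ofReal_inv_of_pos hpos, ← ENNReal.ofReal_mul (norm_nonneg _),
    show (2 : ℝ≥0∞) = ENNReal.ofReal 2 by simp, ← ENNReal.ofReal_mul (by norm_num)]
  apply ENNReal.ofReal_le_ofReal
  rw [lin_wg, norm_smul, Real.norm_of_nonneg (by positivity : 0 ≤ (√(q z ^ n))⁻¹), hwh]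
  set G := ‖lin u c - (n * t / q z) • F n c z‖ with hG
  have hG0 : 0 ≤ G := norm_nonneg _
  calc |wedge (F n c z) (lin u c)| / H709R2.sq (F n c z)
      ≤ 2 * (‖F n c z‖ * G) / ‖F n c z‖ ^ 2 := by
        exact div_le_div₀ (by positivity) hw (by positivity) hsq
    _ = 2 * ((√(q z ^ n))⁻¹ * G * ((√(q z ^ n))⁻¹ * ‖F n c z‖)⁻¹) := by
        field_simp

lemma corr (n : ℕ) (p w : ℝ × ℝ) : ∑ m, wh n p m * wh n w m =
    (1 + ip p w) ^ n / (√(q p ^ n) * √(q w ^ n)) := by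
  unfold wh
  have : ∀ m, w0 n p m / √(q p ^ n) * (w0 n w m / √(q w ^ n)) =
      w0 n p m * w0 n w m / (√(q p ^ n) * √(q w ^ n)) := by
    intro m
    rw [div_mul_div_comm]
  rw [Finset.sum_congr rfl fun m _ => this m, ← Finset.sum_div, cov]
  unfold ip
  congr 2
  ring

lemma dst_sq (p w : ℝ × ℝ) : dst p w ^ 2 = (H709R2.sq (p - w) + wedge p w ^ 2) / (q p * q w) := by
  unfold dst
  rw [Real.sq_sqrt]
  have := q_pos p
  have := q_pos w
  refine div_nonneg ?_ (by positivity)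
  unfold H709R2.sq
  positivity

lemma corr_sq (n : ℕ) (p w : ℝ × ℝ) :
    ((1 + ip p w) ^ n / (√(q p ^ n) * √(q w ^ n))) ^ 2 = (1 - dst p w ^ 2) ^ n := by
  have hp := q_pos p
  have hw := q_pos w
  rw [div_pow, mul_pow, sqrt_q_sq, sqrt_q_sq, dst_sq, ← pow_mul, mul_comm n 2, pow_mul, ← mul_pow,
    ← div_pow]
  congr 1
  rw [eq_sub_iff_add_eq, ← add_div, div_eq_one_iff_eq (by positivity)]
  unfold ip q H709R2.sq wedge
  simp only [Prod.fst_sub, Prod.snd_sub]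
  ring

lemma dst_pos {p w : ℝ × ℝ} (h : p ≠ w) : 0 < dst p w := by
  unfold dst
  apply Real.sqrt_pos.2
  have hp := q_pos p
  have hw := q_pos w
  refine div_pos ?_ (by positivity)
  have h1 : 0 < H709R2.sq (p - w) := by
    have h2 := norm_sq_le_sq (p - w)
    have h3 : 0 < ‖p - w‖ := norm_pos_iff.2 (sub_ne_zero.2 h)
    nlinarith
  nlinarith [sq_nonneg (wedge p w)]

lemma dst_le (p w : ℝ × ℝ) : dst p w ^ 2 ≤ 1 := by
  have h := corr_sq 1 p w
  have h2 : 0 ≤ ((1 + ip p w) ^ 1 / (√(q p ^ 1) * √(q w ^ 1))) ^ 2 := sq_nonneg _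
  rw [h, pow_one] at h2
  linarith

lemma one_sub_pow_le {n : ℕ} {x : ℝ} (hx0 : 0 ≤ x) (hx1 : x ≤ 1) : (1 - x) ^ n * (1 + n * x) ≤ 1 := by
  have h1 : 1 + n * x ≤ (1 + x) ^ n := one_add_mul_le_pow (by linarith) n
  have h2 : 0 ≤ (1 - x) ^ n := pow_nonneg (by linarith) n
  calc (1 - x) ^ n * (1 + n * x) ≤ (1 - x) ^ n * (1 + x) ^ n := mul_le_mul_of_nonneg_left h1 h2
    _ = (1 - x ^ 2) ^ n := by rw [← mul_pow]; ring
    _ ≤ 1 := pow_le_one₀ (by nlinarith) (by nlinarith [sq_nonneg x])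

lemma rho_bound {n : ℕ} (hn : 1 ≤ n) {s ρ2 : ℝ} (hs : 0 < s) (hs1 : s ^ 2 ≤ 1)
    (hρ : ρ2 = (1 - s ^ 2) ^ n) : ρ2 < 1 ∧
    ENNReal.ofReal (1 - ρ2) ^ (-(1 / 2) : ℝ) ≤ ENNReal.ofReal (1 + 1 / (√n * s)) := by
  have hn0 : (0:ℝ) < n := by exact_mod_cast hn
  have hx : 0 < s ^ 2 := by positivity
  have h1 := one_sub_pow_le (n := n) hx.le hs1
  rw [← hρ] at h1
  have hnx : 0 < n * s ^ 2 := by positivity
  have hlt : ρ2 < 1 := by
    by_contra hcon
    have : 1 ≤ ρ2 := not_lt.1 hcon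
    nlinarith
  refine ⟨hlt, ?_⟩
  have hpos : 0 < 1 - ρ2 := by linarith
  rw [ENNReal.ofReal_rpow_of_pos hpos]
  apply ENNReal.ofReal_le_ofReal
  rw [Real.rpow_neg hpos.le, ← Real.sqrt_eq_rpow]
  set y : ℝ := 1 + 1 / (√n * s) with hy
  have hsn : 0 < √(n:ℝ) := Real.sqrt_pos.2 hn0
  have hy0 : 0 < y := by positivity
  have hy2 : 1 ≤ y ^ 2 * (1 - ρ2) := by
    have h2 : 1 + 1 / (n * s ^ 2) ≤ y ^ 2 := by
      have e : (1 / (√n * s)) ^ 2 = 1 / (n * s ^ 2) := by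
        rw [div_pow, mul_pow, Real.sq_sqrt hn0.le, one_pow]
      rw [hy, add_sq, e]
      have : 0 ≤ 2 * 1 * (1 / (√n * s)) := by positivity
      linarith
    have h3 : n * s ^ 2 / (1 + n * s ^ 2) ≤ 1 - ρ2 := by
      rw [div_le_iff₀ (by positivity)]
      nlinarith
    calc (1:ℝ) = (1 + 1 / (n * s ^ 2)) * (n * s ^ 2 / (1 + n * s ^ 2)) := by
          field_simp
          ring
      _ ≤ y ^ 2 * (1 - ρ2) := mul_le_mul h2 h3 (by positivity) (by positivity)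
  rw [inv_le_comm₀ (Real.sqrt_pos.2 hpos) hy0]
  apply Real.le_sqrt_of_sq_le
  rw [inv_pow]
  rw [inv_le_iff_one_le_mul₀ (by positivity)]
  linarith

end

end Pool.Agent.Helper63K9.KT.Mo

namespace Pool.Agent.Helper63K9.KT

noncomputable section

open Pool.Agent.H709R2 (wedge)
open Pool.Agent.W960.HR
open Pool.Agent.Helper63K9.KS
open Mo

lemma Mo.uz_self (z : ℝ × ℝ) : uz z z = 0 := by
  have hq := q_pos z
  have hR : 0 < √(q z) := Real.sqrt_pos.2 hq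
  have hR2 : √(q z) ^ 2 = q z := Real.sq_sqrt hq.le
  have hip : ip z z = √(q z) ^ 2 - 1 := by
    rw [hR2]
    unfold ip q H709R2.sq
    ring
  unfold uz
  have e : 1 / √(q z) + ip z z / (√(q z) * (√(q z) + 1)) = 1 := by
    rw [hip]
    field_simp
    ring
  rw [e, one_smul, sub_self, smul_zero]

lemma Mo.pow_six {x : ℝ≥0∞} : (x ^ 6) ^ (1 / 6 : ℝ) = x := by
  rw [← ENNReal.rpow_natCast, ← ENNReal.rpow_mul]
  norm_num

/-- Hölder -/
lemma Mo.holder {n : ℕ} (hn : 1 ≤ n) {Tz : ℝ × ℝ → (T n → ℝ × ℝ) → (T n → ℝ × ℝ)} (hT : FR n Tz)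
    {K : ℝ} (hK : 0 < K)
    (hgp : ∀ (S : Finset (ℕ × ℕ)) (a b : S → ℝ) (ρ : ℝ),
      ∑ m, a m ^ 2 = 1 → ∑ m, b m ^ 2 = 1 → ∑ m, a m * b m = ρ → ρ ^ 2 < 1 → ∀ ε : ℝ, 0 < ε →
      ∫⁻ c, {c : S → ℝ × ℝ | ‖lin a c‖ < ε}.indicator
        (fun c => ENNReal.ofReal ‖lin b c‖ ^ (-(3 / 2) : ℝ)) c ∂GP S ≤
        ENNReal.ofReal (K * ε ^ 2) * ENNReal.ofReal (1 - ρ ^ 2) ^ (-(3 / 4) : ℝ))
    (hgm : ∀ (S : Finset (ℕ × ℕ)) (a y : S → ℝ),
      ∑ m, a m ^ 2 = 1 → ∀ ε : ℝ, 0 < ε → ε ≤ 1 →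
      ∫⁻ c, {c : S → ℝ × ℝ | ‖lin a c‖ < ε}.indicator
        (fun c => ENNReal.ofReal (‖lin y c‖ ^ 6)) c ∂GP S ≤
        ENNReal.ofReal (K * ε ^ 2 * (∑ m, y m ^ 2) ^ 3))
    (hsn : ∀ (n : ℕ), 1 ≤ n → ∀ ε : ℝ, 0 < ε → ε ≤ 1 →
      ∫⁻ c, {c : T n → ℝ × ℝ | ‖F n c 0‖ < ε}.indicator
        (fun c => ENNReal.ofReal (Sn n c ^ 12)) c ∂GP (T n) ≤ ENNReal.ofReal (K * ε ^ 2))
    {p w : ℝ × ℝ} (hpw : p ≠ w) {ε : ℝ} (hε : 0 < ε) (hε1 : ε ≤ 1) {g : T n → ℝ}
    (hg : ∑ m, g m ^ 2 ≤ n / q w) :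
    ∫⁻ c, {c : T n → ℝ × ℝ | ‖Xh n c p‖ < ε}.indicator
      (fun c => ENNReal.ofReal (Sn n (Tz p c) ^ 2) *
        (ENNReal.ofReal ‖lin g c‖ * (ENNReal.ofReal ‖lin (wh n w) c‖)⁻¹)) c ∂GP (T n) ≤
      ENNReal.ofReal (ε ^ 2 * (K * (√n / √(q w)) * (1 + 1 / (√n * dst p w)))) := by
  have hn0 : (0:ℝ) < n := by exact_mod_cast hn
  have hqw := q_pos w
  set A : Set (T n → ℝ × ℝ) := {c | ‖Xh n c p‖ < ε} with hA
  have hAe : A = {c | ‖lin (wh n p) c‖ < ε} := by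
    ext c
    simp only [hA, mem_ofPred_eq, Xh_eq]
  have hAm : MeasurableSet A := by
    rw [hAe]
    exact measurableSet_lt ((continuous_lin _).norm.measurable) measurable_const
  have hcontT : Continuous (Tz p) := by
    have h1 : Tz p = fun c => Function.uncurry Tz (p, c) := rfl
    rw [h1]
    exact hT.cont.comp (by fun_prop)
  have hSn : Continuous (Sn n) := by
    unfold Sn H709R2.sq
    fun_prop
  set f : Fin 3 → (T n → ℝ × ℝ) → ℝ≥0∞ := ![
    A.indicator (fun c => ENNReal.ofReal ‖lin (wh n w) c‖ ^ (-(3 / 2) : ℝ)),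
    A.indicator (fun c => ENNReal.ofReal (Sn n (Tz p c) ^ 12)),
    A.indicator (fun c => ENNReal.ofReal (‖lin g c‖ ^ 6))] with hf
  set P : Fin 3 → ℝ := ![2 / 3, 1 / 6, 1 / 6] with hP
  have m0 : Measurable (A.indicator fun c => ENNReal.ofReal ‖lin (wh n w) c‖ ^ (-(3 / 2) : ℝ)) :=
    (((continuous_lin _).norm.measurable.ennreal_ofReal).pow_const _).indicator hAm
  have m1 : Measurable (A.indicator fun c => ENNReal.ofReal (Sn n (Tz p c) ^ 12)) :=
    (((hSn.comp hcontT).pow 12).measurable.ennreal_ofReal).indicator hAm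
  have m2 : Measurable (A.indicator fun c => ENNReal.ofReal (‖lin g c‖ ^ 6)) :=
    (((continuous_lin _).norm.pow 6).measurable.ennreal_ofReal).indicator hAm
  have hfm : ∀ i ∈ (Finset.univ : Finset (Fin 3)), AEMeasurable (f i) (GP (T n)) := by
    intro i _
    fin_cases i
    · exact m0.aemeasurable
    · exact m1.aemeasurable
    · exact m2.aemeasurable
  have hPs : ∑ i, P i = 1 := by
    simp [hP, Fin.sum_univ_three]
    norm_num
  have hP0 : ∀ i ∈ (Finset.univ : Finset (Fin 3)), 0 ≤ P i := by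
    intro i _
    fin_cases i
    · change (0:ℝ) ≤ 2 / 3
      norm_num
    · change (0:ℝ) ≤ 1 / 6
      norm_num
    · change (0:ℝ) ≤ 1 / 6
      norm_num
  have hH := ENNReal.lintegral_prod_norm_pow_le (μ := GP (T n)) Finset.univ hfm hPs hP0
  simp only [Fin.prod_univ_three, hf, hP, Matrix.cons_val_zero, Matrix.cons_val_one,
    Matrix.cons_val] at hH
  -- the integrand
  have hle : ∀ c, A.indicator (fun c => ENNReal.ofReal (Sn n (Tz p c) ^ 2) *
        (ENNReal.ofReal ‖lin g c‖ * (ENNReal.ofReal ‖lin (wh n w) c‖)⁻¹)) c ≤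
      A.indicator (fun c => ENNReal.ofReal ‖lin (wh n w) c‖ ^ (-(3 / 2) : ℝ)) c ^ (2 / 3 : ℝ) *
      A.indicator (fun c => ENNReal.ofReal (Sn n (Tz p c) ^ 12)) c ^ (1 / 6 : ℝ) *
      A.indicator (fun c => ENNReal.ofReal (‖lin g c‖ ^ 6)) c ^ (1 / 6 : ℝ) := by
    intro c
    by_cases hc : c ∈ A
    · rw [indicator_of_mem hc, indicator_of_mem hc, indicator_of_mem hc, indicator_of_mem hc,
        ← ENNReal.rpow_mul]
      have e1 : (-(3 / 2) : ℝ) * (2 / 3) = -1 := by norm_num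
      have e2 : Sn n (Tz p c) ^ 12 = (Sn n (Tz p c) ^ 2) ^ 6 := by ring
      rw [e1, ENNReal.rpow_neg_one, e2, ENNReal.ofReal_pow (sq_nonneg (Sn n (Tz p c))) 6,
        ENNReal.ofReal_pow (norm_nonneg (lin g c)) 6, Mo.pow_six, Mo.pow_six]
      exact le_of_eq (by ring)
    · rw [indicator_of_notMem hc]
      exact bot_le
  refine (lintegral_mono hle).trans (hH.trans ?_)
  -- the three factors
  set ρ : ℝ := (1 + ip p w) ^ n / (√(q p ^ n) * √(q w ^ n)) with hρ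
  obtain ⟨r1, r2⟩ := rho_bound hn (dst_pos hpw) (dst_le p w) (corr_sq n p w)
  have b0 := hgp (T n) (wh n p) (wh n w) ρ (sum_wh n p) (sum_wh n w) (corr n p w) r1 ε hε
  rw [← hAe] at b0
  have b2 := hgm (T n) (wh n p) g (sum_wh n p) ε hε hε1
  rw [← hAe] at b2
  have b1 : ∫⁻ c, A.indicator (fun c => ENNReal.ofReal (Sn n (Tz p c) ^ 12)) c ∂GP (T n) ≤
      ENNReal.ofReal (K * ε ^ 2) := by
    have hm : Measurable ({c : T n → ℝ × ℝ | ‖F n c 0‖ < ε}.indicator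
        (fun c => ENNReal.ofReal (Sn n c ^ 12))) := by
      refine ((hSn.pow 12).measurable.ennreal_ofReal).indicator ?_
      have : {c : T n → ℝ × ℝ | ‖F n c 0‖ < ε} = {c | ‖lin (w0 n 0) c‖ < ε} := rfl
      rw [this]
      exact measurableSet_lt ((continuous_lin _).norm.measurable) measurable_const
    have h1 := (hT.mp p).lintegral_comp hm
    refine le_trans (le_of_eq ?_) (hsn n hn ε hε hε1)
    rw [← h1]
    refine lintegral_congr fun c => ?_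
    have h2 : Xh n c p = F n (Tz p c) 0 := by
      have hip : 0 < 1 + ip p p := by
        unfold ip
        nlinarith [sq_nonneg p.1, sq_nonneg p.2]
      rw [hT.chart p c p hip, Mo.uz_self]
      unfold Xh
      have : q 0 = 1 := by unfold q H709R2.sq; simp
      rw [this]
      simp
    by_cases hc : c ∈ A
    · have hc' : Tz p c ∈ {c : T n → ℝ × ℝ | ‖F n c 0‖ < ε} := by
        change ‖F n (Tz p c) 0‖ < ε
        rw [← h2]
        exact hc
      rw [indicator_of_mem hc, indicator_of_mem hc']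
    · have hc' : Tz p c ∉ {c : T n → ℝ × ℝ | ‖F n c 0‖ < ε} := by
        intro h3
        apply hc
        change ‖Xh n c p‖ < ε
        rw [h2]
        exact h3
      rw [indicator_of_notMem hc, indicator_of_notMem hc']
  set L : ℝ≥0∞ := ENNReal.ofReal (K * ε ^ 2) with hL
  have hL0 : L ≠ 0 := by
    rw [hL]
    exact (ENNReal.ofReal_pos.2 (by positivity)).ne'
  have hLt : L ≠ ∞ := ENNReal.ofReal_ne_top
  have c0 : (∫⁻ c, A.indicator (fun c => ENNReal.ofReal ‖lin (wh n w) c‖ ^ (-(3 / 2) : ℝ)) c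
      ∂GP (T n)) ^ (2 / 3 : ℝ) ≤ L ^ (2 / 3 : ℝ) * ENNReal.ofReal (1 + 1 / (√n * dst p w)) := by
    refine (ENNReal.rpow_le_rpow b0 (by norm_num)).trans ?_
    rw [ENNReal.mul_rpow_of_nonneg _ _ (by norm_num), ← ENNReal.rpow_mul]
    have e1 : (-(3 / 4) : ℝ) * (2 / 3) = -(1 / 2) := by norm_num
    rw [e1]
    exact mul_le_mul_right r2 _
  have c1 := ENNReal.rpow_le_rpow b1 (by norm_num : (0:ℝ) ≤ 1 / 6)
  have c2 : (∫⁻ c, A.indicator (fun c => ENNReal.ofReal (‖lin g c‖ ^ 6)) c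
      ∂GP (T n)) ^ (1 / 6 : ℝ) ≤ L ^ (1 / 6 : ℝ) * ENNReal.ofReal (√n / √(q w)) := by
    refine (ENNReal.rpow_le_rpow b2 (by norm_num)).trans ?_
    have h1 : K * ε ^ 2 * (∑ m, g m ^ 2) ^ 3 ≤ K * ε ^ 2 * (√n / √(q w)) ^ 6 := by
      have h2 : (√n / √(q w)) ^ 6 = (n / q w) ^ 3 := by
        calc (√n / √(q w)) ^ 6 = (√n ^ 2 / √(q w) ^ 2) ^ 3 := by ring
          _ = _ := by rw [Real.sq_sqrt hn0.le, Real.sq_sqrt hqw.le]
      rw [h2]
      have h3 : 0 ≤ ∑ m, g m ^ 2 := Finset.sum_nonneg fun _ _ => sq_nonneg _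
      gcongr
    refine (ENNReal.rpow_le_rpow (ENNReal.ofReal_le_ofReal h1) (by norm_num)).trans ?_
    rw [ENNReal.ofReal_mul (by positivity), ENNReal.mul_rpow_of_nonneg _ _ (by norm_num),
      ENNReal.ofReal_pow (by positivity), Mo.pow_six]
  refine (mul_le_mul' (mul_le_mul' c0 c1) c2).trans (le_of_eq ?_)
  have e3 : L ^ (2 / 3 : ℝ) * L ^ (1 / 6 : ℝ) * L ^ (1 / 6 : ℝ) = L := by
    rw [← ENNReal.rpow_add _ _ hL0 hLt, ← ENNReal.rpow_add _ _ hL0 hLt]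
    norm_num
  have hd := dst_pos hpw
  calc L ^ (2 / 3 : ℝ) * ENNReal.ofReal (1 + 1 / (√n * dst p w)) * L ^ (1 / 6 : ℝ) *
      (L ^ (1 / 6 : ℝ) * ENNReal.ofReal (√n / √(q w)))
      = (L ^ (2 / 3 : ℝ) * L ^ (1 / 6 : ℝ) * L ^ (1 / 6 : ℝ)) *
        (ENNReal.ofReal (√n / √(q w)) * ENNReal.ofReal (1 + 1 / (√n * dst p w))) := by ring
    _ = L * (ENNReal.ofReal (√n / √(q w)) * ENNReal.ofReal (1 + 1 / (√n * dst p w))) := by
        rw [e3]
    _ = _ := by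
        rw [hL, ← ENNReal.ofReal_mul (by positivity), ← ENNReal.ofReal_mul (by positivity)]
        congr 1
        ring

theorem mom : S_GP → S_GM → S_SN → S_MOM := by
  rintro ⟨K1, hK1, hgp⟩ ⟨K2, hK2, hgm⟩ ⟨K3, hK3, hsn⟩
  set K : ℝ := max K1 (max K2 K3) with hKd
  have k1 : K1 ≤ K := le_max_left _ _
  have k2 : K2 ≤ K := (le_max_left _ _).trans (le_max_right _ _)
  have k3 : K3 ≤ K := (le_max_right _ _).trans (le_max_right _ _)
  have hK : 0 < K := hK1.trans_le k1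
  refine ⟨4 * K, by positivity, fun n hn Tz hT p w hpw ε hε hε1 => ?_⟩
  have H : ∀ g : T n → ℝ, ∑ m, g m ^ 2 ≤ n / q w → _ := fun g hg =>
    Mo.holder hn hT hK
      (fun S a b ρ h1 h2 h3 h4 ε hε => (hgp S a b ρ h1 h2 h3 h4 ε hε).trans
        (mul_le_mul_left (ENNReal.ofReal_le_ofReal (by gcongr)) _))
      (fun S a y h1 ε hε hε1 => (hgm S a y h1 ε hε hε1).trans
        (ENNReal.ofReal_le_ofReal (by
          have h3 : 0 ≤ ∑ m, y m ^ 2 := Finset.sum_nonneg fun _ _ => sq_nonneg _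
          gcongr)))
      (fun n hn ε hε hε1 => (hsn n hn ε hε hε1).trans
        (ENNReal.ofReal_le_ofReal (by gcongr))) hpw hε hε1 hg
  have hx := H (wg n w (wx n w) w.1) (sum_wg hn w (qa hn w) (qb hn w))
  have hy := H (wg n w (wy n w) w.2) (sum_wg hn w (qa' hn w) (qb' hn w))
  set A : Set (T n → ℝ × ℝ) := {c | ‖Xh n c p‖ < ε} with hA
  have hAe : A = {c | ‖lin (wh n p) c‖ < ε} := by
    ext c
    simp only [hA, mem_ofPred_eq, Xh_eq]
  have hAm : MeasurableSet A := by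
    rw [hAe]
    exact measurableSet_lt ((continuous_lin _).norm.measurable) measurable_const
  have hcontT : Continuous (Tz p) := by
    have h1 : Tz p = fun c => Function.uncurry Tz (p, c) := rfl
    rw [h1]
    exact hT.cont.comp (by fun_prop)
  have hSn : Continuous (Sn n) := by
    unfold Sn H709R2.sq
    fun_prop
  set G : (T n → ℝ) → (T n → ℝ × ℝ) → ℝ≥0∞ := fun g c =>
    ENNReal.ofReal (Sn n (Tz p c) ^ 2) *
        (ENNReal.ofReal ‖lin g c‖ * (ENNReal.ofReal ‖lin (wh n w) c‖)⁻¹) with hG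
  have hGm : ∀ g, Measurable (A.indicator (G g)) := by
    intro g
    refine Measurable.indicator ?_ hAm
    refine (((hSn.comp hcontT).pow 2).measurable.ennreal_ofReal).mul ?_
    exact ((continuous_lin _).norm.measurable.ennreal_ofReal).mul
      ((continuous_lin _).norm.measurable.ennreal_ofReal.inv)
  have hle : ∀ c, A.indicator (fun c => ENNReal.ofReal (Sn n (Tz p c) ^ 2) * hk (F n c) w) c ≤
      2 * A.indicator (G (wg n w (wx n w) w.1)) c + 2 * A.indicator (G (wg n w (wy n w) w.2)) c := by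
    intro c
    by_cases hc : c ∈ A
    · rw [indicator_of_mem hc, indicator_of_mem hc, indicator_of_mem hc]
      have h1 : hk (F n c) w ≤
          2 * (ENNReal.ofReal ‖lin (wg n w (wx n w) w.1) c‖ *
            (ENNReal.ofReal ‖lin (wh n w) c‖)⁻¹) +
          2 * (ENNReal.ofReal ‖lin (wg n w (wy n w) w.2) c‖ *
            (ENNReal.ofReal ‖lin (wh n w) c‖)⁻¹) := by
        unfold hk
        have e1 : fderiv ℝ (F n c) w (1, 0) = lin (wx n w) c := by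
          rw [fderiv_F]; simp
        have e2 : fderiv ℝ (F n c) w (0, 1) = lin (wy n w) c := by
          rw [fderiv_F]; simp
        rw [e1, e2]
        exact add_le_add (ker_le n w _ _ c) (ker_le n w _ _ c)
      refine (mul_le_mul_right h1 _).trans (le_of_eq ?_)
      simp only [hG]
      ring
    · rw [indicator_of_notMem hc]
      exact bot_le
  refine (lintegral_mono hle).trans ?_
  rw [lintegral_add_left ((hGm _).const_mul _), lintegral_const_mul _ (hGm _),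
    lintegral_const_mul _ (hGm _)]
  refine (add_le_add (mul_le_mul_right hx _) (mul_le_mul_right hy _)).trans (le_of_eq ?_)
  have hd := dst_pos hpw
  have hn0 : (0:ℝ) < n := by exact_mod_cast hn
  rw [← two_mul, ← mul_assoc, show (2 : ℝ≥0∞) * 2 = ENNReal.ofReal 4 by
    rw [show (4:ℝ) = 2 * 2 by norm_num, ENNReal.ofReal_mul (by norm_num)]; simp,
    ← ENNReal.ofReal_mul (by norm_num)]
  congr 1
  ring

end

end Pool.Agent.Helper63K9.KT
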