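import Pool.Agent.Helper63K9.KT.Leaves
import Pool.Agent.Helper63K9.KT.LDX

/-! Leaf S0: bounds of the derivatives near the centre of a chart. -/

open Real Set MeasureTheory Filter
open scoped ENNReal Topology

namespace Pool.Agent.Helper63K9.KT

noncomputable section

open Pool.Agent.H709R2 (fld rot rotc NP wedge ClosedOrbit)
open Pool.Agent.W960.HR
open Pool.Agent.H709U
open Pool.Agent.Helper63K9.KS

namespace S0

lemma four (d : ℕ) : ((1 : ℝ) + d) ^ 4 ≤ 6 * 4 ^ d := by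
  have h : ∀ e : ℕ, ((1 : ℝ) + ((e + 2 : ℕ) : ℝ)) ^ 4 ≤ 6 * 4 ^ (e + 2) := by
    intro e
    induction e with
    | zero => norm_num
    | succ e ih =>
      have h1 : ((1 : ℝ) + ((e + 1 + 2 : ℕ) : ℝ)) ^ 4 ≤ 4 * ((1 : ℝ) + ((e + 2 : ℕ) : ℝ)) ^ 4 := by
        push_cast
        have he : (0 : ℝ) ≤ e := Nat.cast_nonneg e
        have h2 : 4 * ((1 : ℝ) + (e + 2)) ^ 4 - ((1 : ℝ) + (e + 1 + 2)) ^ 4 =
            3 * (e : ℝ) ^ 4 + 32 * (e : ℝ) ^ 3 + 120 * (e : ℝ) ^ 2 + 176 * e + 68 := by ring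
        have h3 : (0 : ℝ) ≤ 3 * (e : ℝ) ^ 4 + 32 * (e : ℝ) ^ 3 + 120 * (e : ℝ) ^ 2 + 176 * e + 68 := by
          positivity
        linarith
      calc ((1 : ℝ) + ((e + 1 + 2 : ℕ) : ℝ)) ^ 4 ≤ 4 * ((1 : ℝ) + ((e + 2 : ℕ) : ℝ)) ^ 4 := h1
        _ ≤ 4 * (6 * 4 ^ (e + 2)) := by linarith
        _ = 6 * 4 ^ (e + 1 + 2) := by ring
  rcases d with _ | _ | e
  · norm_num
  · norm_num
  · exact h e

lemma geo (n : ℕ) : ∑ i ∈ Finset.range (n + 1), ((1 : ℝ) / 4) ^ i ≤ 4 / 3 := by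
  have h := geom_sum_eq (show (1 : ℝ) / 4 ≠ 1 by norm_num) (n + 1)
  rw [h]
  have h1 : (0 : ℝ) ≤ (1 / 4) ^ (n + 1) := by positivity
  have h2 : ((1 / 4 : ℝ) ^ (n + 1) - 1) / (1 / 4 - 1) = 4 / 3 * (1 - (1 / 4) ^ (n + 1)) := by ring
  rw [h2]
  linarith

lemma sum_le (n : ℕ) : ∑ m : T n, ((1 + ((m.1.1 + m.1.2 : ℕ) : ℝ)) ^ 2 * (1 / 4) ^ (m.1.1 + m.1.2)) ^ 2
    ≤ 16 := by
  have h1 : ∀ m : ℕ × ℕ, ((1 + ((m.1 + m.2 : ℕ) : ℝ)) ^ 2 * (1 / 4) ^ (m.1 + m.2)) ^ 2 ≤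
      6 * ((1 / 4) ^ m.1 * (1 / 4) ^ m.2) := by
    intro m
    set d := m.1 + m.2 with hd
    have h2 := four d
    have h3 : ((1 + (d : ℝ)) ^ 2 * (1 / 4) ^ d) ^ 2 = (1 + (d : ℝ)) ^ 4 * ((1 / 4) ^ d * (1 / 4) ^ d) := by
      ring
    have h6 : ((1 : ℝ) / 4) ^ m.1 * (1 / 4) ^ m.2 = (1 / 4) ^ d := (pow_add _ _ _).symm
    rw [h3, h6]
    have h4 : (4 : ℝ) ^ d * (1 / 4) ^ d = 1 := by
      rw [← mul_pow]
      norm_num
    have h5 : (0 : ℝ) ≤ (1 / 4) ^ d * (1 / 4) ^ d := by positivity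
    calc (1 + (d : ℝ)) ^ 4 * ((1 / 4) ^ d * (1 / 4) ^ d) ≤
        6 * 4 ^ d * ((1 / 4) ^ d * (1 / 4) ^ d) := mul_le_mul_of_nonneg_right h2 h5
      _ = 6 * (4 ^ d * (1 / 4) ^ d) * (1 / 4) ^ d := by ring
      _ = 6 * (1 / 4) ^ d := by rw [h4]; ring
  have h2 : ∑ m : T n, ((1 + ((m.1.1 + m.1.2 : ℕ) : ℝ)) ^ 2 * (1 / 4) ^ (m.1.1 + m.1.2)) ^ 2 =
      ∑ m ∈ T n, ((1 + ((m.1 + m.2 : ℕ) : ℝ)) ^ 2 * (1 / 4) ^ (m.1 + m.2)) ^ 2 :=
    Finset.sum_coe_sort (T n) (fun m : ℕ × ℕ =>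
      ((1 + ((m.1 + m.2 : ℕ) : ℝ)) ^ 2 * (1 / 4) ^ (m.1 + m.2)) ^ 2)
  rw [h2]
  have h3 := geo n
  have h0 : (0 : ℝ) ≤ ∑ i ∈ Finset.range (n + 1), ((1 : ℝ) / 4) ^ i :=
    Finset.sum_nonneg fun i _ => by positivity
  calc ∑ m ∈ T n, ((1 + ((m.1 + m.2 : ℕ) : ℝ)) ^ 2 * (1 / 4) ^ (m.1 + m.2)) ^ 2
      ≤ ∑ m ∈ T n, 6 * (((1 : ℝ) / 4) ^ m.1 * (1 / 4) ^ m.2) := Finset.sum_le_sum fun m _ => h1 m
    _ ≤ ∑ m ∈ Finset.range (n + 1) ×ˢ Finset.range (n + 1),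
        6 * (((1 : ℝ) / 4) ^ m.1 * (1 / 4) ^ m.2) :=
        Finset.sum_le_sum_of_subset_of_nonneg (Finset.filter_subset _ _)
          fun m _ _ => by positivity
    _ = 6 * ((∑ i ∈ Finset.range (n + 1), ((1 : ℝ) / 4) ^ i) *
        ∑ i ∈ Finset.range (n + 1), ((1 : ℝ) / 4) ^ i) := by
        rw [Finset.sum_product, Finset.sum_mul_sum, Finset.mul_sum]
        refine Finset.sum_congr rfl fun i _ => ?_
        rw [Finset.mul_sum]
    _ ≤ 6 * (4 / 3 * (4 / 3)) := by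
        gcongr
    _ ≤ 16 := by norm_num

lemma norm_le_sqrt (v : ℝ × ℝ) : ‖v‖ ≤ √(H709R2.sq v) :=
  Real.le_sqrt_of_sq_le (H709R2.norm_le_sq v)

/-- the main estimate -/
lemma lin_le {n : ℕ} (hn : 1 ≤ n) (W : T n → ℝ) {B : ℝ} (hB : 0 ≤ B)
    (h : ∀ m, |W m| ≤ B * ((1 + ((m.1.1 + m.1.2 : ℕ) : ℝ)) ^ 2 *
      (ka n m * (1 / √n) ^ (m.1.1 + m.1.2)))) (c : T n → ℝ × ℝ) :
    ‖lin W c‖ ≤ 4 * (B * Sn n c) := by
  have hn0 : (0 : ℝ) < n := by exact_mod_cast hn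
  have hs0 : (0 : ℝ) < √n := Real.sqrt_pos.2 hn0
  let f : T n → ℝ := fun m => (1 + ((m.1.1 + m.1.2 : ℕ) : ℝ)) ^ 2 * (1 / 4) ^ (m.1.1 + m.1.2)
  let g : T n → ℝ := fun m => ka n m * (4 / √n) ^ (m.1.1 + m.1.2) * √(H709R2.sq (c m))
  have hka : ∀ m, 0 ≤ ka n m := fun m => Real.sqrt_nonneg _
  have h1 : ‖lin W c‖ ≤ B * ∑ m, f m * g m := by
    unfold lin
    refine (norm_sum_le _ _).trans ?_
    rw [Finset.mul_sum]
    refine Finset.sum_le_sum fun m _ => ?_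
    rw [norm_smul, Real.norm_eq_abs]
    have h2 : f m * g m = (1 + ((m.1.1 + m.1.2 : ℕ) : ℝ)) ^ 2 *
        (ka n m * (1 / √n) ^ (m.1.1 + m.1.2)) * √(H709R2.sq (c m)) := by
      have h3 : ((1 : ℝ) / √n) ^ (m.1.1 + m.1.2) =
          (1 / 4) ^ (m.1.1 + m.1.2) * (4 / √n) ^ (m.1.1 + m.1.2) := by
        rw [← mul_pow]
        congr 1
        field_simp
      simp only [f, g]
      rw [h3]
      ring
    rw [h2, ← mul_assoc]
    exact mul_le_mul (h m) (norm_le_sqrt _) (norm_nonneg _)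
      (mul_nonneg hB (mul_nonneg (by positivity) (mul_nonneg (hka m) (by positivity))))
  have h2 : (∑ m, f m * g m) ^ 2 ≤ (∑ m, f m ^ 2) * ∑ m, g m ^ 2 :=
    Finset.sum_mul_sq_le_sq_mul_sq _ _ _
  have h3 : ∑ m, g m ^ 2 = Sn n c ^ 2 := by
    unfold Sn
    rw [Real.sq_sqrt]
    · refine Finset.sum_congr rfl fun m _ => ?_
      simp only [g]
      have h4 : (4 / √(n : ℝ)) ^ 2 = 16 / n := by
        rw [div_pow, Real.sq_sqrt hn0.le]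
        norm_num
      rw [mul_pow, mul_pow, ka_sq, Real.sq_sqrt (by unfold H709R2.sq; positivity), ← pow_mul,
        mul_comm (m.1.1 + m.1.2) 2, pow_mul, h4]
      ring
    · refine Finset.sum_nonneg fun m _ => mul_nonneg (mc_nonneg _ _) (mul_nonneg (by positivity) ?_)
      unfold H709R2.sq
      positivity
  have h4 : (∑ m, f m * g m) ≤ 4 * Sn n c := by
    apply le_of_sq_le_sq _ (by have : 0 ≤ Sn n c := Real.sqrt_nonneg _; positivity)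
    calc (∑ m, f m * g m) ^ 2 ≤ (∑ m, f m ^ 2) * ∑ m, g m ^ 2 := h2
      _ ≤ 16 * Sn n c ^ 2 := by
        rw [h3]
        exact mul_le_mul_of_nonneg_right (sum_le n) (sq_nonneg _)
      _ = (4 * Sn n c) ^ 2 := by ring
  calc ‖lin W c‖ ≤ B * ∑ m, f m * g m := h1
    _ ≤ B * (4 * Sn n c) := mul_le_mul_of_nonneg_left h4 hB
    _ = 4 * (B * Sn n c) := by ring

section mono

variable {r x y x' y' δ : ℝ}

/-- differences of monomials -/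
lemma mono_sub (hr : 0 ≤ r) (hx : |x| ≤ r) (hy : |y| ≤ r) (hx' : |x'| ≤ r) (hy' : |y'| ≤ r)
    (h1 : |x - x'| ≤ δ) (h2 : |y - y'| ≤ δ) (hδ : 0 ≤ δ) (i j : ℕ) :
    r * |x ^ i * y ^ j - x' ^ i * y' ^ j| ≤ ((i + j : ℕ) : ℝ) * r ^ (i + j) * δ := by
  have h3 := abs_pow_sub_le hx hx' i
  have h4 := abs_pow_sub_le hy hy' j
  have e : x ^ i * y ^ j - x' ^ i * y' ^ j = (x ^ i - x' ^ i) * y ^ j + x' ^ i * (y ^ j - y' ^ j) := by
    ring
  have h5 : |y ^ j| ≤ r ^ j := by rw [abs_pow]; exact pow_le_pow_left₀ (abs_nonneg _) hy j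
  have h6 : |x' ^ i| ≤ r ^ i := by rw [abs_pow]; exact pow_le_pow_left₀ (abs_nonneg _) hx' i
  have hr1 : ∀ k : ℕ, r * ((k : ℝ) * r ^ (k - 1)) = k * r ^ k := by
    intro k
    rcases Nat.eq_zero_or_pos k with hk | hk
    · subst hk; simp
    · calc r * ((k : ℝ) * r ^ (k - 1)) = k * (r ^ (k - 1) * r) := by ring
        _ = k * r ^ k := by rw [← pow_succ, Nat.sub_add_cancel hk]
  have h7 : |x ^ i * y ^ j - x' ^ i * y' ^ j| ≤
      (i * r ^ (i - 1) * δ) * r ^ j + r ^ i * (j * r ^ (j - 1) * δ) := by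
    rw [e]
    refine (abs_add_le _ _).trans ?_
    rw [abs_mul, abs_mul]
    refine add_le_add (mul_le_mul (h3.trans ?_) h5 (abs_nonneg _) (by positivity))
      (mul_le_mul h6 (h4.trans ?_) (abs_nonneg _) (by positivity))
    · exact mul_le_mul_of_nonneg_left h1 (by positivity)
    · exact mul_le_mul_of_nonneg_left h2 (by positivity)
  calc r * |x ^ i * y ^ j - x' ^ i * y' ^ j| ≤
      r * ((i * r ^ (i - 1) * δ) * r ^ j + r ^ i * (j * r ^ (j - 1) * δ)) :=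
        mul_le_mul_of_nonneg_left h7 hr
    _ = (r * (i * r ^ (i - 1))) * (r ^ j * δ) + (r * (j * r ^ (j - 1))) * (r ^ i * δ) := by ring
    _ = ((i + j : ℕ) : ℝ) * r ^ (i + j) * δ := by
        rw [hr1, hr1, pow_add]
        push_cast
        ring

lemma mono_le (hx : |x| ≤ r) (hy : |y| ≤ r) (i j : ℕ) : |x ^ i * y ^ j| ≤ r ^ (i + j) := by
  rw [abs_mul, abs_pow, abs_pow, pow_add]
  exact mul_le_mul (pow_le_pow_left₀ (abs_nonneg _) hx i) (pow_le_pow_left₀ (abs_nonneg _) hy j)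
    (by positivity) (pow_nonneg ((abs_nonneg _).trans hx) _)

end mono

section ball

variable {n : ℕ} (hn : 1 ≤ n) (c : T n → ℝ × ℝ)

lemma rpos (hn : 1 ≤ n) : (0 : ℝ) < 1 / √(n : ℝ) := by
  have hn0 : (0 : ℝ) < n := by exact_mod_cast hn
  have hs0 : (0 : ℝ) < √n := Real.sqrt_pos.2 hn0
  positivity

lemma one_le_sq (d : ℕ) : (1 : ℝ) ≤ (1 + d) ^ 2 := by
  have : (0 : ℝ) ≤ d := Nat.cast_nonneg d
  nlinarith

lemma le_sq (d : ℕ) : (d : ℝ) ≤ (1 + d) ^ 2 := by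
  have : (0 : ℝ) ≤ d := Nat.cast_nonneg d
  nlinarith

lemma F_le (hn : 1 ≤ n) {u : ℝ × ℝ} (hu : ‖u‖ ≤ 1 / √n) : ‖F n c u‖ ≤ 4 * Sn n c := by
  rw [← lin_w0]
  have h := lin_le hn (w0 n u) (B := 1) zero_le_one (fun m => ?_) c
  · simpa using h
  have h1 := mono_le ((norm_fst_le u).trans hu) ((norm_snd_le u).trans hu) m.1.1 m.1.2
  have hk : 0 ≤ ka n m := Real.sqrt_nonneg _
  show |ka n m * (u.1 ^ m.1.1 * u.2 ^ m.1.2)| ≤ _
  rw [abs_mul, abs_of_nonneg hk, one_mul]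
  calc ka n m * |u.1 ^ m.1.1 * u.2 ^ m.1.2| ≤ ka n m * (1 / √n) ^ (m.1.1 + m.1.2) :=
        mul_le_mul_of_nonneg_left h1 hk
    _ = 1 * (ka n m * (1 / √n) ^ (m.1.1 + m.1.2)) := (one_mul _).symm
    _ ≤ _ := mul_le_mul_of_nonneg_right (one_le_sq _) (mul_nonneg hk (pow_nonneg (rpos hn).le _))

lemma lin_sub (w w' : T n → ℝ) : lin w c - lin w' c = lin (fun m => w m - w' m) c := by
  unfold lin
  rw [← Finset.sum_sub_distrib]
  exact Finset.sum_congr rfl fun m _ => (sub_smul _ _ _).symm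

/-- multiplication of an inequality by `√n` -/
lemma sq_mul (hn : 1 ≤ n) {a b : ℝ} (h : 1 / √(n : ℝ) * a ≤ b) : a ≤ √n * b := by
  have hn0 : (0 : ℝ) < n := by exact_mod_cast hn
  have hs0 : (0 : ℝ) < √n := Real.sqrt_pos.2 hn0
  have h1 := mul_le_mul_of_nonneg_left h hs0.le
  have h2 : √(n : ℝ) * (1 / √(n : ℝ) * a) = a := by field_simp
  linarith

lemma F_sub (hn : 1 ≤ n) {u v : ℝ × ℝ} (hu : ‖u‖ ≤ 1 / √n) (hv : ‖v‖ ≤ 1 / √n) :
    ‖F n c u - F n c v‖ ≤ 4 * (√n * ‖u - v‖ * Sn n c) := by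
  rw [← lin_w0, ← lin_w0, lin_sub]
  refine lin_le hn _ (by positivity) (fun m => ?_) c
  have h1 := sq_mul hn (mono_sub (rpos hn).le ((norm_fst_le u).trans hu) ((norm_snd_le u).trans hu)
    ((norm_fst_le v).trans hv) ((norm_snd_le v).trans hv) (norm_fst_le (u - v))
    (norm_snd_le (u - v)) (norm_nonneg _) m.1.1 m.1.2)
  have hk : 0 ≤ ka n m := Real.sqrt_nonneg _
  show |ka n m * (u.1 ^ m.1.1 * u.2 ^ m.1.2) - ka n m * (v.1 ^ m.1.1 * v.2 ^ m.1.2)| ≤ _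
  rw [← mul_sub, abs_mul, abs_of_nonneg hk]
  have h2 := le_sq (m.1.1 + m.1.2)
  have h3 : 0 ≤ (1 / √(n : ℝ)) ^ (m.1.1 + m.1.2) := pow_nonneg (rpos hn).le _
  calc ka n m * |u.1 ^ m.1.1 * u.2 ^ m.1.2 - v.1 ^ m.1.1 * v.2 ^ m.1.2| ≤
      ka n m * (√n * (((m.1.1 + m.1.2 : ℕ) : ℝ) * (1 / √n) ^ (m.1.1 + m.1.2) * ‖u - v‖)) :=
        mul_le_mul_of_nonneg_left h1 hk
    _ = √n * ‖u - v‖ * (((m.1.1 + m.1.2 : ℕ) : ℝ) * (ka n m * (1 / √n) ^ (m.1.1 + m.1.2))) := by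
        ring
    _ ≤ _ := by
        refine mul_le_mul_of_nonneg_left ?_ (by positivity)
        exact mul_le_mul_of_nonneg_right h2 (mul_nonneg hk h3)

/-- the weights of the derivatives -/
def wd (n : ℕ) (a : T n → ℕ × ℕ) (k : T n → ℕ) (z : ℝ × ℝ) (m : T n) : ℝ :=
  ka n m * k m * (z.1 ^ (a m).1 * z.2 ^ (a m).2)

lemma wd_le (hn : 1 ≤ n) {a : T n → ℕ × ℕ} {k : T n → ℕ}
    (ha : ∀ m, k m ≠ 0 → (a m).1 + (a m).2 + 1 = m.1.1 + m.1.2 ∧ k m ≤ m.1.1 + m.1.2)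
    {u : ℝ × ℝ} (hu : ‖u‖ ≤ 1 / √n) : ‖lin (wd n a k u) c‖ ≤ 4 * (√n * Sn n c) := by
  refine lin_le hn _ (by positivity) (fun m => ?_) c
  have hk : 0 ≤ ka n m := Real.sqrt_nonneg _
  have h3 : 0 ≤ (1 / √(n : ℝ)) ^ (m.1.1 + m.1.2) := pow_nonneg (rpos hn).le _
  unfold wd
  by_cases h0 : k m = 0
  · rw [h0, Nat.cast_zero, mul_zero, zero_mul, abs_zero]
    positivity
  obtain ⟨h4, h5⟩ := ha m h0
  have h1 := mono_le ((norm_fst_le u).trans hu) ((norm_snd_le u).trans hu) (a m).1 (a m).2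
  have h6 : (1 / √(n : ℝ)) ^ ((a m).1 + (a m).2) = √n * (1 / √n) ^ (m.1.1 + m.1.2) := by
    have hn0 : (0 : ℝ) < n := by exact_mod_cast hn
    have hs0 : (0 : ℝ) < √n := Real.sqrt_pos.2 hn0
    rw [← h4, pow_succ]
    field_simp
  have h7 : (k m : ℝ) ≤ ((m.1.1 + m.1.2 : ℕ) : ℝ) := by exact_mod_cast h5
  have h8 := h7.trans (le_sq (m.1.1 + m.1.2))
  rw [abs_mul, abs_mul, abs_of_nonneg hk, abs_of_nonneg (Nat.cast_nonneg (k m))]
  calc ka n m * (k m : ℝ) * |u.1 ^ (a m).1 * u.2 ^ (a m).2| ≤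
      ka n m * (k m : ℝ) * (√n * (1 / √n) ^ (m.1.1 + m.1.2)) := by
        rw [← h6]
        exact mul_le_mul_of_nonneg_left h1 (by positivity)
    _ = √n * ((k m : ℝ) * (ka n m * (1 / √n) ^ (m.1.1 + m.1.2))) := by ring
    _ ≤ _ := by
        refine mul_le_mul_of_nonneg_left ?_ (by positivity)
        exact mul_le_mul_of_nonneg_right h8 (mul_nonneg hk h3)

lemma wd_sub (hn : 1 ≤ n) {a : T n → ℕ × ℕ} {k : T n → ℕ}
    (ha : ∀ m, k m ≠ 0 → (a m).1 + (a m).2 + 1 = m.1.1 + m.1.2 ∧ k m ≤ m.1.1 + m.1.2)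
    {u v : ℝ × ℝ} (hu : ‖u‖ ≤ 1 / √n) (hv : ‖v‖ ≤ 1 / √n) :
    ‖lin (wd n a k u) c - lin (wd n a k v) c‖ ≤ 4 * (n * ‖u - v‖ * Sn n c) := by
  rw [lin_sub]
  refine lin_le hn _ (by positivity) (fun m => ?_) c
  have hn0 : (0 : ℝ) < n := by exact_mod_cast hn
  have hs0 : (0 : ℝ) < √n := Real.sqrt_pos.2 hn0
  have hk : 0 ≤ ka n m := Real.sqrt_nonneg _
  have h3 : 0 ≤ (1 / √(n : ℝ)) ^ (m.1.1 + m.1.2) := pow_nonneg (rpos hn).le _
  unfold wd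
  rw [← mul_sub]
  by_cases h0 : k m = 0
  · rw [h0, Nat.cast_zero, mul_zero, zero_mul, abs_zero]
    positivity
  obtain ⟨h4, h5⟩ := ha m h0
  have h1 := sq_mul hn (mono_sub (rpos hn).le ((norm_fst_le u).trans hu) ((norm_snd_le u).trans hu)
    ((norm_fst_le v).trans hv) ((norm_snd_le v).trans hv) (norm_fst_le (u - v))
    (norm_snd_le (u - v)) (norm_nonneg _) (a m).1 (a m).2)
  have h6 : (1 / √(n : ℝ)) ^ ((a m).1 + (a m).2) = √n * (1 / √n) ^ (m.1.1 + m.1.2) := by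
    rw [← h4, pow_succ]
    field_simp
  have h7 : (k m : ℝ) ≤ ((m.1.1 + m.1.2 : ℕ) : ℝ) := by exact_mod_cast h5
  have h9 : (((a m).1 + (a m).2 : ℕ) : ℝ) ≤ ((m.1.1 + m.1.2 : ℕ) : ℝ) := by
    exact_mod_cast (by omega : (a m).1 + (a m).2 ≤ m.1.1 + m.1.2)
  have h8 : (k m : ℝ) * (((a m).1 + (a m).2 : ℕ) : ℝ) ≤ (1 + ((m.1.1 + m.1.2 : ℕ) : ℝ)) ^ 2 := by
    have h10 : (k m : ℝ) * (((a m).1 + (a m).2 : ℕ) : ℝ) ≤
        ((m.1.1 + m.1.2 : ℕ) : ℝ) * ((m.1.1 + m.1.2 : ℕ) : ℝ) :=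
      mul_le_mul h7 h9 (Nat.cast_nonneg _) (Nat.cast_nonneg _)
    have h11 : (0 : ℝ) ≤ ((m.1.1 + m.1.2 : ℕ) : ℝ) := Nat.cast_nonneg _
    nlinarith
  have hnn : √(n : ℝ) * √n = n := Real.mul_self_sqrt hn0.le
  rw [abs_mul, abs_mul, abs_of_nonneg hk, abs_of_nonneg (Nat.cast_nonneg (k m))]
  rw [h6] at h1
  calc ka n m * (k m : ℝ) * |u.1 ^ (a m).1 * u.2 ^ (a m).2 - v.1 ^ (a m).1 * v.2 ^ (a m).2| ≤
      ka n m * (k m : ℝ) * (√n * ((((a m).1 + (a m).2 : ℕ) : ℝ) *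
        (√n * (1 / √n) ^ (m.1.1 + m.1.2)) * ‖u - v‖)) :=
        mul_le_mul_of_nonneg_left h1 (by positivity)
    _ = (√n * √n) * ‖u - v‖ * ((k m : ℝ) * (((a m).1 + (a m).2 : ℕ) : ℝ) *
        (ka n m * (1 / √n) ^ (m.1.1 + m.1.2))) := by ring
    _ ≤ _ := by
        rw [hnn]
        refine mul_le_mul_of_nonneg_left ?_ (by positivity)
        exact mul_le_mul_of_nonneg_right h8 (mul_nonneg hk h3)

end ball

section factor

open Dx

/-- the power of `q` -/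
def gN (N : ℕ) (u : ℝ × ℝ) : ℝ := (√(q u ^ N))⁻¹

lemma gN_eq (N : ℕ) (u : ℝ × ℝ) : gN N u = q u ^ (-(N : ℝ) / 2) := by
  unfold gN
  rw [Real.sqrt_eq_rpow, ← Real.rpow_natCast (q u) N, ← Real.rpow_mul (q_pos u).le,
    ← Real.rpow_neg (q_pos u).le]
  congr 1
  ring

lemma gN_nonneg (N : ℕ) (u : ℝ × ℝ) : 0 ≤ gN N u := inv_nonneg.2 (Real.sqrt_nonneg _)

lemma gN_le (N : ℕ) (u : ℝ × ℝ) : gN N u ≤ 1 := by
  apply inv_le_one_of_one_le₀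
  rw [Real.one_le_sqrt]
  exact one_le_pow₀ (one_le_q u)

lemma hasFDerivAt_gN (N : ℕ) (u : ℝ × ℝ) :
    HasFDerivAt (gN N) ((-(N : ℝ) * gN (N + 2) u) • ipL u) u := by
  have h1 : HasDerivAt (fun x : ℝ => x ^ (-(N : ℝ) / 2))
      (-(N : ℝ) / 2 * q u ^ (-(N : ℝ) / 2 - 1)) (q u) :=
    Real.hasDerivAt_rpow_const (Or.inl (q_pos u).ne')
  have h2 := h1.comp_hasFDerivAt u (hasFDerivAt_q u)
  have h3 : gN N = (fun x : ℝ => x ^ (-(N : ℝ) / 2)) ∘ q := by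
    funext v
    exact gN_eq N v
  rw [h3]
  refine h2.congr_fderiv ?_
  apply ContinuousLinearMap.ext
  intro v
  rw [gN_eq]
  have h4 : (-((N + 2 : ℕ) : ℝ) / 2) = -(N : ℝ) / 2 - 1 := by push_cast; ring
  rw [h4]
  simp only [_root_.smul_apply, _root_.add_apply, ContinuousLinearMap.coe_fst',
    ContinuousLinearMap.coe_snd', smul_eq_mul, ipL_apply, ip]
  ring

lemma ipL_le (w : ℝ × ℝ) : ‖ipL w‖ ≤ 2 * ‖w‖ := by
  apply ContinuousLinearMap.opNorm_le_bound _ (by positivity)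
  intro v
  rw [ipL_apply, Real.norm_eq_abs]
  unfold ip
  have h1 := mul_le_mul (norm_fst_le w) (norm_fst_le v) (norm_nonneg _) (norm_nonneg w)
  have h2 := mul_le_mul (norm_snd_le w) (norm_snd_le v) (norm_nonneg _) (norm_nonneg w)
  simp only [Real.norm_eq_abs] at h1 h2
  calc |w.1 * v.1 + w.2 * v.2| ≤ |w.1 * v.1| + |w.2 * v.2| := abs_add_le _ _
    _ = |w.1| * |v.1| + |w.2| * |v.2| := by rw [abs_mul, abs_mul]
    _ ≤ 2 * ‖w‖ * ‖v‖ := by linarith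

lemma gN_sub (N : ℕ) {r : ℝ} {u v : ℝ × ℝ} (hu : ‖u‖ ≤ r) (hv : ‖v‖ ≤ r) :
    |gN N u - gN N v| ≤ 2 * N * r * ‖u - v‖ := by
  have hr : 0 ≤ r := (norm_nonneg _).trans hu
  have h := (convex_closedBall (0 : ℝ × ℝ) r).norm_image_sub_le_of_norm_hasFDerivWithin_le
    (f := gN N) (f' := fun w => (-(N : ℝ) * gN (N + 2) w) • ipL w) (C := 2 * N * r)
    (x := v) (y := u)
    (fun w _ => (hasFDerivAt_gN N w).hasFDerivWithinAt) (fun w hw => ?_) (by simpa using hv)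
    (by simpa using hu)
  · exact h
  have hw' : ‖w‖ ≤ r := by simpa using hw
  rw [norm_smul, norm_mul, norm_neg, Real.norm_natCast, Real.norm_of_nonneg (gN_nonneg _ _)]
  have h1 := ipL_le w
  have h2 := gN_le (N + 2) w
  have h3 := gN_nonneg (N + 2) w
  calc (N : ℝ) * gN (N + 2) w * ‖ipL w‖ ≤ N * 1 * (2 * r) := by
        refine mul_le_mul (mul_le_mul_of_nonneg_left h2 (Nat.cast_nonneg _)) (h1.trans ?_)
          (norm_nonneg _) (by positivity)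
        linarith
    _ = 2 * N * r := by ring

end factor

section final

open Dx

variable {n : ℕ} (c : T n → ℝ × ℝ)

/-- the coefficient of the value -/
def hh (n : ℕ) (t : ℝ) (u : ℝ × ℝ) : ℝ := n * gN (n + 2) u * t

lemma hh_le (hn : 1 ≤ n) {t : ℝ} {u : ℝ × ℝ} (ht : |t| ≤ 1 / √n) : |hh n t u| ≤ √n := by
  have hn0 : (0 : ℝ) < n := by exact_mod_cast hn
  have hs0 : (0 : ℝ) < √n := Real.sqrt_pos.2 hn0
  have hnn : √(n : ℝ) * √n = n := Real.mul_self_sqrt hn0.le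
  unfold hh
  rw [abs_mul, abs_mul, abs_of_nonneg hn0.le, abs_of_nonneg (gN_nonneg _ _)]
  calc (n : ℝ) * gN (n + 2) u * |t| ≤ n * 1 * (1 / √n) :=
        mul_le_mul (mul_le_mul_of_nonneg_left (gN_le _ _) hn0.le) ht (abs_nonneg _) (by positivity)
    _ = (√n * √n) / √n := by rw [hnn]; ring
    _ = √n := by field_simp

lemma hh_sub (hn : 1 ≤ n) {t t' : ℝ} {u v : ℝ × ℝ} (hu : ‖u‖ ≤ 1 / √n) (hv : ‖v‖ ≤ 1 / √n)
    (ht : |t| ≤ 1 / √n) (htt : |t - t'| ≤ ‖u - v‖) : |hh n t u - hh n t' v| ≤ 7 * n * ‖u - v‖ := by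
  have hn0 : (0 : ℝ) < n := by exact_mod_cast hn
  have hn1 : (1 : ℝ) ≤ n := by exact_mod_cast hn
  have hs0 : (0 : ℝ) < √n := Real.sqrt_pos.2 hn0
  have hnn : √(n : ℝ) * √n = n := Real.mul_self_sqrt hn0.le
  have h1 := gN_sub (n + 2) hu hv
  have e : hh n t u - hh n t' v = n * ((gN (n + 2) u - gN (n + 2) v) * t) +
      n * gN (n + 2) v * (t - t') := by
    unfold hh
    ring
  rw [e]
  refine (abs_add_le _ _).trans ?_
  rw [abs_mul, abs_mul, abs_mul, abs_mul, abs_of_nonneg hn0.le, abs_of_nonneg (gN_nonneg _ _)]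
  have h2 : (n : ℝ) * (|gN (n + 2) u - gN (n + 2) v| * |t|) ≤
      n * ((2 * ((n + 2 : ℕ) : ℝ) * (1 / √n) * ‖u - v‖) * (1 / √n)) :=
    mul_le_mul_of_nonneg_left (mul_le_mul h1 ht (abs_nonneg _) (by positivity)) hn0.le
  have h3 : (n : ℝ) * gN (n + 2) v * |t - t'| ≤ n * 1 * ‖u - v‖ :=
    mul_le_mul (mul_le_mul_of_nonneg_left (gN_le _ _) hn0.le) htt (abs_nonneg _) (by positivity)
  have h4 : (n : ℝ) * ((2 * ((n + 2 : ℕ) : ℝ) * (1 / √n) * ‖u - v‖) * (1 / √n)) =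
      2 * (n + 2) * ‖u - v‖ := by
    have h5 : (n : ℝ) * ((2 * ((n + 2 : ℕ) : ℝ) * (1 / √n) * ‖u - v‖) * (1 / √n)) =
        2 * ((n + 2 : ℕ) : ℝ) * ‖u - v‖ * (n / (√n * √n)) := by
      field_simp
    rw [h5, hnn, div_self hn0.ne']
    push_cast
    ring
  rw [h4] at h2
  have h6 := norm_nonneg (u - v)
  nlinarith

/-- the partial derivatives of the normalised field -/
def PP (n : ℕ) (c : T n → ℝ × ℝ) (a : T n → ℕ × ℕ) (k : T n → ℕ) (t : ℝ) (u : ℝ × ℝ) : ℝ × ℝ :=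
  gN n u • lin (wd n a k u) c - hh n t u • F n c u

lemma PP_le (hn : 1 ≤ n) {a : T n → ℕ × ℕ} {k : T n → ℕ}
    (ha : ∀ m, k m ≠ 0 → (a m).1 + (a m).2 + 1 = m.1.1 + m.1.2 ∧ k m ≤ m.1.1 + m.1.2)
    {t : ℝ} {u : ℝ × ℝ} (hu : ‖u‖ ≤ 1 / √n) (ht : |t| ≤ 1 / √n) :
    ‖PP n c a k t u‖ ≤ 8 * (√n * Sn n c) := by
  unfold PP
  refine (norm_sub_le _ _).trans ?_
  rw [norm_smul, norm_smul, Real.norm_of_nonneg (gN_nonneg _ _), Real.norm_eq_abs]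
  have h1 := mul_le_mul (gN_le n u) (wd_le c hn ha hu) (norm_nonneg _) zero_le_one
  have h2 := mul_le_mul (hh_le (u := u) hn ht) (F_le c hn hu) (norm_nonneg _) (Real.sqrt_nonneg _)
  calc _ ≤ 1 * (4 * (√n * Sn n c)) + √n * (4 * Sn n c) := add_le_add h1 h2
    _ = 8 * (√n * Sn n c) := by ring

lemma PP_sub (hn : 1 ≤ n) {a : T n → ℕ × ℕ} {k : T n → ℕ}
    (ha : ∀ m, k m ≠ 0 → (a m).1 + (a m).2 + 1 = m.1.1 + m.1.2 ∧ k m ≤ m.1.1 + m.1.2)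
    {t t' : ℝ} {u v : ℝ × ℝ} (hu : ‖u‖ ≤ 1 / √n) (hv : ‖v‖ ≤ 1 / √n)
    (ht : |t| ≤ 1 / √n) (htt : |t - t'| ≤ ‖u - v‖) :
    ‖PP n c a k t u - PP n c a k t' v‖ ≤ 44 * (n * Sn n c * ‖u - v‖) := by
  have hn0 : (0 : ℝ) < n := by exact_mod_cast hn
  have hs0 : (0 : ℝ) < √n := Real.sqrt_pos.2 hn0
  have hnn : √(n : ℝ) * √n = n := Real.mul_self_sqrt hn0.le
  have hS : 0 ≤ Sn n c := Real.sqrt_nonneg _
  have e : PP n c a k t u - PP n c a k t' v =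
      gN n u • (lin (wd n a k u) c - lin (wd n a k v) c) +
      (gN n u - gN n v) • lin (wd n a k v) c -
      (hh n t u • (F n c u - F n c v) + (hh n t u - hh n t' v) • F n c v) := by
    unfold PP
    rw [smul_sub, smul_sub, sub_smul, sub_smul]
    abel
  have h1 := mul_le_mul (gN_le n u) (wd_sub c hn ha hu hv) (norm_nonneg _) zero_le_one
  have h2 := mul_le_mul (gN_sub n hu hv) (wd_le c hn ha hv) (norm_nonneg _) (by positivity)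
  have h3 := mul_le_mul (hh_le (u := u) hn ht) (F_sub c hn hu hv) (norm_nonneg _)
    (Real.sqrt_nonneg _)
  have h4 := mul_le_mul (hh_sub hn hu hv ht htt) (F_le c hn hv) (norm_nonneg _) (by positivity)
  rw [e]
  refine (norm_sub_le _ _).trans ((add_le_add (norm_add_le _ _) (norm_add_le _ _)).trans ?_)
  rw [norm_smul, norm_smul, norm_smul, norm_smul, Real.norm_of_nonneg (gN_nonneg _ _),
    Real.norm_eq_abs, Real.norm_eq_abs, Real.norm_eq_abs]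
  have h5 : 2 * (n : ℝ) * (1 / √n) * ‖u - v‖ * (4 * (√n * Sn n c)) =
      8 * (n * Sn n c * ‖u - v‖) := by
    field_simp
    ring
  have h6 : √(n : ℝ) * (4 * (√n * ‖u - v‖ * Sn n c)) = 4 * (n * Sn n c * ‖u - v‖) := by
    calc √(n : ℝ) * (4 * (√n * ‖u - v‖ * Sn n c)) = 4 * ((√n * √n) * Sn n c * ‖u - v‖) := by ring
      _ = _ := by rw [hnn]
  rw [h5] at h2
  rw [h6] at h3
  calc _ ≤ (1 * (4 * (n * ‖u - v‖ * Sn n c)) + 8 * (n * Sn n c * ‖u - v‖)) +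
        (4 * (n * Sn n c * ‖u - v‖) + 7 * n * ‖u - v‖ * (4 * Sn n c)) :=
        add_le_add (add_le_add h1 h2) (add_le_add h3 h4)
    _ = 44 * (n * Sn n c * ‖u - v‖) := by ring

/-- exponents of the first partial derivative -/
def ax (n : ℕ) (m : T n) : ℕ × ℕ := (m.1.1 - 1, m.1.2)

/-- exponents of the second partial derivative -/
def ay (n : ℕ) (m : T n) : ℕ × ℕ := (m.1.1, m.1.2 - 1)

lemma hasFDerivAt_Xh (u : ℝ × ℝ) : HasFDerivAt (Xh n c)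
    ((ContinuousLinearMap.fst ℝ ℝ ℝ).smulRight (PP n c (ax n) (fun m => m.1.1) u.1 u) +
      (ContinuousLinearMap.snd ℝ ℝ ℝ).smulRight (PP n c (ay n) (fun m => m.1.2) u.2 u)) u := by
  have h1 : HasFDerivAt (Xh n c) _ u := (hasFDerivAt_gN n u).smul (hasFDerivAt_F n c u)
  refine h1.congr_fderiv ?_
  apply ContinuousLinearMap.ext
  intro v
  have hx : lin (wx n u) c = lin (wd n (ax n) (fun m => m.1.1) u) c := rfl
  have hy : lin (wy n u) c = lin (wd n (ay n) (fun m => m.1.2) u) c := rfl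
  rw [hx, hy]
  simp only [_root_.add_apply, _root_.smul_apply, ContinuousLinearMap.smulRight_apply,
    ContinuousLinearMap.coe_fst', ContinuousLinearMap.coe_snd', ipL_apply, ip, PP, hh]
  ext <;>
  simp only [Prod.fst_add, Prod.snd_add, Prod.smul_fst, Prod.smul_snd, Prod.fst_sub, Prod.snd_sub,
    smul_eq_mul] <;>
  ring

lemma norm_pair (a b : ℝ × ℝ) : ‖(ContinuousLinearMap.fst ℝ ℝ ℝ).smulRight a +
    (ContinuousLinearMap.snd ℝ ℝ ℝ).smulRight b‖ ≤ ‖a‖ + ‖b‖ := by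
  apply ContinuousLinearMap.opNorm_le_bound _ (by positivity)
  intro v
  simp only [_root_.add_apply, ContinuousLinearMap.smulRight_apply,
    ContinuousLinearMap.coe_fst', ContinuousLinearMap.coe_snd']
  refine (norm_add_le _ _).trans ?_
  rw [norm_smul, norm_smul, add_mul, mul_comm ‖a‖, mul_comm ‖b‖]
  exact add_le_add (mul_le_mul_of_nonneg_right (norm_fst_le v) (norm_nonneg _))
    (mul_le_mul_of_nonneg_right (norm_snd_le v) (norm_nonneg _))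

lemma hax (m : T n) (h : m.1.1 ≠ 0) :
    (ax n m).1 + (ax n m).2 + 1 = m.1.1 + m.1.2 ∧ m.1.1 ≤ m.1.1 + m.1.2 := by
  unfold ax
  simp only
  omega

lemma hay (m : T n) (h : m.1.2 ≠ 0) :
    (ay n m).1 + (ay n m).2 + 1 = m.1.1 + m.1.2 ∧ m.1.2 ≤ m.1.1 + m.1.2 := by
  unfold ay
  simp only
  omega

end final

end S0

open S0 in
theorem s0 : S_S0 := by
  refine ⟨88, by norm_num, fun n hn c => ⟨fun u hu => ?_, fun u v hu hv => ?_, fun v => ?_⟩⟩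
  · rw [(hasFDerivAt_Xh c u).fderiv]
    have h1 := PP_le c hn (fun m => hax m) hu ((norm_fst_le u).trans hu)
    have h2 := PP_le c hn (fun m => hay m) hu ((norm_snd_le u).trans hu)
    have h3 : 0 ≤ √(n : ℝ) * Sn n c := mul_nonneg (Real.sqrt_nonneg _) (Real.sqrt_nonneg _)
    refine (norm_pair _ _).trans ((add_le_add h1 h2).trans ?_)
    linarith
  · rw [(hasFDerivAt_Xh c u).fderiv, (hasFDerivAt_Xh c v).fderiv]
    have h1 := PP_sub c hn (fun m => hax m) hu hv ((norm_fst_le u).trans hu) (norm_fst_le (u - v))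
    have h2 := PP_sub c hn (fun m => hay m) hu hv ((norm_snd_le u).trans hu) (norm_snd_le (u - v))
    have e : ∀ a b a' b' : ℝ × ℝ, ((ContinuousLinearMap.fst ℝ ℝ ℝ).smulRight a +
        (ContinuousLinearMap.snd ℝ ℝ ℝ).smulRight b) -
        ((ContinuousLinearMap.fst ℝ ℝ ℝ).smulRight a' +
        (ContinuousLinearMap.snd ℝ ℝ ℝ).smulRight b') =
        (ContinuousLinearMap.fst ℝ ℝ ℝ).smulRight (a - a') +
        (ContinuousLinearMap.snd ℝ ℝ ℝ).smulRight (b - b') := by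
      intro a b a' b'
      apply ContinuousLinearMap.ext
      intro w
      simp only [_root_.add_apply, _root_.sub_apply, ContinuousLinearMap.smulRight_apply,
        ContinuousLinearMap.coe_fst', ContinuousLinearMap.coe_snd', smul_sub]
      abel
    rw [e]
    refine (norm_pair _ _).trans ((add_le_add h1 h2).trans ?_)
    linarith
  · rw [(Dx.hasFDerivAt_zero n c).fderiv]
    simp

end

end Pool.Agent.Helper63K9.KT
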