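import Pool.Agent.Helper63K9.KT.LZD

/-! Leaf SN. -/

open Real Set MeasureTheory Topology Filter ProbabilityTheory
open scoped ENNReal NNReal

namespace Pool.Agent.Helper63K9.KT

noncomputable section

open Pool.Agent.H709R2 (wedge)
open Pool.Agent.W960.HR
open Pool.Agent.Helper63K9.KS

/-- the weights of `Sn` -/
def Ga.be (n : ℕ) (m : T n) : ℝ := mc n m.1 * (16 / n) ^ (m.1.1 + m.1.2)

theorem Ga.be_nonneg (n : ℕ) (m : T n) : 0 ≤ Ga.be n m :=
  mul_nonneg (mc_nonneg _ _) (by positivity)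

theorem Ga.sum_be {n : ℕ} (hn : 1 ≤ n) : ∑ m, Ga.be n m ≤ rexp 32 := by
  have h : ∑ m, Ga.be n m = (1 + 16 / n + 16 / n) ^ n := by
    rw [← I0]
    refine sum_sub n (fun m => mc n m * ((16 / (n:ℝ)) ^ m.1 * (16 / (n:ℝ)) ^ m.2)) fun m => ?_
    unfold Ga.be
    rw [pow_add]
  rw [h]
  have hn0 : (0 : ℝ) < n := by exact_mod_cast hn
  have h1 : 1 + 16 / (n:ℝ) + 16 / n ≤ rexp (32 / n) := by
    have := Real.add_one_le_exp (32 / (n:ℝ))
    have e : 16 / (n:ℝ) + 16 / n = 32 / n := by ring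
    linarith
  calc (1 + 16 / (n:ℝ) + 16 / n) ^ n ≤ rexp (32 / n) ^ n :=
        pow_le_pow_left₀ (by positivity) h1 n
    _ = rexp 32 := by
        rw [← Real.exp_nat_mul]
        congr 1
        field_simp

theorem Ga.lin_single {S : Finset (ℕ × ℕ)} (m : S) (c : S → ℝ × ℝ) :
    lin (fun m' => if m' = m then 1 else 0) c = c m := by
  unfold lin
  simp

theorem Ga.Sn_pow {n : ℕ} (hn : 1 ≤ n) (c : T n → ℝ × ℝ) : Sn n c ^ 12 ≤
    ∑ m, (64 * rexp 32 ^ 5 * Ga.be n m) * ‖c m‖ ^ 12 := by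
  have h0 : 0 ≤ ∑ m, Ga.be n m * H709R2.sq (c m) := Finset.sum_nonneg fun m _ =>
    mul_nonneg (Ga.be_nonneg n m) (by unfold H709R2.sq; positivity)
  have h1 : Sn n c ^ 12 = (∑ m, Ga.be n m * H709R2.sq (c m)) ^ 6 := by
    have e : Sn n c = √(∑ m, Ga.be n m * H709R2.sq (c m)) := by
      unfold Sn Ga.be
      congr 1
      exact Finset.sum_congr rfl fun m _ => by ring
    rw [e]
    calc √(∑ m, Ga.be n m * H709R2.sq (c m)) ^ 12 =
        (√(∑ m, Ga.be n m * H709R2.sq (c m)) ^ 2) ^ 6 := by ring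
      _ = _ := by rw [Real.sq_sqrt h0]
  set B : ℝ := ∑ m, Ga.be n m with hB
  have hBpos : 0 < B := by
    have h2 : B = (1 + 16 / n + 16 / n) ^ n := by
      rw [hB, ← I0]
      refine sum_sub n (fun m => mc n m * ((16 / (n:ℝ)) ^ m.1 * (16 / (n:ℝ)) ^ m.2)) fun m => ?_
      unfold Ga.be
      rw [pow_add]
    rw [h2]
    positivity
  have h2 := Real.pow_arith_mean_le_arith_mean_pow (Finset.univ : Finset (T n))
    (fun m => Ga.be n m / B) (fun m => H709R2.sq (c m))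
    (fun m _ => div_nonneg (Ga.be_nonneg n m) hBpos.le)
    (by rw [← Finset.sum_div, ← hB, div_self hBpos.ne'])
    (fun m _ => by unfold H709R2.sq; positivity) 6
  have h3 : (∑ m, Ga.be n m * H709R2.sq (c m)) ^ 6 =
      B ^ 6 * (∑ m, Ga.be n m / B * H709R2.sq (c m)) ^ 6 := by
    rw [← mul_pow]
    congr 1
    rw [Finset.mul_sum]
    refine Finset.sum_congr rfl fun m _ => ?_
    field_simp
  rw [h1, h3]
  refine (mul_le_mul_of_nonneg_left h2 (by positivity)).trans ?_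
  rw [Finset.mul_sum]
  refine Finset.sum_le_sum fun m _ => ?_
  have h4 : H709R2.sq (c m) ^ 6 ≤ 64 * ‖c m‖ ^ 12 := by
    have h5 : H709R2.sq (c m) ≤ 2 * ‖c m‖ ^ 2 := sq_le_norm_sq _
    have h6 : 0 ≤ H709R2.sq (c m) := by unfold H709R2.sq; positivity
    calc H709R2.sq (c m) ^ 6 ≤ (2 * ‖c m‖ ^ 2) ^ 6 := pow_le_pow_left₀ h6 h5 6
      _ = 64 * ‖c m‖ ^ 12 := by ring
  have h7 : B ^ 5 ≤ rexp 32 ^ 5 := pow_le_pow_left₀ hBpos.le (Ga.sum_be hn) 5
  calc B ^ 6 * (Ga.be n m / B * H709R2.sq (c m) ^ 6) =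
      B ^ 5 * (Ga.be n m * H709R2.sq (c m) ^ 6) := by
        field_simp
    _ ≤ rexp 32 ^ 5 * (Ga.be n m * (64 * ‖c m‖ ^ 12)) := by
        refine mul_le_mul h7 (mul_le_mul_of_nonneg_left h4 (Ga.be_nonneg n m)) ?_ (by positivity)
        refine mul_nonneg (Ga.be_nonneg n m) ?_
        unfold H709R2.sq
        positivity
    _ = _ := by ring

theorem sn12 : S_SN := by
  obtain ⟨K, hK, h⟩ := Ga.gm 12
  refine ⟨64 * rexp 32 ^ 6 * K, by positivity, fun n hn ε hε hε1 => ?_⟩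
  have h0 : ∑ m, w0 n 0 m ^ 2 = 1 := by rw [sum_w0, Ga.q_zero, one_pow]
  have hset : {c : T n → ℝ × ℝ | ‖F n c 0‖ < ε} = {c | ‖lin (w0 n 0) c‖ < ε} := rfl
  rw [hset]
  have hmeas : MeasurableSet {c : T n → ℝ × ℝ | ‖lin (w0 n 0) c‖ < ε} :=
    measurableSet_lt ((continuous_lin _).norm.measurable) measurable_const
  have hb0 : ∀ m : T n, 0 ≤ 64 * rexp 32 ^ 5 * Ga.be n m := fun m =>
    mul_nonneg (by positivity) (Ga.be_nonneg n m)
  have hle : ∀ c, {c : T n → ℝ × ℝ | ‖lin (w0 n 0) c‖ < ε}.indicator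
      (fun c => ENNReal.ofReal (Sn n c ^ 12)) c ≤
      ∑ m, ENNReal.ofReal (64 * rexp 32 ^ 5 * Ga.be n m) *
        {c : T n → ℝ × ℝ | ‖lin (w0 n 0) c‖ < ε}.indicator
        (fun c => ENNReal.ofReal (‖lin (fun m' => if m' = m then 1 else 0) c‖ ^ 12)) c := by
    intro c
    by_cases hc : ‖lin (w0 n 0) c‖ < ε
    · rw [indicator_of_mem (by exact hc)]
      refine (ENNReal.ofReal_le_ofReal (Ga.Sn_pow hn c)).trans ?_
      rw [ENNReal.ofReal_sum_of_nonneg fun m _ => mul_nonneg (hb0 m) (by positivity)]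
      refine Finset.sum_le_sum fun m _ => ?_
      rw [indicator_of_mem (by exact hc), ENNReal.ofReal_mul (hb0 m), Ga.lin_single]
    · rw [indicator_of_notMem (by exact hc)]
      exact bot_le
  refine (lintegral_mono hle).trans ?_
  rw [lintegral_finsetSum]
  · have h1 : ∀ m : T n, ∫⁻ c, ENNReal.ofReal (64 * rexp 32 ^ 5 * Ga.be n m) *
        {c : T n → ℝ × ℝ | ‖lin (w0 n 0) c‖ < ε}.indicator
        (fun c => ENNReal.ofReal (‖lin (fun m' => if m' = m then 1 else 0) c‖ ^ 12)) c ∂GP (T n) ≤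
        ENNReal.ofReal (64 * rexp 32 ^ 5 * Ga.be n m * (K * ε ^ 2)) := by
      intro m
      rw [lintegral_const_mul, ENNReal.ofReal_mul (hb0 m)]
      · refine mul_le_mul_right ?_ _
        have h2 := h (T n) (w0 n 0) (fun m' => if m' = m then 1 else 0) h0 ε hε hε1
        refine h2.trans (ENNReal.ofReal_le_ofReal ?_)
        simp
      · refine Measurable.indicator ?_ hmeas
        exact ((continuous_lin _).norm.pow 12).measurable.ennreal_ofReal
    refine (Finset.sum_le_sum fun m _ => h1 m).trans ?_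
    rw [← ENNReal.ofReal_sum_of_nonneg fun m _ => mul_nonneg (hb0 m) (by positivity)]
    apply ENNReal.ofReal_le_ofReal
    rw [← Finset.sum_mul, ← Finset.mul_sum]
    have h3 := Ga.sum_be hn
    calc 64 * rexp 32 ^ 5 * (∑ m, Ga.be n m) * (K * ε ^ 2) ≤
        64 * rexp 32 ^ 5 * rexp 32 * (K * ε ^ 2) := by gcongr
      _ = _ := by ring
  · intro m _
    refine Measurable.const_mul ?_ _
    refine Measurable.indicator ?_ hmeas
    exact ((continuous_lin _).norm.pow 12).measurable.ennreal_ofReal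

end

end Pool.Agent.Helper63K9.KT
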