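import Pool.Agent.Helper63K9.KT.Leaves

/-! Leaf TC: change of time. -/

open Real Set MeasureTheory Filter
open scoped ENNReal Topology

namespace Pool.Agent.Helper63K9.KT

noncomputable section

open Pool.Agent.H709R2 (fld rot rotc NP wedge ClosedOrbit)
open Pool.Agent.W960.HR
open Pool.Agent.H709U
open Pool.Agent.Helper63K9.KS

namespace Tc

/-- a closed orbit after a change of time -/
theorem time_change {V W : ℝ × ℝ → ℝ × ℝ} {φ : ℝ × ℝ → ℝ} (hφ : Continuous φ)
    (h1 : ∀ z, 1 ≤ φ z) (hW : ∀ z, W z = (φ z)⁻¹ • V z) {C : Set (ℝ × ℝ)}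
    (hC : ClosedOrbit V C) : ClosedOrbit W C := by
  obtain ⟨γ, T₀, hT, hγ, hper, ⟨s₀, t₀, hne⟩, rfl⟩ := hC
  have hγc : Continuous γ := continuous_iff_continuousAt.2 fun t => (hγ t).continuousAt
  let f : ℝ → ℝ := fun s => φ (γ s)
  have hf : Continuous f := hφ.comp hγc
  have hf1 : ∀ s, 1 ≤ f s := fun s => h1 _
  let τ : ℝ → ℝ := fun s => ∫ r in (0:ℝ)..s, f r
  have hτ0 : τ 0 = 0 := intervalIntegral.integral_same
  have hτd : ∀ s, HasDerivAt τ (f s) s := fun s =>
    (hf.integral_hasStrictDerivAt 0 s).hasDerivAt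
  have hτc : Continuous τ := continuous_iff_continuousAt.2 fun t => (hτd t).continuousAt
  have hτm : StrictMono τ := strictMono_of_hasDerivAt_pos hτd fun s =>
    lt_of_lt_of_le one_pos (hf1 s)
  have hmono : Monotone fun s => τ s - s := by
    apply monotone_of_hasDerivAt_nonneg (f' := fun s => f s - 1)
    · intro s
      exact (hτd s).sub (hasDerivAt_id s)
    · intro s
      show (0 : ℝ) ≤ f s - 1
      linarith [hf1 s]
  have htop : Tendsto τ atTop atTop := by
    apply tendsto_atTop_mono' atTop _ tendsto_id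
    filter_upwards [eventually_ge_atTop (0 : ℝ)] with s hs
    have := hmono hs
    simp only [hτ0, sub_zero] at this
    show s ≤ τ s
    linarith
  have hbot : Tendsto τ atBot atBot := by
    apply tendsto_atBot_mono' atBot _ tendsto_id
    filter_upwards [eventually_le_atBot (0 : ℝ)] with s hs
    have := hmono hs
    simp only [hτ0, sub_zero] at this
    show τ s ≤ s
    linarith
  have hsurj : Function.Surjective τ := hτc.surjective htop hbot
  let e : ℝ ≃o ℝ := hτm.orderIsoOfSurjective τ hsurj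
  have he : ∀ s, e s = τ s := fun s => rfl
  have hes : ∀ t, τ (e.symm t) = t := fun t => e.apply_symm_apply t
  have hσc : Continuous e.symm := e.symm.continuous
  have hσd : ∀ t, HasDerivAt e.symm (f (e.symm t))⁻¹ t := by
    intro t
    apply HasDerivAt.of_local_left_inverse hσc.continuousAt (hτd (e.symm t))
    · exact (lt_of_lt_of_le one_pos (hf1 _)).ne'
    · exact Eventually.of_forall hes
  have hfp : Function.Periodic f T₀ := fun s => by
    show φ (γ (s + T₀)) = φ (γ s)
    rw [hper]
  have hτT : ∀ s, τ (s + T₀) = τ s + τ T₀ := by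
    intro s
    show (∫ r in (0:ℝ)..(s + T₀), f r) = (∫ r in (0:ℝ)..s, f r) + ∫ r in (0:ℝ)..T₀, f r
    rw [← intervalIntegral.integral_add_adjacent_intervals (b := s)
      (hf.intervalIntegrable _ _) (hf.intervalIntegrable _ _)]
    congr 1
    have := hfp.intervalIntegral_add_eq s 0
    rwa [zero_add] at this
  have hσT : ∀ t, e.symm (t + τ T₀) = e.symm t + T₀ := by
    intro t
    apply e.injective
    rw [he, he, hes, hτT, hes]
  refine ⟨fun t => γ (e.symm t), τ T₀, ?_, ?_, ?_, ⟨e s₀, e t₀, ?_⟩, ?_⟩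
  · rw [← hτ0]
    exact hτm hT
  · intro t
    have h2 := (hγ (e.symm t)).scomp t (hσd t)
    rw [hW]
    exact h2
  · intro t
    simp only
    rw [hσT, hper]
  · simp only [e.symm_apply_apply]
    exact hne
  · ext x
    constructor
    · rintro ⟨s, rfl⟩
      exact ⟨e s, by simp⟩
    · rintro ⟨t, rfl⟩
      exact ⟨e.symm t, rfl⟩

end Tc

theorem tc : S_TC := by
  intro n c α C hC
  have hq : Continuous q := by
    unfold q H709R2.sq
    fun_prop
  refine Tc.time_change (φ := fun z => √(q z ^ n)) ?_ ?_ ?_ hC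
  · exact (hq.pow n).sqrt
  · intro z
    rw [Real.one_le_sqrt]
    exact one_le_pow₀ (one_le_q z)
  · intro z
    unfold rf Xh
    rw [H709R2.rot_smul]

end

end Pool.Agent.Helper63K9.KT
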