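import Pool.Agent.Helper63K9.KT.Ga

/-! Leaf ZD. -/

open Real Set MeasureTheory Topology Filter ProbabilityTheory
open scoped ENNReal NNReal

namespace Pool.Agent.Helper63K9.KT

noncomputable section

open Pool.Agent.H709R2 (wedge)
open Pool.Agent.W960.HR
open Pool.Agent.Helper63K9.KS

theorem Ga.q_zero : q 0 = 1 := by
  unfold q H709R2.sq
  simp

theorem zd : S_ZD := by
  obtain ⟨K, hK, h⟩ := Ga.gm 2
  refine ⟨2 * K, by positivity, fun n hn ε hε hε1 => ?_⟩
  have h0 : ∑ m, w0 n 0 m ^ 2 = 1 := by rw [sum_w0, Ga.q_zero, one_pow]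
  have hx : ∑ m, wx n 0 m ^ 2 = n := by
    rw [sum_wx_sq, Ga.q_zero]
    simp
  have hy : ∑ m, wy n 0 m ^ 2 = n := by
    rw [sum_wy_sq, Ga.q_zero]
    simp
  have h1 := h (T n) (w0 n 0) (wx n 0) h0 ε hε hε1
  have h2 := h (T n) (w0 n 0) (wy n 0) h0 ε hε hε1
  have hn0 : (0 : ℝ) ≤ n := Nat.cast_nonneg n
  rw [hx, Real.sq_sqrt hn0] at h1
  rw [hy, Real.sq_sqrt hn0] at h2
  have hset : {c : T n → ℝ × ℝ | ‖F n c 0‖ < ε} = {c | ‖lin (w0 n 0) c‖ < ε} := rfl
  rw [hset]
  have hmeas : MeasurableSet {c : T n → ℝ × ℝ | ‖lin (w0 n 0) c‖ < ε} :=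
    measurableSet_lt ((continuous_lin _).norm.measurable) measurable_const
  have hle : ∀ c, {c : T n → ℝ × ℝ | ‖lin (w0 n 0) c‖ < ε}.indicator
      (fun c => ENNReal.ofReal |wedge (Y1 n c) (Y2 n c)|) c ≤
      {c : T n → ℝ × ℝ | ‖lin (w0 n 0) c‖ < ε}.indicator
        (fun c => ENNReal.ofReal (‖lin (wx n 0) c‖ ^ 2)) c +
      {c : T n → ℝ × ℝ | ‖lin (w0 n 0) c‖ < ε}.indicator
        (fun c => ENNReal.ofReal (‖lin (wy n 0) c‖ ^ 2)) c := by
    intro c
    by_cases hc : ‖lin (w0 n 0) c‖ < ε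
    · rw [indicator_of_mem (by exact hc), indicator_of_mem (by exact hc),
        indicator_of_mem (by exact hc), ← ENNReal.ofReal_add (by positivity) (by positivity)]
      apply ENNReal.ofReal_le_ofReal
      refine (abs_wedge_le _ _).trans ?_
      unfold Y1 Y2
      nlinarith [sq_nonneg (‖lin (wx n 0) c‖ - ‖lin (wy n 0) c‖)]
    · rw [indicator_of_notMem (by exact hc)]
      exact bot_le
  refine (lintegral_mono hle).trans ?_
  rw [lintegral_add_left]
  · refine (add_le_add h1 h2).trans ?_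
    rw [← ENNReal.ofReal_add (by positivity) (by positivity)]
    exact ENNReal.ofReal_le_ofReal (le_of_eq (by ring))
  · refine Measurable.indicator ?_ hmeas
    exact ((continuous_lin _).norm.pow 2).measurable.ennreal_ofReal

end

end Pool.Agent.Helper63K9.KT
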