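import Pool.Agent.Helper63K9.KT.LDX
import Pool.Agent.Helper63K9.KS.Mean

/-! Leaf ZN: the number of zeros. -/

open Real Set MeasureTheory Filter
open scoped ENNReal Topology

namespace Pool.Agent.Helper63K9.KT

noncomputable section

open Pool.Agent.H709R2 (fld rot rotc NP wedge ClosedOrbit)
open Pool.Agent.W960.HR
open Pool.Agent.H709U
open Pool.Agent.Helper63K9.KS

namespace Zn

lemma cont_q : Continuous q := by
  unfold q H709R2.sq
  fun_prop

lemma cont_Xh (n : ℕ) : Continuous fun p : (T n → ℝ × ℝ) × (ℝ × ℝ) => Xh n p.1 p.2 := by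
  have h1 : Continuous fun p : (T n → ℝ × ℝ) × (ℝ × ℝ) => (√(q p.2 ^ n))⁻¹ := by
    refine Continuous.inv₀ ?_ ?_
    · exact ((cont_q.comp continuous_snd).pow n).sqrt
    · intro p
      exact (Real.sqrt_pos.2 (pow_pos (q_pos _) n)).ne'
  exact h1.smul (cont_F n)

lemma cont_Y1 (n : ℕ) : Continuous (Y1 n) := by
  unfold Y1 lin
  fun_prop

lemma cont_Y2 (n : ℕ) : Continuous (Y2 n) := by
  unfold Y2 lin
  fun_prop

lemma contDiff_Xh1 (n : ℕ) (c : T n → ℝ × ℝ) : ContDiff ℝ 1 (Xh n c) := by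
  unfold Xh
  refine ContDiff.smul (ContDiff.inv (ContDiff.sqrt ?_ ?_) ?_) ((contDiff_F n c).of_le (by norm_num))
  · unfold q H709R2.sq
    fun_prop
  · intro z
    exact (pow_pos (q_pos z) n).ne'
  · intro z
    exact (Real.sqrt_pos.2 (pow_pos (q_pos z) n)).ne'

lemma Xh_zero (n : ℕ) (b : T n → ℝ × ℝ) : Xh n b 0 = F n b 0 := by
  unfold Xh
  rw [Dx.q_zero]
  simp

/-- the integrand -/
def gz (n : ℕ) (Tz : ℝ × ℝ → (T n → ℝ × ℝ) → (T n → ℝ × ℝ)) (ε : ℝ)
    (p : (T n → ℝ × ℝ) × (ℝ × ℝ)) : ℝ≥0∞ :=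
  {p : (T n → ℝ × ℝ) × (ℝ × ℝ) | ‖Xh n p.1 p.2‖ < ε}.indicator
    (fun p => ENNReal.ofReal (|wedge (Y1 n (Tz p.2 p.1)) (Y2 n (Tz p.2 p.1))| / √(q p.2) ^ 3)) p

lemma meas_gz (n : ℕ) {Tz : ℝ × ℝ → (T n → ℝ × ℝ) → (T n → ℝ × ℝ)} (hT : FR n Tz) (ε : ℝ) :
    Measurable (gz n Tz ε) := by
  unfold gz
  have hTc : Continuous fun p : (T n → ℝ × ℝ) × (ℝ × ℝ) => Tz p.2 p.1 :=
    hT.cont.comp (continuous_snd.prodMk continuous_fst)
  have h1 : Continuous fun p : (T n → ℝ × ℝ) × (ℝ × ℝ) =>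
      |wedge (Y1 n (Tz p.2 p.1)) (Y2 n (Tz p.2 p.1))| / √(q p.2) ^ 3 := by
    refine Continuous.div ?_ ?_ ?_
    · have a := (cont_Y1 n).comp hTc
      have b := (cont_Y2 n).comp hTc
      unfold wedge
      exact ((a.fst.mul b.snd).sub (a.snd.mul b.fst)).abs
    · exact ((cont_q.comp continuous_snd).sqrt).pow 3
    · intro p
      have := Dx.sqrt_q_pos p.2
      positivity
  refine (ENNReal.measurable_ofReal.comp h1.measurable).indicator ?_
  exact measurableSet_lt (cont_Xh n).norm.measurable measurable_const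

lemma mean_gz (hZD : ℝ) {n : ℕ} (hn : 1 ≤ n) (h : ∀ ε : ℝ, 0 < ε → ε ≤ 1 →
    ∫⁻ c, {c : T n → ℝ × ℝ | ‖F n c 0‖ < ε}.indicator
    (fun c => ENNReal.ofReal |wedge (Y1 n c) (Y2 n c)|) c ∂GP (T n) ≤
      ENNReal.ofReal (hZD * ε ^ 2 * n))
    {Tz : ℝ × ℝ → (T n → ℝ × ℝ) → (T n → ℝ × ℝ)} (hT : FR n Tz) {ε : ℝ} (hε : 0 < ε) (hε1 : ε ≤ 1)
    (z : ℝ × ℝ) :
    ∫⁻ c, gz n Tz ε (c, z) ∂GP (T n) ≤
      ENNReal.ofReal (1 / √(q z) ^ 3) * ENNReal.ofReal (hZD * ε ^ 2 * n) := by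
  have h0 := Dx.sqrt_q_pos z
  set g : (T n → ℝ × ℝ) → ℝ≥0∞ := fun c => {c : T n → ℝ × ℝ | ‖F n c 0‖ < ε}.indicator
    (fun c => ENNReal.ofReal |wedge (Y1 n c) (Y2 n c)|) c with hg
  have hmg : Measurable g := by
    have hF0 : Continuous fun c : T n → ℝ × ℝ => F n c 0 :=
      (cont_F n).comp (continuous_id.prodMk continuous_const)
    refine Measurable.indicator ?_ (measurableSet_lt hF0.norm.measurable measurable_const)
    have a := cont_Y1 n
    have b := cont_Y2 n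
    have h1 : Continuous fun c => |wedge (Y1 n c) (Y2 n c)| := by
      unfold wedge
      exact ((a.fst.mul b.snd).sub (a.snd.mul b.fst)).abs
    exact ENNReal.measurable_ofReal.comp h1.measurable
  have h2 : ∀ c, gz n Tz ε (c, z) = ENNReal.ofReal (1 / √(q z) ^ 3) * g (Tz z c) := by
    intro c
    have h3 : Xh n c z = F n (Tz z c) 0 := by
      rw [hT.chart z c z (by rw [Dx.ip_self]; exact q_pos z), Dx.uz_self, Xh_zero]
    unfold gz
    simp only [hg]
    by_cases hc : ‖Xh n c z‖ < ε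
    · rw [indicator_of_mem (by exact hc), indicator_of_mem (by rw [h3] at hc; exact hc),
        ← ENNReal.ofReal_mul (by positivity)]
      congr 1
      ring
    · rw [indicator_of_notMem (by exact hc), indicator_of_notMem (by rw [h3] at hc; exact hc),
        mul_zero]
  simp_rw [h2]
  have h5 : ∫⁻ c, ENNReal.ofReal (1 / √(q z) ^ 3) * g (Tz z c) ∂GP (T n) =
      ENNReal.ofReal (1 / √(q z) ^ 3) * ∫⁻ c, g (Tz z c) ∂GP (T n) :=
    lintegral_const_mul _ (hmg.comp (hT.mp z).measurable)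
  rw [h5, (hT.mp z).lintegral_comp hmg]
  exact mul_le_mul_right (h ε hε hε1) _

end Zn

open Zn in
theorem zn : S_FR → S_DX → S_AREA → S_ZD → S_INT2 → S_ZN := by
  intro hFR hDX hAREA hZD hI2
  obtain ⟨K, hK, hZ⟩ := hZD
  refine ⟨25 * K, by positivity, ?_⟩
  intro n hn
  obtain ⟨Tz, hT⟩ := hFR n
  have hI : ∀ m : ℕ, Measurable fun c : T n → ℝ × ℝ => ENNReal.ofReal (((m : ℝ) + 1) ^ 2 / 4) *
      ∫⁻ z, gz n Tz (1 / ((m : ℝ) + 1)) (c, z) := fun m =>
    ((meas_gz n hT _).lintegral_prod_right').const_mul _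
  refine ⟨fun c => liminf (fun m : ℕ => ENNReal.ofReal (((m : ℝ) + 1) ^ 2 / 4) *
      ∫⁻ z, gz n Tz (1 / ((m : ℝ) + 1)) (c, z)) atTop, Measurable.liminf hI, ?_, ?_⟩
  · refine (lintegral_liminf_le hI).trans ?_
    refine liminf_le_of_le (by isBoundedDefault) ?_
    intro b hb
    obtain ⟨m, hm⟩ := hb.exists
    refine hm.trans ?_
    rw [lintegral_const_mul _ ((meas_gz n hT _).lintegral_prod_right')]
    have hsw : ∫⁻ c, (∫⁻ z, gz n Tz (1 / ((m : ℝ) + 1)) (c, z)) ∂GP (T n) =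
        ∫⁻ z, (∫⁻ c, gz n Tz (1 / ((m : ℝ) + 1)) (c, z) ∂GP (T n)) := by
      have hh := meas_gz n hT (1 / ((m : ℝ) + 1))
      exact lintegral_lintegral_swap (f := fun c z => gz n Tz (1 / ((m : ℝ) + 1)) (c, z))
        hh.aemeasurable
    rw [hsw]
    have hm1 : (0:ℝ) < (m:ℝ) + 1 := by positivity
    have hε1 : 1 / ((m : ℝ) + 1) ≤ 1 := by
      rw [div_le_one hm1]
      have : (0:ℝ) ≤ m := Nat.cast_nonneg m
      linarith
    have h4 : ∫⁻ z, (∫⁻ c, gz n Tz (1 / ((m : ℝ) + 1)) (c, z) ∂GP (T n)) ≤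
        ENNReal.ofReal 100 * ENNReal.ofReal (K * (1 / ((m : ℝ) + 1)) ^ 2 * n) := by
      refine (lintegral_mono fun z => mean_gz K hn (hZ n hn) hT (by positivity) hε1 z).trans ?_
      rw [lintegral_mul_const']
      · exact mul_le_mul_left hI2 _
      · exact ENNReal.ofReal_ne_top
    refine (mul_le_mul_right h4 _).trans ?_
    rw [← ENNReal.ofReal_mul (by norm_num), ← ENNReal.ofReal_mul (by positivity)]
    apply ENNReal.ofReal_le_ofReal
    refine le_of_eq ?_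
    field_simp
    ring
  · intro c Z hZc
    have h1 := hAREA (Xh n c) (contDiff_Xh1 n c) Z (fun p hp => ?_) (fun _ => 1) (fun _ => 1)
      measurable_const (fun p _ => Filter.Eventually.of_forall fun _ => le_rfl)
    · simp only [Finset.sum_const, nsmul_eq_mul, mul_one] at h1
      refine h1.trans (le_of_eq ?_)
      congr 1
      funext m
      congr 1
      refine lintegral_congr fun z => ?_
      unfold gz
      by_cases hc : ‖Xh n c z‖ < 1 / ((m : ℝ) + 1)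
      · rw [indicator_of_mem (by exact hc), indicator_of_mem (by exact hc), hDX n Tz hT c z]
      · rw [indicator_of_notMem (by exact hc), indicator_of_notMem (by exact hc)]
    · obtain ⟨a, b⟩ := hZc p hp
      refine ⟨?_, b⟩
      unfold Xh
      rw [a, smul_zero]

end

end Pool.Agent.Helper63K9.KT
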