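import Pool.Agent.Helper63K9.KT.Defs

/-! The sharp bound for the Kostlan ensemble: statements of the leaves (as propositions). -/

open Real Set MeasureTheory Filter
open scoped ENNReal Topology

namespace Pool.Agent.Helper63K9.KT

noncomputable section

open Pool.Agent.H709R2 (fld rot rotc NP wedge ClosedOrbit)
open Pool.Agent.W960.HR
open Pool.Agent.H709U
open Pool.Agent.Helper63K9.KS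

/-- Leaf FR: frames exist (invariance of the ensemble under rotations of the sphere) -/
def S_FR : Prop := ∀ n : ℕ, ∃ Tz : ℝ × ℝ → (T n → ℝ × ℝ) → (T n → ℝ × ℝ), FR n Tz

/-- Leaf TC: change of time -/
def S_TC : Prop := ∀ (n : ℕ) (c : T n → ℝ × ℝ) (α : ℝ) (C : Set (ℝ × ℝ)),
  ClosedOrbit (rf (F n c) α) C → ClosedOrbit (rf (Xh n c) α) C

/-- Leaf DX: the Jacobian determinant -/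
def S_DX : Prop := ∀ (n : ℕ) (Tz : ℝ × ℝ → (T n → ℝ × ℝ) → (T n → ℝ × ℝ)), FR n Tz →
  ∀ (c : T n → ℝ × ℝ) (z : ℝ × ℝ),
    |(fderiv ℝ (Xh n c) z).det| = |wedge (Y1 n (Tz z c)) (Y2 n (Tz z c))| / √(q z) ^ 3

/-- Leaf S0: bounds near `0` -/
def S_S0 : Prop := ∃ K : ℝ, 0 < K ∧ ∀ (n : ℕ), 1 ≤ n → ∀ c : T n → ℝ × ℝ,
  (∀ u : ℝ × ℝ, ‖u‖ ≤ 1 / √n → ‖fderiv ℝ (Xh n c) u‖ ≤ K * (√n * Sn n c)) ∧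
  (∀ u v : ℝ × ℝ, ‖u‖ ≤ 1 / √n → ‖v‖ ≤ 1 / √n →
    ‖fderiv ℝ (Xh n c) u - fderiv ℝ (Xh n c) v‖ ≤ K * (n * Sn n c * ‖u - v‖)) ∧
  (∀ v : ℝ × ℝ, fderiv ℝ (Xh n c) 0 v = v.1 • Y1 n c + v.2 • Y2 n c)

/-- Leaf DG: the zone at a zero which is not degenerate -/
def S_DG : Prop := ∃ K : ℝ, 0 < K ∧ ∀ (n : ℕ), 1 ≤ n →
  ∀ Tz : ℝ × ℝ → (T n → ℝ × ℝ) → (T n → ℝ × ℝ), FR n Tz →
  ∀ (c : T n → ℝ × ℝ) (p : ℝ × ℝ), F n c p = 0 → ∀ D τ : ℝ, 0 < D → 0 < τ → τ ≤ 1 →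
    K * (√n * √(q p) * D) ≤ τ ^ 2 → wedge (Y1 n (Tz p c)) (Y2 n (Tz p c)) ≠ 0 →
    n * τ * Sn n (Tz p c) ^ 2 ≤ |wedge (Y1 n (Tz p c)) (Y2 n (Tz p c))| → Zon (Xh n c) p D

/-- Leaf AREA: counting zeros by the area formula -/
def S_AREA : Prop := ∀ f : ℝ × ℝ → ℝ × ℝ, ContDiff ℝ 1 f → ∀ Z : Finset (ℝ × ℝ),
  (∀ p ∈ Z, f p = 0 ∧ (fderiv ℝ f p).det ≠ 0) → ∀ ψ Ψ : ℝ × ℝ → ℝ≥0∞, Measurable Ψ →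
  (∀ p ∈ Z, ∀ᶠ z in 𝓝 p, ψ p ≤ Ψ z) →
  ∑ p ∈ Z, ψ p ≤ liminf (fun m : ℕ => ENNReal.ofReal (((m : ℝ) + 1) ^ 2 / 4) *
    ∫⁻ z, {z | ‖f z‖ < 1 / ((m : ℝ) + 1)}.indicator
      (fun z => ENNReal.ofReal |(fderiv ℝ f z).det| * Ψ z) z) atTop

/-- Leaf GP: two correlated Gaussian vectors -/
def S_GP : Prop := ∃ K : ℝ, 0 < K ∧ ∀ (S : Finset (ℕ × ℕ)) (a b : S → ℝ) (ρ : ℝ),
  ∑ m, a m ^ 2 = 1 → ∑ m, b m ^ 2 = 1 → ∑ m, a m * b m = ρ → ρ ^ 2 < 1 → ∀ ε : ℝ, 0 < ε →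
  ∫⁻ c, {c : S → ℝ × ℝ | ‖lin a c‖ < ε}.indicator
    (fun c => ENNReal.ofReal ‖lin b c‖ ^ (-(3 / 2) : ℝ)) c ∂GP S ≤
    ENNReal.ofReal (K * ε ^ 2) * ENNReal.ofReal (1 - ρ ^ 2) ^ (-(3 / 4) : ℝ)

/-- Leaf GM: moments under a constraint -/
def S_GM : Prop := ∃ K : ℝ, 0 < K ∧ ∀ (S : Finset (ℕ × ℕ)) (a y : S → ℝ),
  ∑ m, a m ^ 2 = 1 → ∀ ε : ℝ, 0 < ε → ε ≤ 1 →
  ∫⁻ c, {c : S → ℝ × ℝ | ‖lin a c‖ < ε}.indicator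
    (fun c => ENNReal.ofReal (‖lin y c‖ ^ 6)) c ∂GP S ≤
    ENNReal.ofReal (K * ε ^ 2 * (∑ m, y m ^ 2) ^ 3)

/-- Leaf SN: moments of the weighted norm under a constraint -/
def S_SN : Prop := ∃ K : ℝ, 0 < K ∧ ∀ (n : ℕ), 1 ≤ n → ∀ ε : ℝ, 0 < ε → ε ≤ 1 →
  ∫⁻ c, {c : T n → ℝ × ℝ | ‖F n c 0‖ < ε}.indicator
    (fun c => ENNReal.ofReal (Sn n c ^ 12)) c ∂GP (T n) ≤ ENNReal.ofReal (K * ε ^ 2)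

/-- Leaf MOM: the kernel at `w` near a zero at `p` -/
def S_MOM : Prop := ∃ K : ℝ, 0 < K ∧ ∀ (n : ℕ), 1 ≤ n →
  ∀ Tz : ℝ × ℝ → (T n → ℝ × ℝ) → (T n → ℝ × ℝ), FR n Tz → ∀ p w : ℝ × ℝ, p ≠ w →
  ∀ ε : ℝ, 0 < ε → ε ≤ 1 →
  ∫⁻ c, {c : T n → ℝ × ℝ | ‖Xh n c p‖ < ε}.indicator
    (fun c => ENNReal.ofReal (Sn n (Tz p c) ^ 2) * hk (F n c) w) c ∂GP (T n) ≤
    ENNReal.ofReal (ε ^ 2 * (K * (√n / √(q w)) * (1 + 1 / (√n * dst p w))))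

/-- Leaf ZD: the determinant near a zero -/
def S_ZD : Prop := ∃ K : ℝ, 0 < K ∧ ∀ (n : ℕ), 1 ≤ n → ∀ ε : ℝ, 0 < ε → ε ≤ 1 →
  ∫⁻ c, {c : T n → ℝ × ℝ | ‖F n c 0‖ < ε}.indicator
    (fun c => ENNReal.ofReal |wedge (Y1 n c) (Y2 n c)|) c ∂GP (T n) ≤ ENNReal.ofReal (K * ε ^ 2 * n)

/-- Leaf HK: the mean of the kernel -/
def S_HK : Prop := ∃ K : ℝ, 0 < K ∧ ∀ (n : ℕ), 1 ≤ n → ∀ z : ℝ × ℝ,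
  ∫⁻ c, hk (F n c) z ∂GP (T n) ≤ ENNReal.ofReal (K * (√n / √(q z)))

/-- Leaf F3: closed orbits which touch a disc and are not small -/
def S_F3 : Prop := ∀ X : ℝ × ℝ → ℝ × ℝ, ContDiff ℝ 2 X → ∀ R : ℝ, 0 < R →
  MJ (fun α => (({C | ClosedOrbit (rf X α) C ∧ ∃ x ∈ C, ∃ y ∈ C, H709R2.sq x ≤ R ^ 2 ∧
    (R / 5) ^ 2 ≤ H709R2.sq (y - x)}.encard : ℕ∞) : ℝ≥0∞))
    (ENNReal.ofReal 8000 + ENNReal.ofReal (200 / R) * ∫⁻ z, ENNReal.ofReal (chi 0 R z) * hk X z)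

/-- Leaf INT1 -/
def S_INT1 : Prop := ∃ K : ℝ, 0 < K ∧ ∀ (z : ℝ × ℝ) (D : ℝ), 0 < D →
  ∫⁻ w in Metric.ball z D, ENNReal.ofReal (1 / √(H709R2.sq (z - w) + wedge z w ^ 2)) ≤
    ENNReal.ofReal (K * D / √√(q z))

/-- Leaf INT2 -/
def S_INT2 : Prop := ∫⁻ z : ℝ × ℝ, ENNReal.ofReal (1 / √(q z) ^ 3) ≤ ENNReal.ofReal 100

/-- Leaf INT3 -/
def S_INT3 : Prop := ∀ R : ℝ, 0 < R →
  ∫⁻ z : ℝ × ℝ, ENNReal.ofReal (chi 0 R z / √(q z)) ≤ ENNReal.ofReal (100 * R)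

/-- the part of the plane of class `k`, enlarged -/
def Uk (k : ℕ) : Set (ℝ × ℝ) := {z | ‖z‖ < 2 ^ (k + 3) ∧ 2 ^ k / 8 < √(q z)}

/-- where the field is degenerate up to `τ` -/
def Bd (n : ℕ) (Tz : ℝ × ℝ → (T n → ℝ × ℝ) → (T n → ℝ × ℝ)) (τ : ℝ) (c : T n → ℝ × ℝ) :
    Set (ℝ × ℝ) :=
  {z | |wedge (Y1 n (Tz z c)) (Y2 n (Tz z c))| < n * τ * Sn n (Tz z c) ^ 2}

/-- the kernel of class `(k, j)` around a degenerate point -/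
def Psi (n : ℕ) (Tz : ℝ × ℝ → (T n → ℝ × ℝ) → (T n → ℝ × ℝ)) (k j : ℕ) (τ : ℝ)
    (c : T n → ℝ × ℝ) (z : ℝ × ℝ) : ℝ≥0∞ :=
  (Uk k ∩ Bd n Tz τ c).indicator (fun z => ENNReal.ofReal (1 / (2 * (2 ^ k / 2 ^ (j + 1)))) *
    ∫⁻ w in Metric.ball z (3 * (2 ^ k / 2 ^ j)), hk (F n c) w) z

/-- Leaf KM: mean of the kernel around the zeros -/
def S_KM : Prop := ∃ K : ℝ, 0 < K ∧ ∀ (n : ℕ), 1 ≤ n →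
  ∀ Tz : ℝ × ℝ → (T n → ℝ × ℝ) → (T n → ℝ × ℝ), FR n Tz → ∀ k j : ℕ, 7 ≤ j →
  ∀ τ : ℝ, 0 < τ → τ ≤ 1 → ∀ ε : ℝ, 0 < ε → ε ≤ 1 →
  ∫⁻ z, ∫⁻ c, {c : T n → ℝ × ℝ | ‖Xh n c z‖ < ε}.indicator
    (fun c => ENNReal.ofReal |(fderiv ℝ (Xh n c) z).det| * Psi n Tz k j τ c z) c ∂GP (T n) ≤
    ENNReal.ofReal (K * ε ^ 2 * (n * τ * (√n / (2 ^ j * 2 ^ k) + 1 / √(2 ^ k))))

/-- Leaf KC: the kernel summed over the degenerate zeros -/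
def S_KC : Prop := ∃ K : ℝ, 0 < K ∧ ∀ (n : ℕ), 1 ≤ n →
  ∀ Tz : ℝ × ℝ → (T n → ℝ × ℝ) → (T n → ℝ × ℝ), FR n Tz → ∀ k j : ℕ, 7 ≤ j →
  ∀ τ : ℝ, 0 < τ → τ ≤ 1 → ∃ G : (T n → ℝ × ℝ) → ℝ≥0∞, Measurable G ∧
    ∫⁻ c, G c ∂GP (T n) ≤ ENNReal.ofReal (K * (n * τ * (√n / (2 ^ j * 2 ^ k) + 1 / √(2 ^ k)))) ∧
    ∀ (c : T n → ℝ × ℝ) (Z : Finset (ℝ × ℝ)), (∀ p ∈ Z, F n c p = 0 ∧
      (fderiv ℝ (Xh n c) p).det ≠ 0 ∧ p ∈ Uk k ∧ p ∈ Bd n Tz τ c) →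
      ∑ p ∈ Z, ENNReal.ofReal (1 / (2 * (2 ^ k / 2 ^ (j + 1)))) *
        ∫⁻ w in Metric.closedBall p (2 * (2 ^ k / 2 ^ j)), hk (F n c) w ≤ G c

/-- Leaf ZN: the number of zeros -/
def S_ZN : Prop := ∃ K : ℝ, 0 < K ∧ ∀ (n : ℕ), 1 ≤ n → ∃ G : (T n → ℝ × ℝ) → ℝ≥0∞,
  Measurable G ∧ ∫⁻ c, G c ∂GP (T n) ≤ ENNReal.ofReal (K * n) ∧
    ∀ (c : T n → ℝ × ℝ) (Z : Finset (ℝ × ℝ)), (∀ p ∈ Z, F n c p = 0 ∧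
      (fderiv ℝ (Xh n c) p).det ≠ 0) → (Z.card : ℝ≥0∞) ≤ G c

end

end Pool.Agent.Helper63K9.KT
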