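import Pool.Agent.Helper63K9.KT.Real
import Pool.Agent.Helper63K9.KS.Main

/-! The sharp bound: the mean number of closed orbits. -/

open Real Set MeasureTheory
open scoped ENNReal

namespace Pool.Agent.Helper63K9.KT

noncomputable section

open Pool.Agent.H709R2 (fld rot rotc NP wedge field ClosedOrbit measurable_NP continuous_rotc g2)
open Pool.Agent.W960.HR
open Pool.Agent.H709U (chi)
open Pool.Agent.Helper63K9.KS

/-- the probability of the exceptional coefficients -/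
lemma prob_exc2 (hD1 : S_D1) (hC : S_C) {n : ℕ} (hn : 1 ≤ n) :
    GP (T n) {c | ¬ (sn c ≤ pA n ^ 2 ∧ Lead n (pT n) c ∧ ND n (pB n) (pt n) c)} ≤
      ENNReal.ofReal (1 / n ^ 3) := by
  have hn1 : (1:ℝ) ≤ n := by exact_mod_cast hn
  have hA := pA_ge hn
  have hsub : {c | ¬ (sn c ≤ pA n ^ 2 ∧ Lead n (pT n) c ∧ ND n (pB n) (pt n) c)} ⊆
      {c | ¬ sn c ≤ pA n ^ 2} ∪ ({c | sn c ≤ pA n ^ 2 ∧ ¬ Lead n (pT n) c} ∪
      {c | sn c ≤ pA n ^ 2 ∧ ¬ ND n (pB n) (pt n) c}) := by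
    intro c hc
    by_contra h
    simp only [mem_union, mem_ofPred_eq, not_or, not_and, not_not] at h
    obtain ⟨h1, h2, h3⟩ := h
    exact hc ⟨h1, h2 h1, h3 h1⟩
  have h1 := prob_sn hn
  have h2 : GP (T n) {c | sn c ≤ pA n ^ 2 ∧ ¬ Lead n (pT n) c} ≤
      ENNReal.ofReal (1 / (8 * n ^ 3)) := by
    refine (hD1 n hn (pA n) (pT n) hA (pT_pos hn) (pT_le hn)).trans (ENNReal.ofReal_le_ofReal ?_)
    refine le_of_eq ?_
    unfold pA pT
    field_simp
    norm_num
  have h3 : GP (T n) {c | sn c ≤ pA n ^ 2 ∧ ¬ ND n (pB n) (pt n) c} ≤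
      ENNReal.ofReal (1 / (8 * n ^ 3)) := by
    refine (hC n hn (pA n) (pB n) (pt n) hA (pB_ge n) (pt_pos hn) (pt_le hn)).trans
      (ENNReal.ofReal_le_ofReal ?_)
    refine le_of_eq ?_
    have hB0 : 0 < pB n := by linarith [pB_ge n]
    have hA0 : 0 < pA n := by linarith
    unfold pt
    field_simp
  refine (measure_mono hsub).trans ((measure_union_le _ _).trans ((add_le_add h1
    ((measure_union_le _ _).trans (add_le_add h2 h3))).trans ?_))
  have h0 : (0:ℝ) ≤ 1 / (8 * n ^ 3) := by positivity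
  rw [← ENNReal.ofReal_add h0 h0, ← ENNReal.ofReal_add h0 (by positivity)]
  apply ENNReal.ofReal_le_ofReal
  have e : 1 / (8 * (n:ℝ) ^ 3) + (1 / (8 * n ^ 3) + 1 / (8 * n ^ 3)) =
      3 / 8 * (1 / n ^ 3) := by
    field_simp
    norm_num
  rw [e]
  have : (0:ℝ) ≤ 1 / n ^ 3 := by positivity
  linarith

lemma meas_chi (R : ℝ) (hR : 0 < R) : Measurable fun z : ℝ × ℝ => chi 0 R z := by
  have h : Continuous fun z : ℝ × ℝ => chi 0 R z := by
    unfold chi
    have h1 : Continuous fun z : ℝ × ℝ => R ^ 2 + H709R2.sq (z - 0) := by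
      unfold H709R2.sq
      fun_prop
    refine (continuous_const.div h1 fun z => ?_).pow 2
    have : 0 ≤ H709R2.sq (z - 0) := by unfold H709R2.sq; positivity
    positivity
  exact h.measurable

lemma meas_int_chi (n : ℕ) (R : ℝ) (hR : 0 < R) : Measurable fun c : T n → ℝ × ℝ =>
    ∫⁻ z, ENNReal.ofReal (chi 0 R z) * hk (F n c) z := by
  have h : Measurable fun p : (T n → ℝ × ℝ) × (ℝ × ℝ) =>
      ENNReal.ofReal (chi 0 R p.2) * hk (F n p.1) p.2 :=
    (ENNReal.measurable_ofReal.comp ((meas_chi R hR).comp measurable_snd)).mul (meas_hk n)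
  exact h.lintegral_prod_right'

lemma meas_int_Dk (n k : ℕ) : Measurable fun c : T n → ℝ × ℝ =>
    ∫⁻ z in Dk k, hk (F n c) z :=
  (meas_hk n).lintegral_prod_right'

lemma meas_hk_z (n : ℕ) (z : ℝ × ℝ) : Measurable fun c : T n → ℝ × ℝ => hk (F n c) z := by
  have h : Measurable ((fun p : (T n → ℝ × ℝ) × (ℝ × ℝ) => hk (F n p.1) p.2) ∘
      fun c : T n → ℝ × ℝ => (c, z)) := (meas_hk n).comp measurable_prodMk_right
  exact h

/-- the mean of the kernel with the weight -/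
lemma mean_chi (hI : S_INT3) {H : ℝ} (hH : 0 < H) {n : ℕ}
    (hHK : ∀ z : ℝ × ℝ, ∫⁻ c, hk (F n c) z ∂GP (T n) ≤ ENNReal.ofReal (H * (√n / √(q z))))
    (k : ℕ) : ENNReal.ofReal (200 / 2 ^ k) *
      ∫⁻ c, (∫⁻ z, ENNReal.ofReal (chi 0 (2 ^ k) z) * hk (F n c) z) ∂GP (T n) ≤
      ENNReal.ofReal (20000 * H * √n) := by
  have h2k : (0:ℝ) < 2 ^ k := by positivity
  have h1 : ∫⁻ c, (∫⁻ z, ENNReal.ofReal (chi 0 (2 ^ k) z) * hk (F n c) z) ∂GP (T n) ≤
      ENNReal.ofReal (H * √n) * ENNReal.ofReal (100 * 2 ^ k) := by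
    have hm : Measurable fun p : (T n → ℝ × ℝ) × (ℝ × ℝ) =>
        ENNReal.ofReal (chi 0 (2 ^ k) p.2) * hk (F n p.1) p.2 :=
      (ENNReal.measurable_ofReal.comp ((meas_chi _ h2k).comp measurable_snd)).mul (meas_hk n)
    rw [lintegral_lintegral_swap (μ := GP (T n)) (ν := (volume : Measure (ℝ × ℝ)))
      (f := fun c z => ENNReal.ofReal (chi 0 (2 ^ k) z) * hk (F n c) z) hm.aemeasurable]
    have h2 : ∀ z : ℝ × ℝ, ∫⁻ c, ENNReal.ofReal (chi 0 (2 ^ k) z) * hk (F n c) z ∂GP (T n) ≤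
        ENNReal.ofReal (H * √n) * ENNReal.ofReal (chi 0 (2 ^ k) z / √(q z)) := by
      intro z
      have hmz : Measurable fun c : T n → ℝ × ℝ => hk (F n c) z := meas_hk_z n z
      rw [lintegral_const_mul _ hmz]
      have hc0 : 0 ≤ chi 0 (2 ^ k) z := by unfold chi; positivity
      refine (mul_le_mul_right (hHK z) _).trans ?_
      rw [← ENNReal.ofReal_mul hc0, ← ENNReal.ofReal_mul (by positivity)]
      apply ENNReal.ofReal_le_ofReal
      refine le_of_eq ?_
      ring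
    refine (lintegral_mono h2).trans ?_
    rw [lintegral_const_mul' _ _ ENNReal.ofReal_ne_top]
    exact mul_le_mul_right (hI (2 ^ k) h2k) _
  refine (mul_le_mul_right h1 _).trans ?_
  rw [← ENNReal.ofReal_mul (by positivity), ← ENNReal.ofReal_mul (by positivity)]
  apply ENNReal.ofReal_le_ofReal
  refine le_of_eq ?_
  field_simp
  ring

/-- the mean of the kernel in a class of positions -/
lemma mean_Dk {H : ℝ} (hH : 0 < H) {n : ℕ}
    (hHK : ∀ z : ℝ × ℝ, ∫⁻ c, hk (F n c) z ∂GP (T n) ≤ ENNReal.ofReal (H * (√n / √(q z))))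
    (k j : ℕ) : ENNReal.ofReal (1 / (2 * (2 ^ k / 2 ^ (j + 1)))) *
      ∫⁻ c, (∫⁻ z in Dk k, hk (F n c) z) ∂GP (T n) ≤ ENNReal.ofReal (32 * H * (√n * 2 ^ j)) := by
  have h2k : (0:ℝ) < 2 ^ k := by positivity
  have h2j : (0:ℝ) < 2 ^ j := by positivity
  have h1 : ∫⁻ c, (∫⁻ z in Dk k, hk (F n c) z) ∂GP (T n) ≤
      ENNReal.ofReal (H * √n * (2 / 2 ^ k)) * ENNReal.ofReal (4 * (2 ^ (k + 1)) ^ 2) := by
    rw [lintegral_lintegral_swap (μ := GP (T n)) (ν := volume.restrict (Dk k))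
      (f := fun c z => hk (F n c) z) (meas_hk n).aemeasurable]
    calc ∫⁻ z in Dk k, (∫⁻ c, hk (F n c) z ∂GP (T n))
        ≤ ∫⁻ z in Dk k, ENNReal.ofReal (H * √n * (2 / 2 ^ k)) := by
          refine setLIntegral_mono' (meas_Dk k) fun z hz => ?_
          refine (hHK z).trans (ENNReal.ofReal_le_ofReal ?_)
          have hq0 : 0 < √(q z) := Real.sqrt_pos.2 (q_pos z)
          have h3 : 1 / √(q z) ≤ 2 / 2 ^ k := by
            rw [div_le_div_iff₀ hq0 h2k, one_mul]
            exact hz.2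
          calc H * (√n / √(q z)) = H * √n * (1 / √(q z)) := by ring
            _ ≤ _ := by gcongr
      _ = ENNReal.ofReal (H * √n * (2 / 2 ^ k)) * volume (Dk k) := by
          rw [lintegral_const, Measure.restrict_apply_univ]
      _ ≤ _ := by
          refine mul_le_mul_right ?_ _
          rw [← vol_box]
          exact measure_mono fun z hz => hz.1
  refine (mul_le_mul_right h1 _).trans ?_
  rw [← ENNReal.ofReal_mul (by positivity), ← ENNReal.ofReal_mul (by positivity)]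
  apply ENNReal.ofReal_le_ofReal
  refine le_of_eq ?_
  rw [pow_succ _ j, pow_succ _ k]
  field_simp
  ring

lemma sum_two_pow (m N : ℕ) : ∑ j ∈ Finset.range N, (if j ≤ m then (2:ℝ) ^ j else 0) ≤
    2 * 2 ^ m := by
  have h1 : ∑ j ∈ Finset.range N, (if j ≤ m then (2:ℝ) ^ j else 0) ≤
      ∑ j ∈ Finset.range (m + 1), (2:ℝ) ^ j := by
    rw [Finset.sum_ite, Finset.sum_const_zero, add_zero]
    refine Finset.sum_le_sum_of_subset_of_nonneg ?_ fun i _ _ => by positivity
    intro i hi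
    rw [Finset.mem_filter] at hi
    rw [Finset.mem_range]
    omega
  refine h1.trans ?_
  rw [geom_sum_eq (by norm_num)]
  rw [pow_succ]
  have : (0:ℝ) < 2 ^ m := by positivity
  linarith

/-- **the mean of the integral over the rotations** -/
theorem phi_mean2 (hC : S_C) (hD1 : S_D1) (hD2 : S_D2) (hE : S_E) (hF2 : S_F2) (hG : S_G)
    (hFR : S_FR) (hTC : S_TC) (hDX : S_DX) (hDG : S_DG) (hHK : S_HK) (hF3 : S_F3)
    (hI3 : S_INT3) (hKC : S_KC) (hZN : S_ZN) :
    ∃ C : ℝ, 0 < C ∧ ∀ n : ℕ, 1 ≤ n →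
      ∫⁻ c, Phi (kc n c) ∂GP (T n) ≤ ENNReal.ofReal (C * n) := by
  obtain ⟨κ, hκ, hDG⟩ := hDG
  obtain ⟨H, hH, hHK⟩ := hHK
  obtain ⟨K₁, hK₁, hKC⟩ := hKC
  obtain ⟨K₂, hK₂, hZN⟩ := hZN
  obtain ⟨m₀, hm₀⟩ := pow_unbounded_of_one_lt κ (by norm_num : (1:ℝ) < 2)
  have hb0 := bb_pos
  have hb1 := bb_lt
  have hb2 : 0 < 1 - bb := by linarith
  set C : ℝ := 10 ^ 10 + 4000 + 8000 * K₂ + 150 * (20000 * H + 8000) +
    64 * H * (256 / (1 - bb) + 19200) + K₁ * (2 * 2 ^ m₀ * (1 / (1 - bb)) ^ 2) with hCdef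
  refine ⟨C, by positivity, fun n hn => ?_⟩
  have hn1 : (1:ℝ) ≤ n := by exact_mod_cast hn
  have hn0 : (0:ℝ) ≤ n := by linarith
  obtain ⟨Tz, hTz⟩ := hFR n
  obtain ⟨G₀, hG₀m, hG₀i, hG₀⟩ := hZN n hn
  have hGex : ∀ k j : ℕ, ∃ G : (T n → ℝ × ℝ) → ℝ≥0∞, Measurable G ∧ (jk n k < j →
      ∫⁻ c, G c ∂GP (T n) ≤
        ENNReal.ofReal (K₁ * (n * tau κ n k j * (√n / (2 ^ j * 2 ^ k) + 1 / √(2 ^ k)))) ∧
      ∀ (c : T n → ℝ × ℝ) (Z : Finset (ℝ × ℝ)), (∀ p ∈ Z, F n c p = 0 ∧
        (fderiv ℝ (Xh n c) p).det ≠ 0 ∧ p ∈ Uk k ∧ p ∈ Bd n Tz (tau κ n k j) c) →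
        ∑ p ∈ Z, ENNReal.ofReal (1 / (2 * (2 ^ k / 2 ^ (j + 1)))) *
          ∫⁻ w in Metric.closedBall p (2 * (2 ^ k / 2 ^ j)), hk (F n c) w ≤ G c) := by
    intro k j
    by_cases hj : jk n k < j
    · obtain ⟨G, h1, h2, h3⟩ := hKC n hn Tz hTz k j (by have := jk_ge n k; omega)
        (tau κ n k j) (tau_pos hκ hn k j) (tau_le κ n k j)
      exact ⟨G, h1, fun _ => ⟨h2, h3⟩⟩
    · exact ⟨fun _ => 0, measurable_const, fun h => absurd h hj⟩
  choose G hGm hG' using hGex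
  set P := GP (T n) with hP
  set E : Set (T n → ℝ × ℝ) := toMeasurable P
    {c | ¬ (sn c ≤ pA n ^ 2 ∧ Lead n (pT n) c ∧ ND n (pB n) (pt n) c)} with hEd
  have hEm : MeasurableSet E := measurableSet_toMeasurable _ _
  have hE1 : ∫⁻ c in E, Phi (kc n c) ∂P ≤ ENNReal.ofReal (10 ^ 10 * n) := by
    refine hG n hn E hEm ?_
    rw [hEd, ← hP, measure_toMeasurable]
    exact prob_exc2 hD1 hC hn
  -- the majorant
  set V : (T n → ℝ × ℝ) → ℝ≥0∞ := fun c => (((ENNReal.ofReal 4000 + (G₀ c * ENNReal.ofReal 4000 +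
        G₀ c * ENNReal.ofReal 4000)) +
        ∑ k ∈ Finset.range (pK n + 1), (ENNReal.ofReal 8000 + ENNReal.ofReal (200 / 2 ^ k) *
          ∫⁻ z, ENNReal.ofReal (chi 0 (2 ^ k) z) * hk (F n c) z)) +
        ∑ k ∈ Finset.range (pK n + 1), ∑ j ∈ Finset.range (pJ n + 1),
          (if j ≤ jk n k then ENNReal.ofReal (1 / (2 * (2 ^ k / 2 ^ (j + 1)))) *
            ∫⁻ z in Dk k, hk (F n c) z
          else G k j c)) with hV
  have hE2 : ∫⁻ c in Eᶜ, Phi (kc n c) ∂P ≤ ∫⁻ c, V c ∂P := by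
    refine le_trans ?_ (setLIntegral_le_lintegral Eᶜ V)
    refine setLIntegral_mono' hEm.compl fun c hc => ?_
    have hg : sn c ≤ pA n ^ 2 ∧ Lead n (pT n) c ∧ ND n (pB n) (pt n) c := by
      by_contra hcon
      exact hc (subset_toMeasurable _ _ hcon)
    exact phi_good2 hD2 hE hF2 hF3 hTC hDX hκ hn hTz (hDG n hn Tz hTz) (pA_ge hn) (pT_pos hn)
      (pT_le hn) (pt_pos hn) (pt_le hn) (pK_spec hn) le_rfl (pJ_spec hn) (jk_ge n) (hG₀ c)
      (fun k j hj Z hZ => (hG' k j hj).2 c Z hZ) hg.1 hg.2.1 hg.2.2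
  -- its mean
  have mC : ∀ k, Measurable fun c : T n → ℝ × ℝ => ENNReal.ofReal (200 / 2 ^ k) *
      ∫⁻ z, ENNReal.ofReal (chi 0 (2 ^ k) z) * hk (F n c) z := fun k =>
    (meas_int_chi n _ (by positivity)).const_mul _
  have mT : ∀ k j, Measurable fun c : T n → ℝ × ℝ =>
      (if j ≤ jk n k then ENNReal.ofReal (1 / (2 * (2 ^ k / 2 ^ (j + 1)))) *
            ∫⁻ z in Dk k, hk (F n c) z
          else G k j c) := by
    intro k j
    by_cases hj : j ≤ jk n k
    · simp only [hj, if_true]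
      exact (meas_int_Dk n k).const_mul _
    · simp only [hj, if_false]
      exact hGm k j
  have m1 : Measurable fun c : T n → ℝ × ℝ => ENNReal.ofReal 4000 + (G₀ c * ENNReal.ofReal 4000 +
      G₀ c * ENNReal.ofReal 4000) :=
    measurable_const.add ((hG₀m.mul_const _).add (hG₀m.mul_const _))
  have m2 : Measurable fun c : T n → ℝ × ℝ => ∑ k ∈ Finset.range (pK n + 1),
      (ENNReal.ofReal 8000 + ENNReal.ofReal (200 / 2 ^ k) *
        ∫⁻ z, ENNReal.ofReal (chi 0 (2 ^ k) z) * hk (F n c) z) :=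
    Finset.measurable_sum _ fun k _ => (mC k).const_add _
  have i1 : ∫⁻ c, (ENNReal.ofReal 4000 + (G₀ c * ENNReal.ofReal 4000 +
      G₀ c * ENNReal.ofReal 4000)) ∂P ≤ ENNReal.ofReal (4000 * n + 8000 * K₂ * n) := by
    rw [lintegral_add_left measurable_const, lintegral_add_left (hG₀m.mul_const _),
      lintegral_const, measure_univ, mul_one, lintegral_mul_const _ hG₀m]
    have h1 : (∫⁻ c, G₀ c ∂P) * ENNReal.ofReal 4000 ≤ ENNReal.ofReal (4000 * K₂ * n) := by
      refine (mul_le_mul_left hG₀i _).trans ?_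
      rw [← ENNReal.ofReal_mul (by positivity)]
      apply ENNReal.ofReal_le_ofReal
      linarith
    refine (add_le_add le_rfl (add_le_add h1 h1)).trans ?_
    rw [← ENNReal.ofReal_add (by positivity) (by positivity),
      ← ENNReal.ofReal_add (by norm_num) (by positivity)]
    apply ENNReal.ofReal_le_ofReal
    linarith
  have i2 : ∫⁻ c, (∑ k ∈ Finset.range (pK n + 1), (ENNReal.ofReal 8000 + ENNReal.ofReal (200 / 2 ^ k) *
        ∫⁻ z, ENNReal.ofReal (chi 0 (2 ^ k) z) * hk (F n c) z)) ∂P ≤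
      ENNReal.ofReal (150 * (20000 * H + 8000) * n) := by
    rw [lintegral_finsetSum _ fun k _ => (mC k).const_add _]
    have h1 : ∀ k ∈ Finset.range (pK n + 1), ∫⁻ c, (ENNReal.ofReal 8000 + ENNReal.ofReal (200 / 2 ^ k) *
        ∫⁻ z, ENNReal.ofReal (chi 0 (2 ^ k) z) * hk (F n c) z) ∂P ≤
        ENNReal.ofReal (20000 * H * √n + 8000) := by
      intro k _
      rw [lintegral_add_left measurable_const, lintegral_const, measure_univ, mul_one,
        lintegral_const_mul _ (meas_int_chi n _ (by positivity)), add_comm (20000 * H * √(n:ℝ)),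
        ENNReal.ofReal_add (by norm_num) (by positivity)]
      exact add_le_add le_rfl (mean_chi hI3 hH (hHK n hn) k)
    refine (Finset.sum_le_card_nsmul _ _ _ h1).trans ?_
    rw [Finset.card_range, nsmul_eq_mul, ← ENNReal.ofReal_natCast,
      ← ENNReal.ofReal_mul (by positivity)]
    apply ENNReal.ofReal_le_ofReal
    have h3 := pK_size n
    have h4 := pL_le_sqrt hn
    have h5 : √(n:ℝ) * √n = n := Real.mul_self_sqrt hn0
    have h6 := sqrt_n_ge hn
    have h7 : ((pK n + 1 : ℕ) : ℝ) ≤ 150 * √n := by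
      push_cast
      linarith
    calc ((pK n + 1 : ℕ) : ℝ) * (20000 * H * √n + 8000)
        ≤ (150 * √n) * (20000 * H * √n + 8000 * √n) := by
          gcongr
          linarith
      _ = 150 * (20000 * H + 8000) * (√n * √n) := by ring
      _ = _ := by rw [h5]
  have i3 : ∫⁻ c, (∑ k ∈ Finset.range (pK n + 1), ∑ j ∈ Finset.range (pJ n + 1),
          (if j ≤ jk n k then ENNReal.ofReal (1 / (2 * (2 ^ k / 2 ^ (j + 1)))) *
            ∫⁻ z in Dk k, hk (F n c) z
          else G k j c)) ∂P ≤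
      ENNReal.ofReal (64 * H * ((256 / (1 - bb) + 19200) * n) +
        K₁ * (2 * 2 ^ m₀ * n * (1 / (1 - bb)) ^ 2)) := by
    rw [lintegral_finsetSum _ fun k _ => Finset.measurable_sum _ fun j _ => mT k j]
    have h1 : ∀ k ∈ Finset.range (pK n + 1), ∫⁻ c, (∑ j ∈ Finset.range (pJ n + 1),
          (if j ≤ jk n k then ENNReal.ofReal (1 / (2 * (2 ^ k / 2 ^ (j + 1)))) *
            ∫⁻ z in Dk k, hk (F n c) z
          else G k j c)) ∂P ≤
        ENNReal.ofReal (∑ j ∈ Finset.range (pJ n + 1), (32 * H * √n * (if j ≤ jk n k then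
          (2:ℝ) ^ j else 0) + K₁ * (if j ≤ jk n k then (0:ℝ) else
          n * tau κ n k j * (√n / (2 ^ j * 2 ^ k) + 1 / √((2:ℝ) ^ k))))) := by
      intro k _
      rw [lintegral_finsetSum _ fun j _ => mT k j, ENNReal.ofReal_sum_of_nonneg]
      · refine Finset.sum_le_sum fun j _ => ?_
        by_cases hj : j ≤ jk n k
        · simp only [hj, if_true, mul_zero, add_zero]
          rw [lintegral_const_mul _ (meas_int_Dk n k), mul_assoc (32 * H)]
          exact mean_Dk hH (hHK n hn) k j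
        · simp only [hj, if_false, mul_zero, zero_add]
          exact (hG' k j (not_le.1 hj)).1
      · intro j _
        have := (tau_pos hκ hn k j).le
        by_cases hj : j ≤ jk n k
        · simp only [hj, if_true]
          positivity
        · simp only [hj, if_false]
          positivity
    refine (Finset.sum_le_sum h1).trans ?_
    rw [← ENNReal.ofReal_sum_of_nonneg]
    · apply ENNReal.ofReal_le_ofReal
      simp only [Finset.sum_add_distrib, ← Finset.mul_sum]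
      refine add_le_add ?_ ?_
      · calc 32 * H * √n * ∑ k ∈ Finset.range (pK n + 1), ∑ j ∈ Finset.range (pJ n + 1),
              (if j ≤ jk n k then (2:ℝ) ^ j else 0)
            ≤ 32 * H * √n * ∑ k ∈ Finset.range (pK n + 1), 2 * 2 ^ jk n k := by
              have : ∑ k ∈ Finset.range (pK n + 1), ∑ j ∈ Finset.range (pJ n + 1),
                  (if j ≤ jk n k then (2:ℝ) ^ j else 0) ≤
                  ∑ k ∈ Finset.range (pK n + 1), 2 * 2 ^ jk n k :=
                Finset.sum_le_sum fun k _ => sum_two_pow _ _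
              gcongr
          _ = 64 * H * ∑ k ∈ Finset.range (pK n + 1), √n * 2 ^ jk n k := by
              rw [Finset.mul_sum, Finset.mul_sum]
              exact Finset.sum_congr rfl fun k _ => by ring
          _ ≤ _ := by
              have := sum_med hn
              gcongr
      · have := sum_small hκ hm₀.le hn (pK n) (pJ n)
        gcongr
    · intro k _
      refine Finset.sum_nonneg fun j _ => ?_
      have := (tau_pos hκ hn k j).le
      by_cases hj : j ≤ jk n k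
      · simp only [hj, if_true]
        positivity
      · simp only [hj, if_false]
        positivity
  have hE3 : ∫⁻ c, V c ∂P ≤ ENNReal.ofReal ((4000 * n + 8000 * K₂ * n) +
      150 * (20000 * H + 8000) * n + (64 * H * ((256 / (1 - bb) + 19200) * n) +
        K₁ * (2 * 2 ^ m₀ * n * (1 / (1 - bb)) ^ 2))) := by
    have m12 : Measurable fun c : T n → ℝ × ℝ => (ENNReal.ofReal 4000 +
        (G₀ c * ENNReal.ofReal 4000 + G₀ c * ENNReal.ofReal 4000)) +
        ∑ k ∈ Finset.range (pK n + 1), (ENNReal.ofReal 8000 + ENNReal.ofReal (200 / 2 ^ k) *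
        ∫⁻ z, ENNReal.ofReal (chi 0 (2 ^ k) z) * hk (F n c) z) := m1.add m2
    simp only [hV]
    rw [lintegral_add_left m12, lintegral_add_left m1]
    refine (add_le_add (add_le_add i1 i2) i3).trans ?_
    rw [← ENNReal.ofReal_add (by positivity) (by positivity),
      ← ENNReal.ofReal_add (by positivity) (by positivity)]
  rw [← lintegral_add_compl _ hEm]
  refine (add_le_add hE1 (hE2.trans hE3)).trans ?_
  rw [← ENNReal.ofReal_add (by positivity) (by positivity)]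
  apply ENNReal.ofReal_le_ofReal
  rw [hCdef]
  refine le_of_eq ?_
  ring

/-- **the mean number of closed orbits of the Kostlan ensemble** -/
theorem kostlan2 (hC : S_C) (hD1 : S_D1) (hD2 : S_D2) (hE : S_E) (hF2 : S_F2) (hG : S_G)
    (hFR : S_FR) (hTC : S_TC) (hDX : S_DX) (hDG : S_DG) (hHK : S_HK) (hF3 : S_F3)
    (hI3 : S_INT3) (hKC : S_KC) (hZN : S_ZN) :
    ∃ C : ℝ, 0 < C ∧ ∀ n : ℕ, 1 ≤ n → ∫⁻ c, NP (kc n c) ∂GP (T n) ≤ ENNReal.ofReal (C * n) := by
  obtain ⟨C, hC0, hCn⟩ := phi_mean2 hC hD1 hD2 hE hF2 hG hFR hTC hDX hDG hHK hF3 hI3 hKC hZN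
  refine ⟨C, hC0, fun n hn => ?_⟩
  have hR : RotInv (fun _ : T n => g2) := rotInv_g2
  have hkc : Continuous (kc n) := by unfold kc; fun_prop
  have hm : Measurable fun c : T n → ℝ × ℝ => NP (kc n c) := measurable_NP.comp hkc.measurable
  have h1 : ∀ α, ∫⁻ c, NP (rotc α (kc n c)) ∂GP (T n) = ∫⁻ c, NP (kc n c) ∂GP (T n) := by
    intro α
    simp only [rotc_kc]
    have hmp : MeasurePreserving (rotc α : (T n → ℝ × ℝ) → (T n → ℝ × ℝ)) (GP (T n)) (GP (T n)) := by
      rw [GP_eq]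
      exact measurePreserving_rotc' (fun _ : T n => g2) hR α
    exact hmp.lintegral_comp (f := fun c => NP (kc n c)) hm
  have hmeas : Measurable (Function.uncurry fun (α : ℝ) (c : T n → ℝ × ℝ) =>
      NP (rotc α (kc n c))) := by
    have h3 : Continuous fun p : ℝ × (T n → ℝ × ℝ) => (p.1, kc n p.2) :=
      continuous_fst.prodMk (hkc.comp continuous_snd)
    have h4 : Continuous fun p : ℝ × (T n → ℝ × ℝ) => rotc p.1 (kc n p.2) :=
      (continuous_rotc (S := T n)).comp h3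
    have h5 : Measurable fun p : ℝ × (T n → ℝ × ℝ) => NP (rotc p.1 (kc n p.2)) :=
      (measurable_NP (S := T n)).comp h4.measurable
    exact h5
  have h2 : ∫⁻ c, Phi (kc n c) ∂GP (T n) = ENNReal.ofReal π * ∫⁻ c, NP (kc n c) ∂GP (T n) := by
    unfold Phi
    have hP : SFinite (GP (T n)) := by rw [GP_eq]; infer_instance
    rw [← lintegral_lintegral_swap (μ := volume.restrict (Ioo 0 π)) (ν := GP (T n))
      (f := fun (α : ℝ) (c : T n → ℝ × ℝ) => NP (rotc α (kc n c))) hmeas.aemeasurable]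
    simp only [h1]
    rw [lintegral_const, Measure.restrict_apply_univ, Real.volume_Ioo, sub_zero, mul_comm]
  have h3 := hCn n hn
  rw [h2] at h3
  refine le_trans ?_ h3
  have h4 : (1:ℝ≥0∞) ≤ ENNReal.ofReal π := by
    rw [← ENNReal.ofReal_one]
    exact ENNReal.ofReal_le_ofReal (by linarith [Real.pi_gt_three])
  calc ∫⁻ c, NP (kc n c) ∂GP (T n) = 1 * ∫⁻ c, NP (kc n c) ∂GP (T n) := (one_mul _).symm
    _ ≤ _ := by gcongr

end

end Pool.Agent.Helper63K9.KT
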