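import Pool.Agent.Helper63K9.KT.Good

/-! The sharp bound: estimates of the sums. -/

open Real Set MeasureTheory
open scoped ENNReal

namespace Pool.Agent.Helper63K9.KT

noncomputable section

open Pool.Agent.W960.HR
open Pool.Agent.Helper63K9.KS

/-- the first small size -/
def jk (n k : ℕ) : ℕ := (pL n - k) / 2 + 7

lemma jk_ge (n k : ℕ) : 7 ≤ jk n k := by unfold jk; omega

lemma two_pL_le {n : ℕ} (hn : 1 ≤ n) : (2:ℝ) ^ pL n ≤ 2 * n := by
  unfold pL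
  rcases Nat.lt_or_ge 1 n with h | h
  · have h1 : 0 < Nat.clog 2 n := Nat.clog_pos (by norm_num) h
    have h2 := Nat.pow_pred_clog_lt_self (b := 2) (by norm_num) h
    obtain ⟨l, hl⟩ := Nat.exists_eq_succ_of_ne_zero h1.ne'
    rw [hl] at h2 ⊢
    simp only [Nat.succ_eq_add_one, Nat.pred_succ] at h2
    have h3 : (2:ℝ) ^ l < n := by exact_mod_cast h2
    rw [Nat.succ_eq_add_one, pow_succ]
    linarith
  · have : n = 1 := by omega
    subst this
    simp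

lemma sq_le_two_pow (L : ℕ) : (1 + L) ^ 2 ≤ 4 * 2 ^ L := by
  rcases L with _ | _ | _ | L
  · norm_num
  · norm_num
  · norm_num
  · induction L with
    | zero => norm_num
    | succ L ih =>
      have e : 4 * 2 ^ (L + 1 + 1 + 1 + 1) = 2 * (4 * 2 ^ (L + 1 + 1 + 1)) := by ring
      have h : (1 + (L + 1 + 1 + 1 + 1)) ^ 2 ≤ 2 * (1 + (L + 1 + 1 + 1)) ^ 2 := by
        ring_nf
        nlinarith [Nat.zero_le (L ^ 2), Nat.zero_le L]
      rw [e]
      exact h.trans (Nat.mul_le_mul_left 2 ih)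

lemma pL_le_sqrt {n : ℕ} (hn : 1 ≤ n) : 1 + (pL n : ℝ) ≤ 3 * √n := by
  have h1 : (1 + (pL n : ℝ)) ^ 2 ≤ 4 * 2 ^ pL n := by exact_mod_cast sq_le_two_pow (pL n)
  have h2 := two_pL_le hn
  have h3 : (1 + (pL n : ℝ)) ^ 2 ≤ (3 * √n) ^ 2 := by
    rw [mul_pow, Real.sq_sqrt (Nat.cast_nonneg n)]
    have : (0:ℝ) ≤ n := Nat.cast_nonneg n
    linarith
  exact abs_le_of_sq_le_sq' h3 (by positivity) |>.2

/-- twelfth root of one half -/
def bb : ℝ := (1 / 2 : ℝ) ^ (1 / 12 : ℝ)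

lemma bb_pos : 0 < bb := by unfold bb; positivity

lemma bb_pow : bb ^ 12 = 1 / 2 := by
  unfold bb
  rw [← Real.rpow_natCast, ← Real.rpow_mul (by norm_num)]
  norm_num

lemma bb_lt : bb < 1 := by
  by_contra h
  push Not at h
  have := one_le_pow₀ h (n := 12)
  rw [bb_pow] at this
  norm_num at this

lemma inv_sqrt_two_pow (k : ℕ) : 1 / √((2:ℝ) ^ k) = bb ^ (6 * k) := by
  have h1 : √((2:ℝ) ^ k) = (bb ^ (6 * k))⁻¹ := by
    rw [Real.sqrt_eq_iff_mul_self_eq (by positivity) (by have := bb_pos; positivity)]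
    rw [← mul_inv, ← pow_add, show 6 * k + 6 * k = 12 * k by ring, pow_mul, bb_pow]
    rw [one_div, inv_pow, inv_inv]
  rw [h1, one_div, inv_inv]

lemma bb_sum (m N : ℕ) (hm : 1 ≤ m) : ∑ k ∈ Finset.range N, bb ^ (m * k) ≤ 1 / (1 - bb) := by
  have h0 := bb_pos
  have h1 := bb_lt
  have h2 : ∑ k ∈ Finset.range N, bb ^ (m * k) ≤ ∑ k ∈ Finset.range N, bb ^ k :=
    Finset.sum_le_sum fun k _ => pow_le_pow_of_le_one h0.le h1.le (Nat.le_mul_of_pos_left k hm)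
  refine h2.trans ?_
  rw [geom_sum_eq h1.ne]
  rw [← neg_sub (1:ℝ) (bb ^ N), ← neg_sub (1:ℝ) bb, neg_div_neg_eq]
  have h3 : 0 < 1 - bb := by linarith
  gcongr
  have : 0 < bb ^ N := by positivity
  linarith

/-- sizes: `√n ≤ 2 ^ jk * √(2^k) / 64` -/
lemma sqrt_n_le_jk (n k : ℕ) : 64 * √n ≤ 2 ^ jk n k * √((2:ℝ) ^ k) := by
  have h1 := n_le n
  have h2 : √(n:ℝ) ≤ √(2 * (2 ^ ((pL n - k) / 2)) ^ 2 * 2 ^ k) := by
    apply Real.sqrt_le_sqrt
    refine h1.trans ?_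
    have h3 : (2:ℝ) * (2 ^ ((pL n - k) / 2)) ^ 2 * 2 ^ k = 2 ^ (1 + (pL n - k) / 2 * 2 + k) := by
      rw [pow_add, pow_add, pow_mul, pow_one]
    rw [h3]
    refine pow_le_pow_right₀ (by norm_num) ?_
    omega
  have h4 : √(2 * ((2:ℝ) ^ ((pL n - k) / 2)) ^ 2 * 2 ^ k) ≤
      2 * 2 ^ ((pL n - k) / 2) * √((2:ℝ) ^ k) := by
    rw [Real.sqrt_mul (by positivity), Real.sqrt_mul (by norm_num),
      Real.sqrt_sq (by positivity)]
    have h5 : √(2:ℝ) ≤ 2 := by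
      rw [Real.sqrt_le_left (by norm_num)]
      norm_num
    gcongr
  unfold jk
  rw [pow_add]
  have h6 := h2.trans h4
  calc 64 * √(n:ℝ) ≤ 64 * (2 * 2 ^ ((pL n - k) / 2) * √((2:ℝ) ^ k)) := by gcongr
    _ = _ := by ring

/-- sizes: the last size which is not small -/
lemma jk_le (n k : ℕ) (hn : 1 ≤ n) : √n * 2 ^ jk n k ≤ 128 * (2 * n * (1 / √((2:ℝ) ^ k)) + √n) := by
  have hn1 : (1:ℝ) ≤ n := by exact_mod_cast hn
  have hn0 : (0:ℝ) ≤ n := by linarith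
  have h0 : 0 < √((2:ℝ) ^ k) := Real.sqrt_pos.2 (by positivity)
  unfold jk
  rw [pow_add]
  have key : √n * 2 ^ ((pL n - k) / 2) ≤ 2 * n * (1 / √((2:ℝ) ^ k)) + √n := by
    rcases Nat.lt_or_ge (pL n) k with h | h
    · have : (pL n - k) / 2 = 0 := by omega
      rw [this, pow_zero, mul_one]
      have : 0 ≤ 2 * n * (1 / √((2:ℝ) ^ k)) := by positivity
      linarith
    · have h1 : ((2:ℝ) ^ ((pL n - k) / 2)) ^ 2 * 2 ^ k ≤ 2 * n := by
        refine le_trans ?_ (two_pL_le hn)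
        rw [← pow_mul, ← pow_add]
        refine pow_le_pow_right₀ (by norm_num) ?_
        omega
      have h2 : 2 ^ ((pL n - k) / 2) * √((2:ℝ) ^ k) ≤ √(2 * n) := by
        apply Real.le_sqrt_of_sq_le
        rw [mul_pow, Real.sq_sqrt (by positivity)]
        exact h1
      have h3 : √(2 * n) ≤ 2 * √n := by
        rw [Real.sqrt_mul (by norm_num)]
        have h5 : √(2:ℝ) ≤ 2 := by
          rw [Real.sqrt_le_left (by norm_num)]
          norm_num
        gcongr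
      have h4 : √n * 2 ^ ((pL n - k) / 2) ≤ 2 * n * (1 / √((2:ℝ) ^ k)) := by
        rw [mul_one_div, le_div_iff₀ h0]
        calc √n * 2 ^ ((pL n - k) / 2) * √((2:ℝ) ^ k) = √n * (2 ^ ((pL n - k) / 2) * √((2:ℝ) ^ k)) := by
              ring
          _ ≤ √n * (2 * √n) := by
              have := h2.trans h3
              gcongr
          _ = 2 * (√n * √n) := by ring
          _ = 2 * n := by rw [Real.mul_self_sqrt hn0]
      have : 0 ≤ √(n:ℝ) := Real.sqrt_nonneg _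
      linarith
  calc √n * (2 ^ ((pL n - k) / 2) * 2 ^ 7) = 128 * (√n * 2 ^ ((pL n - k) / 2)) := by ring
    _ ≤ _ := by gcongr

/-- the sum over the sizes which are not small -/
lemma sum_med {n : ℕ} (hn : 1 ≤ n) : ∑ k ∈ Finset.range (pK n + 1), √n * 2 ^ jk n k ≤
    (256 / (1 - bb) + 19200) * n := by
  have hn1 : (1:ℝ) ≤ n := by exact_mod_cast hn
  have hn0 : (0:ℝ) ≤ n := by linarith
  have h1 : ∑ k ∈ Finset.range (pK n + 1), √n * 2 ^ jk n k ≤
      ∑ k ∈ Finset.range (pK n + 1), (256 * n * bb ^ (6 * k) + 128 * √n) := by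
    refine Finset.sum_le_sum fun k _ => (jk_le n k hn).trans (le_of_eq ?_)
    rw [inv_sqrt_two_pow]
    ring
  refine h1.trans ?_
  rw [Finset.sum_add_distrib, ← Finset.mul_sum, Finset.sum_const, Finset.card_range, nsmul_eq_mul]
  have h2 := bb_sum 6 (pK n + 1) (by norm_num)
  have h3 := pK_size n
  have h4 := pL_le_sqrt hn
  have h5 : √(n:ℝ) * √n = n := Real.mul_self_sqrt hn0
  have h6 : ((pK n + 1 : ℕ) : ℝ) * (128 * √n) ≤ 19200 * n := by
    have h7 : ((pK n + 1 : ℕ) : ℝ) ≤ 150 * √n := by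
      push_cast
      linarith
    calc ((pK n + 1 : ℕ) : ℝ) * (128 * √n) ≤ (150 * √n) * (128 * √n) := by gcongr
      _ = 19200 * (√n * √n) := by ring
      _ = _ := by rw [h5]
  have h8 : 256 * (n:ℝ) * ∑ k ∈ Finset.range (pK n + 1), bb ^ (6 * k) ≤ 256 * n * (1 / (1 - bb)) := by
    gcongr
  calc _ ≤ 256 * n * (1 / (1 - bb)) + 19200 * n := add_le_add h8 h6
    _ = _ := by ring

lemma sum_tail (m N : ℕ) : ∑ j ∈ Finset.range N, (if j ≤ m then (0:ℝ) else bb ^ (j - m)) ≤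
    1 / (1 - bb) := by
  have h0 := bb_pos
  have h1 := bb_lt
  have h2 : ∑ j ∈ Finset.range N, (if j ≤ m then (0:ℝ) else bb ^ (j - m)) ≤
      ∑ i ∈ Finset.range N, bb ^ (1 * i) := by
    rw [Finset.sum_ite, Finset.sum_const_zero, zero_add]
    have h3 : ∑ j ∈ (Finset.range N).filter (fun j => ¬ j ≤ m), bb ^ (j - m) =
        ∑ i ∈ ((Finset.range N).filter (fun j => ¬ j ≤ m)).image (fun j => j - m), bb ^ i := by
      rw [Finset.sum_image]
      intro x hx y hy hxy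
      simp only [Finset.coe_filter, Finset.mem_range, mem_ofPred_eq] at hx hy
      simp only at hxy
      omega
    rw [h3]
    simp only [one_mul]
    refine Finset.sum_le_sum_of_subset_of_nonneg ?_ fun i _ _ => by positivity
    intro i hi
    rw [Finset.mem_image] at hi
    obtain ⟨j, hj, rfl⟩ := hi
    rw [Finset.mem_filter, Finset.mem_range] at hj
    rw [Finset.mem_range]
    omega
  exact h2.trans (bb_sum 1 N le_rfl)

/-- the term of the sum over the small sizes -/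
lemma term_small {κ : ℝ} (hκ : 0 < κ) {m₀ : ℕ} (hm₀ : κ ≤ 2 ^ m₀) {n k j : ℕ} (hn : 1 ≤ n)
    (hj : jk n k < j) :
    n * tau κ n k j * (√n / (2 ^ j * 2 ^ k) + 1 / √((2:ℝ) ^ k)) ≤
      2 * 2 ^ m₀ * n * (bb ^ (3 * k) * bb ^ (j - jk n k)) := by
  have hn1 : (1:ℝ) ≤ n := by exact_mod_cast hn
  have hn0 : (0:ℝ) ≤ n := by linarith
  have hb0 := bb_pos
  have hb1 := bb_lt
  have h1 := sqrt_n_le_jk n k
  have hs0 : 0 < √((2:ℝ) ^ k) := Real.sqrt_pos.2 (by positivity)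
  have hss : √((2:ℝ) ^ k) * √((2:ℝ) ^ k) = 2 ^ k := Real.mul_self_sqrt (by positivity)
  obtain ⟨i, rfl⟩ := Nat.exists_eq_add_of_lt hj
  have hji : jk n k + i + 1 - jk n k = i + 1 := by omega
  rw [hji]
  have h2 : √n / 2 ^ (jk n k + i + 1) ≤ √((2:ℝ) ^ k) / (64 * 2 ^ (i + 1)) := by
    rw [div_le_div_iff₀ (by positivity) (by positivity)]
    calc √n * (64 * 2 ^ (i + 1)) = (64 * √n) * 2 ^ (i + 1) := by ring
      _ ≤ (2 ^ jk n k * √((2:ℝ) ^ k)) * 2 ^ (i + 1) := by gcongr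
      _ = √((2:ℝ) ^ k) * 2 ^ (jk n k + i + 1) := by
          rw [add_assoc, pow_add _ (jk n k)]; ring
  have h3 : √n / (2 ^ (jk n k + i + 1) * 2 ^ k) ≤ 1 / √((2:ℝ) ^ k) := by
    rw [← div_div, div_le_div_iff₀ (by positivity) hs0]
    have h4 : √((2:ℝ) ^ k) / (64 * 2 ^ (i + 1)) ≤ √((2:ℝ) ^ k) := by
      apply div_le_self hs0.le
      have : (1:ℝ) ≤ 2 ^ (i + 1) := one_le_pow₀ (by norm_num)
      linarith
    calc √n / 2 ^ (jk n k + i + 1) * √((2:ℝ) ^ k) ≤ √((2:ℝ) ^ k) * √((2:ℝ) ^ k) := by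
          have := h2.trans h4
          gcongr
      _ = _ := by rw [hss, one_mul]
  -- the level
  set e : ℝ := 2 ^ m₀ * (bb ^ (i + 1) / bb ^ (3 * k)) with he
  have he0 : 0 < e := by positivity
  have h5 : tau κ n k (jk n k + i + 1) ≤ e := by
    have h6 : κ * (√n * 2 ^ (k + 5) * (2 * (2 ^ k / 2 ^ (jk n k + i + 1)))) ≤ e ^ 12 := by
      have h7 : κ * (√n * 2 ^ (k + 5) * (2 * (2 ^ k / 2 ^ (jk n k + i + 1)))) =
          κ * (64 * (2 ^ k * 2 ^ k) * (√n / 2 ^ (jk n k + i + 1))) := by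
        rw [pow_add _ k]
        ring
      have h8 : √((2:ℝ) ^ k) ≤ 2 ^ k := by
        rw [Real.sqrt_le_left (by positivity)]
        have : (1:ℝ) ≤ 2 ^ k := one_le_pow₀ (by norm_num)
        nlinarith
      have h9 : e ^ 12 = (2 ^ m₀) ^ 12 * ((2 ^ k * 2 ^ k * 2 ^ k) / 2 ^ (i + 1)) := by
        rw [he, mul_pow, div_pow]
        have e1 : (bb ^ (i + 1)) ^ 12 = 1 / 2 ^ (i + 1) := by
          rw [← pow_mul, mul_comm, pow_mul, bb_pow, one_div_pow]
        have e2 : (bb ^ (3 * k)) ^ 12 = 1 / (2 ^ k * 2 ^ k * 2 ^ k) := by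
          rw [← pow_mul, show 3 * k * 12 = 12 * (k + k + k) by ring, pow_mul, bb_pow, one_div_pow,
            pow_add, pow_add]
        rw [e1, e2]
        field_simp
      rw [h7, h9]
      have h10 : (2:ℝ) ^ m₀ ≤ (2 ^ m₀) ^ 12 := by
        have : (1:ℝ) ≤ 2 ^ m₀ := one_le_pow₀ (by norm_num)
        exact le_self_pow₀ this (by norm_num)
      calc κ * (64 * (2 ^ k * 2 ^ k) * (√n / 2 ^ (jk n k + i + 1)))
          ≤ (2 ^ m₀) ^ 12 * (64 * (2 ^ k * 2 ^ k) * (√((2:ℝ) ^ k) / (64 * 2 ^ (i + 1)))) := by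
            have := hm₀.trans h10
            gcongr
        _ = (2 ^ m₀) ^ 12 * ((2 ^ k * 2 ^ k * √((2:ℝ) ^ k)) / 2 ^ (i + 1)) := by
            field_simp
        _ ≤ _ := by gcongr
    unfold tau
    rcases le_total 1 e with h | h
    · exact (min_le_left _ _).trans h
    · refine (min_le_right _ _).trans ?_
      apply Real.sqrt_le_iff.2
      refine ⟨he0.le, h6.trans ?_⟩
      exact pow_le_pow_of_le_one he0.le h (by norm_num)
  have ht0 : 0 < tau κ n k (jk n k + i + 1) := tau_pos hκ hn _ _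
  calc n * tau κ n k (jk n k + i + 1) * (√n / (2 ^ (jk n k + i + 1) * 2 ^ k) + 1 / √((2:ℝ) ^ k))
      ≤ n * e * (1 / √((2:ℝ) ^ k) + 1 / √((2:ℝ) ^ k)) := by
        gcongr
    _ = 2 * 2 ^ m₀ * n * (bb ^ (3 * k) * bb ^ (i + 1)) := by
        rw [inv_sqrt_two_pow, he]
        have e3 : bb ^ (6 * k) = bb ^ (3 * k) * bb ^ (3 * k) := by
          rw [← pow_add]; congr 1; ring
        rw [e3]
        field_simp
        ring

/-- the sum over the small sizes -/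
lemma sum_small {κ : ℝ} (hκ : 0 < κ) {m₀ : ℕ} (hm₀ : κ ≤ 2 ^ m₀) {n : ℕ} (hn : 1 ≤ n) (K J : ℕ) :
    ∑ k ∈ Finset.range (K + 1), ∑ j ∈ Finset.range (J + 1), (if j ≤ jk n k then (0:ℝ) else
      n * tau κ n k j * (√n / (2 ^ j * 2 ^ k) + 1 / √((2:ℝ) ^ k))) ≤
      2 * 2 ^ m₀ * n * (1 / (1 - bb)) ^ 2 := by
  have hb0 := bb_pos
  have hb1 := bb_lt
  have hb2 : 0 < 1 - bb := by linarith
  have h1 : ∀ k, ∑ j ∈ Finset.range (J + 1), (if j ≤ jk n k then (0:ℝ) else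
      n * tau κ n k j * (√n / (2 ^ j * 2 ^ k) + 1 / √((2:ℝ) ^ k))) ≤
      2 * 2 ^ m₀ * n * (1 / (1 - bb)) * bb ^ (3 * k) := by
    intro k
    have h2 : ∑ j ∈ Finset.range (J + 1), (if j ≤ jk n k then (0:ℝ) else
        n * tau κ n k j * (√n / (2 ^ j * 2 ^ k) + 1 / √((2:ℝ) ^ k))) ≤
        ∑ j ∈ Finset.range (J + 1), 2 * 2 ^ m₀ * n * bb ^ (3 * k) *
          (if j ≤ jk n k then (0:ℝ) else bb ^ (j - jk n k)) := by
      refine Finset.sum_le_sum fun j _ => ?_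
      by_cases hj : j ≤ jk n k
      · simp [hj]
      · simp only [hj, if_false]
        exact (term_small hκ hm₀ hn (not_le.1 hj)).trans (le_of_eq (by ring))
    refine h2.trans ?_
    rw [← Finset.mul_sum]
    have h3 := sum_tail (jk n k) (J + 1)
    calc 2 * 2 ^ m₀ * n * bb ^ (3 * k) * ∑ j ∈ Finset.range (J + 1),
          (if j ≤ jk n k then (0:ℝ) else bb ^ (j - jk n k))
        ≤ 2 * 2 ^ m₀ * n * bb ^ (3 * k) * (1 / (1 - bb)) := by gcongr
      _ = _ := by ring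
  refine (Finset.sum_le_sum fun k _ => h1 k).trans ?_
  rw [← Finset.mul_sum]
  have h4 := bb_sum 3 (K + 1) (by norm_num)
  calc 2 * 2 ^ m₀ * n * (1 / (1 - bb)) * ∑ k ∈ Finset.range (K + 1), bb ^ (3 * k)
      ≤ 2 * 2 ^ m₀ * n * (1 / (1 - bb)) * (1 / (1 - bb)) := by gcongr
    _ = _ := by ring

end

end Pool.Agent.Helper63K9.KT
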